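import Mathlib

/-!
Generalised arcs in Hausdorff spaces and the segment calculus of uniquely arcwise connected spaces.
-/

set_option autoImplicit false

namespace Pool.Agent.Work.UAC

open Set Topology Filter

variable {X : Type*} [TopologicalSpace X]

/-- `r` is a linear order on the compact connected set `A` with least element `a` and greatest
element `b` whose closed rays are closed -/
structure ArcOrd (r : X → X → Prop) (A : Set X) (a b : X) : Prop where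
  isCompact : IsCompact A
  isPreconnected : IsPreconnected A
  left_mem : a ∈ A
  right_mem : b ∈ A
  total : ∀ x ∈ A, ∀ y ∈ A, r x y ∨ r y x
  antisymm : ∀ x ∈ A, ∀ y ∈ A, r x y → r y x → x = y
  trans : ∀ x ∈ A, ∀ y ∈ A, ∀ z ∈ A, r x y → r y z → r x z
  left_le : ∀ x ∈ A, r a x
  le_right : ∀ x ∈ A, r x b
  closed_le : ∀ x ∈ A, IsClosed {y | y ∈ A ∧ r y x}
  closed_ge : ∀ x ∈ A, IsClosed {y | y ∈ A ∧ r x y}

/-- `A` is a (generalised) arc with the end points `a` and `b` -/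
def IsArc (A : Set X) (a b : X) : Prop := a ≠ b ∧ ∃ r, ArcOrd r A a b

/-- any two distinct points are the end points of exactly one arc -/
def UniquelyArcwiseConnected (X : Type*) [TopologicalSpace X] : Prop :=
  ∀ a b : X, a ≠ b → ∃! A : Set X, IsArc A a b

namespace ArcOrd

variable {r : X → X → Prop} {A : Set X} {a b : X} (h : ArcOrd r A a b)

include h

theorem refl {x : X} (hx : x ∈ A) : r x x := by
  rcases h.total x hx x hx with h1 | h1 <;> exact h1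

theorem flip : ArcOrd (fun x y => r y x) A b a where
  isCompact := h.isCompact
  isPreconnected := h.isPreconnected
  left_mem := h.right_mem
  right_mem := h.left_mem
  total x hx y hy := h.total y hy x hx
  antisymm x hx y hy h1 h2 := h.antisymm x hx y hy h2 h1
  trans x hx y hy z hz h1 h2 := h.trans z hz y hy x hx h2 h1
  left_le := h.le_right
  le_right := h.left_le
  closed_le := h.closed_ge
  closed_ge := h.closed_le

/-- the left part of an arc -/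
theorem left {x : X} (hx : x ∈ A) : ArcOrd r {y | y ∈ A ∧ r y x} a x where
  isCompact := by
    have : {y | y ∈ A ∧ r y x} = A ∩ {y | y ∈ A ∧ r y x} := by
      ext y; constructor
      · intro hy; exact ⟨hy.1, hy⟩
      · intro hy; exact hy.2
    rw [this]
    exact h.isCompact.inter_right (h.closed_le x hx)
  isPreconnected := by
    rw [isPreconnected_closed_iff]
    intro P Q hP hQ hsub hP1 hQ1
    by_contra hcon
    -- `x` is in one of the two sets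
    have hxm : x ∈ {y | y ∈ A ∧ r y x} := ⟨hx, h.refl hx⟩
    have key : ∀ P Q : Set X, IsClosed P → IsClosed Q → {y | y ∈ A ∧ r y x} ⊆ P ∪ Q →
        ({y | y ∈ A ∧ r y x} ∩ Q).Nonempty → x ∈ P →
        ¬ ({y | y ∈ A ∧ r y x} ∩ (P ∩ Q)).Nonempty → False := by
      intro P Q hP hQ hsub hQ1 hxP hcon
      have h1 := isPreconnected_closed_iff.1 h.isPreconnected (P ∪ {y | y ∈ A ∧ r x y})
        (Q ∩ {y | y ∈ A ∧ r y x}) (hP.union (h.closed_ge x hx)) (hQ.inter (h.closed_le x hx))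
        ?_ ?_ ?_
      · obtain ⟨y, hyA, hy1, hy2⟩ := h1
        rcases hy1 with hy1 | hy1
        · exact hcon ⟨y, hy2.2, hy1, hy2.1⟩
        · have : y = x := h.antisymm y hyA x hx hy2.2.2 hy1.2
          subst this
          exact hcon ⟨y, hy2.2, hxP, hy2.1⟩
      · intro y hy
        rcases h.total y hy x hx with h2 | h2
        · rcases hsub ⟨hy, h2⟩ with h3 | h3
          · exact Or.inl (Or.inl h3)
          · exact Or.inr ⟨h3, hy, h2⟩
        · exact Or.inl (Or.inr ⟨hy, h2⟩)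
      · exact ⟨x, hx, Or.inl hxP⟩
      · obtain ⟨y, hy1, hy2⟩ := hQ1
        exact ⟨y, hy1.1, hy2, hy1⟩
    rcases hsub hxm with hxP | hxQ
    · exact key P Q hP hQ hsub hQ1 hxP hcon
    · exact key Q P hQ hP (by rwa [union_comm]) hP1 hxQ (by rwa [inter_comm Q P])
  left_mem := ⟨h.left_mem, h.left_le x hx⟩
  right_mem := ⟨hx, h.refl hx⟩
  total y hy z hz := h.total y hy.1 z hz.1
  antisymm y hy z hz := h.antisymm y hy.1 z hz.1
  trans y hy z hz u hu := h.trans y hy.1 z hz.1 u hu.1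
  left_le y hy := h.left_le y hy.1
  le_right y hy := hy.2
  closed_le y hy := by
    have : {z | z ∈ {y | y ∈ A ∧ r y x} ∧ r z y} =
        {z | z ∈ A ∧ r z x} ∩ {z | z ∈ A ∧ r z y} := by
      ext z; constructor
      · intro hz; exact ⟨hz.1, hz.1.1, hz.2⟩
      · intro hz; exact ⟨hz.1, hz.2.2⟩
    rw [this]
    exact (h.closed_le x hx).inter (h.closed_le y hy.1)
  closed_ge y hy := by
    have : {z | z ∈ {y | y ∈ A ∧ r y x} ∧ r y z} =
        {z | z ∈ A ∧ r z x} ∩ {z | z ∈ A ∧ r y z} := by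
      ext z; constructor
      · intro hz; exact ⟨hz.1, hz.1.1, hz.2⟩
      · intro hz; exact ⟨hz.1, hz.2.2⟩
    rw [this]
    exact (h.closed_le x hx).inter (h.closed_ge y hy.1)

theorem right {x : X} (hx : x ∈ A) : ArcOrd r {y | y ∈ A ∧ r x y} x b := by
  have := (h.flip.left hx).flip
  exact this

/-- gluing of arcs -/
theorem glue {s : X → X → Prop} {B : Set X} {c : X} (h' : ArcOrd s B b c) (hAB : A ∩ B = {b}) :
    ArcOrd (fun x y => (x ∈ A ∧ y ∈ A ∧ r x y) ∨ (x ∈ B ∧ y ∈ B ∧ s x y) ∨ (x ∈ A ∧ y ∈ B))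
      (A ∪ B) a c := by
  have hb : ∀ x, x ∈ A → x ∈ B → x = b := fun x h1 h2 => by
    have : x ∈ A ∩ B := ⟨h1, h2⟩
    rw [hAB] at this; exact this
  refine
    { isCompact := h.isCompact.union h'.isCompact
      isPreconnected := h.isPreconnected.union b h.right_mem h'.left_mem h'.isPreconnected
      left_mem := Or.inl h.left_mem
      right_mem := Or.inr h'.right_mem
      total := ?_
      antisymm := ?_
      trans := ?_
      left_le := ?_
      le_right := ?_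
      closed_le := ?_
      closed_ge := ?_ }
  · rintro x (hx | hx) y (hy | hy)
    · rcases h.total x hx y hy with h1 | h1
      · exact Or.inl (Or.inl ⟨hx, hy, h1⟩)
      · exact Or.inr (Or.inl ⟨hy, hx, h1⟩)
    · exact Or.inl (Or.inr (Or.inr ⟨hx, hy⟩))
    · exact Or.inr (Or.inr (Or.inr ⟨hy, hx⟩))
    · rcases h'.total x hx y hy with h1 | h1
      · exact Or.inl (Or.inr (Or.inl ⟨hx, hy, h1⟩))
      · exact Or.inr (Or.inr (Or.inl ⟨hy, hx, h1⟩))
  · rintro x - y - (⟨h1, h2, h3⟩ | ⟨h1, h2, h3⟩ | ⟨h1, h2⟩) (⟨h4, h5, h6⟩ | ⟨h4, h5, h6⟩ | ⟨h4, h5⟩)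
    · exact h.antisymm x h1 y h2 h3 h6
    · rw [hb x h1 h5, hb y h2 h4]
    · have hxb := hb x h1 h5
      subst hxb
      exact h.antisymm x h1 y h2 h3 (h.le_right y h2)
    · rw [hb x h5 h1, hb y h4 h2]
    · exact h'.antisymm x h1 y h2 h3 h6
    · have hyb := hb y h4 h2
      subst hyb
      exact h'.antisymm x h1 y h2 h3 (h'.left_le x h1)
    · have hyb := hb y h4 h2
      subst hyb
      exact h.antisymm x h1 y h4 (h.le_right x h1) h6
    · have hxb := hb x h1 h5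
      subst hxb
      exact h'.antisymm x h5 y h2 (h'.left_le y h2) h6
    · rw [hb x h1 h5, hb y h4 h2]
  · rintro x - y - z - (⟨h1, h2, h3⟩ | ⟨h1, h2, h3⟩ | ⟨h1, h2⟩) (⟨h4, h5, h6⟩ | ⟨h4, h5, h6⟩ | ⟨h4, h5⟩)
    · exact Or.inl ⟨h1, h5, h.trans x h1 y h2 z h5 h3 h6⟩
    · exact Or.inr (Or.inr ⟨h1, h5⟩)
    · exact Or.inr (Or.inr ⟨h1, h5⟩)
    · -- `y ∈ A ∩ B`, so `y = b`, `x = b`
      have hyb := hb y h4 h2
      subst hyb
      have hxb : x = y := h'.antisymm x h1 y h2 h3 (h'.left_le x h1)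
      subst hxb
      exact Or.inl ⟨h4, h5, h6⟩
    · exact Or.inr (Or.inl ⟨h1, h5, h'.trans x h1 y h2 z h5 h3 h6⟩)
    · have hyb := hb y h4 h2
      subst hyb
      have hxb : x = y := h'.antisymm x h1 y h2 h3 (h'.left_le x h1)
      subst hxb
      exact Or.inr (Or.inr ⟨h4, h5⟩)
    · have hyb := hb y h4 h2
      subst hyb
      exact Or.inl ⟨h1, h5, h.trans x h1 y h4 z h5 (h.le_right x h1) h6⟩
    · exact Or.inr (Or.inr ⟨h1, h5⟩)
    · exact Or.inr (Or.inr ⟨h1, h5⟩)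
  · rintro x (hx | hx)
    · exact Or.inl ⟨h.left_mem, hx, h.left_le x hx⟩
    · exact Or.inr (Or.inr ⟨h.left_mem, hx⟩)
  · rintro x (hx | hx)
    · exact Or.inr (Or.inr ⟨hx, h'.right_mem⟩)
    · exact Or.inr (Or.inl ⟨hx, h'.right_mem, h'.le_right x hx⟩)
  · -- closed rays to the left
    intro x hx
    by_cases hxB : x ∈ B
    · have : {y | y ∈ A ∪ B ∧ ((y ∈ A ∧ x ∈ A ∧ r y x) ∨ (y ∈ B ∧ x ∈ B ∧ s y x) ∨
          (y ∈ A ∧ x ∈ B))} = {y | y ∈ A ∧ r y b} ∪ {y | y ∈ B ∧ s y x} := by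
        ext y; constructor
        · rintro ⟨-, ⟨h1, -, -⟩ | ⟨h1, -, h3⟩ | ⟨h1, -⟩⟩
          · exact Or.inl ⟨h1, h.le_right y h1⟩
          · exact Or.inr ⟨h1, h3⟩
          · exact Or.inl ⟨h1, h.le_right y h1⟩
        · rintro (⟨h1, -⟩ | ⟨h1, h2⟩)
          · exact ⟨Or.inl h1, Or.inr (Or.inr ⟨h1, hxB⟩)⟩
          · exact ⟨Or.inr h1, Or.inr (Or.inl ⟨h1, hxB, h2⟩)⟩
      rw [this]
      exact (h.closed_le b h.right_mem).union (h'.closed_le x hxB)
    · have hxA : x ∈ A := hx.resolve_right hxB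
      have : {y | y ∈ A ∪ B ∧ ((y ∈ A ∧ x ∈ A ∧ r y x) ∨ (y ∈ B ∧ x ∈ B ∧ s y x) ∨
          (y ∈ A ∧ x ∈ B))} = {y | y ∈ A ∧ r y x} := by
        ext y; constructor
        · rintro ⟨-, ⟨h1, -, h3⟩ | ⟨-, h2, -⟩ | ⟨-, h2⟩⟩
          · exact ⟨h1, h3⟩
          · exact absurd h2 hxB
          · exact absurd h2 hxB
        · rintro ⟨h1, h2⟩
          exact ⟨Or.inl h1, Or.inl ⟨h1, hxA, h2⟩⟩
      rw [this]
      exact h.closed_le x hxA
  · intro x hx
    by_cases hxA : x ∈ A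
    · have : {y | y ∈ A ∪ B ∧ ((x ∈ A ∧ y ∈ A ∧ r x y) ∨ (x ∈ B ∧ y ∈ B ∧ s x y) ∨
          (x ∈ A ∧ y ∈ B))} = {y | y ∈ A ∧ r x y} ∪ {y | y ∈ B ∧ s b y} := by
        ext y; constructor
        · rintro ⟨-, ⟨-, h2, h3⟩ | ⟨-, h2, -⟩ | ⟨-, h2⟩⟩
          · exact Or.inl ⟨h2, h3⟩
          · exact Or.inr ⟨h2, h'.left_le y h2⟩
          · exact Or.inr ⟨h2, h'.left_le y h2⟩
        · rintro (⟨h1, h2⟩ | ⟨h1, -⟩)
          · exact ⟨Or.inl h1, Or.inl ⟨hxA, h1, h2⟩⟩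
          · exact ⟨Or.inr h1, Or.inr (Or.inr ⟨hxA, h1⟩)⟩
      rw [this]
      exact (h.closed_ge x hxA).union (h'.closed_ge b h'.left_mem)
    · have hxB : x ∈ B := hx.resolve_left hxA
      have : {y | y ∈ A ∪ B ∧ ((x ∈ A ∧ y ∈ A ∧ r x y) ∨ (x ∈ B ∧ y ∈ B ∧ s x y) ∨
          (x ∈ A ∧ y ∈ B))} = {y | y ∈ B ∧ s x y} := by
        ext y; constructor
        · rintro ⟨-, ⟨h1, -, -⟩ | ⟨-, h2, h3⟩ | ⟨h1, -⟩⟩
          · exact absurd h1 hxA
          · exact ⟨h2, h3⟩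
          · exact absurd h1 hxA
        · rintro ⟨h1, h2⟩
          exact ⟨Or.inr h1, Or.inr (Or.inl ⟨hxB, h1, h2⟩)⟩
      rw [this]
      exact h'.closed_ge x hxB

/-- the least point of a closed set -/
theorem exists_least {C : Set X} (hC : IsClosed C) (hne : (A ∩ C).Nonempty) :
    ∃ m ∈ A ∩ C, ∀ y ∈ A ∩ C, r m y := by
  obtain ⟨x₀, hx₀⟩ := hne
  have hdir : Directed (· ⊇ ·) fun x : (A ∩ C : Set X) => {y | y ∈ A ∧ r y x} ∩ C := by
    rintro ⟨x, hx⟩ ⟨y, hy⟩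
    rcases h.total x hx.1 y hy.1 with h1 | h1
    · exact ⟨⟨x, hx⟩, fun z hz => hz, fun z hz => ⟨⟨hz.1.1, h.trans z hz.1.1 x hx.1 y hy.1 hz.1.2 h1⟩,
        hz.2⟩⟩
    · exact ⟨⟨y, hy⟩, fun z hz => ⟨⟨hz.1.1, h.trans z hz.1.1 y hy.1 x hx.1 hz.1.2 h1⟩, hz.2⟩,
        fun z hz => hz⟩
  haveI : Nonempty (A ∩ C : Set X) := ⟨⟨x₀, hx₀⟩⟩
  obtain ⟨m, hm⟩ := IsCompact.nonempty_iInter_of_directed_nonempty_isCompact_isClosed
    (fun x : (A ∩ C : Set X) => {y | y ∈ A ∧ r y x} ∩ C) hdir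
    (fun x => ⟨x, ⟨x.2.1, h.refl x.2.1⟩, x.2.2⟩)
    (fun x => (h.left x.2.1).isCompact.inter_right hC)
    (fun x => (h.closed_le x x.2.1).inter hC)
  rw [mem_iInter] at hm
  have h1 := hm ⟨x₀, hx₀⟩
  exact ⟨m, ⟨h1.1.1, h1.2⟩, fun y hy => (hm ⟨y, hy⟩).1.2⟩

end ArcOrd

/-- images of arcs under maps that are continuous and injective on the arc -/
theorem ArcOrd.image {Y : Type*} [TopologicalSpace Y] [T2Space Y] {r : X → X → Prop} {A : Set X}
    {a b : X} (h : ArcOrd r A a b) {f : X → Y} (hf : ContinuousOn f A) (hi : InjOn f A) :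
    ArcOrd (fun x y => ∃ u ∈ A, ∃ v ∈ A, f u = x ∧ f v = y ∧ r u v) (f '' A) (f a) (f b) where
  isCompact := h.isCompact.image_of_continuousOn hf
  isPreconnected := h.isPreconnected.image f hf
  left_mem := ⟨a, h.left_mem, rfl⟩
  right_mem := ⟨b, h.right_mem, rfl⟩
  total := by
    rintro _ ⟨x, hx, rfl⟩ _ ⟨y, hy, rfl⟩
    rcases h.total x hx y hy with h1 | h1
    · exact Or.inl ⟨x, hx, y, hy, rfl, rfl, h1⟩
    · exact Or.inr ⟨y, hy, x, hx, rfl, rfl, h1⟩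
  antisymm := by
    rintro _ ⟨x, hx, rfl⟩ _ ⟨y, hy, rfl⟩ ⟨u, hu, v, hv, h1, h2, h3⟩ ⟨u', hu', v', hv', h4, h5, h6⟩
    rw [hi hu hx h1, hi hv hy h2] at h3
    rw [hi hu' hy h4, hi hv' hx h5] at h6
    rw [h.antisymm x hx y hy h3 h6]
  trans := by
    rintro _ ⟨x, hx, rfl⟩ _ ⟨y, hy, rfl⟩ _ ⟨z, hz, rfl⟩ ⟨u, hu, v, hv, h1, h2, h3⟩
      ⟨u', hu', v', hv', h4, h5, h6⟩
    rw [hi hu hx h1, hi hv hy h2] at h3
    rw [hi hu' hy h4, hi hv' hz h5] at h6
    exact ⟨x, hx, z, hz, rfl, rfl, h.trans x hx y hy z hz h3 h6⟩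
  left_le := by
    rintro _ ⟨x, hx, rfl⟩
    exact ⟨a, h.left_mem, x, hx, rfl, rfl, h.left_le x hx⟩
  le_right := by
    rintro _ ⟨x, hx, rfl⟩
    exact ⟨x, hx, b, h.right_mem, rfl, rfl, h.le_right x hx⟩
  closed_le := by
    rintro _ ⟨x, hx, rfl⟩
    have : {y | y ∈ f '' A ∧ ∃ u ∈ A, ∃ v ∈ A, f u = y ∧ f v = f x ∧ r u v} =
        f '' {y | y ∈ A ∧ r y x} := by
      ext y; constructor
      · rintro ⟨⟨y, hy, rfl⟩, u, hu, v, hv, h1, h2, h3⟩
        rw [hi hu hy h1, hi hv hx h2] at h3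
        exact ⟨y, ⟨hy, h3⟩, rfl⟩
      · rintro ⟨y, ⟨hy, h3⟩, rfl⟩
        exact ⟨⟨y, hy, rfl⟩, y, hy, x, hx, rfl, rfl, h3⟩
    rw [this]
    exact ((h.left hx).isCompact.image_of_continuousOn (hf.mono fun y hy => hy.1)).isClosed
  closed_ge := by
    rintro _ ⟨x, hx, rfl⟩
    have : {y | y ∈ f '' A ∧ ∃ u ∈ A, ∃ v ∈ A, f u = f x ∧ f v = y ∧ r u v} =
        f '' {y | y ∈ A ∧ r x y} := by
      ext y; constructor
      · rintro ⟨⟨y, hy, rfl⟩, u, hu, v, hv, h1, h2, h3⟩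
        rw [hi hu hx h1, hi hv hy h2] at h3
        exact ⟨y, ⟨hy, h3⟩, rfl⟩
      · rintro ⟨y, ⟨hy, h3⟩, rfl⟩
        exact ⟨⟨y, hy, rfl⟩, x, hx, y, hy, rfl, rfl, h3⟩
    rw [this]
    exact ((h.right hx).isCompact.image_of_continuousOn (hf.mono fun y hy => hy.1)).isClosed

theorem IsArc.symm {A : Set X} {a b : X} (h : IsArc A a b) : IsArc A b a := by
  obtain ⟨hab, r, hr⟩ := h
  exact ⟨hab.symm, _, hr.flip⟩

end Pool.Agent.Work.UAC
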