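import Mathlib
import Pool.Agent.Work.MP_d430fe_gt.Arc

/-!
The classical characterisation of arcs: a Hausdorff continuum with exactly two non-separating
points is a compact connected ordered space.
-/

set_option autoImplicit false

namespace Pool.Agent.Work.UAC

open Set Topology Filter

/-- `A` is an arc with the end points `a` and `b`: a continuum whose non-separating points are
exactly the two different points `a` and `b` -/
def Arc {X : Type*} [TopologicalSpace X] (A : Set X) (a b : X) : Prop :=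
  IsCompact A ∧ IsConnected A ∧ a ∈ A ∧ b ∈ A ∧ a ≠ b ∧
    ∀ x ∈ A, (IsPreconnected (A \ {x}) ↔ x = a ∨ x = b)

section Space

variable {C : Type*} [TopologicalSpace C]

/-- a separation of the complement of a point -/
structure Sep (x : C) (U V : Set C) : Prop where
  openL : IsOpen U
  openR : IsOpen V
  disj : ∀ y, y ∈ U → y ∈ V → False
  union : U ∪ V = {x}ᶜ
  neL : U.Nonempty
  neR : V.Nonempty

theorem Sep.symm {x : C} {U V : Set C} (h : Sep x U V) : Sep x V U :=
  ⟨h.openR, h.openL, fun y h1 h2 => h.disj y h2 h1, by rw [union_comm]; exact h.union, h.neR,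
    h.neL⟩

theorem Sep.notMemL {x : C} {U V : Set C} (h : Sep x U V) : x ∉ U := fun hx => by
  have : x ∈ ({x}ᶜ : Set C) := by rw [← h.union]; exact Or.inl hx
  exact this rfl

theorem Sep.complL {x : C} {U V : Set C} (h : Sep x U V) : U ∪ {x} = Vᶜ := by
  ext y; constructor
  · rintro (hy | hy)
    · exact fun hV => h.disj y hy hV
    · rw [mem_singleton_iff] at hy
      rw [hy]; exact h.symm.notMemL
  · intro hy
    by_cases hyx : y = x
    · exact Or.inr hyx
    · have : y ∈ U ∪ V := by rw [h.union]; exact hyx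
      rcases this with h1 | h1
      · exact Or.inl h1
      · exact absurd h1 hy

theorem Sep.conn [PreconnectedSpace C] {x : C} {U V : Set C} (h : Sep x U V) :
    IsPreconnected (U ∪ {x}) := by
  have hcl : IsClosed (U ∪ {x}) := by rw [h.complL]; exact h.openR.isClosed_compl
  have aux : ∀ P Q : Set C, IsClosed P → IsClosed Q → U ∪ {x} ⊆ P ∪ Q → x ∈ P →
      ((U ∪ {x}) ∩ Q).Nonempty → ((U ∪ {x}) ∩ (P ∩ Q)).Nonempty := by
    rintro P Q hP hQ hsub hx ⟨q, hq, hqQ⟩
    obtain ⟨y, -, hy1, hy2, hy3⟩ := isPreconnected_closed_iff.1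
      (PreconnectedSpace.isPreconnected_univ (α := C)) (P ∪ Uᶜ) (Q ∩ (U ∪ {x}))
      (hP.union h.openL.isClosed_compl) (hQ.inter hcl) (by
        intro y _
        by_cases hyU : y ∈ U
        · rcases hsub (Or.inl hyU) with h1 | h1
          · exact Or.inl (Or.inl h1)
          · exact Or.inr ⟨h1, Or.inl hyU⟩
        · exact Or.inl (Or.inr hyU)) ⟨x, trivial, Or.inl hx⟩ ⟨q, trivial, hqQ, hq⟩
    refine ⟨y, hy3, ?_, hy2⟩
    rcases hy1 with h1 | h1
    · exact h1
    · rcases hy3 with h2 | h2
      · exact absurd h2 h1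
      · rw [mem_singleton_iff] at h2; rw [h2]; exact hx
  rw [isPreconnected_closed_iff]
  intro P Q hP hQ hsub hPne hQne
  rcases hsub (Or.inr rfl) with h1 | h1
  · exact aux P Q hP hQ hsub h1 hQne
  · rw [inter_comm P Q]
    exact aux Q P hQ hP (by rwa [union_comm Q P]) h1 hPne

theorem exists_sep [T1Space C] {x : C} (h : ¬ IsPreconnected ({x}ᶜ : Set C)) :
    ∃ U V, Sep x U V := by
  unfold IsPreconnected at h
  push Not at h
  obtain ⟨u, v, hu, hv, hsub, hu1, hv1, huv⟩ := h
  have hx : IsOpen ({x}ᶜ : Set C) := isOpen_compl_singleton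
  refine ⟨{x}ᶜ ∩ u, {x}ᶜ ∩ v, hx.inter hu, hx.inter hv, ?_, ?_, hu1, hv1⟩
  · intro y h1 h2
    have : y ∈ ({x}ᶜ : Set C) ∩ (u ∩ v) := ⟨h1.1, h1.2, h2.2⟩
    rw [huv] at this
    exact this
  · rw [← inter_union_distrib_left]
    exact inter_eq_left.2 hsub

theorem Sep.subset_left {x : C} {U V S : Set C} (h : Sep x U V) (hS : IsPreconnected S)
    (hxS : x ∉ S) (hne : (S ∩ U).Nonempty) : S ⊆ U := by
  apply hS.subset_left_of_subset_union h.openL h.openR _ _ hne
  · rw [Set.disjoint_left]; exact fun y h1 h2 => h.disj y h1 h2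
  · rw [h.union]
    intro y hy hyx
    rw [mem_singleton_iff] at hyx
    rw [hyx] at hy
    exact hxS hy

/-- NON-CUT POINT EXISTENCE -/
theorem Sep.exists_noncut [CompactSpace C] [T2Space C] [PreconnectedSpace C] {x : C}
    {U V : Set C} (h : Sep x U V) : ∃ c ∈ U, IsPreconnected ({c}ᶜ : Set C) := by
  by_contra hcon
  push Not at hcon
  have hsep : ∀ c ∈ U, ∃ Uc Vc, Sep c Uc Vc ∧ x ∈ Vc := by
    intro c hc
    obtain ⟨P, Q, hPQ⟩ := exists_sep (hcon c hc)
    have hxc : x ≠ c := fun h1 => h.notMemL (h1 ▸ hc)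
    have : x ∈ P ∪ Q := by rw [hPQ.union]; exact hxc
    rcases this with h1 | h1
    · exact ⟨Q, P, hPQ.symm, h1⟩
    · exact ⟨P, Q, hPQ, h1⟩
  choose! Uc Vc hc hxV using hsep
  have h1 : ∀ c ∈ U, Uc c ∪ {c} ⊆ U := by
    intro c hcU
    refine h.subset_left (hc c hcU).conn ?_ ⟨c, Or.inr rfl, hcU⟩
    rintro (h2 | h2)
    · exact (hc c hcU).disj x h2 (hxV c hcU)
    · rw [mem_singleton_iff] at h2
      rw [← h2] at hcU
      exact h.notMemL hcU
  have h2 : ∀ c ∈ U, ∀ d ∈ Uc c, Uc d ∪ {d} ⊆ Uc c := by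
    intro c hcU d hd
    have hdU : d ∈ U := h1 c hcU (Or.inl hd)
    have h3 : Vc c ∪ {c} ⊆ Vc d := by
      refine (hc d hdU).symm.subset_left (hc c hcU).symm.conn ?_ ⟨x, Or.inl (hxV c hcU), hxV d hdU⟩
      rintro (h4 | h4)
      · exact (hc c hcU).disj d hd h4
      · rw [mem_singleton_iff] at h4
        rw [h4] at hd
        exact (hc c hcU).notMemL hd
    rw [(hc d hdU).complL]
    intro y hy
    by_contra hyU
    have : y ∈ Vc c ∪ {c} := by rw [(hc c hcU).symm.complL]; exact hyU
    exact hy (h3 this)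
  obtain ⟨K, hK⟩ := zorn_superset {K : Set C | ∃ c ∈ U, K = Uc c ∪ {c}} (by
    intro S hS hch
    rcases S.eq_empty_or_nonempty with hemp | hne
    · obtain ⟨c, hcU⟩ := h.neL
      exact ⟨Uc c ∪ {c}, ⟨c, hcU, rfl⟩, fun s hs => by rw [hemp] at hs; exact absurd hs (fun h => h)⟩
    · have hdir : DirectedOn (· ⊇ ·) S := by
        intro s hs t ht
        rcases hch.total hs ht with h3 | h3
        · exact ⟨s, hs, Subset.rfl, h3⟩
        · exact ⟨t, ht, h3, Subset.rfl⟩
      have hclosed : ∀ s ∈ S, IsClosed s := by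
        intro s hs
        obtain ⟨c, hcU, rfl⟩ := hS hs
        rw [(hc c hcU).complL]; exact (hc c hcU).openR.isClosed_compl
      have hneS : Nonempty S := hne.to_subtype
      obtain ⟨d, hd⟩ := IsCompact.nonempty_sInter_of_directed_nonempty_isCompact_isClosed hdir
        (fun s hs => by
          obtain ⟨c, hcU, rfl⟩ := hS hs
          exact ⟨c, Or.inr rfl⟩)
        (fun s hs => (hclosed s hs).isCompact) hclosed
      have hdU : d ∈ U := by
        obtain ⟨s, hs⟩ := hne
        obtain ⟨c, hcU, rfl⟩ := hS hs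
        exact h1 c hcU (hd _ hs)
      refine ⟨Uc d ∪ {d}, ⟨d, hdU, rfl⟩, fun s hs => ?_⟩
      obtain ⟨c, hcU, rfl⟩ := hS hs
      rcases hd _ hs with h3 | h3
      · exact (h2 c hcU d h3).trans subset_union_left
      · rw [mem_singleton_iff] at h3
        rw [h3])
  obtain ⟨c, hcU, rfl⟩ := hK.prop
  obtain ⟨e, he⟩ := (hc c hcU).neL
  have h3 : Uc c ∪ {c} ⊆ Uc e ∪ {e} :=
    hK.le_of_le ⟨e, h1 c hcU (Or.inl he), rfl⟩ ((h2 c hcU e he).trans subset_union_left)
  exact (hc c hcU).notMemL (h2 c hcU e he (h3 (Or.inr rfl)))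

/-- a Hausdorff continuum with at most two non-separating points is ordered -/
theorem exists_arcOrd_of_cut [CompactSpace C] [T2Space C] [PreconnectedSpace C] {a b : C}
    (hab : a ≠ b) (h : ∀ x, IsPreconnected ({x}ᶜ : Set C) → x = a ∨ x = b) :
    ∃ r, ArcOrd r (univ : Set C) a b := by
  have hsep : ∀ x, ∃ U V : Set C, IsOpen U ∧ IsOpen V ∧ (∀ y, y ∈ U → y ∈ V → False) ∧
      U ∪ V = {x}ᶜ ∧ (x ≠ a → a ∈ U) ∧ (x ≠ b → b ∈ V) ∧ IsPreconnected (U ∪ {x}) ∧
      IsPreconnected (V ∪ {x}) := by
    intro x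
    by_cases hxa : x = a
    · subst hxa
      refine ⟨∅, {x}ᶜ, isOpen_empty, isOpen_compl_singleton, fun y h1 _ => h1, by simp,
        fun h1 => absurd rfl h1, fun h1 => h1.symm, ?_, ?_⟩
      · rw [empty_union]; exact isPreconnected_singleton
      · have : ({x}ᶜ ∪ {x} : Set C) = univ := compl_union_self {x}
        rw [this]; exact PreconnectedSpace.isPreconnected_univ
    by_cases hxb : x = b
    · subst hxb
      refine ⟨{x}ᶜ, ∅, isOpen_compl_singleton, isOpen_empty, fun y _ h1 => h1, by simp,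
        fun h1 => h1.symm, fun h1 => absurd rfl h1, ?_, ?_⟩
      · have : ({x}ᶜ ∪ {x} : Set C) = univ := compl_union_self {x}
        rw [this]; exact PreconnectedSpace.isPreconnected_univ
      · rw [empty_union]; exact isPreconnected_singleton
    have hx : ¬ IsPreconnected ({x}ᶜ : Set C) := fun h1 => by
      rcases h x h1 with h2 | h2
      · exact hxa h2
      · exact hxb h2
    obtain ⟨U, V, hUV⟩ := exists_sep hx
    obtain ⟨c, hcU, hc⟩ := hUV.exists_noncut
    obtain ⟨d, hdV, hd⟩ := hUV.symm.exists_noncut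
    rcases h c hc with rfl | rfl
    · rcases h d hd with rfl | rfl
      · exact absurd hdV (fun h1 => hUV.disj _ hcU h1)
      · exact ⟨U, V, hUV.openL, hUV.openR, hUV.disj, hUV.union, fun _ => hcU, fun _ => hdV,
          hUV.conn, hUV.symm.conn⟩
    · rcases h d hd with rfl | rfl
      · exact ⟨V, U, hUV.openR, hUV.openL, hUV.symm.disj, hUV.symm.union, fun _ => hdV,
          fun _ => hcU, hUV.symm.conn, hUV.conn⟩
      · exact absurd hdV (fun h1 => hUV.disj _ hcU h1)
  choose U V hU hV hd hun ha hb hcU hcV using hsep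
  have hxU : ∀ x, x ∉ U x := fun x hx => by
    have : x ∈ ({x}ᶜ : Set C) := by rw [← hun x]; exact Or.inl hx
    exact this rfl
  have hxV : ∀ x, x ∉ V x := fun x hx => by
    have : x ∈ ({x}ᶜ : Set C) := by rw [← hun x]; exact Or.inr hx
    exact this rfl
  have hcases : ∀ x y, y ≠ x → y ∈ U x ∨ y ∈ V x := by
    intro x y hne
    have : y ∈ U x ∪ V x := by rw [hun x]; exact hne
    exact this
  -- the two monotonicity facts
  have key : ∀ x y, x ∈ U y → V y ∪ {y} ⊆ V x := by
    intro x y hx
    have hxb : x ≠ b := by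
      rintro rfl
      by_cases hy : y = x
      · rw [hy] at hx; exact hxU x hx
      · exact hd y x hx (hb y hy)
    have hbmem : b ∈ V y ∪ {y} := by
      by_cases hy : y = b
      · exact Or.inr hy.symm
      · exact Or.inl (hb y hy)
    refine (hcV y).subset_right_of_subset_union (hU x) (hV x) ?_ ?_ ⟨b, hbmem, hb x hxb⟩
    · rw [Set.disjoint_left]; exact fun z h1 h2 => hd x z h1 h2
    · rw [hun x]
      intro z hz hzx
      rw [mem_singleton_iff] at hzx
      subst hzx
      rcases hz with h1 | h1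
      · exact hd y z hx h1
      · rw [mem_singleton_iff] at h1
        rw [h1] at hx
        exact hxU y hx
  have key' : ∀ x y, x ∈ V y → U y ∪ {y} ⊆ U x := by
    intro x y hx
    have hxa : x ≠ a := by
      rintro rfl
      by_cases hy : y = x
      · rw [hy] at hx; exact hxV x hx
      · exact hd y x (ha y hy) hx
    have hamem : a ∈ U y ∪ {y} := by
      by_cases hy : y = a
      · exact Or.inr hy.symm
      · exact Or.inl (ha y hy)
    refine (hcU y).subset_left_of_subset_union (hU x) (hV x) ?_ ?_ ⟨a, hamem, ha x hxa⟩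
    · rw [Set.disjoint_left]; exact fun z h1 h2 => hd x z h1 h2
    · rw [hun x]
      intro z hz hzx
      rw [mem_singleton_iff] at hzx
      subst hzx
      rcases hz with h1 | h1
      · exact hd y z h1 hx
      · rw [mem_singleton_iff] at h1
        rw [h1] at hx
        exact hxV y hx
  have hswap : ∀ x y, x ∈ U y ↔ y ∈ V x :=
    fun x y => ⟨fun h1 => key x y h1 (Or.inr rfl), fun h1 => key' y x h1 (Or.inr rfl)⟩
  refine ⟨fun x y => x ∈ U y ∨ x = y,
    { isCompact := isCompact_univ
      isPreconnected := PreconnectedSpace.isPreconnected_univ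
      left_mem := mem_univ _
      right_mem := mem_univ _
      total := ?_
      antisymm := ?_
      trans := ?_
      left_le := ?_
      le_right := ?_
      closed_le := ?_
      closed_ge := ?_ }⟩
  · intro x _ y _
    by_cases hxy : x = y
    · exact Or.inl (Or.inr hxy)
    · rcases hcases y x hxy with h1 | h1
      · exact Or.inl (Or.inl h1)
      · exact Or.inr (Or.inl ((hswap y x).2 h1))
  · rintro x - y - (h1 | h1) (h2 | h2)
    · exact absurd ((hswap x y).1 h1) (fun h3 => hd x y h2 h3)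
    · exact h2.symm
    · exact h1
    · exact h1
  · rintro x - y - z - (h1 | rfl) (h2 | rfl)
    · left
      rw [hswap]
      exact key x y h1 (Or.inl ((hswap y z).1 h2))
    · exact Or.inl h1
    · exact Or.inl h2
    · exact Or.inr rfl
  · intro x _
    by_cases hx : x = a
    · exact Or.inr hx.symm
    · exact Or.inl (ha x hx)
  · intro x _
    by_cases hx : x = b
    · exact Or.inr hx
    · exact Or.inl ((hswap x b).2 (hb x hx))
  · intro x _
    have : {y | y ∈ univ ∧ (y ∈ U x ∨ y = x)} = (V x)ᶜ := by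
      ext y; constructor
      · rintro ⟨-, h1 | rfl⟩
        · exact fun h2 => hd x y h1 h2
        · exact hxV y
      · intro hy
        refine ⟨mem_univ _, ?_⟩
        by_cases hyx : y = x
        · exact Or.inr hyx
        · rcases hcases x y hyx with h1 | h1
          · exact Or.inl h1
          · exact absurd h1 hy
    rw [this]; exact (hV x).isClosed_compl
  · intro x _
    have : {y | y ∈ univ ∧ (x ∈ U y ∨ x = y)} = (U x)ᶜ := by
      ext y; constructor
      · rintro ⟨-, h1 | rfl⟩
        · exact fun h2 => hd x y h2 ((hswap x y).1 h1)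
        · exact hxU x
      · intro hy
        refine ⟨mem_univ _, ?_⟩
        by_cases hyx : y = x
        · exact Or.inr hyx.symm
        · rcases hcases x y hyx with h1 | h1
          · exact absurd h1 hy
          · exact Or.inl ((hswap x y).2 h1)
    rw [this]; exact (hU x).isClosed_compl

end Space

variable {X : Type*} [TopologicalSpace X]

theorem ArcOrd.preconnected_diff_left {r : X → X → Prop} {A : Set X} {a b : X}
    (h : ArcOrd r A a b) (hab : a ≠ b) : IsPreconnected (A \ {a}) := by
  apply isPreconnected_of_forall b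
  rintro y ⟨hy, hya⟩
  refine ⟨{z | z ∈ A ∧ r y z}, ?_, ⟨h.right_mem, h.le_right y hy⟩, ⟨hy, h.refl hy⟩,
    (h.right hy).isPreconnected⟩
  rintro z ⟨hz, hyz⟩
  refine ⟨hz, fun hza => ?_⟩
  rw [mem_singleton_iff] at hza
  subst hza
  exact hya (h.antisymm y hy z h.left_mem hyz (h.left_le y hy))

/-- THE CLASSICAL CHARACTERISATION OF ARCS -/
theorem arc_iff [T2Space X] {A : Set X} {a b : X} : Arc A a b ↔ IsArc A a b := by
  constructor
  · rintro ⟨hc, hconn, ha, hb, hab, h⟩
    refine ⟨hab, ?_⟩
    haveI : CompactSpace A := isCompact_iff_compactSpace.1 hc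
    haveI : PreconnectedSpace A := isPreconnected_iff_preconnectedSpace.1 hconn.isPreconnected
    obtain ⟨r, hr⟩ := exists_arcOrd_of_cut (C := A) (a := ⟨a, ha⟩) (b := ⟨b, hb⟩)
      (fun h1 => hab (congrArg Subtype.val h1)) (by
        rintro ⟨x, hx⟩ hpre
        have h1 := hpre.image (Subtype.val : A → X) continuous_subtype_val.continuousOn
        have h2 : (Subtype.val : A → X) '' ({⟨x, hx⟩}ᶜ : Set A) = A \ {x} := by
          ext y; constructor
          · rintro ⟨⟨z, hz⟩, hz', rfl⟩
            exact ⟨hz, fun h3 => hz' (Subtype.ext h3)⟩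
          · rintro ⟨hy, hyx⟩
            exact ⟨⟨y, hy⟩, fun h3 => hyx (congrArg Subtype.val h3), rfl⟩
        rw [h2] at h1
        rcases (h x hx).1 h1 with h3 | h3
        · exact Or.inl (Subtype.ext h3)
        · exact Or.inr (Subtype.ext h3))
    have := hr.image (f := (Subtype.val : A → X)) continuous_subtype_val.continuousOn
      Subtype.val_injective.injOn
    rw [image_univ, Subtype.range_coe] at this
    exact ⟨_, this⟩
  · rintro ⟨hab, r, h⟩
    refine ⟨h.isCompact, ⟨⟨a, h.left_mem⟩, h.isPreconnected⟩, h.left_mem, h.right_mem, hab, ?_⟩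
    intro x hx
    constructor
    · intro hpre
      by_contra hcon
      push Not at hcon
      obtain ⟨y, ⟨hyA, hyx⟩, hy1, hy2⟩ := isPreconnected_closed_iff.1 hpre
        {y | y ∈ A ∧ r y x} {y | y ∈ A ∧ r x y} (h.closed_le x hx) (h.closed_ge x hx) (by
          rintro y ⟨hy, -⟩
          rcases h.total y hy x hx with h1 | h1
          · exact Or.inl ⟨hy, h1⟩
          · exact Or.inr ⟨hy, h1⟩)
        ⟨a, ⟨h.left_mem, fun h1 => hcon.1 h1.symm⟩, h.left_mem, h.left_le x hx⟩
        ⟨b, ⟨h.right_mem, fun h1 => hcon.2 h1.symm⟩, h.right_mem, h.le_right x hx⟩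
      exact hyx (h.antisymm y hyA x hx hy1.2 hy2.2)
    · rintro (rfl | rfl)
      · exact h.preconnected_diff_left hab
      · exact h.flip.preconnected_diff_left hab.symm

end Pool.Agent.Work.UAC
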