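import Mathlib

/-!
Local ideals of subsets of a topological space: countably complete ideals, invariant under
homeomorphisms, with the conclusion of the Banach category theorem.  Examples: the meagre sets,
and the sets covered by a family of nowhere dense sets with a given infinite index set.
-/

set_option autoImplicit false

namespace Pool.Agent.Work.UAC

open Set Topology Filter

variable {X : Type*} [TopologicalSpace X]

/-- countably complete invariant ideals with the conclusion of the Banach category theorem -/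
structure LocalIdeal (I : Set X → Prop) : Prop where
  mono : ∀ S T : Set X, S ⊆ T → I T → I S
  iUnion : ∀ f : ℕ → Set X, (∀ n, I (f n)) → I (⋃ n, f n)
  inv : ∀ (h : X ≃ₜ X) (S : Set X), I S → I (h '' S)
  loc : ∀ S : Set X, Dense (⋃₀ {U | IsOpen U ∧ I (U ∩ S)}) → I S

/-- the largest open set in which the complement of `S` is small -/
def resid (I : Set X → Prop) (S : Set X) : Set X := ⋃₀ {U | IsOpen U ∧ I (U \ S)}

theorem isOpen_resid (I : Set X → Prop) (S : Set X) : IsOpen (resid I S) :=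
  isOpen_sUnion fun _ h => h.1

section

variable {I : Set X → Prop} (hI : LocalIdeal I)

include hI

theorem LocalIdeal.union {S T : Set X} (hS : I S) (hT : I T) : I (S ∪ T) := by
  have h := hI.iUnion (fun n => if n = 0 then S else T) (fun n => by
    by_cases h : n = 0
    · simp only [h, if_true]; exact hS
    · simp only [h, if_false]; exact hT)
  refine hI.mono _ _ ?_ h
  rintro x (hx | hx)
  · exact mem_iUnion.2 ⟨0, by simpa using hx⟩
  · exact mem_iUnion.2 ⟨1, by simpa using hx⟩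

theorem resid_mono {S T : Set X} (h : S ⊆ T) : resid I S ⊆ resid I T := by
  apply sUnion_subset_sUnion
  rintro U ⟨h1, h2⟩
  exact ⟨h1, hI.mono _ _ (sdiff_subset_sdiff_right h) h2⟩

theorem resid_image_sub (h : X ≃ₜ X) (S : Set X) : h '' resid I S ⊆ resid I (h '' S) := by
  rintro _ ⟨x, ⟨U, ⟨hU, hUS⟩, hx⟩, rfl⟩
  refine ⟨h '' U, ⟨h.isOpenMap U hU, ?_⟩, mem_image_of_mem h hx⟩
  rw [← image_sdiff h.injective]
  exact hI.inv h _ hUS

theorem resid_image (h : X ≃ₜ X) (S : Set X) : resid I (h '' S) = h '' resid I S := by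
  apply Subset.antisymm _ (resid_image_sub hI h S)
  have h1 := resid_image_sub hI h.symm (h '' S)
  have h2 : h.symm '' (h '' S) = S := by rw [image_image]; simp
  rw [h2] at h1
  intro x hx
  exact ⟨h.symm x, h1 (mem_image_of_mem _ hx), h.apply_symm_apply x⟩

theorem small_of_dense_resid {S : Set X} (hd : Dense (resid I Sᶜ)) : I S := by
  apply hI.loc
  have : {U : Set X | IsOpen U ∧ I (U ∩ S)} = {U | IsOpen U ∧ I (U \ Sᶜ)} := by
    ext U
    rw [mem_ofPred_eq, mem_ofPred_eq, sdiff_compl]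
  rw [this]
  exact hd

/-- disjoint sets are residual in disjoint sets -/
theorem disjoint_resid (hopen : ∀ U : Set X, IsOpen U → U.Nonempty → ¬ I U) {S T : Set X}
    (h : Disjoint S T) : Disjoint (resid I S) (resid I T) := by
  rw [Set.disjoint_left]
  rintro x ⟨U, ⟨hU, hUS⟩, hxU⟩ ⟨V, ⟨hV, hVT⟩, hxV⟩
  have h1 : I (U ∩ V) := by
    refine hI.mono _ _ ?_ (hI.union hUS hVT)
    rintro y ⟨hyU, hyV⟩
    by_cases hy : y ∈ S
    · exact Or.inr ⟨hyV, fun h' => Set.disjoint_left.1 h hy h'⟩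
    · exact Or.inl ⟨hyU, hy⟩
  exact hopen _ (hU.inter hV) ⟨x, hxU, hxV⟩ h1

/-- in a homogeneous space no nonempty open set is small -/
theorem not_small_open (hH : ∀ x y : X, ∃ h : X ≃ₜ X, h x = y) (hI' : ¬ I univ) (U : Set X)
    (hU : IsOpen U) (hne : U.Nonempty) : ¬ I U := by
  intro h
  apply hI'
  apply hI.loc
  obtain ⟨u, hu⟩ := hne
  have : ⋃₀ {V : Set X | IsOpen V ∧ I (V ∩ univ)} = univ := by
    refine eq_univ_of_forall fun x => ?_
    obtain ⟨f, hf⟩ := hH u x
    refine ⟨f '' U, ⟨f.isOpenMap U hU, ?_⟩, ⟨u, hu, hf⟩⟩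
    rw [inter_univ]
    exact hI.inv f U h
  rw [this]
  exact dense_univ

end

/-- a maximal disjoint family of open sets with small intersection with `S` -/
theorem exists_disjoint_family {I : Set X → Prop} (hm : ∀ S T : Set X, S ⊆ T → I T → I S)
    {S : Set X} (hd : Dense (⋃₀ {U | IsOpen U ∧ I (U ∩ S)})) :
    ∃ V : Set (Set X), (∀ U ∈ V, IsOpen U ∧ I (U ∩ S)) ∧ V.PairwiseDisjoint id ∧
      Dense (⋃₀ V) := by
  obtain ⟨V, hV⟩ : ∃ V, Maximal (fun V : Set (Set X) => (∀ U ∈ V, IsOpen U ∧ I (U ∩ S)) ∧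
      V.PairwiseDisjoint id) V := by
    obtain ⟨V, -, hV⟩ := zorn_subset_nonempty
      {V : Set (Set X) | (∀ U ∈ V, IsOpen U ∧ I (U ∩ S)) ∧ V.PairwiseDisjoint id}
      (by
        intro c hc hch hne
        refine ⟨⋃₀ c, ⟨?_, ?_⟩, fun s hs => subset_sUnion_of_mem hs⟩
        · rintro U ⟨s, hs, hU⟩
          exact (hc hs).1 U hU
        · exact (pairwiseDisjoint_sUnion hch.directedOn).2 fun s hs => (hc hs).2)
      ∅ ⟨by simp, by simp⟩
    exact ⟨V, hV⟩
  refine ⟨V, hV.prop.1, hV.prop.2, ?_⟩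
  rw [dense_iff_inter_open]
  intro O hO hOne
  obtain ⟨x, hxO, U, ⟨hU, hUS⟩, hxU⟩ := hd.inter_open_nonempty O hO hOne
  by_contra hcon
  rw [not_nonempty_iff_eq_empty] at hcon
  have hdis : ∀ W ∈ V, Disjoint (O ∩ U) W := by
    intro W hW
    rw [Set.disjoint_left]
    rintro y ⟨hy, -⟩ hyW
    have : y ∈ O ∩ ⋃₀ V := ⟨hy, W, hW, hyW⟩
    rw [hcon] at this
    exact this
  have h1 : insert (O ∩ U) V ⊆ V := hV.2 ⟨by
      rintro W (rfl | hW)
      · exact ⟨hO.inter hU, hm _ _ (inter_subset_inter_left _ inter_subset_right) hUS⟩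
      · exact hV.prop.1 W hW, by
      refine hV.prop.2.insert ?_
      intro W hW _
      exact hdis W hW⟩ (subset_insert _ _)
  have h2 := hdis _ (h1 (mem_insert _ _))
  have h3 : x ∈ (∅ : Set X) := by
    rw [← disjoint_self.1 h2 |> fun h => (h : O ∩ U = ∅)]
    exact ⟨hxO, hxU⟩
  exact h3

/-- sets covered by a family of nowhere dense sets with the index set `ι` -/
def Cov (ι : Type*) (S : Set X) : Prop :=
  ∃ f : ι → Set X, (∀ i, IsNowhereDense (f i)) ∧ S ⊆ ⋃ i, f i

theorem Cov.mono {ι : Type*} {S T : Set X} (h : S ⊆ T) (hT : Cov ι T) : Cov ι S := by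
  obtain ⟨f, h1, h2⟩ := hT
  exact ⟨f, h1, h.trans h2⟩

theorem isNowhereDense_image (h : X ≃ₜ X) {S : Set X} (hS : IsNowhereDense S) :
    IsNowhereDense (h '' S) := by
  rw [IsNowhereDense, ← h.image_closure, ← h.image_interior, hS, image_empty]

/-- sets disjoint from a dense open set are nowhere dense -/
theorem isNowhereDense_of_dense {S D : Set X} (hD : IsOpen D) (hd : Dense D)
    (h : Disjoint D S) : IsNowhereDense S := by
  have h1 : closure S ⊆ Dᶜ := closure_minimal (h.subset_compl_left) hD.isClosed_compl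
  have h2 : interior (Dᶜ) = ∅ := by rw [interior_compl, hd.closure_eq, compl_univ]
  exact subset_empty_iff.1 (h2 ▸ interior_mono h1)

/-- BANACH CATEGORY THEOREM for families with an infinite index set -/
theorem localIdeal_cov (ι : Type*) [Infinite ι] : LocalIdeal (Cov ι (X := X)) where
  mono _ _ h hT := hT.mono h
  iUnion f hf := by
    choose g hg1 hg2 using hf
    obtain ⟨e⟩ : Nonempty (ι ≃ ℕ × ι) := by
      rw [← Cardinal.lift_mk_eq'.trans (Iff.rfl)]
      simp
    refine ⟨fun i => g (e i).1 (e i).2, fun i => hg1 _ _, ?_⟩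
    rintro x hx
    obtain ⟨n, hn⟩ := mem_iUnion.1 hx
    obtain ⟨i, hi⟩ := mem_iUnion.1 (hg2 n hn)
    refine mem_iUnion.2 ⟨e.symm (n, i), ?_⟩
    simpa using hi
  inv h S hS := by
    obtain ⟨f, h1, h2⟩ := hS
    refine ⟨fun i => h '' f i, fun i => isNowhereDense_image h (h1 i), ?_⟩
    rw [← image_iUnion]
    exact image_mono h2
  loc S hd := by
    classical
    obtain ⟨V, hV1, hV2, hV3⟩ := exists_disjoint_family (fun _ _ h hT => Cov.mono h hT) hd
    have hf : ∀ U ∈ V, ∃ f : ι → Set X, (∀ i, IsNowhereDense (f i)) ∧ U ∩ S ⊆ ⋃ i, f i :=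
      fun U hU => (hV1 U hU).2
    choose! f hf1 hf2 using hf
    obtain ⟨e⟩ : Nonempty (ι ≃ Option ι) := by
      rw [← Cardinal.lift_mk_eq'.trans (Iff.rfl)]
      simp
    have hN : ∀ i, IsNowhereDense (⋃ U ∈ V, U ∩ f U i) := by
      intro i
      refine isNowhereDense_of_dense (D := ⋃ U ∈ V, U \ closure (f U i)) ?_ ?_ ?_
      · exact isOpen_biUnion fun U hU => (hV1 U hU).1.sdiff isClosed_closure
      · rw [dense_iff_inter_open]
        intro O hO hOne
        obtain ⟨x, hxO, U, hU, hxU⟩ := hV3.inter_open_nonempty O hO hOne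
        have h1 : Dense (closure (f U i))ᶜ := by
          rw [← interior_eq_empty_iff_dense_compl]
          exact hf1 U hU i
        obtain ⟨y, hy1, hy2⟩ := h1.inter_open_nonempty (O ∩ U) (hO.inter (hV1 U hU).1)
          ⟨x, hxO, hxU⟩
        exact ⟨y, hy1.1, mem_iUnion₂.2 ⟨U, hU, hy1.2, hy2⟩⟩
      · rw [Set.disjoint_left]
        intro y hy hy'
        obtain ⟨U, hU, hyU, hyf⟩ := mem_iUnion₂.1 hy
        obtain ⟨U', hU', hyU', hyf'⟩ := mem_iUnion₂.1 hy'
        have : U' = U := by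
          by_contra hne
          exact Set.disjoint_left.1 (hV2 hU' hU hne) hyU' hyU
        rw [this] at hyf'
        exact hyf (subset_closure hyf')
    let F : Option ι → Set X := fun o => o.elim (⋃₀ V)ᶜ fun j => ⋃ U ∈ V, U ∩ f U j
    have hF : ∀ o, IsNowhereDense (F o) := by
      rintro (_ | j)
      · exact isNowhereDense_of_dense (isOpen_sUnion fun U hU => (hV1 U hU).1) hV3
          (show Disjoint (⋃₀ V) (⋃₀ V)ᶜ from disjoint_compl_right)
      · exact hN j
    refine ⟨fun i => F (e i), fun i => hF _, ?_⟩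
    intro x hx
    by_cases hxV : x ∈ ⋃₀ V
    · obtain ⟨U, hU, hxU⟩ := hxV
      obtain ⟨j, hj⟩ := mem_iUnion.1 (hf2 U hU ⟨hxU, hx⟩)
      refine mem_iUnion.2 ⟨e.symm (some j), ?_⟩
      rw [e.apply_symm_apply]
      exact mem_iUnion₂.2 ⟨U, hU, hxU, hj⟩
    · refine mem_iUnion.2 ⟨e.symm none, ?_⟩
      rw [e.apply_symm_apply]
      exact hxV

theorem isMeagre_of_cov {S : Set X} (h : Cov ℕ S) : IsMeagre S := by
  obtain ⟨f, h1, h2⟩ := h
  exact (isMeagre_iUnion fun n => (h1 n).isMeagre).mono h2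

theorem cov_of_isMeagre {S : Set X} (h : IsMeagre S) : Cov ℕ S := by
  rw [IsMeagre, mem_residual_iff] at h
  obtain ⟨A, hA1, hA2, hA3, hA4⟩ := h
  obtain ⟨f, hf⟩ := (hA3.insert univ).exists_eq_range (insert_nonempty _ _)
  have hf' : ∀ n, f n ∈ insert univ A := fun n => by rw [hf]; exact mem_range_self n
  refine ⟨fun n => (f n)ᶜ, ?_, ?_⟩
  · intro n
    refine isNowhereDense_of_dense (D := f n) ?_ ?_ disjoint_compl_right
    · rcases hf' n with h | h
      · rw [h]; exact isOpen_univ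
      · exact hA1 _ h
    · rcases hf' n with h | h
      · rw [h]; exact dense_univ
      · exact hA2 _ h
  · intro x hx
    by_contra hcon
    rw [← compl_iInter, mem_compl_iff, not_not, mem_iInter] at hcon
    refine hA4 ?_ hx
    intro a ha
    have : a ∈ range f := by rw [← hf]; exact mem_insert_of_mem _ ha
    obtain ⟨n, rfl⟩ := this
    exact hcon n

theorem cov_nat_iff {S : Set X} : Cov ℕ S ↔ IsMeagre S := ⟨isMeagre_of_cov, cov_of_isMeagre⟩

end Pool.Agent.Work.UAC
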