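import Mathlib
import Pool.Agent.Work.MP_d430fe_gt.BanachCat

/-!
Category along the closures of countable sets: closed unbounded families of countable sets, and the
ideals of the sets whose traces on the closures of these countable sets are meagre.
-/

set_option autoImplicit false

namespace Pool.Agent.Work.UAC

open Set Topology Filter

section Club

variable {X : Type*}

/-- `D` is closed under the function `F` of finitely many variables -/
def ClosedUnder (F : Finset X → Set X) (D : Set X) : Prop :=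
  ∀ s : Finset X, (s : Set X) ⊆ D → F s ⊆ D

/-- families which contain all countable sets closed under some function -/
def Club (C : Set (Set X)) : Prop :=
  ∃ F : Finset X → Set X, (∀ s, (F s).Countable) ∧
    ∀ D : Set X, D.Countable → ClosedUnder F D → D ∈ C

theorem Club.mono {C C' : Set (Set X)} (h : Club C) (hs : C ⊆ C') : Club C' := by
  obtain ⟨F, h1, h2⟩ := h
  exact ⟨F, h1, fun D hD hc => hs (h2 D hD hc)⟩

theorem Club.iInter {C : ℕ → Set (Set X)} (h : ∀ n, Club (C n)) : Club (⋂ n, C n) := by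
  choose F h1 h2 using h
  refine ⟨fun s => ⋃ n, F n s, fun s => countable_iUnion fun n => h1 n s, ?_⟩
  intro D hD hc
  rw [mem_iInter]
  intro n
  exact h2 n D hD fun s hs => (subset_iUnion (fun n => F n s) n).trans (hc s hs)

theorem Club.inter {C C' : Set (Set X)} (h : Club C) (h' : Club C') : Club (C ∩ C') := by
  obtain ⟨F, h1, h2⟩ := h
  obtain ⟨F', h1', h2'⟩ := h'
  refine ⟨fun s => F s ∪ F' s, fun s => (h1 s).union (h1' s), ?_⟩
  intro D hD hc
  exact ⟨h2 D hD fun s hs => subset_union_left.trans (hc s hs),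
    h2' D hD fun s hs => subset_union_right.trans (hc s hs)⟩

theorem Club.diag {C : X → Set (Set X)} (h : ∀ x, Club (C x)) :
    Club {D | ∀ x ∈ D, D ∈ C x} := by
  classical
  choose F h1 h2 using h
  refine ⟨fun s => ⋃ x ∈ s, ⋃ t ∈ s.powerset, F x t, ?_, ?_⟩
  · intro s
    exact s.countable_toSet.biUnion fun x _ => s.powerset.countable_toSet.biUnion fun t _ => h1 x t
  · intro D hD hc x hx
    refine h2 x D hD fun t ht => ?_
    have h3 := hc (insert x t) (by
      rw [Finset.coe_insert]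
      exact insert_subset hx ht)
    refine Subset.trans ?_ h3
    intro y hy
    refine mem_iUnion₂.2 ⟨x, Finset.mem_insert_self _ _, mem_iUnion₂.2 ⟨t, ?_, hy⟩⟩
    exact Finset.mem_powerset.2 (Finset.subset_insert _ _)

theorem club_superset {E : Set X} (hE : E.Countable) : Club {D | E ⊆ D} :=
  ⟨fun _ => E, fun _ => hE, fun D _ hc => hc ∅ (by simp)⟩

/-- closure under a function of one variable -/
theorem club_unary {F : X → Set X} (hF : ∀ x, (F x).Countable) : Club {D | ∀ x ∈ D, F x ⊆ D} :=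
  Club.diag fun x => club_superset (hF x)

theorem exists_closedUnder {F : Finset X → Set X} (hF : ∀ s, (F s).Countable) {E : Set X}
    (hE : E.Countable) : ∃ D : Set X, D.Countable ∧ E ⊆ D ∧ ClosedUnder F D := by
  classical
  let step : Set X → Set X := fun D => D ∪ ⋃ s ∈ {s : Finset X | (s : Set X) ⊆ D}, F s
  have hstep : ∀ D : Set X, D.Countable → (step D).Countable := by
    intro D hD
    refine hD.union (Set.Countable.biUnion ?_ fun s _ => hF s)
    have h1 : ({t : Set X | t.Finite ∧ t ⊆ D}).Countable := Set.countable_ofPred_finite_subset hD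
    have h2 : InjOn (fun s : Finset X => (s : Set X)) {s : Finset X | (s : Set X) ⊆ D} :=
      Finset.coe_injective.injOn
    refine Set.MapsTo.countable_of_injOn (t := {t : Set X | t.Finite ∧ t ⊆ D}) ?_ h2 h1
    intro s hs
    exact ⟨s.finite_toSet, hs⟩
  let seq : ℕ → Set X := fun n => step^[n] E
  have hsucc : ∀ n, seq (n + 1) = step (seq n) := fun n => Function.iterate_succ_apply' _ _ _
  have hmono : Monotone seq := monotone_nat_of_le_succ fun n => by
    rw [hsucc]; exact subset_union_left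
  refine ⟨⋃ n, seq n, countable_iUnion fun n => ?_, subset_iUnion seq 0, ?_⟩
  · induction n with
    | zero => exact hE
    | succ n ih => rw [hsucc]; exact hstep _ ih
  · intro s hs
    obtain ⟨n, hn⟩ := hmono.directed_le.exists_mem_subset_of_finset_subset_biUnion hs
    refine Subset.trans ?_ (subset_iUnion seq (n + 1))
    rw [hsucc]
    exact subset_union_of_subset_right (subset_biUnion_of_mem (u := fun s => F s) hn) _

/-- families which meet all closed unbounded families in countable sets -/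
def Stat (S : Set (Set X)) : Prop := ∀ C, Club C → ∃ D ∈ S, D.Countable ∧ D ∈ C

theorem stat_univ : Stat (univ : Set (Set X)) := by
  rintro C ⟨F, h1, h2⟩
  obtain ⟨D, hD1, -, hD3⟩ := exists_closedUnder h1 (E := ∅) countable_empty
  exact ⟨D, trivial, hD1, h2 D hD1 hD3⟩

/-- pressing down: a family which is the union of countably many families for each element is
stationary only if one of them is -/
theorem Stat.press {S : Set (Set X)} (hS : Stat S) {T : X → ℕ → Set (Set X)}
    (h : ∀ D ∈ S, ∃ x ∈ D, ∃ n, D ∈ T x n) : ∃ x n, Stat (S ∩ T x n) := by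
  by_contra hcon
  push Not at hcon
  have h1 : ∀ x n, ∃ C, Club C ∧ ∀ D ∈ S ∩ T x n, D.Countable → D ∉ C := by
    intro x n
    have := hcon x n
    rw [Stat] at this
    push Not at this
    exact this
  choose C hC1 hC2 using h1
  obtain ⟨D, hD1, hD2, hD3⟩ := hS _ (Club.diag fun x => Club.iInter (hC1 x))
  obtain ⟨x, hx, n, hn⟩ := h D hD1
  exact hC2 x n D ⟨hD1, hn⟩ hD2 (mem_iInter.1 (hD3 x hx) n)

end Club

section RM

variable {X : Type*} [TopologicalSpace X]

/-- `S ∩ Y` is meagre in `Y` -/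
def RM (Y S : Set X) : Prop :=
  ∃ N : ℕ → Set X, (∀ n, IsClosed (N n)) ∧
    (∀ n, ∀ O : Set X, IsOpen O → (O ∩ Y).Nonempty → ((O ∩ Y) \ N n).Nonempty) ∧
    S ∩ Y ⊆ ⋃ n, N n

theorem RM.mono {Y S T : Set X} (h : S ∩ Y ⊆ T) (hT : RM Y T) : RM Y S := by
  obtain ⟨N, h1, h2, h3⟩ := hT
  exact ⟨N, h1, h2, (subset_inter h inter_subset_right).trans h3⟩

theorem RM.empty (Y : Set X) : RM Y ∅ := by
  refine ⟨fun _ => ∅, fun _ => isClosed_empty, fun _ O _ h => ?_, by simp⟩
  rw [sdiff_empty]; exact h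

theorem RM.iUnion {Y : Set X} {f : ℕ → Set X} (h : ∀ n, RM Y (f n)) : RM Y (⋃ n, f n) := by
  choose N h1 h2 h3 using h
  refine ⟨fun k => N k.unpair.1 k.unpair.2, fun k => h1 _ _, fun k => h2 _ _, ?_⟩
  rintro x ⟨hx, hxY⟩
  obtain ⟨n, hn⟩ := mem_iUnion.1 hx
  obtain ⟨m, hm⟩ := mem_iUnion.1 (h3 n ⟨hn, hxY⟩)
  refine mem_iUnion.2 ⟨Nat.pair n m, ?_⟩
  simpa using hm

theorem RM.biUnion {Y : Set X} {ι : Type*} {I : Set ι} (hI : I.Countable) {f : ι → Set X}
    (h : ∀ i ∈ I, RM Y (f i)) : RM Y (⋃ i ∈ I, f i) := by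
  rcases I.eq_empty_or_nonempty with rfl | hne
  · simpa using RM.empty Y
  · obtain ⟨g, hg⟩ := hI.exists_eq_range hne
    have h1 : (⋃ i ∈ I, f i) = ⋃ n, f (g n) := by rw [hg, biUnion_range]
    rw [h1]
    exact RM.iUnion fun n => h _ (hg ▸ mem_range_self n)

theorem RM.union {Y S T : Set X} (hS : RM Y S) (hT : RM Y T) : RM Y (S ∪ T) := by
  have h := RM.biUnion (Y := Y) (I := (univ : Set Bool)) (countable_univ)
    (f := fun b => if b then S else T) (fun b _ => by cases b <;> simp [hS, hT])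
  refine h.mono ?_
  rintro x ⟨hx | hx, -⟩
  · exact mem_iUnion₂.2 ⟨true, trivial, by simpa using hx⟩
  · exact mem_iUnion₂.2 ⟨false, trivial, by simpa using hx⟩

theorem RM.image (h : X ≃ₜ X) {Y S : Set X} (hS : RM Y S) : RM (h '' Y) (h '' S) := by
  obtain ⟨N, h1, h2, h3⟩ := hS
  refine ⟨fun n => h '' N n, fun n => h.isClosedMap _ (h1 n), ?_, ?_⟩
  · rintro n O hO ⟨_, hx, y, hy, rfl⟩
    obtain ⟨z, ⟨hz1, hz2⟩, hz3⟩ := h2 n (h ⁻¹' O) (hO.preimage h.continuous) ⟨y, hx, hy⟩
    refine ⟨h z, ⟨hz1, mem_image_of_mem _ hz2⟩, ?_⟩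
    rintro ⟨w, hw, hwz⟩
    rw [h.injective hwz] at hw
    exact hz3 hw
  · rw [← image_inter h.injective, ← image_iUnion]
    exact image_mono h3

theorem RM.of_closed {Y N : Set X} (hN : IsClosed N)
    (h : ∀ O : Set X, IsOpen O → (O ∩ Y).Nonempty → ((O ∩ Y) \ N).Nonempty) : RM Y N :=
  ⟨fun _ => N, fun _ => hN, fun _ => h, fun _ hx => mem_iUnion.2 ⟨0, hx.1⟩⟩

theorem rm_iff {Y S : Set X} : RM Y S ↔ IsMeagre ((↑) ⁻¹' S : Set Y) := by
  constructor
  · rintro ⟨N, h1, h2, h3⟩
    refine isMeagre_of_cov ⟨fun n => (↑) ⁻¹' N n, ?_, ?_⟩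
    · intro n
      rw [IsNowhereDense, ((h1 n).preimage continuous_subtype_val).closure_eq]
      by_contra hne
      obtain ⟨y, hy⟩ := nonempty_iff_ne_empty.2 hne
      obtain ⟨V, hV, hVo, hyV⟩ := mem_interior.1 hy
      obtain ⟨O, hO, rfl⟩ := isOpen_induced_iff.1 hVo
      obtain ⟨z, ⟨hz1, hz2⟩, hz3⟩ := h2 n O hO ⟨y, hyV, y.2⟩
      exact hz3 (hV (show (⟨z, hz2⟩ : Y) ∈ _ from hz1))
    · rintro ⟨x, hxY⟩ hx
      obtain ⟨n, hn⟩ := mem_iUnion.1 (h3 ⟨hx, hxY⟩)
      exact mem_iUnion.2 ⟨n, hn⟩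
  · intro h
    obtain ⟨f, h1, h2⟩ := cov_of_isMeagre h
    have h3 : ∀ n, ∃ K : Set X, IsClosed K ∧ closure (f n) = (↑) ⁻¹' K := by
      intro n
      obtain ⟨K, hK, hK'⟩ := isClosed_induced_iff.1 (isClosed_closure (s := f n))
      exact ⟨K, hK, hK'.symm⟩
    choose K hK1 hK2 using h3
    refine ⟨K, hK1, ?_, ?_⟩
    · rintro n O hO ⟨y, hyO, hyY⟩
      by_contra hcon
      rw [not_nonempty_iff_eq_empty, sdiff_eq_empty] at hcon
      have h4 : ((↑) ⁻¹' O : Set Y) ⊆ interior (closure (f n)) := by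
        refine interior_maximal ?_ (hO.preimage continuous_subtype_val)
        rintro ⟨z, hz⟩ hzO
        rw [hK2]
        exact hcon ⟨hzO, hz⟩
      rw [show interior (closure (f n)) = ∅ from h1 n] at h4
      exact h4 (show (⟨y, hyY⟩ : Y) ∈ _ from hyO)
    · rintro x ⟨hx, hxY⟩
      obtain ⟨n, hn⟩ := mem_iUnion.1 (h2 (show (⟨x, hxY⟩ : Y) ∈ _ from hx))
      refine mem_iUnion.2 ⟨n, ?_⟩
      have := subset_closure hn
      rw [hK2] at this
      exact this

theorem not_rm_open [CompactSpace X] [T2Space X] {Y : Set X} (hY : IsClosed Y) {O : Set X}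
    (hO : IsOpen O) (hne : (O ∩ Y).Nonempty) : ¬ RM Y O := by
  rw [rm_iff]
  have : CompactSpace Y := isCompact_iff_compactSpace.1 hY.isCompact
  obtain ⟨y, hyO, hyY⟩ := hne
  exact not_isMeagre_of_isOpen (hO.preimage continuous_subtype_val) ⟨⟨y, hyY⟩, hyO⟩

/-- the sets whose traces on the closures of almost all members of a family of countable sets are
meagre -/
def IdS (Fam : Set (Set X)) (S : Set X) : Prop :=
  ∃ C, Club C ∧ ∀ D ∈ Fam, D.Countable → D ∈ C → RM (closure D) S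

/-- countable local bases of nonempty open sets in the sense of pi-bases -/
def PiBases (B : X → ℕ → Set X) : Prop :=
  ∀ x, (∀ n, IsOpen (B x n) ∧ (B x n).Nonempty) ∧ ∀ O : Set X, IsOpen O → x ∈ O → ∃ n, B x n ⊆ O

theorem localIdeal_idS {B : X → ℕ → Set X} (hB : PiBases B) (Fam : Set (Set X)) :
    LocalIdeal (IdS Fam) where
  mono S T h := by
    rintro ⟨C, h1, h2⟩
    exact ⟨C, h1, fun D hD hc hDC => (h2 D hD hc hDC).mono (inter_subset_left.trans h)⟩
  iUnion f h := by
    choose C h1 h2 using h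
    exact ⟨_, Club.iInter h1, fun D hD hc hDC =>
      RM.iUnion fun n => h2 n D hD hc (mem_iInter.1 hDC n)⟩
  inv h S := by
    rintro ⟨C, h1, h2⟩
    refine ⟨C ∩ ({D | ∀ x ∈ D, ({h x} : Set X) ⊆ D} ∩ {D | ∀ x ∈ D, ({h.symm x} : Set X) ⊆ D}),
      h1.inter ((club_unary fun _ => countable_singleton _).inter
        (club_unary fun _ => countable_singleton _)), ?_⟩
    rintro D hD hc ⟨hDC, hD1, hD2⟩
    have h3 : h '' D = D := by
      apply Subset.antisymm
      · rintro _ ⟨x, hx, rfl⟩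
        exact hD1 x hx rfl
      · intro x hx
        exact ⟨h.symm x, hD2 x hx rfl, h.apply_symm_apply x⟩
    have h4 := (h2 D hD hc hDC).image h
    rwa [h.image_closure, h3] at h4
  loc S hd := by
    classical
    have hw : ∀ x n, ∃ w, ∃ U, w ∈ B x n ∧ w ∈ U ∧ IsOpen U ∧ IdS Fam (U ∩ S) := by
      intro x n
      obtain ⟨w, hw1, U, ⟨hU1, hU2⟩, hU3⟩ :=
        hd.inter_open_nonempty (B x n) ((hB x).1 n).1 ((hB x).1 n).2
      exact ⟨w, U, hw1, hU3, hU1, hU2⟩
    choose w U hw1 hw2 hU1 hU2 using hw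
    choose C hC1 hC2 using hU2
    refine ⟨_, Club.diag fun x => Club.iInter fun n => (hC1 x n).inter
      (club_superset (countable_singleton (w x n))), ?_⟩
    intro D hD hc hDC
    have hDC' : ∀ x ∈ D, ∀ n, D ∈ C x n ∧ w x n ∈ D := by
      intro x hx n
      have := mem_iInter.1 (hDC x hx) n
      exact ⟨this.1, this.2 rfl⟩
    have h1 : RM (closure D) (⋃ x ∈ D, ⋃ n, U x n)ᶜ := by
      refine RM.of_closed ?_ ?_
      · rw [isClosed_compl_iff]
        exact isOpen_biUnion fun x _ => isOpen_iUnion fun n => hU1 x n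
      · intro O hO hne
        obtain ⟨y, hyO, hy⟩ := hne
        obtain ⟨x, hxO, hx⟩ := mem_closure_iff.1 hy O hO hyO
        obtain ⟨n, hn⟩ := (hB x).2 O hO hxO
        refine ⟨w x n, ⟨hn (hw1 x n), subset_closure (hDC' x hx n).2⟩, ?_⟩
        intro h
        exact h (mem_iUnion₂.2 ⟨x, hx, mem_iUnion.2 ⟨n, hw2 x n⟩⟩)
    have h2 : RM (closure D) (⋃ x ∈ D, ⋃ n, U x n ∩ S) :=
      RM.biUnion hc fun x hx => RM.iUnion fun n => hC2 x n D hD hc (hDC' x hx n).1
    refine (h1.union h2).mono ?_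
    rintro y ⟨hy, -⟩
    by_cases h : y ∈ ⋃ x ∈ D, ⋃ n, U x n
    · right
      obtain ⟨x, hx, hy'⟩ := mem_iUnion₂.1 h
      obtain ⟨n, hn⟩ := mem_iUnion.1 hy'
      exact mem_iUnion₂.2 ⟨x, hx, mem_iUnion.2 ⟨n, hn, hy⟩⟩
    · exact Or.inl h

theorem not_idS_univ [CompactSpace X] [T2Space X] [Nonempty X] {Fam : Set (Set X)}
    (hF : Stat Fam) : ¬ IdS Fam univ := by
  rintro ⟨C, h1, h2⟩
  obtain ⟨x⟩ := ‹Nonempty X›
  obtain ⟨D, hD1, hD2, hD3, hD4⟩ := hF _ (h1.inter (club_superset (countable_singleton x)))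
  exact not_rm_open isClosed_closure isOpen_univ ⟨x, trivial, subset_closure (hD4 rfl)⟩
    (h2 D hD1 hD2 hD3)

end RM

end Pool.Agent.Work.UAC
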