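import Mathlib
import Pool.Agent.Work.MP_d430fe_gt.Arc

/-!
Continuous images of compact connected ordered spaces in Hausdorff spaces contain an arc between
the images of the end points.
-/

set_option autoImplicit false

namespace Pool.Agent.Work.UAC

open Set Topology Filter

variable {X : Type*} [TopologicalSpace X]
  {L : Type*} [LinearOrder L] [BoundedOrder L] [DenselyOrdered L] [TopologicalSpace L]
  [OrderTopology L] [CompactSpace L]

/-- the open sets whose gaps are folded by `w` -/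
def Fold (w : L → X) (U : Set L) : Prop :=
  IsOpen U ∧ ⊥ ∉ U ∧ ⊤ ∉ U ∧ ∀ s t, s < t → s ∉ U → t ∉ U → Ioo s t ⊆ U → w s = w t

theorem fold_empty (w : L → X) : Fold w ∅ := by
  refine ⟨isOpen_empty, fun h => h, fun h => h, ?_⟩
  intro s t hst _ _ h
  obtain ⟨u, hu⟩ := exists_between hst
  exact absurd (h hu) (fun h => h)

/-- the last point of a closed set before a point -/
theorem exists_last_before {C : Set L} (hC : IsClosed C) {s x : L} (hs : s ∈ C) (hsx : s ≤ x) :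
    ∃ m ∈ C, s ≤ m ∧ m ≤ x ∧ ∀ y ∈ C, y ≤ x → y ≤ m := by
  obtain ⟨m, hm, hm'⟩ := (isClosed_Icc.isCompact.inter_right hC : IsCompact (Icc s x ∩ C)).exists_isGreatest
    ⟨s, ⟨le_rfl, hsx⟩, hs⟩
  refine ⟨m, hm.2, hm.1.1, hm.1.2, fun y hy hyx => ?_⟩
  rcases le_total s y with h | h
  · exact hm' ⟨⟨h, hyx⟩, hy⟩
  · exact h.trans hm.1.1

/-- the first point of a closed set after a point -/
theorem exists_first_after {C : Set L} (hC : IsClosed C) {t x : L} (ht : t ∈ C) (hxt : x ≤ t) :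
    ∃ m ∈ C, x ≤ m ∧ m ≤ t ∧ ∀ y ∈ C, x ≤ y → m ≤ y := by
  obtain ⟨m, hm, hm'⟩ := (isClosed_Icc.isCompact.inter_right hC : IsCompact (Icc x t ∩ C)).exists_isLeast
    ⟨t, ⟨hxt, le_rfl⟩, ht⟩
  refine ⟨m, hm.2, hm.1.1, hm.1.2, fun y hy hyx => ?_⟩
  rcases le_total y t with h | h
  · exact hm' ⟨⟨hyx, h⟩, hy⟩
  · exact hm.1.2.trans h

theorem fold_sUnion [T2Space X] {w : L → X} (hw : Continuous w) {c : Set (Set L)}
    (hc : ∀ U ∈ c, Fold w U) (hch : IsChain (· ⊆ ·) c) : Fold w (⋃₀ c) := by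
  refine ⟨isOpen_sUnion fun U hU => (hc U hU).1, ?_, ?_, ?_⟩
  · rintro ⟨U, hU, h⟩; exact (hc U hU).2.1 h
  · rintro ⟨U, hU, h⟩; exact (hc U hU).2.2.1 h
  · intro s t hst hs ht hsub
    by_contra hne
    obtain ⟨G, H, hG, hH, hsG, htH, hGH⟩ := t2_separation hne
    -- intervals near the ends
    obtain ⟨s', hs', hsub'⟩ := exists_Ico_subset_of_mem_nhds
      (hw.continuousAt.preimage_mem_nhds (hG.mem_nhds hsG)) ⟨t, hst⟩
    obtain ⟨t', ht', htub'⟩ := exists_Ioc_subset_of_mem_nhds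
      (hw.continuousAt.preimage_mem_nhds (hH.mem_nhds htH)) ⟨s, hst⟩
    obtain ⟨s₁, hs₁, hs₁'⟩ := exists_between (lt_min hs' hst)
    obtain ⟨t₁, ht₁, ht₁'⟩ := exists_between (max_lt ht' (lt_of_lt_of_le hs₁' (min_le_right _ _)))
    have h1 : s₁ < t₁ := lt_of_le_of_lt (le_max_right _ _) ht₁
    -- the compact interval is contained in one member of the chain
    have hcomp : IsCompact (Icc s₁ t₁) := isClosed_Icc.isCompact
    have hcov : Icc s₁ t₁ ⊆ ⋃₀ c := by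
      intro u hu
      exact hsub ⟨lt_of_lt_of_le hs₁ hu.1, lt_of_le_of_lt hu.2 ht₁'⟩
    have hcne : Nonempty c := by
      obtain ⟨V, hV, -⟩ := hcov (left_mem_Icc.2 h1.le)
      exact ⟨V, hV⟩
    obtain ⟨⟨V, hV⟩, hVsub⟩ := hcomp.elim_directed_cover
      (fun V : c => (V : Set L)) (fun V => (hc V V.2).1) (by rwa [sUnion_eq_iUnion] at hcov)
      (by
        rintro ⟨V, hV⟩ ⟨W, hW⟩
        rcases hch.total hV hW with h | h
        · exact ⟨⟨W, hW⟩, h, Subset.rfl⟩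
        · exact ⟨⟨V, hV⟩, Subset.rfl, h⟩)
    simp only at hVsub
    have hVo := (hc V hV).1
    have hsV : s ∉ V := fun h => hs ⟨V, hV, h⟩
    have htV : t ∉ V := fun h => ht ⟨V, hV, h⟩
    obtain ⟨s₂, hs₂, hss₂, hs₂₁, hs₂m⟩ := exists_last_before (C := Vᶜ) hVo.isClosed_compl
      (s := s) (x := s₁) hsV hs₁.le
    obtain ⟨t₂, ht₂, ht₁₂, ht₂t, ht₂m⟩ := exists_first_after (C := Vᶜ) hVo.isClosed_compl
      (t := t) (x := t₁) htV ht₁'.le
    have hs₁V : s₁ ∈ V := hVsub (left_mem_Icc.2 h1.le)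
    have ht₁V : t₁ ∈ V := hVsub (right_mem_Icc.2 h1.le)
    have hs₂' : s₂ < s₁ := lt_of_le_of_ne hs₂₁ (fun h => hs₂ (h ▸ hs₁V))
    have ht₂' : t₁ < t₂ := lt_of_le_of_ne ht₁₂ (fun h => ht₂ (h ▸ ht₁V))
    have hfold := (hc V hV).2.2.2 s₂ t₂ (hs₂'.trans (h1.trans ht₂')) hs₂ ht₂ (by
      intro u hu
      by_contra huV
      rcases le_or_gt u s₁ with h2 | h2
      · exact absurd hu.1 (not_lt.2 (hs₂m u huV h2))
      · rcases le_or_gt t₁ u with h3 | h3
        · exact absurd hu.2 (not_lt.2 (ht₂m u huV h3))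
        · exact huV (hVsub ⟨h2.le, h3.le⟩))
    have hG' : w s₂ ∈ G := hsub' ⟨hss₂, (hs₂'.trans hs₁').trans_le (min_le_left _ _)⟩
    have hH' : w t₂ ∈ H := htub' ⟨(lt_of_le_of_lt (le_max_left _ _) ht₁).trans ht₂', ht₂t⟩
    rw [← hfold] at hH'
    exact hGH.le_bot ⟨hG', hH'⟩

theorem exists_max_fold [T2Space X] {w : L → X} (hw : Continuous w) :
    ∃ U, Fold w U ∧ ∀ V, Fold w V → U ⊆ V → V = U := by
  obtain ⟨U, hU⟩ := zorn_subset {U : Set L | Fold w U} (by
    intro c hc hch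
    exact ⟨⋃₀ c, fold_sUnion hw hc hch, fun s hs => subset_sUnion_of_mem hs⟩)
  refine ⟨U, hU.prop, fun V hV hUV => ?_⟩
  exact Subset.antisymm (hU.le_of_ge hV hUV) hUV

theorem fold_ext {w : L → X} {U : Set L} (hU : Fold w U) {s t : L} (hs : s ∉ U) (ht : t ∉ U)
    (hw : w s = w t) : Fold w (U ∪ Ioo s t) := by
  refine ⟨hU.1.union isOpen_Ioo, ?_, ?_, ?_⟩
  · rintro (h | h)
    · exact hU.2.1 h
    · exact not_lt_bot h.1
  · rintro (h | h)
    · exact hU.2.2.1 h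
    · exact not_top_lt h.2
  · intro p q hpq hp hq hsub
    have hp1 : p ∉ U := fun h => hp (Or.inl h)
    have hq1 : q ∉ U := fun h => hq (Or.inl h)
    have hp2 : p ≤ s ∨ t ≤ p := by
      by_contra hcon
      push Not at hcon
      exact hp (Or.inr hcon)
    have hq2 : q ≤ s ∨ t ≤ q := by
      by_contra hcon
      push Not at hcon
      exact hq (Or.inr hcon)
    rcases hp2 with hp2 | hp2
    · rcases hq2 with hq2 | hq2
      · refine hU.2.2.2 p q hpq hp1 hq1 ?_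
        intro u hu
        rcases hsub hu with h | h
        · exact h
        · exact absurd (hu.2.trans_le hq2) (not_lt.2 h.1.le)
      · by_cases hst : s < t
        · have h1 : p = s := by
            by_contra hne
            have : s ∈ U ∪ Ioo s t := hsub ⟨lt_of_le_of_ne hp2 hne, hst.trans_le hq2⟩
            rcases this with h | h
            · exact hs h
            · exact lt_irrefl _ h.1
          have h2 : q = t := by
            by_contra hne
            have : t ∈ U ∪ Ioo s t := hsub ⟨h1 ▸ hst, lt_of_le_of_ne hq2 (Ne.symm hne)⟩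
            rcases this with h | h
            · exact ht h
            · exact lt_irrefl _ h.2
          rw [h1, h2, hw]
        · refine hU.2.2.2 p q hpq hp1 hq1 ?_
          intro u hu
          rcases hsub hu with h | h
          · exact h
          · exact absurd (h.1.trans h.2) hst
    · refine hU.2.2.2 p q hpq hp1 hq1 ?_
      intro u hu
      rcases hsub hu with h | h
      · exact h
      · exact absurd (hp2.trans_lt hu.1) (not_lt.2 h.2.le)

/-- FACT Z: the image of a compact connected ordered space contains an arc between the images of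
the end points -/
theorem exists_arcOrd [T2Space X] {w : L → X} (hw : Continuous w) :
    ∃ K ⊆ range w, ∃ r, ArcOrd r K (w ⊥) (w ⊤) := by
  obtain ⟨U, hU, hmax⟩ := exists_max_fold hw
  have key : ∀ s t, s ∉ U → t ∉ U → w s = w t → Ioo s t ⊆ U := by
    intro s t hs ht h
    have h1 := hmax _ (fold_ext hU hs ht h) subset_union_left
    intro u hu
    rw [← h1]; exact Or.inr hu
  have hC : IsClosed Uᶜ := hU.1.isClosed_compl
  have hCc : IsCompact Uᶜ := hC.isCompact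
  have hbot : (⊥ : L) ∈ Uᶜ := hU.2.1
  have htop : (⊤ : L) ∈ Uᶜ := hU.2.2.1
  refine ⟨w '' Uᶜ, image_subset_range _ _,
    fun x y => ∃ s ∈ Uᶜ, ∃ t ∈ Uᶜ, s ≤ t ∧ w s = x ∧ w t = y, ?_⟩
  refine
    { isCompact := hCc.image hw
      isPreconnected := ?_
      left_mem := ⟨_, hbot, rfl⟩
      right_mem := ⟨_, htop, rfl⟩
      total := ?_
      antisymm := ?_
      trans := ?_
      left_le := ?_
      le_right := ?_
      closed_le := ?_
      closed_ge := ?_ }
  · -- connected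
    have aux : ∀ P Q : Set X, IsClosed P → IsClosed Q → w '' Uᶜ ⊆ P ∪ Q → w ⊥ ∈ P →
        (w '' Uᶜ ∩ Q).Nonempty → (w '' Uᶜ ∩ (P ∩ Q)).Nonempty := by
      intro P Q hP hQ hsub hbP hQne
      by_contra hcon
      obtain ⟨_, ⟨q, hq, rfl⟩, hqQ⟩ := hQne
      obtain ⟨t, ht, -, -, htm⟩ := exists_first_after (C := Uᶜ ∩ w ⁻¹' Q)
        (hC.inter (hQ.preimage hw)) (t := q) (x := ⊥) ⟨hq, hqQ⟩ bot_le
      obtain ⟨s, hs, -, hst, hsm⟩ := exists_last_before (C := Uᶜ ∩ w ⁻¹' P)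
        (hC.inter (hP.preimage hw)) (s := ⊥) (x := t) ⟨hbot, hbP⟩ bot_le
      have hne : s ≠ t := by
        intro h
        subst h
        exact hcon ⟨w s, ⟨s, hs.1, rfl⟩, hs.2, ht.2⟩
      have hlt : s < t := lt_of_le_of_ne hst hne
      have h1 : Ioo s t ⊆ U := by
        intro u hu
        by_contra huU
        rcases hsub ⟨u, huU, rfl⟩ with h | h
        · exact absurd hu.1 (not_lt.2 (hsm u ⟨huU, h⟩ hu.2.le))
        · exact absurd hu.2 (not_lt.2 (htm u ⟨huU, h⟩ bot_le))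
      have h2 := hU.2.2.2 s t hlt hs.1 ht.1 h1
      exact hcon ⟨w s, ⟨s, hs.1, rfl⟩, hs.2, by rw [h2]; exact ht.2⟩
    rw [isPreconnected_closed_iff]
    intro P Q hP hQ hsub hPne hQne
    rcases hsub ⟨_, hbot, rfl⟩ with h | h
    · exact aux P Q hP hQ hsub h hQne
    · rw [inter_comm P Q]
      exact aux Q P hQ hP (by rwa [union_comm]) h hPne
  · rintro _ ⟨s, hs, rfl⟩ _ ⟨t, ht, rfl⟩
    rcases le_total s t with h | h
    · exact Or.inl ⟨s, hs, t, ht, h, rfl, rfl⟩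
    · exact Or.inr ⟨t, ht, s, hs, h, rfl, rfl⟩
  · rintro x hx y hy ⟨s, hs, t, ht, hst, rfl, rfl⟩ ⟨s', hs', t', ht', hst', h1, h2⟩
    -- `w s' = w t`, `w t' = w s`
    by_contra hne
    have hst1 : s < t := lt_of_le_of_ne hst (fun h => hne (by rw [h]))
    have hst2 : s' < t' := lt_of_le_of_ne hst' (fun h => hne (by rw [← h1, ← h2, h]))
    have h3 : s' < s := by
      by_contra hcon
      push Not at hcon
      rcases eq_or_lt_of_le hcon with h | h
      · exact hne (by rw [← h1, ← h])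
      · exact (key s t' hs ht' h2.symm ⟨h, hst2⟩ : s' ∈ U) |> hs'
    exact hs (key s' t hs' ht h1 ⟨h3, hst1⟩)
  · rintro x hx y hy z hz ⟨s, hs, t, ht, hst, rfl, rfl⟩ ⟨s', hs', t', ht', hst', h1, rfl⟩
    rcases le_or_gt s t' with h | h
    · exact ⟨s, hs, t', ht', h, rfl, rfl⟩
    · -- `s' ≤ t' < s ≤ t` and `w s' = w t`
      have h2 := key s' t hs' ht h1
      have h3 : s' = t' := by
        by_contra hne
        exact ht' (h2 ⟨lt_of_le_of_ne hst' hne, h.trans_le hst⟩)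
      have h4 : s = t := by
        by_contra hne
        exact hs (h2 ⟨hst'.trans_lt h, lt_of_le_of_ne hst hne⟩)
      exact ⟨s, hs, s, hs, le_rfl, rfl, by rw [← h3, h1, h4]⟩
  · rintro _ ⟨s, hs, rfl⟩
    exact ⟨⊥, hbot, s, hs, bot_le, rfl, rfl⟩
  · rintro _ ⟨s, hs, rfl⟩
    exact ⟨s, hs, ⊤, htop, le_top, rfl, rfl⟩
  · rintro _ ⟨s, hs, rfl⟩
    obtain ⟨m, hm, -, -, hmm⟩ := exists_last_before (C := Uᶜ ∩ w ⁻¹' {w s})
      (hC.inter (isClosed_singleton.preimage hw)) (s := s) (x := ⊤) ⟨hs, rfl⟩ le_top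
    have : {y | y ∈ w '' Uᶜ ∧ ∃ p ∈ Uᶜ, ∃ q ∈ Uᶜ, p ≤ q ∧ w p = y ∧ w q = w s} =
        w '' (Uᶜ ∩ Iic m) := by
      ext y; constructor
      · rintro ⟨-, p, hp, q, hq, hpq, rfl, h⟩
        exact ⟨p, ⟨hp, hpq.trans (hmm q ⟨hq, h⟩ le_top)⟩, rfl⟩
      · rintro ⟨p, ⟨hp, hpm⟩, rfl⟩
        exact ⟨⟨p, hp, rfl⟩, p, hp, m, hm.1, hpm, rfl, hm.2⟩
    rw [this]
    exact ((hCc.inter_right isClosed_Iic).image hw).isClosed
  · rintro _ ⟨s, hs, rfl⟩
    obtain ⟨m, hm, -, -, hmm⟩ := exists_first_after (C := Uᶜ ∩ w ⁻¹' {w s})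
      (hC.inter (isClosed_singleton.preimage hw)) (t := s) (x := ⊥) ⟨hs, rfl⟩ bot_le
    have : {y | y ∈ w '' Uᶜ ∧ ∃ p ∈ Uᶜ, ∃ q ∈ Uᶜ, p ≤ q ∧ w p = w s ∧ w q = y} =
        w '' (Uᶜ ∩ Ici m) := by
      ext y; constructor
      · rintro ⟨-, p, hp, q, hq, hpq, h, rfl⟩
        exact ⟨q, ⟨hq, (hmm p ⟨hp, h⟩ bot_le).trans hpq⟩, rfl⟩
      · rintro ⟨q, ⟨hq, hqm⟩, rfl⟩
        exact ⟨⟨q, hq, rfl⟩, m, hm.1, q, hq, hqm, hm.2, rfl⟩
    rw [this]
    exact ((hCc.inter_right isClosed_Ici).image hw).isClosed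

end Pool.Agent.Work.UAC
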