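import Mathlib
import Pool.Agent.Work.MP_d430fe_gt.Arc

/-!
The segment calculus of uniquely arcwise connected Hausdorff spaces.
-/

set_option autoImplicit false

namespace Pool.Agent.Work.UAC

open Set Topology Filter

variable {X : Type*} [TopologicalSpace X]

/-- the union of all arcs from `a` to `b` (the point `a` if `a = b`) -/
def seg (a b : X) : Set X := {x | (a = b ∧ x = a) ∨ ∃ A, IsArc A a b ∧ x ∈ A}

theorem ArcOrd.eq_singleton {r : X → X → Prop} {A : Set X} {a : X} (h : ArcOrd r A a a) :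
    A = {a} := by
  ext x; constructor
  · intro hx; exact h.antisymm x hx a h.left_mem (h.le_right x hx) (h.left_le x hx)
  · intro hx
    rw [mem_singleton_iff] at hx
    subst hx
    exact h.left_mem

theorem seg_self (a : X) : seg a a = {a} := by
  ext x; constructor
  · rintro (⟨-, h⟩ | ⟨A, ⟨h, -⟩, -⟩)
    · exact h
    · exact absurd rfl h
  · intro h; exact Or.inl ⟨rfl, h⟩

section

variable [T2Space X] (hX : UniquelyArcwiseConnected X)

include hX

theorem seg_eq_of_ord {r : X → X → Prop} {A : Set X} {a b : X} (h : ArcOrd r A a b) :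
    seg a b = A := by
  by_cases hab : a = b
  · subst hab
    rw [seg_self, h.eq_singleton]
  · ext x; constructor
    · rintro (⟨h1, -⟩ | ⟨B, hB, hx⟩)
      · exact absurd h1 hab
      · rw [(hX a b hab).unique ⟨hab, r, h⟩ hB]; exact hx
    · intro hx; exact Or.inr ⟨A, ⟨hab, r, h⟩, hx⟩

theorem exists_ord (a b : X) : ∃ r, ArcOrd r (seg a b) a b := by
  by_cases hab : a = b
  · subst hab
    refine ⟨fun _ _ => True, ?_⟩
    rw [seg_self]
    exact
      { isCompact := isCompact_singleton
        isPreconnected := isPreconnected_singleton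
        left_mem := rfl
        right_mem := rfl
        total := fun _ _ _ _ => Or.inl trivial
        antisymm := fun x hx y hy _ _ => by rw [mem_singleton_iff.1 hx, mem_singleton_iff.1 hy]
        trans := fun _ _ _ _ _ _ _ _ => trivial
        left_le := fun _ _ => trivial
        le_right := fun _ _ => trivial
        closed_le := fun x hx => by
          have : {y | y ∈ ({a} : Set X) ∧ True} = {a} := by ext y; simp
          rw [this]; exact isClosed_singleton
        closed_ge := fun x hx => by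
          have : {y | y ∈ ({a} : Set X) ∧ True} = {a} := by ext y; simp
          rw [this]; exact isClosed_singleton }
  · obtain ⟨A, ⟨-, r, hr⟩, -⟩ := hX a b hab
    exact ⟨r, by rw [seg_eq_of_ord hX hr]; exact hr⟩

theorem seg_comm (a b : X) : seg a b = seg b a := by
  obtain ⟨r, hr⟩ := exists_ord hX a b
  exact (seg_eq_of_ord hX hr.flip).symm

theorem left_mem_seg (a b : X) : a ∈ seg a b := by
  obtain ⟨r, hr⟩ := exists_ord hX a b
  exact hr.left_mem

theorem right_mem_seg (a b : X) : b ∈ seg a b := by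
  obtain ⟨r, hr⟩ := exists_ord hX a b
  exact hr.right_mem

theorem isCompact_seg (a b : X) : IsCompact (seg a b) := by
  obtain ⟨r, hr⟩ := exists_ord hX a b
  exact hr.isCompact

theorem isClosed_seg (a b : X) : IsClosed (seg a b) := (isCompact_seg hX a b).isClosed

theorem isPreconnected_seg (a b : X) : IsPreconnected (seg a b) := by
  obtain ⟨r, hr⟩ := exists_ord hX a b
  exact hr.isPreconnected

theorem seg_infinite {a b : X} (hab : a ≠ b) : (seg a b).Infinite :=
  (isPreconnected_seg hX a b).infinite_of_nontrivial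
    ⟨a, left_mem_seg hX a b, b, right_mem_seg hX a b, hab⟩

/-- a linear order on the segment, described by segments -/
theorem ord_iff {r : X → X → Prop} {a b x y : X} (hr : ArcOrd r (seg a b) a b)
    (hx : x ∈ seg a b) (hy : y ∈ seg a b) : r x y ↔ x ∈ seg a y := by
  rw [seg_eq_of_ord hX (hr.left hy)]
  exact ⟨fun h => ⟨hx, h⟩, fun h => h.2⟩

theorem ord_iff' {r : X → X → Prop} {a b x y : X} (hr : ArcOrd r (seg a b) a b)
    (hx : x ∈ seg a b) (hy : y ∈ seg a b) : r x y ↔ y ∈ seg x b := by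
  rw [seg_eq_of_ord hX (hr.right hx)]
  exact ⟨fun h => ⟨hy, h⟩, fun h => h.2⟩

theorem seg_left_sub {a b x : X} (hx : x ∈ seg a b) : seg a x ⊆ seg a b := by
  obtain ⟨r, hr⟩ := exists_ord hX a b
  rw [seg_eq_of_ord hX (hr.left hx)]
  exact fun y hy => hy.1

theorem seg_right_sub {a b x : X} (hx : x ∈ seg a b) : seg x b ⊆ seg a b := by
  obtain ⟨r, hr⟩ := exists_ord hX a b
  rw [seg_eq_of_ord hX (hr.right hx)]
  exact fun y hy => hy.1

theorem seg_union {a b x : X} (hx : x ∈ seg a b) : seg a x ∪ seg x b = seg a b := by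
  obtain ⟨r, hr⟩ := exists_ord hX a b
  apply Subset.antisymm
  · exact union_subset (seg_left_sub hX hx) (seg_right_sub hX hx)
  · intro y hy
    rcases hr.total y hy x hx with h | h
    · exact Or.inl ((ord_iff hX hr hy hx).1 h)
    · exact Or.inr ((ord_iff' hX hr hx hy).1 h)

theorem seg_inter {a b x : X} (hx : x ∈ seg a b) : seg a x ∩ seg x b = {x} := by
  obtain ⟨r, hr⟩ := exists_ord hX a b
  apply Subset.antisymm
  · rintro y ⟨h1, h2⟩
    have hy := seg_left_sub hX hx h1
    exact hr.antisymm y hy x hx ((ord_iff hX hr hy hx).2 h1) ((ord_iff' hX hr hx hy).2 h2)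
  · intro y hy
    rw [mem_singleton_iff] at hy
    subst hy
    exact ⟨right_mem_seg hX a y, left_mem_seg hX y b⟩

theorem seg_glue {a b x : X} (h : seg a x ∩ seg x b ⊆ {x}) : seg a b = seg a x ∪ seg x b := by
  obtain ⟨r, hr⟩ := exists_ord hX a x
  obtain ⟨s, hs⟩ := exists_ord hX x b
  exact seg_eq_of_ord hX (hr.glue hs (Subset.antisymm h (by
    intro y hy
    rw [mem_singleton_iff] at hy
    subst hy
    exact ⟨right_mem_seg hX a y, left_mem_seg hX y b⟩)))

theorem mem_seg_of_inter {a b x : X} (h : seg a x ∩ seg x b ⊆ {x}) : x ∈ seg a b := by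
  rw [seg_glue hX h]
  exact Or.inl (right_mem_seg hX a x)

theorem mem_seg_iff {a b x : X} : x ∈ seg a b ↔ seg a x ∩ seg x b ⊆ {x} :=
  ⟨fun h => (seg_inter hX h).subset, mem_seg_of_inter hX⟩

/-- two points of a segment are ordered -/
theorem seg_total {a b x y : X} (hx : x ∈ seg a b) (hy : y ∈ seg a b) :
    (x ∈ seg a y ∧ y ∈ seg x b) ∨ (y ∈ seg a x ∧ x ∈ seg y b) := by
  obtain ⟨r, hr⟩ := exists_ord hX a b
  rcases hr.total x hx y hy with h | h
  · exact Or.inl ⟨(ord_iff hX hr hx hy).1 h, (ord_iff' hX hr hx hy).1 h⟩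
  · exact Or.inr ⟨(ord_iff hX hr hy hx).1 h, (ord_iff' hX hr hy hx).1 h⟩

theorem seg_antisymm {a x y : X} (hx : x ∈ seg a y) (hy : y ∈ seg a x) : x = y := by
  obtain ⟨r, hr⟩ := exists_ord hX a y
  exact hr.antisymm x hx y hr.right_mem (hr.le_right x hx)
    ((ord_iff hX hr hr.right_mem hx).2 hy)

theorem seg_sub {a b x y : X} (hx : x ∈ seg a b) (hy : y ∈ seg a b) : seg x y ⊆ seg a b := by
  rcases seg_total hX hx hy with ⟨h1, h2⟩ | ⟨h1, h2⟩
  · exact (seg_right_sub hX h1).trans (seg_left_sub hX hy)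
  · rw [seg_comm hX x y]
    exact (seg_right_sub hX h1).trans (seg_left_sub hX hx)

/-- the first point of a closed set -/
theorem exists_first {a b : X} {C : Set X} (hC : IsClosed C) (hne : (seg a b ∩ C).Nonempty) :
    ∃ m ∈ seg a b ∩ C, seg a m ∩ C ⊆ {m} := by
  obtain ⟨r, hr⟩ := exists_ord hX a b
  obtain ⟨m, hm, h⟩ := hr.exists_least hC hne
  refine ⟨m, hm, ?_⟩
  rintro y ⟨h1, h2⟩
  have hy := seg_left_sub hX hm.1 h1
  exact hr.antisymm y hy m hm.1 ((ord_iff hX hr hy hm.1).2 h1) (h y ⟨hy, h2⟩)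

theorem seg_sub_union (u v p : X) : seg u v ⊆ seg u p ∪ seg p v := by
  obtain ⟨m, hm, h⟩ := exists_first hX (a := u) (b := p) (C := seg p v) (isClosed_seg hX p v)
    ⟨p, right_mem_seg hX u p, left_mem_seg hX p v⟩
  have h1 : seg m v ⊆ seg p v := seg_right_sub hX hm.2
  rw [seg_glue hX (x := m) (fun y hy => h ⟨hy.1, h1 hy.2⟩)]
  exact union_subset_union (seg_left_sub hX hm.1) h1

theorem seg_image_on {Y : Type*} [TopologicalSpace Y] [T2Space Y]
    (hY : UniquelyArcwiseConnected Y) {f : X → Y} {a b : X} (hf : ContinuousOn f (seg a b))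
    (hi : InjOn f (seg a b)) : f '' seg a b = seg (f a) (f b) := by
  obtain ⟨r, hr⟩ := exists_ord hX a b
  exact (seg_eq_of_ord hY (hr.image hf hi)).symm

theorem seg_image {f : X → X} (hf : Continuous f) (hi : Function.Injective f) (a b : X) :
    f '' seg a b = seg (f a) (f b) :=
  seg_image_on hX hX hf.continuousOn hi.injOn

/-- uniqueness of the first point on a convex set -/
theorem first_unique {J : Set X} (hJ : ∀ x ∈ J, ∀ y ∈ J, seg x y ⊆ J) {x m m' : X} (hm : m ∈ J)
    (hm' : m' ∈ J) (h : seg x m ∩ J ⊆ {m}) (h' : seg x m' ∩ J ⊆ {m'}) : m = m' := by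
  have h1 : seg x m ∩ seg m m' ⊆ {m} := fun y hy => h ⟨hy.1, hJ m hm m' hm' hy.2⟩
  have h2 : m ∈ seg x m' := mem_seg_of_inter hX h1
  exact h' ⟨h2, hm⟩

end

end Pool.Agent.Work.UAC
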