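import Mathlib
import Pool.Agent.Work.MP_d430fe_gt.Seg
import Pool.Agent.Work.MP_d430fe_gt.FactZ

/-!
The moving triod lemma: the centre of a continuously moving triod does not move.
-/

set_option autoImplicit false

namespace Pool.Agent.Work.UAC

open Set Topology Filter

variable {X : Type*} [TopologicalSpace X] [T2Space X]
  {L : Type*} [LinearOrder L] [BoundedOrder L] [DenselyOrdered L] [TopologicalSpace L]
  [OrderTopology L] [CompactSpace L]

/-- `o` is the centre of a triod with the end points `a`, `b`, `c` -/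
structure IsTriod (o a b c : X) : Prop where
  ne_a : a ≠ o
  ne_b : b ≠ o
  ne_c : c ≠ o
  ab : seg o a ∩ seg o b ⊆ {o}
  bc : seg o b ∩ seg o c ⊆ {o}
  ac : seg o a ∩ seg o c ⊆ {o}

section

variable (hX : UniquelyArcwiseConnected X)

include hX

theorem seg_sub_range {w : L → X} (hw : Continuous w) : seg (w ⊥) (w ⊤) ⊆ range w := by
  obtain ⟨K, hK, r, hr⟩ := exists_arcOrd hw
  rw [seg_eq_of_ord hX hr]; exact hK

/-- FACT Z for intervals -/
theorem seg_sub_image {w : L → X} (hw : Continuous w) {s t : L} (hst : s ≤ t) :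
    seg (w s) (w t) ⊆ w '' Icc s t := by
  have h1 : Continuous fun u : L => w (max s (min u t)) :=
    hw.comp (continuous_const.max (continuous_id.min continuous_const))
  have h2 := seg_sub_range hX h1
  have h3 : max s (min ⊥ t) = s := by simp
  have h4 : max s (min ⊤ t) = t := by simp [hst]
  simp only [h3, h4] at h2
  intro x hx
  obtain ⟨u, hu⟩ := h2 hx
  exact ⟨max s (min u t), ⟨le_max_left _ _, max_le hst (min_le_right _ _)⟩, hu⟩

/-- `R1`: a path off `J` does not change the first point on `J` -/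
theorem first_const {J : Set X} {w : L → X} (hw : Continuous w) {u v : L} (huv : u ≤ v)
    (hoff : ∀ p ∈ Icc u v, w p ∉ J) {m : X} (h : seg (w u) m ∩ J ⊆ {m}) :
    seg (w v) m ∩ J ⊆ {m} := by
  rintro y ⟨h1, h2⟩
  rcases seg_sub_union hX (w v) m (w u) h1 with h3 | h3
  · rw [seg_comm hX] at h3
    obtain ⟨p, hp, rfl⟩ := seg_sub_image hX hw huv h3
    exact absurd h2 (hoff p hp)
  · exact h ⟨h3, h2⟩

/-- `R2`: the first point on `J` is the point where a path enters `J` -/
theorem first_enter {J : Set X} {w : L → X} (hw : Continuous w) {u p : L} (hup : u ≤ p)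
    (hoff : ∀ q ∈ Ico u p, w q ∉ J) : seg (w u) (w p) ∩ J ⊆ {w p} := by
  rintro y ⟨h1, h2⟩
  obtain ⟨q, hq, rfl⟩ := seg_sub_image hX hw hup h1
  rcases eq_or_lt_of_le hq.2 with h | h
  · rw [h]; rfl
  · exact absurd h2 (hoff q ⟨hq.1, h⟩)

/-- the set of parameters where the leg starts at the first point on `J` has a finite image -/
theorem finite_leg {J : Set X} (hJc : IsClosed J) (hJ : ∀ x ∈ J, ∀ y ∈ J, seg x y ⊆ J)
    {g w : L → X} (hg : Continuous g) (hw : Continuous w) (hne : ∀ u, w u ≠ g u) :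
    (g '' {u | g u ∈ J ∧ seg (w u) (g u) ∩ J ⊆ {g u}}).Finite := by
  have key : ∀ S : Set L, IsCompact S →
      (g '' ({u | g u ∈ J ∧ seg (w u) (g u) ∩ J ⊆ {g u}} ∩ S)).Finite := by
    intro S hS
    refine hS.induction_on (p := fun S => (g '' ({u | g u ∈ J ∧ seg (w u) (g u) ∩ J ⊆ {g u}} ∩
      S)).Finite) ?_ ?_ ?_ ?_
    · simp
    · intro S T hST hT
      exact hT.subset (image_mono (inter_subset_inter_right _ hST))
    · intro S T hS hT
      rw [inter_union_distrib_left, image_union]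
      exact hS.union hT
    · intro u₀ _
      obtain ⟨O, O', hO, hO', hw0, hg0, hd⟩ := t2_separation (hne u₀)
      have hN : {u | w u ∈ O ∧ g u ∈ O'} ∈ 𝓝 u₀ :=
        Filter.inter_mem (hw.continuousAt.preimage_mem_nhds (hO.mem_nhds hw0))
          (hg.continuousAt.preimage_mem_nhds (hO'.mem_nhds hg0))
      have hN1 := ordConnectedComponent_mem_nhds.2 hN
      have hN2 := ordConnectedComponent_subset (s := {u | w u ∈ O ∧ g u ∈ O'}) (x := u₀)
      have hN3 : OrdConnected (ordConnectedComponent {u | w u ∈ O ∧ g u ∈ O'} u₀) := inferInstance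
      generalize hNd : ordConnectedComponent {u | w u ∈ O ∧ g u ∈ O'} u₀ = N at hN1 hN2 hN3
      refine ⟨N, mem_nhdsWithin_of_mem_nhds hN1, ?_⟩
      have main : ∀ u v, u ≤ v → u ∈ N → v ∈ N → (g u ∈ J ∧ seg (w u) (g u) ∩ J ⊆ {g u}) →
          (g v ∈ J ∧ seg (w v) (g v) ∩ J ⊆ {g v}) → g u = g v := by
        rintro u v huv hu hv ⟨hu1, hu2⟩ ⟨hv1, hv2⟩
        have hoff : ∀ p ∈ Icc u v, w p ∉ J := by
          intro p hp hpJ
          obtain ⟨m, hm, hum, hmp, hmm⟩ := exists_first_after (C := w ⁻¹' J) (hJc.preimage hw)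
            (t := p) (x := u) hpJ hp.1
          have h1 := first_enter hX (J := J) hw hum (fun q hq hqJ =>
            absurd hq.2 (not_lt.2 (hmm q hqJ hq.1)))
          have h2 := first_unique hX hJ hu1 hm hu2 h1
          have h3 : m ∈ N := hN3.out hu hv ⟨hum, hmp.trans hp.2⟩
          have h4 : g u ∈ O' := (hN2 hu).2
          have h5 : w m ∈ O := (hN2 h3).1
          rw [h2] at h4
          exact hd.le_bot ⟨h5, h4⟩
        exact first_unique hX hJ hu1 hv1 (first_const hX hw huv hoff hu2) hv2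
      apply Set.Subsingleton.finite
      rintro _ ⟨u, ⟨hu, huN⟩, rfl⟩ _ ⟨v, ⟨hv, hvN⟩, rfl⟩
      rcases le_total u v with h | h
      · exact main u v h huN hvN hu hv
      · exact (main v u h hvN huN hv hu).symm
  have := key univ isCompact_univ
  simpa using this

/-- two legs cannot leave the centre on the same side of a segment -/
theorem two_legs {j a b p x y : X} (hab : seg j a ∩ seg j b ⊆ {j}) (hx : x ∈ seg j a)
    (hx' : x ∈ seg j p) (hy : y ∈ seg j b) (hy' : y ∈ seg j p) : x = j ∨ y = j := by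
  rcases seg_total hX hx' hy' with ⟨h, -⟩ | ⟨h, -⟩
  · exact Or.inl (hab ⟨hx, seg_left_sub hX hy h⟩)
  · exact Or.inr (hab ⟨seg_left_sub hX hx h, hy⟩)

/-- one leg of a triod with the centre on a segment leaves the segment at once -/
theorem exists_free_leg {j a b c p q : X} (hj : j ∈ seg p q) (ht : IsTriod j a b c) :
    seg a j ∩ seg p q ⊆ {j} ∨ seg b j ∩ seg p q ⊆ {j} ∨ seg c j ∩ seg p q ⊆ {j} := by
  by_contra hcon
  push Not at hcon
  obtain ⟨h1, h2, h3⟩ := hcon
  obtain ⟨x, ⟨hx, hx'⟩, hxj⟩ := not_subset.1 h1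
  obtain ⟨y, ⟨hy, hy'⟩, hyj⟩ := not_subset.1 h2
  obtain ⟨z, ⟨hz, hz'⟩, hzj⟩ := not_subset.1 h3
  rw [seg_comm hX] at hx hy hz
  rw [mem_singleton_iff] at hxj hyj hzj
  rw [← seg_union hX hj, seg_comm hX p j] at hx' hy' hz'
  rcases hx' with hx' | hx'
  · rcases hy' with hy' | hy'
    · rcases two_legs hX ht.ab hx hx' hy hy' with h | h
      · exact hxj h
      · exact hyj h
    · rcases hz' with hz' | hz'
      · rcases two_legs hX ht.ac hx hx' hz hz' with h | h
        · exact hxj h
        · exact hzj h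
      · rcases two_legs hX ht.bc hy hy' hz hz' with h | h
        · exact hyj h
        · exact hzj h
  · rcases hy' with hy' | hy'
    · rcases hz' with hz' | hz'
      · rcases two_legs hX ht.bc hy hy' hz hz' with h | h
        · exact hyj h
        · exact hzj h
      · rcases two_legs hX ht.ac hx hx' hz hz' with h | h
        · exact hxj h
        · exact hzj h
    · rcases two_legs hX ht.ab hx hx' hy hy' with h | h
      · exact hxj h
      · exact hyj h

/-- THE MOVING TRIOD LEMMA: the centre of a continuously moving triod does not move -/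
theorem moving_triod {g a b c : L → X} (hg : Continuous g) (ha : Continuous a)
    (hb : Continuous b) (hc : Continuous c) (ht : ∀ t, IsTriod (g t) (a t) (b t) (c t))
    {s t : L} (hst : s ≤ t) : g s = g t := by
  by_contra hne
  have hJc := isClosed_seg hX (g s) (g t)
  have hJ : ∀ x ∈ seg (g s) (g t), ∀ y ∈ seg (g s) (g t), seg x y ⊆ seg (g s) (g t) :=
    fun x hx y hy => seg_sub hX hx hy
  have hfa := finite_leg hX hJc hJ hg ha (fun u => (ht u).ne_a)
  have hfb := finite_leg hX hJc hJ hg hb (fun u => (ht u).ne_b)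
  have hfc := finite_leg hX hJc hJ hg hc (fun u => (ht u).ne_c)
  refine (seg_infinite hX hne) ((hfa.union (hfb.union hfc)).subset ?_)
  intro j hj
  obtain ⟨u, hu, rfl⟩ := seg_sub_image hX hg hst hj
  rcases exists_free_leg hX hj (ht u) with h | h | h
  · exact Or.inl ⟨u, ⟨hj, h⟩, rfl⟩
  · exact Or.inr (Or.inl ⟨u, ⟨hj, h⟩, rfl⟩)
  · exact Or.inr (Or.inr ⟨u, ⟨hj, h⟩, rfl⟩)

/-- maps which are injective and continuous on the triod preserve triods -/
theorem IsTriod.map_on {Y : Type*} [TopologicalSpace Y] [T2Space Y]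
    (hY : UniquelyArcwiseConnected Y) {o a b c : X} (ht : IsTriod o a b c) {f : X → Y} {U : Set X}
    (hf : ContinuousOn f U) (hi : InjOn f U) (ha : seg o a ⊆ U) (hb : seg o b ⊆ U)
    (hc : seg o c ⊆ U) : IsTriod (f o) (f a) (f b) (f c) := by
  have key : ∀ x y, seg o x ⊆ U → seg o y ⊆ U → seg o x ∩ seg o y ⊆ {o} →
      seg (f o) (f x) ∩ seg (f o) (f y) ⊆ {f o} := by
    intro x y hx hy h
    rw [← seg_image_on hX hY (hf.mono hx) (hi.mono hx),
      ← seg_image_on hX hY (hf.mono hy) (hi.mono hy), ← hi.image_inter hx hy]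
    rintro _ ⟨z, hz, rfl⟩
    rw [h hz]; rfl
  have ho : o ∈ U := ha (left_mem_seg hX o a)
  exact ⟨fun h => ht.ne_a (hi (ha (right_mem_seg hX o a)) ho h),
    fun h => ht.ne_b (hi (hb (right_mem_seg hX o b)) ho h),
    fun h => ht.ne_c (hi (hc (right_mem_seg hX o c)) ho h),
    key _ _ ha hb ht.ab, key _ _ hb hc ht.bc, key _ _ ha hc ht.ac⟩

theorem IsTriod.map {o a b c : X} (ht : IsTriod o a b c) {f : X → X} (hf : Continuous f)
    (hi : Function.Injective f) : IsTriod (f o) (f a) (f b) (f c) :=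
  ht.map_on hX hX (U := univ) hf.continuousOn hi.injOn (subset_univ _) (subset_univ _)
    (subset_univ _)

/-- a leg can be shortened to lie in a neighbourhood of the centre -/
theorem exists_short {o a : X} (hoa : a ≠ o) {U : Set X} (hU : U ∈ 𝓝 o) :
    ∃ a' ∈ seg o a, a' ≠ o ∧ seg o a' ⊆ U := by
  by_cases hne : (seg o a ∩ (interior U)ᶜ).Nonempty
  · obtain ⟨m, ⟨hm, hmU⟩, hfirst⟩ := exists_first hX isOpen_interior.isClosed_compl hne
    have ho : o ∈ interior U := mem_interior_iff_mem_nhds.2 hU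
    have hmo : o ≠ m := fun h => hmU (h ▸ ho)
    obtain ⟨a', ha', hne'⟩ := (seg_infinite hX hmo).exists_notMem_finite (toFinite ({o, m} : Set X))
    simp only [mem_insert_iff, mem_singleton_iff, not_or] at hne'
    refine ⟨a', seg_left_sub hX hm ha', hne'.1, fun y hy => interior_subset ?_⟩
    by_contra hyU
    have : y = m := hfirst ⟨seg_left_sub hX ha' hy, hyU⟩
    rw [this] at hy
    exact hne'.2 (seg_antisymm hX ha' hy)
  · refine ⟨a, right_mem_seg hX o a, hoa, fun y hy => interior_subset ?_⟩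
    by_contra hyU
    exact hne ⟨y, hy, hyU⟩

/-- triods with short legs -/
theorem IsTriod.short {o a b c : X} (ht : IsTriod o a b c) {U : Set X} (hU : U ∈ 𝓝 o) :
    ∃ a b c, IsTriod o a b c ∧ seg o a ⊆ U ∧ seg o b ⊆ U ∧ seg o c ⊆ U := by
  obtain ⟨a', ha, hao, haU⟩ := exists_short hX ht.ne_a hU
  obtain ⟨b', hb, hbo, hbU⟩ := exists_short hX ht.ne_b hU
  obtain ⟨c', hc, hco, hcU⟩ := exists_short hX ht.ne_c hU
  exact ⟨a', b', c', ⟨hao, hbo, hco,
    fun x hx => ht.ab ⟨seg_left_sub hX ha hx.1, seg_left_sub hX hb hx.2⟩,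
    fun x hx => ht.bc ⟨seg_left_sub hX hb hx.1, seg_left_sub hX hc hx.2⟩,
    fun x hx => ht.ac ⟨seg_left_sub hX ha hx.1, seg_left_sub hX hc hx.2⟩⟩, haU, hbU, hcU⟩

/-- ISOTOPY RIGIDITY (local form): a path of embeddings of a neighbourhood of the centre of a
triod fixes the centre -/
theorem isotopy_rigid {Y : Type*} [TopologicalSpace Y] [T2Space Y]
    (hY : UniquelyArcwiseConnected Y) {x : X} (hT : ∃ a b c, IsTriod x a b c) {U : Set X}
    (hU : U ∈ 𝓝 x) {F : L → X → Y} (hF : ∀ t, ContinuousOn (F t) U) (hI : ∀ t, InjOn (F t) U)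
    (hc : ∀ x ∈ U, Continuous fun t => F t x) (s t : L) : F s x = F t x := by
  obtain ⟨a, b, c, ht⟩ := hT
  obtain ⟨a, b, c, ht, haU, hbU, hcU⟩ := ht.short hX hU
  have key : ∀ s t : L, s ≤ t → F s x = F t x := by
    intro s t hst
    exact moving_triod hY (g := fun t => F t x) (a := fun t => F t a) (b := fun t => F t b)
      (c := fun t => F t c) (hc x (haU (left_mem_seg hX x a))) (hc a (haU (right_mem_seg hX x a)))
      (hc b (hbU (right_mem_seg hX x b))) (hc c (hcU (right_mem_seg hX x c)))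
      (fun t => ht.map_on hX hY (hF t) (hI t) haU hbU hcU) hst
  rcases le_total s t with h | h
  · exact key s t h
  · exact (key t s h).symm

end

end Pool.Agent.Work.UAC
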