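import Mathlib
import Pool.Agent.Work.MP_d430fe_gt.Triod

/-!
Arcs as compact connected ordered spaces, and isotopy rigidity over arcwise connected parameter
spaces.
-/

set_option autoImplicit false

namespace Pool.Agent.Work.UAC

open Set Topology Filter

section

variable {P : Type*} [TopologicalSpace P] {r : P → P → Prop} {A : Set P} {a b : P}

/-- the order of an arc -/
@[reducible] noncomputable def ArcOrd.linearOrder (h : ArcOrd r A a b) : LinearOrder A where
  le x y := r x y
  le_refl x := h.refl x.2
  le_trans x y z := h.trans x x.2 y y.2 z z.2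
  le_antisymm x y h1 h2 := Subtype.ext (h.antisymm x x.2 y y.2 h1 h2)
  le_total x y := h.total x x.2 y y.2
  toDecidableLE := Classical.decRel _

@[reducible] noncomputable def ArcOrd.boundedOrder (h : ArcOrd r A a b) :
    letI := h.linearOrder
    BoundedOrder A :=
  letI := h.linearOrder
  { top := ⟨b, h.right_mem⟩
    le_top := fun x => h.le_right x x.2
    bot := ⟨a, h.left_mem⟩
    bot_le := fun x => h.left_le x x.2 }

theorem ArcOrd.isClosed_Iic (h : ArcOrd r A a b) (x : A) :
    letI := h.linearOrder
    IsClosed (Iic x) := by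
  have := (h.closed_le x x.2).preimage (continuous_subtype_val (p := (· ∈ A)))
  convert this using 1
  ext y
  exact ⟨fun hy => ⟨y.2, hy⟩, fun hy => hy.2⟩

theorem ArcOrd.isClosed_Ici (h : ArcOrd r A a b) (x : A) :
    letI := h.linearOrder
    IsClosed (Ici x) := by
  have := (h.closed_ge x x.2).preimage (continuous_subtype_val (p := (· ∈ A)))
  convert this using 1
  ext y
  exact ⟨fun hy => ⟨y.2, hy⟩, fun hy => hy.2⟩

theorem ArcOrd.orderTopology (h : ArcOrd r A a b) :
    letI := h.linearOrder
    OrderTopology A := by
  letI := h.linearOrder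
  have hle : (instTopologicalSpaceSubtype : TopologicalSpace A) ≤ Preorder.topology A := by
    apply le_generateFrom
    rintro s ⟨x, rfl | rfl⟩
    · have := (h.isClosed_Iic x).isOpen_compl
      rwa [compl_Iic] at this
    · have := (h.isClosed_Ici x).isOpen_compl
      rwa [compl_Ici] at this
  refine ⟨le_antisymm hle ?_⟩
  have hcomp : CompactSpace A := isCompact_iff_compactSpace.1 h.isCompact
  -- the identity is a continuous bijection onto a Hausdorff space
  have hT2 : @T2Space A (Preorder.topology A) :=
    letI := Preorder.topology A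
    haveI : OrderTopology A := ⟨rfl⟩
    inferInstance
  have hcont : @Continuous A A instTopologicalSpaceSubtype (Preorder.topology A) id :=
    continuous_id_iff_le.2 hle
  have hcl := @Continuous.isClosedMap A A instTopologicalSpaceSubtype (Preorder.topology A) hcomp
    hT2 id hcont
  intro s hs
  have h1 := hcl sᶜ hs.isClosed_compl
  rw [image_id] at h1
  have h2 := @IsClosed.isOpen_compl A (Preorder.topology A) sᶜ h1
  rwa [compl_compl] at h2

theorem ArcOrd.compactSpace (h : ArcOrd r A a b) : CompactSpace A :=
  isCompact_iff_compactSpace.1 h.isCompact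

theorem ArcOrd.denselyOrdered (h : ArcOrd r A a b) :
    letI := h.linearOrder
    DenselyOrdered A := by
  letI := h.linearOrder
  refine ⟨fun x y hxy => ?_⟩
  by_contra hcon
  push Not at hcon
  have hpre : PreconnectedSpace A := isPreconnected_iff_preconnectedSpace.1 h.isPreconnected
  have := isPreconnected_closed_iff.1 hpre.isPreconnected_univ (Iic x) (Ici y) (h.isClosed_Iic x)
    (h.isClosed_Ici y) (by
      intro z _
      rcases le_or_gt z x with h1 | h1
      · exact Or.inl h1
      · exact Or.inr (hcon z h1)) ⟨x, trivial, mem_Iic.2 (le_refl x)⟩ ⟨y, trivial, mem_Ici.2 (le_refl y)⟩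
  obtain ⟨z, -, hz1, hz2⟩ := this
  exact absurd hxy (not_lt.2 (le_trans hz2 hz1))

end

/-- any two distinct points are the end points of an arc -/
def ArcwiseConnected (P : Type*) [TopologicalSpace P] : Prop :=
  ∀ a b : P, a ≠ b → ∃ A : Set P, IsArc A a b

variable {X : Type*} [TopologicalSpace X] [T2Space X]

/-- ISOTOPY RIGIDITY at the centre of a triod, for an arcwise connected parameter space -/
theorem rigid_at (hX : UniquelyArcwiseConnected X) {Y : Type*} [TopologicalSpace Y] [T2Space Y]
    (hY : UniquelyArcwiseConnected Y) {P : Type*} [TopologicalSpace P] (hP : ArcwiseConnected P)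
    {x : X} (hT : ∃ a b c, IsTriod x a b c) {U : Set X}
    (hU : U ∈ 𝓝 x) {F : P → X → Y} (hF : ∀ t, ContinuousOn (F t) U) (hI : ∀ t, InjOn (F t) U)
    (hc : ∀ x ∈ U, Continuous fun t => F t x) (s t : P) : F s x = F t x := by
  by_cases hst : s = t
  · rw [hst]
  obtain ⟨A, -, r, hr⟩ := hP s t hst
  letI := hr.linearOrder
  letI := hr.boundedOrder
  haveI := hr.denselyOrdered
  haveI := hr.orderTopology
  haveI := hr.compactSpace
  exact isotopy_rigid (L := A) hX hY hT hU (F := fun u : A => F u) (fun u => hF u) (fun u => hI u)
    (fun x hx => (hc x hx).comp continuous_subtype_val) ⟨s, hr.left_mem⟩ ⟨t, hr.right_mem⟩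

end Pool.Agent.Work.UAC
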