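import Mathlib
import Pool.Agent.Work.MP_d430fe_gt.Club
import Pool.Agent.Work.MP_d430fe_gt.Triod
import Pool.Agent.Work.MP_d430fe_gt.Lots

/-!
Corson compact spaces: they have points with a countable local base, and in a uniquely arcwise
connected one every countable set is contained in a metrizable closed convex set.
-/

set_option autoImplicit false

namespace Pool.Agent.Work.UAC

open Set Topology Filter

section

variable {X Γ : Type*} [TopologicalSpace X] {e : X → Γ → ℝ}

/-- `e` embeds the space into a sigma-product of real lines -/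
structure CorsonEmb (e : X → Γ → ℝ) : Prop where
  cont : Continuous e
  inj : Function.Injective e
  supp : ∀ x, {γ | e x γ ≠ 0}.Countable

variable (he : CorsonEmb e)

include he

theorem CorsonEmb.cont_apply (γ : Γ) : Continuous fun x => e x γ :=
  (continuous_apply γ).comp he.cont

/-- a point which is determined by its nonzero coordinates -/
theorem CorsonEmb.exists_maximal [CompactSpace X] [Nonempty X] :
    ∃ x, ∀ y, (∀ γ, e x γ ≠ 0 → e y γ = e x γ) → y = x := by
  let le : X → X → Prop := fun x y => ∀ γ, e x γ ≠ 0 → e y γ = e x γ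
  have htr : ∀ {a b c : X}, le a b → le b c → le a c := by
    intro a b c hab hbc γ hγ
    have h1 := hab γ hγ
    rw [← h1] at hγ ⊢
    exact hbc γ hγ
  have hcl : ∀ x, IsClosed {y | le x y} := by
    intro x
    have : {y | le x y} = ⋂ γ ∈ {γ | e x γ ≠ 0}, {y | e y γ = e x γ} := by
      ext y; simp [le]
    rw [this]
    exact isClosed_biInter fun γ _ => isClosed_eq (he.cont_apply γ) continuous_const
  obtain ⟨m, hm⟩ := exists_maximal_of_chains_bounded (r := le) (by
    intro c hc
    rcases c.eq_empty_or_nonempty with rfl | hne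
    · obtain ⟨x⟩ := ‹Nonempty X›
      exact ⟨x, fun a ha => absurd ha (notMem_empty a)⟩
    · have : Nonempty c := hne.to_subtype
      obtain ⟨y, hy⟩ := IsCompact.nonempty_iInter_of_directed_nonempty_isCompact_isClosed
        (fun x : c => {y | le (x : X) y})
        (by
          rintro ⟨a, ha⟩ ⟨b, hb⟩
          by_cases hab : a = b
          · subst hab
            exact ⟨⟨a, ha⟩, Subset.rfl, Subset.rfl⟩
          rcases hc ha hb hab with h | h
          · exact ⟨⟨b, hb⟩, fun z hz => htr h hz, Subset.rfl⟩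
          · exact ⟨⟨a, ha⟩, Subset.rfl, fun z hz => htr h hz⟩)
        (fun x => ⟨x, fun γ _ => rfl⟩) (fun x => (hcl x).isCompact) (fun x => hcl x)
      exact ⟨y, fun a ha => mem_iInter.1 hy ⟨a, ha⟩⟩)
    (fun {a b c} => htr)
  refine ⟨m, fun y hy => ?_⟩
  have h1 := hm y hy
  apply he.inj
  funext γ
  by_cases h : e m γ = 0
  · by_contra hne
    rw [h] at hne
    exact hne ((h1 γ hne).symm.trans h)
  · exact hy γ h

/-- a countable local base at some point -/
theorem CorsonEmb.exists_base [CompactSpace X] [Nonempty X] :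
    ∃ (p : X) (B : ℕ → Set X), (∀ n, IsOpen (B n) ∧ (B n).Nonempty) ∧
      ∀ O : Set X, IsOpen O → p ∈ O → ∃ n, B n ⊆ O := by
  obtain ⟨p, hp⟩ := he.exists_maximal
  have : Countable {γ | e p γ ≠ 0} := (he.supp p).to_subtype
  let g : X → {γ | e p γ ≠ 0} → ℝ := fun x γ => e x γ
  have hg : Continuous g := continuous_pi fun γ => he.cont_apply γ
  obtain ⟨V, hV⟩ := (𝓝 (g p)).exists_antitone_basis
  refine ⟨p, fun n => g ⁻¹' interior (V n), fun n => ⟨isOpen_interior.preimage hg, p, ?_⟩, ?_⟩
  · exact mem_interior_iff_mem_nhds.2 (hV.1.mem_of_mem trivial)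
  · intro O hO hpO
    have h1 : IsClosed (g '' Oᶜ) := (hO.isClosed_compl.isCompact.image hg).isClosed
    have h2 : g p ∉ g '' Oᶜ := by
      rintro ⟨y, hy, hyp⟩
      have : y = p := hp y fun γ hγ => congrFun hyp ⟨γ, hγ⟩
      exact hy (this ▸ hpO)
    obtain ⟨n, -, hn⟩ := hV.1.mem_iff.1 (h1.isOpen_compl.mem_nhds h2)
    refine ⟨n, fun x hx => ?_⟩
    by_contra hxO
    exact hn (interior_subset hx) ⟨x, hxO, rfl⟩

/-- countable sets which are dense in the finite projections -/
theorem CorsonEmb.exists_dense [Nonempty X] (s : Finset Γ) :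
    ∃ D : Set X, D.Countable ∧ ∀ (x : X) (ε : ℝ), 0 < ε → ∃ d ∈ D, ∀ γ ∈ s, |e d γ - e x γ| < ε := by
  let g : X → s → ℝ := fun x γ => e x γ
  have : Nonempty (range g) := ⟨⟨g (Classical.arbitrary X), mem_range_self _⟩⟩
  let q : ℕ → range g := TopologicalSpace.denseSeq (range g)
  choose d hd using fun n => (q n).2
  refine ⟨range d, countable_range d, ?_⟩
  intro x ε hε
  obtain ⟨n, hn⟩ := (TopologicalSpace.denseRange_denseSeq (range g)).exists_dist_lt
    ⟨g x, mem_range_self x⟩ hε
  refine ⟨d n, mem_range_self n, ?_⟩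
  intro γ hγ
  have h1 : dist (g x) (q n : s → ℝ) < ε := hn
  rw [← hd n] at h1
  have h2 := (dist_le_pi_dist (g x) (g (d n)) ⟨γ, hγ⟩).trans_lt h1
  rw [dist_comm, Real.dist_eq] at h2
  exact h2

/-- RETRACTIONS: every countable set is contained in a metrizable retract -/
theorem CorsonEmb.exists_retract [CompactSpace X] [Nonempty X] {D : Set X} (hD : D.Countable) :
    ∃ R : Set X, IsClosed R ∧ SecondCountableTopology R ∧ D ⊆ R ∧
      ∃ r : X → X, Continuous r ∧ (∀ x, r x ∈ R) ∧ ∀ x ∈ R, r x = x := by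
  have hT2 : T2Space X := T2Space.of_injective_continuous he.inj he.cont
  have hemb : IsEmbedding e := (he.cont.isClosedEmbedding he.inj).isEmbedding
  choose E hE1 hE2 using he.exists_dense
  have hF : ∀ s : Finset Γ, (⋃ d ∈ E s, {γ | e d γ ≠ 0}).Countable := fun s =>
    (hE1 s).biUnion fun d _ => he.supp d
  obtain ⟨A, hA1, hA2, hA3⟩ := exists_closedUnder hF
    (hD.biUnion fun d _ => he.supp d : (⋃ d ∈ D, {γ | e d γ ≠ 0}).Countable)
  have : Countable A := hA1.to_subtype
  set R : Set X := {x | ∀ γ, γ ∉ A → e x γ = 0} with hR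
  have hRc : IsClosed R := by
    have : R = ⋂ γ ∈ Aᶜ, {x | e x γ = 0} := by ext x; simp [hR]
    rw [this]
    exact isClosed_biInter fun γ _ => isClosed_eq (he.cont_apply γ) continuous_const
  have hRs : SecondCountableTopology R := by
    have : CompactSpace R := isCompact_iff_compactSpace.1 hRc.isCompact
    let g : R → A → ℝ := fun x γ => e (x : X) γ
    have hg : Continuous g := continuous_pi fun γ =>
      (he.cont_apply γ).comp continuous_subtype_val
    have hgi : Function.Injective g := by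
      intro x y hxy
      apply Subtype.ext
      apply he.inj
      funext γ
      by_cases hγ : γ ∈ A
      · exact congrFun hxy ⟨γ, hγ⟩
      · rw [x.2 γ hγ, y.2 γ hγ]
    exact (hg.isClosedEmbedding hgi).isEmbedding.secondCountableTopology
  have hDR : D ⊆ R := by
    intro d hd γ hγ
    by_contra hne
    exact hγ (hA2 (mem_iUnion₂.2 ⟨d, hd, hne⟩))
  have hex : ∀ x, ∃ y ∈ R, ∀ γ ∈ A, e y γ = e x γ := by
    intro x
    classical
    let K : Finset A × ℕ → Set X := fun p =>
      {y | y ∈ R ∧ ∀ γ ∈ p.1, |e y (γ : Γ) - e x (γ : Γ)| ≤ 1 / ((p.2 : ℝ) + 1)}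
    have hK : ∀ p, IsClosed (K p) := by
      intro p
      have : K p = R ∩ ⋂ γ ∈ p.1, {y | |e y (γ : Γ) - e x (γ : Γ)| ≤ 1 / ((p.2 : ℝ) + 1)} := by
        ext y; simp [K]
      rw [this]
      refine hRc.inter (isClosed_biInter fun γ _ => isClosed_le ?_ continuous_const)
      exact ((he.cont_apply γ).sub continuous_const).abs
    obtain ⟨y, hy⟩ := IsCompact.nonempty_iInter_of_directed_nonempty_isCompact_isClosed K
      (by
        rintro ⟨s, n⟩ ⟨t, m⟩
        refine ⟨(s ∪ t, max n m), ?_, ?_⟩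
        · rintro y ⟨hy1, hy2⟩
          refine ⟨hy1, fun γ hγ => (hy2 γ (Finset.mem_union_left _ hγ)).trans ?_⟩
          apply one_div_le_one_div_of_le (by positivity)
          have : (n : ℝ) ≤ ((max n m : ℕ) : ℝ) := by exact_mod_cast le_max_left n m
          show (n : ℝ) + 1 ≤ ((max n m : ℕ) : ℝ) + 1
          linarith
        · rintro y ⟨hy1, hy2⟩
          refine ⟨hy1, fun γ hγ => (hy2 γ (Finset.mem_union_right _ hγ)).trans ?_⟩
          apply one_div_le_one_div_of_le (by positivity)
          have : (m : ℝ) ≤ ((max n m : ℕ) : ℝ) := by exact_mod_cast le_max_right n m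
          show (m : ℝ) + 1 ≤ ((max n m : ℕ) : ℝ) + 1
          linarith)
      (by
        rintro ⟨s, n⟩
        have hs : (↑(s.map (Function.Embedding.subtype _)) : Set Γ) ⊆ A := by
          intro γ hγ
          rw [Finset.mem_coe, Finset.mem_map] at hγ
          obtain ⟨γ', -, rfl⟩ := hγ
          exact γ'.2
        obtain ⟨d, hd, hd'⟩ := hE2 (s.map (Function.Embedding.subtype _)) x
          (1 / ((n : ℝ) + 1)) (by positivity)
        refine ⟨d, ?_, fun γ hγ => (hd' γ (Finset.mem_map.2 ⟨γ, hγ, rfl⟩)).le⟩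
        intro γ hγ
        by_contra hne
        exact hγ (hA3 _ hs (mem_iUnion₂.2 ⟨d, hd, hne⟩)))
      (fun p => (hK p).isCompact) hK
    rw [mem_iInter] at hy
    refine ⟨y, (hy (∅, 0)).1, ?_⟩
    intro γ hγ
    have h1 : ∀ n : ℕ, |e y γ - e x γ| ≤ 1 / ((n : ℝ) + 1) := fun n =>
      (hy ({⟨γ, hγ⟩}, n)).2 ⟨γ, hγ⟩ (Finset.mem_singleton_self _)
    have h2 : |e y γ - e x γ| ≤ 0 := ge_of_tendsto' tendsto_one_div_add_atTop_nhds_zero_nat h1
    exact sub_eq_zero.1 (abs_nonpos_iff.1 h2)
  choose r hr1 hr2 using hex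
  refine ⟨R, hRc, hRs, hDR, r, ?_, hr1, ?_⟩
  · rw [hemb.continuous_iff, continuous_pi_iff]
    intro γ
    by_cases hγ : γ ∈ A
    · have : (fun x => (e ∘ r) x γ) = fun x => e x γ := funext fun x => hr2 x γ hγ
      rw [this]
      exact he.cont_apply γ
    · have : (fun x => (e ∘ r) x γ) = fun _ => 0 := funext fun x => hr1 x γ hγ
      rw [this]
      exact continuous_const
  · intro x hx
    apply he.inj
    funext γ
    by_cases hγ : γ ∈ A
    · exact hr2 x γ hγ
    · rw [hr1 x γ hγ, hx γ hγ]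

end

/-- retracts are convex -/
theorem convex_of_retract {X : Type*} [TopologicalSpace X] [T2Space X]
    (hX : UniquelyArcwiseConnected X) {R : Set X} {r : X → X} (hr : Continuous r)
    (hrR : ∀ x, r x ∈ R) (hrx : ∀ x ∈ R, r x = x) : ∀ p ∈ R, ∀ q ∈ R, seg p q ⊆ R := by
  intro p hp q hq
  obtain ⟨s, hs⟩ := exists_ord hX p q
  letI := hs.linearOrder
  letI := hs.boundedOrder
  have := hs.denselyOrdered
  have := hs.orderTopology
  have := hs.compactSpace
  have h1 := seg_sub_range hX (L := seg p q) (w := fun u : seg p q => r (u : X))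
    (hr.comp continuous_subtype_val)
  have h2 : r ((⊥ : seg p q) : X) = p := hrx p hp
  have h3 : r ((⊤ : seg p q) : X) = q := hrx q hq
  simp only [h2, h3] at h1
  intro u hu
  obtain ⟨v, hv⟩ := h1 hu
  rw [← hv]
  exact hrR _

end Pool.Agent.Work.UAC
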