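import Mathlib
import Pool.Agent.Work.MP_d430fe_gt.BanachCat

/-!
Analytic sets are meagre or comeagre in a nonempty open set.
-/

set_option autoImplicit false

namespace Pool.Agent.Work.UAC

open Set Topology Filter

variable {Y : Type*} [TopologicalSpace Y]

/-- the complement of the largest open set in which `S` is meagre -/
def hull (S : Set Y) : Set Y := (⋃₀ {U | IsOpen U ∧ IsMeagre (U ∩ S)})ᶜ

theorem isClosed_hull (S : Set Y) : IsClosed (hull S) :=
  (isOpen_sUnion fun _ h => h.1).isClosed_compl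

theorem hull_disjoint {S U : Set Y} (hU : IsOpen U) (h : IsMeagre (U ∩ S)) :
    U ∩ hull S = ∅ := by
  rw [← disjoint_iff_inter_eq_empty, Set.disjoint_left]
  intro x hx hxh
  exact hxh ⟨U, ⟨hU, h⟩, hx⟩

theorem hull_sub_closure (S : Set Y) : hull S ⊆ closure S := by
  intro x hx
  by_contra h
  have h1 : IsMeagre ((closure S)ᶜ ∩ S) := by
    have : (closure S)ᶜ ∩ S = ∅ := by
      rw [← disjoint_iff_inter_eq_empty]
      exact Disjoint.mono_right subset_closure disjoint_compl_left
    rw [this]
    exact IsMeagre.empty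
  exact hx ⟨_, ⟨isClosed_closure.isOpen_compl, h1⟩, h⟩

/-- Banach category theorem -/
theorem isMeagre_diff_hull (S : Set Y) : IsMeagre (S \ hull S) := by
  rw [← cov_nat_iff]
  apply (localIdeal_cov ℕ).loc
  set G : Set Y := ⋃₀ {U | IsOpen U ∧ IsMeagre (U ∩ S)} with hG
  have hGo : IsOpen G := isOpen_sUnion fun _ h => h.1
  have hsub : G ∪ (closure G)ᶜ ⊆ ⋃₀ {U | IsOpen U ∧ Cov ℕ (U ∩ (S \ hull S))} := by
    rintro x (⟨U, ⟨hU, hUS⟩, hxU⟩ | hx)
    · refine ⟨U, ⟨hU, ?_⟩, hxU⟩
      rw [cov_nat_iff]
      exact hUS.mono (inter_subset_inter_right _ sdiff_subset)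
    · refine ⟨(closure G)ᶜ, ⟨isClosed_closure.isOpen_compl, ?_⟩, hx⟩
      rw [cov_nat_iff]
      have : (closure G)ᶜ ∩ (S \ hull S) = ∅ := by
        rw [← disjoint_iff_inter_eq_empty, Set.disjoint_left]
        rintro y hy ⟨-, hyh⟩
        rw [hull, mem_compl_iff, not_not] at hyh
        exact hy (subset_closure hyh)
      rw [this]
      exact IsMeagre.empty
  refine Dense.mono hsub ?_
  intro x
  by_cases hx : x ∈ closure G
  · exact closure_mono subset_union_left hx
  · exact subset_closure (Or.inr hx)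

theorem isMeagre_closed_diff {K : Set Y} (hK : IsClosed K) : IsMeagre (K \ interior K) := by
  have : K \ interior K = frontier K := by rw [frontier, hK.closure_eq]
  rw [this]
  exact (isClosed_frontier.isNowhereDense_iff.2 (interior_frontier hK)).isMeagre

/-- the hull of a countable union -/
theorem isMeagre_hull_diff {S : Set Y} {T : ℕ → Set Y} (h : S ⊆ ⋃ n, T n) :
    IsMeagre (hull S \ ⋃ n, hull (T n)) := by
  set V : Set Y := ⋃ n, interior (hull (T n)) with hV
  have hVo : IsOpen V := isOpen_iUnion fun n => isOpen_interior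
  have hW : interior (hull S) \ closure V = ∅ := by
    have hWo : IsOpen (interior (hull S) \ closure V) := isOpen_interior.sdiff isClosed_closure
    have h1 : IsMeagre ((interior (hull S) \ closure V) ∩ S) := by
      have h2 : IsMeagre (⋃ n, ((hull (T n) \ interior (hull (T n))) ∪ (T n \ hull (T n)))) :=
        isMeagre_iUnion fun n => (isMeagre_closed_diff (isClosed_hull _)).union
          (isMeagre_diff_hull _)
      refine h2.mono ?_
      rintro x ⟨⟨-, hx2⟩, hxS⟩
      obtain ⟨n, hn⟩ := mem_iUnion.1 (h hxS)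
      refine mem_iUnion.2 ⟨n, ?_⟩
      by_cases hx : x ∈ hull (T n)
      · left
        refine ⟨hx, fun hx' => hx2 (subset_closure (mem_iUnion.2 ⟨n, hx'⟩))⟩
      · exact Or.inr ⟨hn, hx⟩
    have h2 := hull_disjoint hWo h1
    rw [eq_empty_iff_forall_notMem] at h2 ⊢
    intro x hx
    exact h2 x ⟨hx, interior_subset hx.1⟩
  have h3 : IsMeagre (closure V \ V) := by
    have : closure V \ V = frontier V := by rw [frontier, hVo.interior_eq]
    rw [this]
    refine (isClosed_frontier.isNowhereDense_iff.2 ?_).isMeagre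
    rw [← frontier_compl]
    exact interior_frontier hVo.isClosed_compl
  refine ((isMeagre_closed_diff (isClosed_hull S)).union h3).mono ?_
  rintro x ⟨hx1, hx2⟩
  by_cases hx : x ∈ interior (hull S)
  · right
    refine ⟨?_, fun h => ?_⟩
    · by_contra hc
      have : x ∈ interior (hull S) \ closure V := ⟨hx, hc⟩
      rw [hW] at this
      exact this
    · obtain ⟨n, hn⟩ := mem_iUnion.1 h
      exact hx2 (mem_iUnion.2 ⟨n, interior_subset hn⟩)
  · exact Or.inl ⟨hx1, hx⟩

/-- the sequences extending a finite sequence -/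
def cyl (l : List ℕ) : Set (ℕ → ℕ) := {ψ | (List.range l.length).map ψ = l}

theorem cyl_sub (l : List ℕ) : cyl l ⊆ ⋃ n, cyl (l ++ [n]) := by
  intro ψ hψ
  refine mem_iUnion.2 ⟨ψ l.length, ?_⟩
  have h1 : (List.range l.length).map ψ = l := hψ
  show (List.range (l ++ [ψ l.length]).length).map ψ = l ++ [ψ l.length]
  rw [List.length_append, List.length_singleton, List.range_succ, List.map_append, h1]
  rfl

theorem cyl_nhds {φ : ℕ → ℕ} {U : Set (ℕ → ℕ)} (hU : IsOpen U) (hφ : φ ∈ U) :
    ∃ n, cyl ((List.range n).map φ) ⊆ U := by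
  obtain ⟨I, u, h1, h2⟩ := isOpen_pi_iff.1 hU φ hφ
  refine ⟨I.sup id + 1, fun ψ hψ => h2 ?_⟩
  intro i hi
  have h3 : ψ i = φ i := by
    have h4 : (List.range ((List.range (I.sup id + 1)).map φ).length).map ψ =
      (List.range (I.sup id + 1)).map φ := hψ
    rw [List.length_map, List.length_range] at h4
    have h5 : i < I.sup id + 1 := Nat.lt_succ_of_le (Finset.le_sup (f := id) hi)
    exact (List.map_inj_left.1 h4) i (List.mem_range.2 h5)
  rw [h3]
  exact (h1 i hi).2

/-- analytic sets are meagre or comeagre in a nonempty open set -/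
theorem analytic_dichotomy [T2Space Y] {A : Set Y} (hA : MeasureTheory.AnalyticSet A) :
    IsMeagre A ∨ ∃ U : Set Y, IsOpen U ∧ U.Nonempty ∧ IsMeagre (U \ A) := by
  rw [MeasureTheory.AnalyticSet] at hA
  rcases hA with rfl | ⟨f, hf, rfl⟩
  · exact Or.inl IsMeagre.empty
  set Q : Set Y := ⋃ l : List ℕ, (hull (f '' cyl l) \ ⋃ n, hull (f '' cyl (l ++ [n]))) with hQ
  have hQm : IsMeagre Q := isMeagre_iUnion fun l => isMeagre_hull_diff (by
    rw [← image_iUnion]
    exact image_mono (cyl_sub l))
  have key : hull (f '' cyl []) \ Q ⊆ range f := by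
    rintro y ⟨hy, hyQ⟩
    have hnext : ∀ l : List ℕ, y ∈ hull (f '' cyl l) → ∃ n, y ∈ hull (f '' cyl (l ++ [n])) := by
      intro l hl
      by_contra hcon
      exact hyQ (mem_iUnion.2 ⟨l, hl, fun h => hcon (mem_iUnion.1 h)⟩)
    choose! next hnext' using hnext
    let L : ℕ → List ℕ := fun n => Nat.rec [] (fun _ l => l ++ [next l]) n
    have hL : ∀ n, L (n + 1) = L n ++ [next (L n)] := fun n => rfl
    set φ : ℕ → ℕ := fun n => next (L n) with hφ
    have hLφ : ∀ n, L n = (List.range n).map φ := by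
      intro n
      induction n with
      | zero => rfl
      | succ n ih => rw [hL, List.range_succ, List.map_append, ← ih]; rfl
    have hyL : ∀ n, y ∈ hull (f '' cyl (L n)) := by
      intro n
      induction n with
      | zero => exact hy
      | succ n ih => rw [hL]; exact hnext' _ ih
    refine ⟨φ, ?_⟩
    by_contra hne
    obtain ⟨G, H, hG, hH, h1, h2, h3⟩ := t2_separation hne
    obtain ⟨n, hn⟩ := cyl_nhds (hG.preimage hf) h1
    rw [← hLφ] at hn
    obtain ⟨z, hz1, ψ, hψ, rfl⟩ := mem_closure_iff.1 (hull_sub_closure _ (hyL n)) H hH h2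
    exact Set.disjoint_left.1 h3 (hn hψ) hz1
  have hcyl : f '' cyl [] = range f := by
    have : cyl [] = univ := eq_univ_of_forall fun ψ => rfl
    rw [this, image_univ]
  rw [hcyl] at key
  by_cases hi : (interior (hull (range f))).Nonempty
  · right
    refine ⟨_, isOpen_interior, hi, hQm.mono ?_⟩
    rintro y ⟨hy, hyr⟩
    by_contra hyQ
    exact hyr (key ⟨interior_subset hy, hyQ⟩)
  · left
    rw [not_nonempty_iff_eq_empty] at hi
    have h1 := isMeagre_closed_diff (isClosed_hull (range f))
    rw [hi, sdiff_empty] at h1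
    refine (h1.union (isMeagre_diff_hull (range f))).mono ?_
    intro y hy
    by_cases hy' : y ∈ hull (range f)
    · exact Or.inl hy'
    · exact Or.inr ⟨hy, hy'⟩

end Pool.Agent.Work.UAC
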