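import Mathlib
import Pool.Agent.Work.MP_d430fe_gt.Club

/-!
Category along the closures of the sets of a given size: closed unbounded families of sets of
cardinality at most `κ`, and the ideals of the sets whose traces on the closures of these sets are
meagre.
-/

set_option autoImplicit false

universe u

namespace Pool.Agent.Work.UAC

open Set Topology Filter Cardinal

section ClubK

variable {X : Type u} {κ : Cardinal.{u}}

/-- families which contain all sets of size at most `κ` closed under some function -/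
def ClubK (κ : Cardinal.{u}) (C : Set (Set X)) : Prop :=
  ∃ F : Finset X → Set X, (∀ s, #(F s) ≤ κ) ∧
    ∀ D : Set X, #D ≤ κ → ClosedUnder F D → D ∈ C

theorem mk_union_le' (hκ : ℵ₀ ≤ κ) {A B : Set X} (hA : #A ≤ κ) (hB : #B ≤ κ) :
    #(A ∪ B : Set X) ≤ κ :=
  (mk_union_le A B).trans (add_le_of_le hκ hA hB)

theorem mk_iUnion_le' (hκ : ℵ₀ ≤ κ) {ι : Type u} (hι : #ι ≤ κ) {f : ι → Set X}
    (hf : ∀ i, #(f i) ≤ κ) : #(⋃ i, f i : Set X) ≤ κ := by
  refine (mk_iUnion_le f).trans ?_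
  refine (mul_le_mul' hι (ciSup_le' hf)).trans ?_
  exact (mul_eq_self hκ).le

theorem mk_biUnion_le' (hκ : ℵ₀ ≤ κ) {α : Type u} {I : Set α} (hI : #I ≤ κ) {f : α → Set X}
    (hf : ∀ i ∈ I, #(f i) ≤ κ) : #(⋃ i ∈ I, f i : Set X) ≤ κ := by
  rw [biUnion_eq_iUnion]
  exact mk_iUnion_le' hκ hI fun i => hf i i.2

theorem mk_finset_le' (hκ : ℵ₀ ≤ κ) {α : Type u} (s : Finset α) : #(s : Set α) ≤ κ :=
  ((Cardinal.lt_aleph0_of_finite _).le).trans hκ

theorem mk_countable_le' (hκ : ℵ₀ ≤ κ) {A : Set X} (hA : A.Countable) : #A ≤ κ :=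
  (Cardinal.le_aleph0_iff_set_countable.2 hA).trans hκ

theorem ClubK.mono {C C' : Set (Set X)} (h : ClubK κ C) (hs : C ⊆ C') : ClubK κ C' := by
  obtain ⟨F, h1, h2⟩ := h
  exact ⟨F, h1, fun D hD hc => hs (h2 D hD hc)⟩

theorem ClubK.iInter (hκ : ℵ₀ ≤ κ) {ι : Type u} (hι : #ι ≤ κ) {C : ι → Set (Set X)}
    (h : ∀ n, ClubK κ (C n)) : ClubK κ (⋂ n, C n) := by
  choose F h1 h2 using h
  refine ⟨fun s => ⋃ n, F n s, fun s => mk_iUnion_le' hκ hι fun n => h1 n s, ?_⟩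
  intro D hD hc
  rw [mem_iInter]
  intro n
  exact h2 n D hD fun s hs => (subset_iUnion (fun n => F n s) n).trans (hc s hs)

theorem ClubK.inter (hκ : ℵ₀ ≤ κ) {C C' : Set (Set X)} (h : ClubK κ C) (h' : ClubK κ C') :
    ClubK κ (C ∩ C') := by
  obtain ⟨F, h1, h2⟩ := h
  obtain ⟨F', h1', h2'⟩ := h'
  refine ⟨fun s => F s ∪ F' s, fun s => mk_union_le' hκ (h1 s) (h1' s), ?_⟩
  intro D hD hc
  exact ⟨h2 D hD fun s hs => subset_union_left.trans (hc s hs),
    h2' D hD fun s hs => subset_union_right.trans (hc s hs)⟩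

theorem ClubK.diag (hκ : ℵ₀ ≤ κ) {C : X → Set (Set X)} (h : ∀ x, ClubK κ (C x)) :
    ClubK κ {D | ∀ x ∈ D, D ∈ C x} := by
  classical
  choose F h1 h2 using h
  refine ⟨fun s => ⋃ x ∈ (s : Set X), ⋃ t ∈ ((s.powerset : Finset (Finset X)) : Set (Finset X)),
    F x t, ?_, ?_⟩
  · intro s
    exact mk_biUnion_le' hκ (mk_finset_le' hκ s) fun x _ =>
      mk_biUnion_le' hκ (mk_finset_le' hκ _) fun t _ => h1 x t
  · intro D hD hc x hx
    refine h2 x D hD fun t ht => ?_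
    have h3 := hc (insert x t) (by
      rw [Finset.coe_insert]
      exact insert_subset hx ht)
    refine Subset.trans ?_ h3
    intro y hy
    refine mem_iUnion₂.2 ⟨x, Finset.mem_coe.2 (Finset.mem_insert_self _ _),
      mem_iUnion₂.2 ⟨t, ?_, hy⟩⟩
    exact Finset.mem_coe.2 (Finset.mem_powerset.2 (Finset.subset_insert _ _))

theorem clubK_superset {E : Set X} (hE : #E ≤ κ) : ClubK κ {D | E ⊆ D} :=
  ⟨fun _ => E, fun _ => hE, fun D _ hc => hc ∅ (by simp)⟩

/-- closure under a function of one variable -/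
theorem clubK_unary (hκ : ℵ₀ ≤ κ) {F : X → Set X} (hF : ∀ x, #(F x) ≤ κ) :
    ClubK κ {D | ∀ x ∈ D, F x ⊆ D} :=
  ClubK.diag hκ fun x => clubK_superset (hF x)

theorem clubK_fun (hκ : ℵ₀ ≤ κ) (f : X → X) : ClubK κ {D | ∀ x ∈ D, f x ∈ D} := by
  refine (clubK_unary hκ (F := fun x => {f x}) fun x =>
    mk_countable_le' hκ (countable_singleton _)).mono ?_
  intro D hD x hx
  exact hD x hx rfl

theorem exists_closedUnderK (hκ : ℵ₀ ≤ κ) {F : Finset X → Set X} (hF : ∀ s, #(F s) ≤ κ)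
    {E : Set X} (hE : #E ≤ κ) : ∃ D : Set X, #D ≤ κ ∧ E ⊆ D ∧ ClosedUnder F D := by
  classical
  let step : Set X → Set X := fun D => D ∪ ⋃ s ∈ {s : Finset X | (s : Set X) ⊆ D}, F s
  have hstep : ∀ D : Set X, #D ≤ κ → #(step D) ≤ κ := by
    intro D hD
    refine mk_union_le' hκ hD (mk_biUnion_le' hκ ?_ fun s _ => hF s)
    have h1 : #{s : Finset X | (s : Set X) ⊆ D} ≤ #(Finset D) := by
      refine Cardinal.mk_le_of_injective (f := fun s => (s : Finset X).subtype (· ∈ D)) ?_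
      intro s t hst
      apply Subtype.ext
      have h2 := congrArg (fun w : Finset D => w.map (Function.Embedding.subtype _)) hst
      simp only [Finset.subtype_map] at h2
      rw [Finset.filter_true_of_mem (fun x hx => s.2 hx),
        Finset.filter_true_of_mem (fun x hx => t.2 hx)] at h2
      exact h2
    refine h1.trans ?_
    rcases finite_or_infinite D with hf | hi
    · exact (Cardinal.lt_aleph0_of_finite _).le.trans hκ
    · rw [Cardinal.mk_finset_of_infinite]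
      exact hD
  let seq : ℕ → Set X := fun n => step^[n] E
  have hsucc : ∀ n, seq (n + 1) = step (seq n) := fun n => Function.iterate_succ_apply' _ _ _
  have hmono : Monotone seq := monotone_nat_of_le_succ fun n => by
    rw [hsucc]; exact subset_union_left
  refine ⟨⋃ n : ULift.{u} ℕ, seq n.down, ?_, ?_, ?_⟩
  · refine mk_iUnion_le' hκ (by simpa using hκ) fun n => ?_
    induction n.down with
    | zero => exact hE
    | succ n ih => rw [hsucc]; exact hstep _ ih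
  · exact subset_iUnion (fun n : ULift.{u} ℕ => seq n.down) ⟨0⟩
  · intro s hs
    have hs' : (s : Set X) ⊆ ⋃ n, seq n := by
      intro x hx
      obtain ⟨n, hn⟩ := mem_iUnion.1 (hs hx)
      exact mem_iUnion.2 ⟨n.down, hn⟩
    obtain ⟨n, hn⟩ := hmono.directed_le.exists_mem_subset_of_finset_subset_biUnion hs'
    refine Subset.trans ?_ (subset_iUnion (fun n : ULift.{u} ℕ => seq n.down) ⟨n + 1⟩)
    show F s ⊆ seq (n + 1)
    rw [hsucc]
    exact subset_union_of_subset_right (subset_biUnion_of_mem (u := fun s => F s) hn) _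

theorem ClubK.exists_superset (hκ : ℵ₀ ≤ κ) {C : Set (Set X)} (hC : ClubK κ C) {E : Set X}
    (hE : #E ≤ κ) : ∃ D : Set X, #D ≤ κ ∧ E ⊆ D ∧ D ∈ C := by
  obtain ⟨F, h1, h2⟩ := hC
  obtain ⟨D, hD1, hD2, hD3⟩ := exists_closedUnderK hκ h1 hE
  exact ⟨D, hD1, hD2, h2 D hD1 hD3⟩

/-- families which meet all closed unbounded families in sets of size at most `κ` -/
def StatK (κ : Cardinal.{u}) (S : Set (Set X)) : Prop :=
  ∀ C, ClubK κ C → ∃ D ∈ S, #D ≤ κ ∧ D ∈ C

theorem statK_univ (hκ : ℵ₀ ≤ κ) : StatK κ (univ : Set (Set X)) := by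
  intro C hC
  obtain ⟨D, hD1, -, hD3⟩ := hC.exists_superset hκ (E := ∅) (by simp)
  exact ⟨D, trivial, hD1, hD3⟩

theorem exists_club_of_not_statK {S : Set (Set X)} (h : ¬ StatK κ S) :
    ∃ C, ClubK κ C ∧ ∀ D ∈ S, #D ≤ κ → D ∉ C := by
  rw [StatK] at h
  push Not at h
  exact h

/-- pressing down -/
theorem StatK.press (hκ : ℵ₀ ≤ κ) {ι : Type u} (hι : #ι ≤ κ) {S : Set (Set X)}
    (hS : StatK κ S) {T : X → ι → Set (Set X)}
    (h : ∀ D ∈ S, ∃ x ∈ D, ∃ n, D ∈ T x n) : ∃ x n, StatK κ (S ∩ T x n) := by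
  by_contra hcon
  push Not at hcon
  have h1 : ∀ x n, ∃ C, ClubK κ C ∧ ∀ D ∈ S ∩ T x n, #D ≤ κ → D ∉ C := fun x n =>
    exists_club_of_not_statK (hcon x n)
  choose C hC1 hC2 using h1
  obtain ⟨D, hD1, hD2, hD3⟩ := hS _ (ClubK.diag hκ fun x => ClubK.iInter hκ hι (hC1 x))
  obtain ⟨x, hx, n, hn⟩ := h D hD1
  exact hC2 x n D ⟨hD1, hn⟩ hD2 (mem_iInter.1 (hD3 x hx) n)

end ClubK

section RMK

variable {X : Type u} [TopologicalSpace X] {κ : Cardinal.{u}}

/-- the Banach category theorem for relative meagreness -/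
theorem RM.of_local {Y S : Set X} (h : ∀ O : Set X, IsOpen O → (O ∩ Y).Nonempty →
    ∃ U : Set X, IsOpen U ∧ (U ∩ (O ∩ Y)).Nonempty ∧ RM Y (U ∩ S)) : RM Y S := by
  rw [rm_iff, ← cov_nat_iff]
  apply (localIdeal_cov (X := Y) ℕ).loc
  rw [dense_iff_inter_open]
  rintro V hV ⟨y, hy⟩
  obtain ⟨O, hO, rfl⟩ := isOpen_induced_iff.1 hV
  obtain ⟨U, hU, ⟨w, hwU, hwO, hwY⟩, hm⟩ := h O hO ⟨y, hy, y.2⟩
  have hm' : Cov ℕ ((Subtype.val ⁻¹' U : Set Y) ∩ (Subtype.val ⁻¹' S : Set Y)) := by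
    rw [cov_nat_iff, ← preimage_inter]
    exact rm_iff.1 hm
  exact ⟨⟨w, hwY⟩, hwO, Subtype.val ⁻¹' U, ⟨hU.preimage continuous_subtype_val, hm'⟩, hwU⟩

/-- the sets whose traces on the closures of almost all members of a family of sets of size at most
`κ` are meagre -/
def IdK (κ : Cardinal.{u}) (Fam : Set (Set X)) (S : Set X) : Prop :=
  ∃ C, ClubK κ C ∧ ∀ D ∈ Fam, #D ≤ κ → D ∈ C → RM (closure D) S

/-- local pi-bases with the index set `ι` -/
def PiBasesK (ι : Type u) (B : X → ι → Set X) : Prop :=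
  ∀ x, (∀ n, IsOpen (B x n) ∧ (B x n).Nonempty) ∧ ∀ O : Set X, IsOpen O → x ∈ O → ∃ n, B x n ⊆ O

theorem localIdeal_idK (hκ : ℵ₀ ≤ κ) {ι : Type u} (hι : #ι ≤ κ) {B : X → ι → Set X}
    (hB : PiBasesK ι B) (Fam : Set (Set X)) : LocalIdeal (IdK κ Fam) where
  mono S T h := by
    rintro ⟨C, h1, h2⟩
    exact ⟨C, h1, fun D hD hc hDC => (h2 D hD hc hDC).mono (inter_subset_left.trans h)⟩
  iUnion f h := by
    choose C h1 h2 using h
    refine ⟨⋂ n : ULift.{u} ℕ, C n.down, ClubK.iInter hκ (by simpa using hκ) fun n => h1 n.down,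
      fun D hD hc hDC => RM.iUnion fun n => h2 n D hD hc (mem_iInter.1 hDC ⟨n⟩)⟩
  inv h S := by
    rintro ⟨C, h1, h2⟩
    refine ⟨C ∩ ({D | ∀ x ∈ D, h x ∈ D} ∩ {D | ∀ x ∈ D, h.symm x ∈ D}),
      h1.inter hκ ((clubK_fun hκ _).inter hκ (clubK_fun hκ _)), ?_⟩
    rintro D hD hc ⟨hDC, hD1, hD2⟩
    have h3 : h '' D = D := by
      apply Subset.antisymm
      · rintro _ ⟨x, hx, rfl⟩
        exact hD1 x hx
      · intro x hx
        exact ⟨h.symm x, hD2 x hx, h.apply_symm_apply x⟩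
    have h4 := (h2 D hD hc hDC).image h
    rwa [h.image_closure, h3] at h4
  loc S hd := by
    classical
    have hw : ∀ x n, ∃ w, ∃ U, w ∈ B x n ∧ w ∈ U ∧ IsOpen U ∧ IdK κ Fam (U ∩ S) := by
      intro x n
      obtain ⟨w, hw1, U, ⟨hU1, hU2⟩, hU3⟩ :=
        hd.inter_open_nonempty (B x n) ((hB x).1 n).1 ((hB x).1 n).2
      exact ⟨w, U, hw1, hU3, hU1, hU2⟩
    choose w U hw1 hw2 hU1 hU2 using hw
    choose C hC1 hC2 using hU2
    refine ⟨_, ClubK.diag hκ fun x => ClubK.iInter hκ hι fun n => (hC1 x n).inter hκ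
      (clubK_superset (mk_countable_le' hκ (countable_singleton (w x n)))), ?_⟩
    intro D hD hc hDC
    apply RM.of_local
    rintro O hO ⟨y, hyO, hy⟩
    obtain ⟨x, hxO, hx⟩ := mem_closure_iff.1 hy O hO hyO
    obtain ⟨n, hn⟩ := (hB x).2 O hO hxO
    have h1 := mem_iInter.1 (hDC x hx) n
    refine ⟨U x n, hU1 x n, ⟨w x n, hw2 x n, hn (hw1 x n), subset_closure (h1.2 rfl)⟩, ?_⟩
    exact hC2 x n D hD hc h1.1

theorem not_idK_univ [CompactSpace X] [T2Space X] [Nonempty X] (hκ : ℵ₀ ≤ κ)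
    {Fam : Set (Set X)} (hF : StatK κ Fam) : ¬ IdK κ Fam univ := by
  rintro ⟨C, h1, h2⟩
  obtain ⟨x⟩ := ‹Nonempty X›
  obtain ⟨D, hD1, hD2, hD3, hD4⟩ :=
    hF _ (h1.inter hκ (clubK_superset (mk_countable_le' hκ (countable_singleton x))))
  exact not_rm_open isClosed_closure isOpen_univ ⟨x, trivial, subset_closure (hD4 rfl)⟩
    (h2 D hD1 hD2 hD3)

/-- a set with the property of Baire is meagre or comeagre in a nonempty open set -/
theorem rm_or_of_baire {Y S : Set X} (h : BaireMeasurableSet ((↑) ⁻¹' S : Set Y)) :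
    RM Y S ∨ ∃ O : Set X, IsOpen O ∧ (O ∩ Y).Nonempty ∧ RM Y (O \ S) := by
  obtain ⟨V, hV, hVS⟩ := h.residualEq_isOpen
  rcases V.eq_empty_or_nonempty with rfl | ⟨y, hy⟩
  · left
    rw [rm_iff]
    have h1 : (((↑) ⁻¹' S : Set Y))ᶜ ∈ residual Y := by
      filter_upwards [hVS] with x hx
      intro hx'
      have : (x ∈ (∅ : Set Y)) := by
        have := hx.mp hx'
        exact this
      exact this
    exact h1
  · right
    obtain ⟨O, hO, rfl⟩ := isOpen_induced_iff.1 hV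
    refine ⟨O, hO, ⟨y, hy, y.2⟩, ?_⟩
    rw [rm_iff]
    show (_ : Set Y)ᶜ ∈ residual Y
    filter_upwards [hVS] with x hx
    rintro ⟨hx1, hx2⟩
    exact hx2 (hx.mpr hx1)

end RMK

end Pool.Agent.Work.UAC
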