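import Mathlib
import Pool.Agent.Work.MP_d430fe_gt.Seg
import Pool.Agent.Work.MP_d430fe_gt.Triod

/-!
A homogeneous uniquely arcwise connected Hausdorff continuum contains a triod.
-/

set_option autoImplicit false

namespace Pool.Agent.Work.UAC

open Set Topology Filter

variable {X : Type*} [TopologicalSpace X] [T2Space X]

section

variable (hX : UniquelyArcwiseConnected X)

include hX

/-- without triods one of three points lies between the other two -/
theorem between_of_no_triod (hT : ¬ ∃ o a b c : X, IsTriod o a b c) (a b c : X) :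
    a ∈ seg b c ∨ b ∈ seg a c ∨ c ∈ seg a b := by
  obtain ⟨m, ⟨hm1, hm2⟩, hm⟩ := exists_first hX (a := c) (b := a) (C := seg a b)
    (isClosed_seg hX a b) ⟨a, right_mem_seg hX c a, left_mem_seg hX a b⟩
  by_cases hmc : m = c
  · subst hmc; exact Or.inr (Or.inr hm2)
  by_cases hma : m = a
  · subst hma
    left
    rw [seg_comm hX]
    exact mem_seg_of_inter hX hm
  by_cases hmb : m = b
  · subst hmb
    right; left
    rw [seg_comm hX]
    exact mem_seg_of_inter hX (fun y hy => hm ⟨hy.1, by rw [seg_comm hX]; exact hy.2⟩)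
  exfalso
  refine hT ⟨m, a, b, c, Ne.symm hma, Ne.symm hmb, Ne.symm hmc, ?_, ?_, ?_⟩
  · rw [seg_comm hX m a]
    exact (seg_inter hX hm2).subset
  · rintro y ⟨h1, h2⟩
    refine hm ⟨?_, seg_right_sub hX hm2 h1⟩
    rw [seg_comm hX]; exact h2
  · rintro y ⟨h1, h2⟩
    refine hm ⟨?_, seg_left_sub hX hm2 ?_⟩
    · rw [seg_comm hX]; exact h2
    · rw [seg_comm hX]; exact h1

/-- transitivity of the ray order -/
theorem seg_trans {p x y z : X} (h1 : x ∈ seg p y) (h2 : y ∈ seg p z) : x ∈ seg p z :=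
  seg_left_sub hX h2 h1

/-- if `q` is between `p` and `y` and `y` is between `q` and `z`, `q ≠ y`, then ... -/
theorem ray_total (hT : ¬ ∃ o a b c : X, IsTriod o a b c) {p q y z : X} (hpq : p ≠ q)
    (hy : q ∈ seg p y) (hz : q ∈ seg p z) : y ∈ seg p z ∨ z ∈ seg p y := by
  -- the three points `p`, `y`, `z`
  rcases between_of_no_triod hX hT p y z with h | h | h
  · -- `p ∈ seg y z`: then the legs from `p`
    exfalso
    have h1 : seg p y ∩ seg p z ⊆ {p} := by
      rw [seg_comm hX p y]; exact (seg_inter hX h).subset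
    exact hpq (h1 ⟨hy, hz⟩).symm
  · exact Or.inl h
  · exact Or.inr h

/-- a point beyond `z` -/
theorem exists_beyond (hE : ∀ x : X, ∃ u v, u ≠ x ∧ v ≠ x ∧ x ∈ seg u v) (p z : X) :
    ∃ z', z ∈ seg p z' ∧ z' ≠ z := by
  obtain ⟨u, v, hu, hv, h⟩ := hE z
  by_contra hcon
  push Not at hcon
  have hu' : ¬ seg p z ∩ seg z u ⊆ {z} := fun h1 => hu (hcon u (mem_seg_of_inter hX h1))
  have hv' : ¬ seg p z ∩ seg z v ⊆ {z} := fun h1 => hv (hcon v (mem_seg_of_inter hX h1))
  obtain ⟨x, ⟨hx1, hx2⟩, hxz⟩ := not_subset.1 hu'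
  obtain ⟨y, ⟨hy1, hy2⟩, hyz⟩ := not_subset.1 hv'
  rw [seg_comm hX] at hx1 hy1
  have h1 : seg z u ∩ seg z v ⊆ {z} := by
    rw [seg_comm hX z u]; exact (seg_inter hX h).subset
  rcases two_legs hX h1 hx2 hx1 hy2 hy1 with h2 | h2
  · exact hxz h2
  · exact hyz h2

/-- homogeneous spaces have no end points -/
theorem no_end [Nontrivial X] (hH : ∀ x y : X, ∃ h : X ≃ₜ X, h x = y) (x : X) :
    ∃ u v, u ≠ x ∧ v ≠ x ∧ x ∈ seg u v := by
  obtain ⟨a, b, hab⟩ := exists_pair_ne X
  have hinf := seg_infinite hX hab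
  obtain ⟨c, hc, hcab⟩ := hinf.exists_notMem_finite (toFinite ({a, b} : Set X))
  simp only [mem_insert_iff, mem_singleton_iff, not_or] at hcab
  obtain ⟨h, hh⟩ := hH c x
  refine ⟨h a, h b, ?_, ?_, ?_⟩
  · intro h1; exact hcab.1 (h.injective (hh.trans h1.symm))
  · intro h1; exact hcab.2 (h.injective (hh.trans h1.symm))
  · rw [← seg_image hX h.continuous h.injective, ← hh]
    exact mem_image_of_mem _ hc

end

end Pool.Agent.Work.UAC
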