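import Mathlib
import Pool.Agent.Work.MP_d430fe_gt.Linear

/-!
Rays in a uniquely arcwise connected Hausdorff continuum without triods and without end points
have countable cofinality.
-/

set_option autoImplicit false

namespace Pool.Agent.Work.UAC

open Set Topology Filter

variable {X : Type*} [TopologicalSpace X] [T2Space X]

/-- the points beyond `y` as seen from `p` -/
def tail (p y : X) : Set X := {z | y ∈ seg p z}

section

variable (hX : UniquelyArcwiseConnected X)

include hX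

theorem tail_sub {p y z : X} (h : y ∈ seg p z) : tail p z ⊆ tail p y :=
  fun _ hu => seg_trans hX h hu

theorem self_mem_tail (p y : X) : y ∈ tail p y := right_mem_seg hX p y

/-- the part of a segment beyond a point -/
theorem seg_sub_tail {p y z : X} (h : y ∈ seg p z) : seg y z ⊆ tail p y := by
  intro u hu
  have hu' : u ∈ seg p z := seg_right_sub hX h hu
  rcases seg_total hX h hu' with ⟨h1, -⟩ | ⟨h1, -⟩
  · exact h1
  · have : u = y := (seg_inter hX h).subset ⟨h1, hu⟩
    rw [this]; exact right_mem_seg hX p y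

theorem tail_inter_seg {p y z : X} (h : y ∈ seg p z) : tail p y ∩ seg p z ⊆ seg y z := by
  rintro u ⟨h1, h2⟩
  rcases seg_total hX h h2 with ⟨-, h3⟩ | ⟨h3, -⟩
  · exact h3
  · have : u = y := seg_antisymm hX h3 h1
    rw [this]; exact left_mem_seg hX y z

theorem isPreconnected_tail (p y : X) : IsPreconnected (tail p y) := by
  apply isPreconnected_of_forall y
  intro z hz
  exact ⟨seg y z, seg_sub_tail hX hz, left_mem_seg hX y z, right_mem_seg hX y z,
    isPreconnected_seg hX y z⟩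

/-- closed rays of an arc -/
theorem isClosed_tail_inter {p z x : X} (hx : x ∈ seg p z) :
    IsClosed (seg p z ∩ tail p x) := by
  have : seg p z ∩ tail p x = seg x z := by
    apply Subset.antisymm
    · rintro u ⟨h1, h2⟩; exact tail_inter_seg hX hx ⟨h2, h1⟩
    · intro u hu; exact ⟨seg_right_sub hX hx hu, seg_sub_tail hX hx hu⟩
  rw [this]; exact isClosed_seg hX x z

/-- two closed sets which meet all tails of a ray with bounded sequences meet -/
theorem cluster_unique {p q : X}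
    (hb : ∀ y : ℕ → X, (∀ n, y n ∈ tail p q) → ∃ z, z ∈ tail p q ∧ ∀ n, y n ∈ seg p z)
    {N₁ N₂ : Set X} (hN₁ : IsClosed N₁) (hN₂ : IsClosed N₂)
    (h₁ : ∀ y ∈ tail p q, (tail p y ∩ N₁).Nonempty) (h₂ : ∀ y ∈ tail p q, (tail p y ∩ N₂).Nonempty) :
    (N₁ ∩ N₂).Nonempty := by
  classical
  choose! f₁ hf₁ using h₁
  choose! f₂ hf₂ using h₂
  -- the interlaced sequence
  let s : ℕ → X := fun n => Nat.rec q (fun _ y => f₂ (f₁ y)) n
  have hs0 : s 0 = q := rfl
  have hs1 : ∀ n, s (n + 1) = f₂ (f₁ (s n)) := fun n => rfl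
  have hsR : ∀ n, s n ∈ tail p q := by
    intro n
    induction n with
    | zero => exact self_mem_tail hX p q
    | succ n ih =>
      rw [hs1]
      have h1 : f₁ (s n) ∈ tail p q := tail_sub hX ih (hf₁ _ ih).1
      exact tail_sub hX h1 (hf₂ _ h1).1
  have haR : ∀ n, f₁ (s n) ∈ tail p q := fun n => tail_sub hX (hsR n) (hf₁ _ (hsR n)).1
  have hsa : ∀ n, s n ∈ seg p (f₁ (s n)) := fun n => (hf₁ _ (hsR n)).1
  have has : ∀ n, f₁ (s n) ∈ seg p (s (n + 1)) := fun n => (hf₂ _ (haR n)).1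
  obtain ⟨z, hz, hsz⟩ := hb s hsR
  have haz : ∀ n, f₁ (s n) ∈ seg p z := fun n => seg_trans hX (has n) (hsz (n + 1))
  have hmono : ∀ n m, n ≤ m → s n ∈ seg p (s m) := by
    intro n m hnm
    induction hnm with
    | refl => exact right_mem_seg hX _ _
    | step _ ih => exact seg_trans hX ih (seg_trans hX (hsa _) (has _))
  -- cluster points
  have key : ∀ u : ℕ → X, (∀ n, u n ∈ seg p z) → (∀ n, s n ∈ seg p (u n)) →
      (∀ b, b ∈ seg p z → (∀ n, s n ∈ seg p b) → ∀ n, u n ∈ seg p b) →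
      ∀ N : Set X, IsClosed N → (∀ n, u n ∈ N) →
      ∃ c ∈ N, c ∈ seg p z ∧ (∀ n, s n ∈ seg p c) ∧
        ∀ b, b ∈ seg p z → (∀ n, s n ∈ seg p b) → c ∈ seg p b := by
    intro u hu1 hu2 hu3 N hN huN
    obtain ⟨c, hc, hcl⟩ := (isCompact_seg hX p z).exists_mapClusterPt (f := atTop) (u := u)
      (by
        rw [le_principal_iff, mem_map]
        exact Filter.univ_mem' hu1)
    refine ⟨c, hN.mem_of_mapClusterPt hcl (Filter.Eventually.of_forall huN), hc, ?_, ?_⟩
    · intro n
      have h1 := (isClosed_tail_inter hX (hsz n)).mem_of_mapClusterPt hcl (by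
        filter_upwards [eventually_ge_atTop n] with m hm
        exact ⟨hu1 m, seg_trans hX (hmono n m hm) (hu2 m)⟩)
      exact h1.2
    · intro b hb1 hb2
      exact (isClosed_seg hX p b).mem_of_mapClusterPt hcl (Filter.Eventually.of_forall (hu3 b hb1 hb2))
  obtain ⟨c₁, hc₁, hc₁z, hc₁u, hc₁l⟩ := key (fun n => f₁ (s n)) haz hsa
    (fun b hb1 hb2 n => seg_trans hX (has n) (hb2 (n + 1))) N₁ hN₁ (fun n => (hf₁ _ (hsR n)).2)
  obtain ⟨c₂, hc₂, hc₂z, hc₂u, hc₂l⟩ := key (fun n => s (n + 1)) (fun n => hsz (n + 1))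
    (fun n => hmono n (n + 1) (Nat.le_succ n)) (fun b hb1 hb2 n => hb2 (n + 1)) N₂ hN₂
    (fun n => (hf₂ _ (haR n)).2)
  have h1 := hc₁l c₂ hc₂z hc₂u
  have h2 := hc₂l c₁ hc₁z hc₁u
  have h3 := seg_antisymm hX h1 h2
  subst h3
  exact ⟨c₁, hc₁, hc₂⟩

/-- cluster points of the tails in a closed set -/
theorem exists_cluster [CompactSpace X] (hT : ¬ ∃ o a b c : X, IsTriod o a b c) {p q : X}
    (hpq : p ≠ q) {C : Set X} (hC : IsClosed C) (h : ∀ y ∈ tail p q, (tail p y ∩ C).Nonempty) :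
    ∃ z ∈ C, ∀ y ∈ tail p q, z ∈ closure (tail p y) := by
  have : Nonempty (tail p q) := ⟨⟨q, self_mem_tail hX p q⟩⟩
  obtain ⟨z, hz⟩ := IsCompact.nonempty_iInter_of_directed_nonempty_isCompact_isClosed
    (fun y : tail p q => closure (tail p y ∩ C))
    (by
      rintro ⟨x, hx⟩ ⟨y, hy⟩
      rcases ray_total hX hT hpq hx hy with h1 | h1
      · exact ⟨⟨y, hy⟩, closure_mono (inter_subset_inter_left _ (tail_sub hX h1)), Subset.rfl⟩
      · exact ⟨⟨x, hx⟩, Subset.rfl, closure_mono (inter_subset_inter_left _ (tail_sub hX h1))⟩)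
    (fun y => (h y y.2).closure) (fun y => isClosed_closure.isCompact)
    (fun y => isClosed_closure)
  rw [mem_iInter] at hz
  refine ⟨z, ?_, fun y hy => closure_mono inter_subset_left (hz ⟨y, hy⟩)⟩
  have h1 := hz ⟨q, self_mem_tail hX p q⟩
  exact hC.closure_subset (closure_mono inter_subset_right h1)

/-- a ray with bounded sequences converges -/
theorem ray_converges [CompactSpace X] (hT : ¬ ∃ o a b c : X, IsTriod o a b c) {p q : X}
    (hpq : p ≠ q)
    (hb : ∀ y : ℕ → X, (∀ n, y n ∈ tail p q) → ∃ z, z ∈ tail p q ∧ ∀ n, y n ∈ seg p z) :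
    ∃ z, (∀ y ∈ tail p q, z ∈ closure (tail p y)) ∧
      ∀ N, IsOpen N → z ∈ N → ∃ y ∈ tail p q, tail p y ⊆ N := by
  obtain ⟨z, -, hz⟩ := exists_cluster hX hT hpq isClosed_univ
    (fun y hy => ⟨y, self_mem_tail hX p y, trivial⟩)
  refine ⟨z, hz, ?_⟩
  intro N hN hzN
  by_contra hcon
  push Not at hcon
  obtain ⟨z', hz'N, hz'⟩ := exists_cluster hX hT hpq hN.isClosed_compl (fun y hy => by
    obtain ⟨x, hx, hxN⟩ := not_subset.1 (hcon y hy)
    exact ⟨x, hx, hxN⟩)
  have hne : z ≠ z' := fun h => hz'N (h ▸ hzN)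
  obtain ⟨u, hzu, hu, v, hz'v, hv, hd⟩ := exists_open_nhds_disjoint_closure hne
  obtain ⟨x, hx1, hx2⟩ := cluster_unique hX hb (isClosed_closure (s := u))
    (isClosed_closure (s := v))
    (fun y hy => by
      obtain ⟨x, hx1, hx2⟩ := mem_closure_iff.1 (hz y hy) u hu hzu
      exact ⟨x, hx2, subset_closure hx1⟩)
    (fun y hy => by
      obtain ⟨x, hx1, hx2⟩ := mem_closure_iff.1 (hz' y hy) v hv hz'v
      exact ⟨x, hx2, subset_closure hx1⟩)
  exact hd.le_bot ⟨hx1, hx2⟩

/-- a tail with its limit is compact -/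
theorem isCompact_tail_limit (hT : ¬ ∃ o a b c : X, IsTriod o a b c) {p q z : X}
    (hpq : p ≠ q) (hz : ∀ N, IsOpen N → z ∈ N → ∃ y ∈ tail p q, tail p y ⊆ N) {x : X}
    (hx : x ∈ tail p q) : IsCompact (tail p x ∪ {z}) := by
  rw [isCompact_iff_ultrafilter_le_nhds]
  intro f hf
  by_cases hfz : (f : Filter X) ≤ 𝓝 z
  · exact ⟨z, Or.inr rfl, hfz⟩
  · have : ∃ N, IsOpen N ∧ z ∈ N ∧ N ∉ f := by
      by_contra hcon
      push Not at hcon
      exact hfz ((nhds_basis_opens z).ge_iff.2 fun N hN => hcon N hN.2 hN.1)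
    obtain ⟨N, hN, hzN, hNf⟩ := this
    have hNc : Nᶜ ∈ f := Ultrafilter.compl_mem_iff_notMem.2 hNf
    obtain ⟨y, hy, hyN⟩ := hz N hN hzN
    have hmem : tail p x ∪ {z} ∈ f := by
      rwa [le_principal_iff] at hf
    have hK : seg x y ∈ f := by
      filter_upwards [hmem, hNc] with u hu1 hu2
      rcases hu1 with hu1 | hu1
      · -- `u ∈ tail p x`, not in `tail p y`
        have hu3 : u ∉ tail p y := fun h => hu2 (hyN h)
        have huq : u ∈ tail p q := tail_sub hX hx hu1
        rcases ray_total hX hT hpq huq hy with h | h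
        · exact tail_inter_seg hX (seg_trans hX hu1 h) ⟨hu1, h⟩
        · exact absurd h hu3
      · rw [mem_singleton_iff] at hu1
        rw [hu1] at hu2
        exact absurd hzN hu2
    rcases ray_total hX hT hpq hx hy with h | h
    · obtain ⟨u, hu, hfu⟩ := (isCompact_iff_ultrafilter_le_nhds.1 (isCompact_seg hX x y)) f
        (le_principal_iff.2 hK)
      exact ⟨u, Or.inl (seg_sub_tail hX h hu), hfu⟩
    · exfalso
      have h1 : (∅ : Set X) ∈ f := by
        filter_upwards [hmem, hNc] with u hu1 hu2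
        rcases hu1 with hu1 | hu1
        · exact hu2 (hyN (tail_sub hX h hu1))
        · rw [mem_singleton_iff] at hu1
          rw [hu1] at hu2
          exact hu2 hzN
      exact f.neBot.ne (Filter.empty_mem_iff_bot.1 h1)

/-- a tail with its limit is an arc -/
theorem arcOrd_tail (hT : ¬ ∃ o a b c : X, IsTriod o a b c) {p q z : X}
    (hpq : p ≠ q) (hz : ∀ N, IsOpen N → z ∈ N → ∃ y ∈ tail p q, tail p y ⊆ N)
    (hcl : ∀ y ∈ tail p q, z ∈ closure (tail p y)) {y : X} (hy : y ∈ tail p q)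
    (hzy : z ∉ tail p y) :
    ArcOrd (fun u v => (u ∈ tail p y ∧ v ∈ tail p y ∧ u ∈ seg p v) ∨ v = z)
      (tail p y ∪ {z}) y z := by
  have hmem : ∀ {u : X}, u ∈ tail p y → u ≠ z := fun hu h => hzy (h ▸ hu)
  refine
    { isCompact := isCompact_tail_limit hX hT hpq hz hy
      isPreconnected := ?_
      left_mem := Or.inl (self_mem_tail hX p y)
      right_mem := Or.inr rfl
      total := ?_
      antisymm := ?_
      trans := ?_
      left_le := ?_
      le_right := fun _ _ => Or.inr rfl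
      closed_le := ?_
      closed_ge := ?_ }
  · refine (isPreconnected_tail hX p y).subset_closure subset_union_left ?_
    rintro u (hu | hu)
    · exact subset_closure hu
    · rw [mem_singleton_iff] at hu
      rw [hu]; exact hcl y hy
  · rintro u (hu | hu) v (hv | hv)
    · rcases ray_total hX hT hpq (tail_sub hX hy hu) (tail_sub hX hy hv) with h | h
      · exact Or.inl (Or.inl ⟨hu, hv, h⟩)
      · exact Or.inr (Or.inl ⟨hv, hu, h⟩)
    · exact Or.inl (Or.inr hv)
    · exact Or.inr (Or.inr hu)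
    · exact Or.inl (Or.inr hv)
  · rintro u - v - (⟨h1, h2, h3⟩ | h1) (⟨h4, h5, h6⟩ | h4)
    · exact seg_antisymm hX h3 h6
    · exact absurd h4 (hmem h1)
    · exact absurd h1 (hmem h4)
    · rw [h1, h4]
  · rintro u - v - w - (⟨h1, h2, h3⟩ | h1) (⟨h4, h5, h6⟩ | h4)
    · exact Or.inl ⟨h1, h5, seg_trans hX h3 h6⟩
    · exact Or.inr h4
    · exact absurd h1 (hmem h4)
    · exact Or.inr h4
  · rintro u (hu | hu)
    · exact Or.inl ⟨self_mem_tail hX p y, hu, hu⟩
    · exact Or.inr hu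
  · rintro u (hu | hu)
    · have : {v | v ∈ tail p y ∪ {z} ∧ ((v ∈ tail p y ∧ u ∈ tail p y ∧ v ∈ seg p u) ∨ u = z)} =
          seg y u := by
        apply Subset.antisymm
        · rintro v ⟨-, ⟨h1, -, h2⟩ | h1⟩
          · exact tail_inter_seg hX hu ⟨h1, h2⟩
          · exact absurd h1 (hmem hu)
        · intro v hv
          exact ⟨Or.inl (seg_sub_tail hX hu hv), Or.inl ⟨seg_sub_tail hX hu hv, hu,
            seg_right_sub hX hu hv⟩⟩
      rw [this]; exact isClosed_seg hX y u
    · rw [mem_singleton_iff] at hu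
      subst hu
      have : {v | v ∈ tail p y ∪ {u} ∧ ((v ∈ tail p y ∧ u ∈ tail p y ∧ v ∈ seg p u) ∨ u = u)} =
          tail p y ∪ {u} := by
        ext v; simp
      rw [this]; exact (isCompact_tail_limit hX hT hpq hz hy).isClosed
  · rintro u (hu | hu)
    · have : {v | v ∈ tail p y ∪ {z} ∧ ((u ∈ tail p y ∧ v ∈ tail p y ∧ u ∈ seg p v) ∨ v = z)} =
          tail p u ∪ {z} := by
        apply Subset.antisymm
        · rintro v ⟨-, ⟨-, -, h2⟩ | h1⟩
          · exact Or.inl h2
          · exact Or.inr h1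
        · rintro v (hv | hv)
          · exact ⟨Or.inl (tail_sub hX hu hv), Or.inl ⟨hu, tail_sub hX hu hv, hv⟩⟩
          · exact ⟨Or.inr hv, Or.inr hv⟩
      rw [this]
      exact (isCompact_tail_limit hX hT hpq hz (tail_sub hX hy hu)).isClosed
    · rw [mem_singleton_iff] at hu
      subst hu
      have : {v | v ∈ tail p y ∪ {u} ∧ ((u ∈ tail p y ∧ v ∈ tail p y ∧ u ∈ seg p v) ∨ v = u)} =
          {u} := by
        ext v; constructor
        · rintro ⟨-, ⟨h1, -, -⟩ | h1⟩
          · exact absurd h1 hzy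
          · exact h1
        · intro hv; exact ⟨Or.inr hv, Or.inr hv⟩
      rw [this]; exact isClosed_singleton

/-- rays have countable cofinality -/
theorem ray_cofinal [CompactSpace X] (hT : ¬ ∃ o a b c : X, IsTriod o a b c)
    (hE : ∀ x : X, ∃ u v, u ≠ x ∧ v ≠ x ∧ x ∈ seg u v) {p q : X} (hpq : p ≠ q) :
    ∃ y : ℕ → X, ∀ z ∈ tail p q, ∃ n, z ∈ seg p (y n) := by
  by_contra hcon
  have hb : ∀ y : ℕ → X, (∀ n, y n ∈ tail p q) → ∃ z, z ∈ tail p q ∧ ∀ n, y n ∈ seg p z := by
    intro y hy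
    by_contra hno
    push Not at hno
    refine hcon ⟨y, fun z hz => ?_⟩
    obtain ⟨n, hn⟩ := hno z hz
    refine ⟨n, ?_⟩
    rcases ray_total hX hT hpq hz (hy n) with h | h
    · exact h
    · exact absurd h hn
  obtain ⟨z, hcl, hz⟩ := ray_converges hX hT hpq hb
  -- a point `y` of the ray with `z` not beyond `y`
  have hy : ∃ y ∈ tail p q, z ∉ tail p y := by
    by_cases hzq : z ∈ tail p q
    · obtain ⟨y, hy, hyz⟩ := exists_beyond hX hE p z
      exact ⟨y, tail_sub hX hzq hy, fun h => hyz (seg_antisymm hX h hy)⟩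
    · exact ⟨q, self_mem_tail hX p q, hzq⟩
  obtain ⟨y, hy, hzy⟩ := hy
  have harc := seg_eq_of_ord hX (arcOrd_tail hX hT hpq hz hcl hy hzy)
  obtain ⟨y', hy', hne⟩ := exists_beyond hX hE p y
  have hmem : y' ∈ seg y z := by rw [harc]; exact Or.inl hy'
  have hfin : z ∈ seg p y → False := by
    intro h
    have h1 : y' ∈ seg p y := seg_sub hX (right_mem_seg hX p y) h hmem
    exact hne (seg_antisymm hX h1 hy')
  rcases between_of_no_triod hX hT p y z with h | h | h
  · rw [harc] at h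
    rcases h with h | h
    · have h1 : y ∈ seg p p := h
      rw [seg_self, mem_singleton_iff] at h1
      subst h1
      have h2 : q ∈ seg y y := hy
      rw [seg_self, mem_singleton_iff] at h2
      exact hpq h2.symm
    · rw [mem_singleton_iff] at h
      subst h
      exact hfin (left_mem_seg hX _ _)
  · exact hzy h
  · exact hfin h

end

end Pool.Agent.Work.UAC
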