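import Mathlib
import Pool.Agent.Work.MP_d430fe_gt.Ray

/-!
Unbounded chains (rays) of a uniquely arcwise connected Hausdorff continuum have countable
cofinality, triods or not.
-/

set_option autoImplicit false

namespace Pool.Agent.Work.UAC

open Set Topology Filter

variable {X : Type*} [TopologicalSpace X] [T2Space X]

/-- `R` is a down-closed chain as seen from `p` -/
structure PChain (p : X) (R : Set X) : Prop where
  mem : p ∈ R
  total : ∀ x ∈ R, ∀ y ∈ R, x ∈ seg p y ∨ y ∈ seg p x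
  down : ∀ x ∈ R, seg p x ⊆ R

section

variable (hX : UniquelyArcwiseConnected X)

include hX

/-- two closed sets which meet all tails of a chain with bounded sequences meet -/
theorem PChain.cluster_unique {p : X} {R : Set X} (hR : PChain p R)
    (hb : ∀ y : ℕ → X, (∀ n, y n ∈ R) → ∃ z, z ∈ R ∧ ∀ n, y n ∈ seg p z)
    {N₁ N₂ : Set X} (hN₁ : IsClosed N₁) (hN₂ : IsClosed N₂)
    (h₁ : ∀ y ∈ R, (R ∩ tail p y ∩ N₁).Nonempty) (h₂ : ∀ y ∈ R, (R ∩ tail p y ∩ N₂).Nonempty) :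
    (N₁ ∩ N₂).Nonempty := by
  classical
  choose! f₁ hf₁ using h₁
  choose! f₂ hf₂ using h₂
  let s : ℕ → X := fun n => Nat.rec p (fun _ y => f₂ (f₁ y)) n
  have hs1 : ∀ n, s (n + 1) = f₂ (f₁ (s n)) := fun n => rfl
  have hsR : ∀ n, s n ∈ R := by
    intro n
    induction n with
    | zero => exact hR.mem
    | succ n ih =>
      rw [hs1]
      exact (hf₂ _ (hf₁ _ ih).1.1).1.1
  have haR : ∀ n, f₁ (s n) ∈ R := fun n => (hf₁ _ (hsR n)).1.1
  have hsa : ∀ n, s n ∈ seg p (f₁ (s n)) := fun n => (hf₁ _ (hsR n)).1.2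
  have has : ∀ n, f₁ (s n) ∈ seg p (s (n + 1)) := fun n => (hf₂ _ (haR n)).1.2
  obtain ⟨z, hz, hsz⟩ := hb s hsR
  have haz : ∀ n, f₁ (s n) ∈ seg p z := fun n => seg_trans hX (has n) (hsz (n + 1))
  have hmono : ∀ n m, n ≤ m → s n ∈ seg p (s m) := by
    intro n m hnm
    induction hnm with
    | refl => exact right_mem_seg hX _ _
    | step _ ih => exact seg_trans hX ih (seg_trans hX (hsa _) (has _))
  have key : ∀ u : ℕ → X, (∀ n, u n ∈ seg p z) → (∀ n, s n ∈ seg p (u n)) →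
      (∀ b, b ∈ seg p z → (∀ n, s n ∈ seg p b) → ∀ n, u n ∈ seg p b) →
      ∀ N : Set X, IsClosed N → (∀ n, u n ∈ N) →
      ∃ c ∈ N, c ∈ seg p z ∧ (∀ n, s n ∈ seg p c) ∧
        ∀ b, b ∈ seg p z → (∀ n, s n ∈ seg p b) → c ∈ seg p b := by
    intro u hu1 hu2 hu3 N hN huN
    obtain ⟨c, hc, hcl⟩ := (isCompact_seg hX p z).exists_mapClusterPt (f := atTop) (u := u)
      (by
        rw [le_principal_iff, mem_map]
        exact Filter.univ_mem' hu1)
    refine ⟨c, hN.mem_of_mapClusterPt hcl (Filter.Eventually.of_forall huN), hc, ?_, ?_⟩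
    · intro n
      have h1 := (isClosed_tail_inter hX (hsz n)).mem_of_mapClusterPt hcl (by
        filter_upwards [eventually_ge_atTop n] with m hm
        exact ⟨hu1 m, seg_trans hX (hmono n m hm) (hu2 m)⟩)
      exact h1.2
    · intro b hb1 hb2
      exact (isClosed_seg hX p b).mem_of_mapClusterPt hcl (Filter.Eventually.of_forall (hu3 b hb1 hb2))
  obtain ⟨c₁, hc₁, hc₁z, hc₁u, hc₁l⟩ := key (fun n => f₁ (s n)) haz hsa
    (fun b hb1 hb2 n => seg_trans hX (has n) (hb2 (n + 1))) N₁ hN₁ (fun n => (hf₁ _ (hsR n)).2)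
  obtain ⟨c₂, hc₂, hc₂z, hc₂u, hc₂l⟩ := key (fun n => s (n + 1)) (fun n => hsz (n + 1))
    (fun n => hmono n (n + 1) (Nat.le_succ n)) (fun b hb1 hb2 n => hb2 (n + 1)) N₂ hN₂
    (fun n => (hf₂ _ (haR n)).2)
  have h1 := hc₁l c₂ hc₂z hc₂u
  have h2 := hc₂l c₁ hc₁z hc₁u
  have h3 := seg_antisymm hX h1 h2
  subst h3
  exact ⟨c₁, hc₁, hc₂⟩

/-- cluster points of the tails in a closed set -/
theorem PChain.exists_cluster [CompactSpace X] {p : X} {R : Set X} (hR : PChain p R)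
    {C : Set X} (hC : IsClosed C) (h : ∀ y ∈ R, (R ∩ tail p y ∩ C).Nonempty) :
    ∃ z ∈ C, ∀ y ∈ R, z ∈ closure (R ∩ tail p y) := by
  have : Nonempty R := ⟨⟨p, hR.mem⟩⟩
  obtain ⟨z, hz⟩ := IsCompact.nonempty_iInter_of_directed_nonempty_isCompact_isClosed
    (fun y : R => closure (R ∩ tail p y ∩ C))
    (by
      rintro ⟨x, hx⟩ ⟨y, hy⟩
      rcases hR.total x hx y hy with h1 | h1
      · exact ⟨⟨y, hy⟩, closure_mono (inter_subset_inter_left _
          (inter_subset_inter_right _ (tail_sub hX h1))), Subset.rfl⟩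
      · exact ⟨⟨x, hx⟩, Subset.rfl, closure_mono (inter_subset_inter_left _
          (inter_subset_inter_right _ (tail_sub hX h1)))⟩)
    (fun y => (h y y.2).closure) (fun y => isClosed_closure.isCompact)
    (fun y => isClosed_closure)
  rw [mem_iInter] at hz
  refine ⟨z, ?_, fun y hy => closure_mono inter_subset_left (hz ⟨y, hy⟩)⟩
  have h1 := hz ⟨p, hR.mem⟩
  exact hC.closure_subset (closure_mono inter_subset_right h1)

/-- a chain with bounded sequences converges -/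
theorem PChain.converges [CompactSpace X] {p : X} {R : Set X} (hR : PChain p R)
    (hb : ∀ y : ℕ → X, (∀ n, y n ∈ R) → ∃ z, z ∈ R ∧ ∀ n, y n ∈ seg p z) :
    ∃ z, (∀ y ∈ R, z ∈ closure (R ∩ tail p y)) ∧
      ∀ N, IsOpen N → z ∈ N → ∃ y ∈ R, R ∩ tail p y ⊆ N := by
  obtain ⟨z, -, hz⟩ := hR.exists_cluster hX isClosed_univ
    (fun y hy => ⟨y, ⟨hy, self_mem_tail hX p y⟩, trivial⟩)
  refine ⟨z, hz, ?_⟩
  intro N hN hzN
  by_contra hcon
  push Not at hcon
  obtain ⟨z', hz'N, hz'⟩ := hR.exists_cluster hX hN.isClosed_compl (fun y hy => by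
    obtain ⟨x, hx, hxN⟩ := not_subset.1 (hcon y hy)
    exact ⟨x, hx, hxN⟩)
  have hne : z ≠ z' := fun h => hz'N (h ▸ hzN)
  obtain ⟨u, hzu, hu, v, hz'v, hv, hd⟩ := exists_open_nhds_disjoint_closure hne
  obtain ⟨x, hx1, hx2⟩ := hR.cluster_unique hX hb (isClosed_closure (s := u))
    (isClosed_closure (s := v))
    (fun y hy => by
      obtain ⟨x, hx1, hx2⟩ := mem_closure_iff.1 (hz y hy) u hu hzu
      exact ⟨x, hx2, subset_closure hx1⟩)
    (fun y hy => by
      obtain ⟨x, hx1, hx2⟩ := mem_closure_iff.1 (hz' y hy) v hv hz'v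
      exact ⟨x, hx2, subset_closure hx1⟩)
  exact hd.le_bot ⟨hx1, hx2⟩

/-- a tail with its limit is compact -/
theorem PChain.isCompact_limit {p z : X} {R : Set X} (hR : PChain p R)
    (hz : ∀ N, IsOpen N → z ∈ N → ∃ y ∈ R, R ∩ tail p y ⊆ N) {x : X}
    (hx : x ∈ R) : IsCompact (R ∩ tail p x ∪ {z}) := by
  rw [isCompact_iff_ultrafilter_le_nhds]
  intro f hf
  by_cases hfz : (f : Filter X) ≤ 𝓝 z
  · exact ⟨z, Or.inr rfl, hfz⟩
  · have : ∃ N, IsOpen N ∧ z ∈ N ∧ N ∉ f := by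
      by_contra hcon
      push Not at hcon
      exact hfz ((nhds_basis_opens z).ge_iff.2 fun N hN => hcon N hN.2 hN.1)
    obtain ⟨N, hN, hzN, hNf⟩ := this
    have hNc : Nᶜ ∈ f := Ultrafilter.compl_mem_iff_notMem.2 hNf
    obtain ⟨y, hy, hyN⟩ := hz N hN hzN
    have hmem : R ∩ tail p x ∪ {z} ∈ f := by
      rwa [le_principal_iff] at hf
    have hK : seg x y ∈ f := by
      filter_upwards [hmem, hNc] with u hu1 hu2
      rcases hu1 with ⟨huR, hu1⟩ | hu1
      · have hu3 : u ∉ tail p y := fun h => hu2 (hyN ⟨huR, h⟩)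
        rcases hR.total u huR y hy with h | h
        · exact tail_inter_seg hX (seg_trans hX hu1 h) ⟨hu1, h⟩
        · exact absurd h hu3
      · rw [mem_singleton_iff] at hu1
        rw [hu1] at hu2
        exact absurd hzN hu2
    rcases hR.total x hx y hy with h | h
    · obtain ⟨u, hu, hfu⟩ := (isCompact_iff_ultrafilter_le_nhds.1 (isCompact_seg hX x y)) f
        (le_principal_iff.2 hK)
      exact ⟨u, Or.inl ⟨hR.down y hy (seg_right_sub hX h hu), seg_sub_tail hX h hu⟩, hfu⟩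
    · exfalso
      have h1 : (∅ : Set X) ∈ f := by
        filter_upwards [hmem, hNc] with u hu1 hu2
        rcases hu1 with ⟨huR, hu1⟩ | hu1
        · exact hu2 (hyN ⟨huR, tail_sub hX h hu1⟩)
        · rw [mem_singleton_iff] at hu1
          rw [hu1] at hu2
          exact hu2 hzN
      exact f.neBot.ne (Filter.empty_mem_iff_bot.1 h1)

/-- the part of the chain beyond `y` is preconnected -/
theorem PChain.isPreconnected_tail {p : X} {R : Set X} (hR : PChain p R) {y : X} (hy : y ∈ R) :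
    IsPreconnected (R ∩ tail p y) := by
  apply isPreconnected_of_forall y
  intro z hz
  exact ⟨seg y z, fun u hu => ⟨hR.down z hz.1 (seg_right_sub hX hz.2 hu),
    seg_sub_tail hX hz.2 hu⟩, left_mem_seg hX y z, right_mem_seg hX y z,
    isPreconnected_seg hX y z⟩

/-- a tail with its limit is an arc -/
theorem PChain.arcOrd_limit {p z : X} {R : Set X} (hR : PChain p R)
    (hz : ∀ N, IsOpen N → z ∈ N → ∃ y ∈ R, R ∩ tail p y ⊆ N)
    (hcl : ∀ y ∈ R, z ∈ closure (R ∩ tail p y)) {y : X} (hy : y ∈ R)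
    (hzy : z ∉ R ∩ tail p y) :
    ArcOrd (fun u v => (u ∈ R ∩ tail p y ∧ v ∈ R ∩ tail p y ∧ u ∈ seg p v) ∨ v = z)
      (R ∩ tail p y ∪ {z}) y z := by
  have hmem : ∀ {u : X}, u ∈ R ∩ tail p y → u ≠ z := fun hu h => hzy (h ▸ hu)
  have hself : y ∈ R ∩ tail p y := ⟨hy, self_mem_tail hX p y⟩
  refine
    { isCompact := hR.isCompact_limit hX hz hy
      isPreconnected := ?_
      left_mem := Or.inl hself
      right_mem := Or.inr rfl
      total := ?_
      antisymm := ?_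
      trans := ?_
      left_le := ?_
      le_right := fun _ _ => Or.inr rfl
      closed_le := ?_
      closed_ge := ?_ }
  · refine (hR.isPreconnected_tail hX hy).subset_closure subset_union_left ?_
    rintro u (hu | hu)
    · exact subset_closure hu
    · rw [mem_singleton_iff] at hu
      rw [hu]; exact hcl y hy
  · rintro u (hu | hu) v (hv | hv)
    · rcases hR.total u hu.1 v hv.1 with h | h
      · exact Or.inl (Or.inl ⟨hu, hv, h⟩)
      · exact Or.inr (Or.inl ⟨hv, hu, h⟩)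
    · exact Or.inl (Or.inr hv)
    · exact Or.inr (Or.inr hu)
    · exact Or.inl (Or.inr hv)
  · rintro u - v - (⟨h1, h2, h3⟩ | h1) (⟨h4, h5, h6⟩ | h4)
    · exact seg_antisymm hX h3 h6
    · exact absurd h4 (hmem h1)
    · exact absurd h1 (hmem h4)
    · rw [h1, h4]
  · rintro u - v - w - (⟨h1, h2, h3⟩ | h1) (⟨h4, h5, h6⟩ | h4)
    · exact Or.inl ⟨h1, h5, seg_trans hX h3 h6⟩
    · exact Or.inr h4
    · exact absurd h1 (hmem h4)
    · exact Or.inr h4
  · rintro u (hu | hu)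
    · exact Or.inl ⟨hself, hu, hu.2⟩
    · exact Or.inr hu
  · rintro u (hu | hu)
    · have : {v | v ∈ R ∩ tail p y ∪ {z} ∧
          ((v ∈ R ∩ tail p y ∧ u ∈ R ∩ tail p y ∧ v ∈ seg p u) ∨ u = z)} = seg y u := by
        apply Subset.antisymm
        · rintro v ⟨-, ⟨h1, -, h2⟩ | h1⟩
          · exact tail_inter_seg hX hu.2 ⟨h1.2, h2⟩
          · exact absurd h1 (hmem hu)
        · intro v hv
          have hvR : v ∈ R ∩ tail p y :=
            ⟨hR.down u hu.1 (seg_right_sub hX hu.2 hv), seg_sub_tail hX hu.2 hv⟩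
          exact ⟨Or.inl hvR, Or.inl ⟨hvR, hu, seg_right_sub hX hu.2 hv⟩⟩
      rw [this]; exact isClosed_seg hX y u
    · rw [mem_singleton_iff] at hu
      subst hu
      have : {v | v ∈ R ∩ tail p y ∪ {u} ∧
          ((v ∈ R ∩ tail p y ∧ u ∈ R ∩ tail p y ∧ v ∈ seg p u) ∨ u = u)} =
          R ∩ tail p y ∪ {u} := by
        ext v; simp
      rw [this]; exact (hR.isCompact_limit hX hz hy).isClosed
  · rintro u (hu | hu)
    · have : {v | v ∈ R ∩ tail p y ∪ {z} ∧
          ((u ∈ R ∩ tail p y ∧ v ∈ R ∩ tail p y ∧ u ∈ seg p v) ∨ v = z)} =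
          R ∩ tail p u ∪ {z} := by
        apply Subset.antisymm
        · rintro v ⟨-, ⟨-, h1, h2⟩ | h1⟩
          · exact Or.inl ⟨h1.1, h2⟩
          · exact Or.inr h1
        · rintro v (hv | hv)
          · have hv' : v ∈ R ∩ tail p y := ⟨hv.1, tail_sub hX hu.2 hv.2⟩
            exact ⟨Or.inl hv', Or.inl ⟨hu, hv', hv.2⟩⟩
          · exact ⟨Or.inr hv, Or.inr hv⟩
      rw [this]
      exact (hR.isCompact_limit hX hz hu.1).isClosed
    · rw [mem_singleton_iff] at hu
      subst hu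
      have : {v | v ∈ R ∩ tail p y ∪ {u} ∧
          ((u ∈ R ∩ tail p y ∧ v ∈ R ∩ tail p y ∧ u ∈ seg p v) ∨ v = u)} = {u} := by
        ext v; constructor
        · rintro ⟨-, ⟨h1, -, -⟩ | h1⟩
          · exact absurd h1 hzy
          · exact h1
        · intro hv; exact ⟨Or.inr hv, Or.inr hv⟩
      rw [this]; exact isClosed_singleton

/-- UNBOUNDED CHAINS HAVE COUNTABLE COFINALITY -/
theorem PChain.cofinal [CompactSpace X] {p : X} {R : Set X} (hR : PChain p R)
    (hunb : ∀ q, ∃ x ∈ R, x ∉ seg p q) :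
    ∃ y : ℕ → X, (∀ n, y n ∈ R) ∧ ∀ z ∈ R, ∃ n, z ∈ seg p (y n) := by
  by_contra hcon
  have hb : ∀ y : ℕ → X, (∀ n, y n ∈ R) → ∃ z, z ∈ R ∧ ∀ n, y n ∈ seg p z := by
    intro y hy
    by_contra hno
    push Not at hno
    refine hcon ⟨y, hy, fun z hz => ?_⟩
    obtain ⟨n, hn⟩ := hno z hz
    refine ⟨n, ?_⟩
    rcases hR.total z hz (y n) (hy n) with h | h
    · exact h
    · exact absurd h hn
  obtain ⟨z, hcl, hz⟩ := hR.converges hX hb
  have hbey : ∀ y ∈ R, ∃ y' ∈ R, y ∈ seg p y' ∧ y' ∉ seg p y := by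
    intro y hy
    obtain ⟨y', hy', h⟩ := hunb y
    rcases hR.total y hy y' hy' with h1 | h1
    · exact ⟨y', hy', h1, h⟩
    · exact absurd h1 h
  by_cases hzR : z ∈ R
  · obtain ⟨y, hy, hzy, hyz⟩ := hbey z hzR
    obtain ⟨y', hy', hyy', hy'y⟩ := hbey y hy
    have harc := seg_eq_of_ord hX (hR.arcOrd_limit hX hz hcl hy (fun h => hyz (h.2)))
    have h1 : y' ∈ seg y z := by rw [harc]; exact Or.inl ⟨hy', hyy'⟩
    exact hy'y (seg_sub hX (right_mem_seg hX p y) hzy h1)
  · have harc := seg_eq_of_ord hX (hR.arcOrd_limit hX hz hcl hR.mem (fun h => hzR h.1))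
    obtain ⟨x, hx, hxz⟩ := hunb z
    apply hxz
    rw [harc]
    exact Or.inl ⟨hx, left_mem_seg hX p x⟩

/-- a maximal chain from `p` is unbounded -/
theorem exists_unbounded_chain
    (hE : ∀ x : X, ∃ u v, u ≠ x ∧ v ≠ x ∧ x ∈ seg u v) (p : X) :
    ∃ R, PChain p R ∧ ∀ q, ∃ x ∈ R, x ∉ seg p q := by
  obtain ⟨R, hR⟩ : ∃ R : Set X, IsMaxChain (fun x y : X => x ∈ seg p y) R :=
    ⟨maxChain _, maxChain_spec⟩
  have hins : ∀ q, (∀ x ∈ R, x ∈ seg p q ∨ q ∈ seg p x) → q ∈ R := by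
    intro q hq
    have h1 : IsChain (fun x y : X => x ∈ seg p y) (insert q R) := by
      refine hR.1.insert ?_
      intro b hb _
      rcases hq b hb with h | h
      · exact Or.inr h
      · exact Or.inl h
    have h2 := hR.2 h1 (subset_insert q R)
    rw [h2]; exact mem_insert q R
  have htot : ∀ x ∈ R, ∀ y ∈ R, x ∈ seg p y ∨ y ∈ seg p x := by
    intro x hx y hy
    by_cases hxy : x = y
    · subst hxy; exact Or.inl (right_mem_seg hX p x)
    · exact hR.1 hx hy hxy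
  refine ⟨R, ⟨?_, htot, ?_⟩, ?_⟩
  · exact hins p fun x _ => Or.inr (left_mem_seg hX p x)
  · intro x hx u hu
    refine hins u fun w hw => ?_
    rcases htot w hw x hx with h | h
    · rcases seg_total hX h hu with ⟨h1, -⟩ | ⟨h1, -⟩
      · exact Or.inl h1
      · exact Or.inr h1
    · exact Or.inr (seg_trans hX hu h)
  · intro q
    by_contra hcon
    push Not at hcon
    have hq : q ∈ R := hins q fun x hx => Or.inl (hcon x hx)
    obtain ⟨q', hq', hne⟩ := exists_beyond hX hE p q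
    have hq'R : q' ∈ R := hins q' fun x hx => Or.inl (seg_trans hX (hcon x hx) hq')
    exact hne (seg_antisymm hX (hcon q' hq'R) hq')

end

end Pool.Agent.Work.UAC
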