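import Mathlib
import Pool.Agent.Work.MP_d430fe_gt.Ray

/-!
Every point of a homogeneous uniquely arcwise connected Hausdorff continuum is the centre of a
triod.
-/

set_option autoImplicit false

namespace Pool.Agent.Work.UAC

open Set Topology Filter

variable {X : Type*} [TopologicalSpace X] [T2Space X]

section

variable (hX : UniquelyArcwiseConnected X)

include hX

theorem enlarge (hT : ¬ ∃ o a b c : X, IsTriod o a b c) (l r x : X) :
    ∃ l' r', seg l r ⊆ seg l' r' ∧ x ∈ seg l' r' := by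
  rcases between_of_no_triod hX hT l r x with h | h | h
  · exact ⟨r, x, seg_sub hX h (left_mem_seg hX r x), right_mem_seg hX r x⟩
  · exact ⟨l, x, seg_left_sub hX h, right_mem_seg hX l x⟩
  · exact ⟨l, r, Subset.rfl, h⟩

theorem enlarge₂ (hT : ¬ ∃ o a b c : X, IsTriod o a b c) (l r x y : X) :
    ∃ l' r', seg l r ⊆ seg l' r' ∧ seg x y ⊆ seg l' r' := by
  obtain ⟨l₁, r₁, h1, h2⟩ := enlarge hX hT l r x
  obtain ⟨l₂, r₂, h3, h4⟩ := enlarge hX hT l₁ r₁ y
  exact ⟨l₂, r₂, h1.trans h3, seg_sub hX (h3 h2) h4⟩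

theorem not_univ_seg (hE : ∀ x : X, ∃ u v, u ≠ x ∧ v ≠ x ∧ x ∈ seg u v) {l r : X}
    (h : univ ⊆ seg l r) : False := by
  obtain ⟨u, v, hu, hv, hl⟩ := hE l
  rcases seg_total hX (h (mem_univ u)) (h (mem_univ v)) with ⟨h1, -⟩ | ⟨h1, -⟩
  · exact hu ((seg_inter hX h1).subset ⟨left_mem_seg hX l u, hl⟩).symm
  · rw [seg_comm hX] at hl
    exact hv ((seg_inter hX h1).subset ⟨left_mem_seg hX l v, hl⟩).symm

/-- the Baire step -/
theorem exists_interior [CompactSpace X] (hT : ¬ ∃ o a b c : X, IsTriod o a b c)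
    (hE : ∀ x : X, ∃ u v, u ≠ x ∧ v ≠ x ∧ x ∈ seg u v) {p q : X} (hpq : p ≠ q) :
    ∃ l r : X, (interior (seg l r)).Nonempty := by
  obtain ⟨y, hy⟩ := ray_cofinal hX hT hE hpq
  obtain ⟨y', hy'⟩ := ray_cofinal hX hT hE hpq.symm
  have : Nonempty X := ⟨p⟩
  obtain ⟨n, hn⟩ := nonempty_interior_of_iUnion_of_closed
    (f := fun n : ℕ => seg p q ∪ (seg p (y n) ∪ seg q (y' n)))
    (fun n => (isClosed_seg hX p q).union ((isClosed_seg hX p (y n)).union
      (isClosed_seg hX q (y' n)))) (by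
      apply eq_univ_of_forall
      intro x
      rw [mem_iUnion]
      rcases between_of_no_triod hX hT p q x with h | h | h
      · obtain ⟨n, hn⟩ := hy' x h
        exact ⟨n, Or.inr (Or.inr hn)⟩
      · obtain ⟨n, hn⟩ := hy x h
        exact ⟨n, Or.inr (Or.inl hn)⟩
      · exact ⟨0, Or.inl h⟩)
  obtain ⟨l₁, r₁, h1, h2⟩ := enlarge₂ hX hT p q p (y n)
  obtain ⟨l₂, r₂, h3, h4⟩ := enlarge₂ hX hT l₁ r₁ q (y' n)
  exact ⟨l₂, r₂, hn.mono (interior_mono (union_subset (h1.trans h3)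
    (union_subset (h2.trans h3) h4)))⟩

/-- EXISTENCE OF A TRIOD -/
theorem exists_triod [CompactSpace X] [Nontrivial X]
    (hH : ∀ x y : X, ∃ h : X ≃ₜ X, h x = y) : ∃ o a b c : X, IsTriod o a b c := by
  by_contra hT
  have hE := no_end hX hH
  obtain ⟨p, q, hpq⟩ := exists_pair_ne X
  obtain ⟨l, r, z, hz⟩ := exists_interior hX hT hE hpq
  -- every point has a neighbourhood in a segment
  have hloc : ∀ x : X, ∃ N ∈ 𝓝 x, ∃ l r : X, N ⊆ seg l r := by
    intro x
    obtain ⟨h, hh⟩ := hH z x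
    refine ⟨h '' interior (seg l r), ?_, h l, h r, ?_⟩
    · exact (h.isOpenMap _ isOpen_interior).mem_nhds ⟨z, hz, hh⟩
    · rw [← seg_image hX h.continuous h.injective]
      exact image_mono interior_subset
  have hall : ∃ l r : X, univ ⊆ seg l r := by
    refine isCompact_univ.induction_on (p := fun S : Set X => ∃ l r : X, S ⊆ seg l r) ?_ ?_ ?_ ?_
    · exact ⟨p, p, empty_subset _⟩
    · rintro S T hST ⟨l, r, h⟩
      exact ⟨l, r, hST.trans h⟩
    · rintro S T ⟨l, r, h⟩ ⟨l', r', h'⟩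
      obtain ⟨l'', r'', h1, h2⟩ := enlarge₂ hX hT l r l' r'
      exact ⟨l'', r'', union_subset (h.trans h1) (h'.trans h2)⟩
    · intro x _
      obtain ⟨N, hN, l, r, h⟩ := hloc x
      exact ⟨N, mem_nhdsWithin_of_mem_nhds hN, l, r, h⟩
  obtain ⟨l, r, h⟩ := hall
  exact not_univ_seg hX hE h

/-- every point is the centre of a triod -/
theorem exists_triod_at [CompactSpace X] [Nontrivial X]
    (hH : ∀ x y : X, ∃ h : X ≃ₜ X, h x = y) (x : X) : ∃ a b c : X, IsTriod x a b c := by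
  obtain ⟨o, a, b, c, h⟩ := exists_triod hX hH
  obtain ⟨f, hf⟩ := hH o x
  have := h.map hX f.continuous f.injective
  rw [hf] at this
  exact ⟨f a, f b, f c, this⟩

end

end Pool.Agent.Work.UAC
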