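import Mathlib
import Pool.Agent.Work.MP_d430fe_gt.Chain
import Pool.Agent.Work.MP_d430fe_gt.Exists

/-!
Branches (arc components of the complement of a point) of a homogeneous uniquely arcwise connected
Hausdorff continuum: the principle for hereditary invariant properties.
-/

set_option autoImplicit false

namespace Pool.Agent.Work.UAC

open Set Topology Filter

variable {X : Type*} [TopologicalSpace X] [T2Space X]

/-- the points which can be joined to `z` without meeting `x` -/
def comp (x z : X) : Set X := {w | x ∉ seg z w}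

section

variable (hX : UniquelyArcwiseConnected X)

include hX

theorem self_mem_comp {x z : X} (h : z ≠ x) : z ∈ comp x z := by
  intro h1
  rw [seg_self, mem_singleton_iff] at h1
  exact h h1.symm

theorem notMem_comp (x z : X) : x ∉ comp x z := fun h => h (right_mem_seg hX z x)

theorem comp_symm {x z w : X} (h : w ∈ comp x z) : z ∈ comp x w := by
  intro h1
  rw [seg_comm hX] at h1
  exact h h1

theorem comp_sub_comp {x z w : X} (h : w ∈ comp x z) : comp x w ⊆ comp x z := by
  intro u hu h1
  rcases seg_sub_union hX z u w h1 with h2 | h2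
  · exact h h2
  · exact hu h2

theorem comp_eq {x z w : X} (h : w ∈ comp x z) : comp x w = comp x z :=
  Subset.antisymm (comp_sub_comp hX h) (comp_sub_comp hX (comp_symm hX h))

theorem disjoint_comp {x z w : X} (h : w ∉ comp x z) : Disjoint (comp x w) (comp x z) := by
  rw [Set.disjoint_left]
  intro u hu1 hu2
  apply h
  have h1 := comp_symm hX hu1
  rw [comp_eq hX hu2] at h1
  exact h1

/-- a branch at `x'` which does not contain `x` lies in the branch at `x` which contains `x'` -/
theorem comp_nest {x x' w : X} (hne : x ≠ x') (h : x ∉ comp x' w) : comp x' w ⊆ comp x x' := by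
  intro u hu hx
  have hx' : x' ∈ seg w x := by
    by_contra h1; exact h h1
  rcases seg_sub_union hX w x u hx' with h1 | h1
  · exact hu h1
  · rw [seg_comm hX x' u] at hx
    exact hne (seg_antisymm hX (a := u) hx h1)

theorem comp_mono {t x y : X} (h : t ∈ seg y x) : comp t y ⊆ comp x y := by
  intro w hw h1
  exact hw (seg_trans hX h h1)

theorem image_comp (h : X ≃ₜ X) (x z : X) : h '' comp x z = comp (h x) (h z) := by
  ext w; constructor
  · rintro ⟨u, hu, rfl⟩ h1
    rw [← seg_image hX h.continuous h.injective] at h1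
    obtain ⟨v, hv, hvx⟩ := h1
    rw [h.injective hvx] at hv
    exact hu hv
  · intro hw
    refine ⟨h.symm w, ?_, h.apply_symm_apply w⟩
    intro h1
    apply hw
    have h2 := mem_image_of_mem h h1
    rw [seg_image hX h.continuous h.injective, h.apply_symm_apply] at h2
    exact h2

/-- an unbounded chain from `y` in which the branches containing `y` have a property -/
theorem exists_seq_of_chain [CompactSpace X] {P : Set X → Prop} {y : X} {R : Set X}
    (hR : PChain y R) (hunb : ∀ q, ∃ x ∈ R, x ∉ seg y q)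
    (hP : ∀ x ∈ R, x ≠ y → P (comp x y)) :
    ∃ u : ℕ → X, (∀ n, u n ∈ R ∧ u n ≠ y ∧ P (comp (u n) y)) ∧
      (∀ w, ∃ n, w ∈ comp (u n) y) := by
  obtain ⟨v, hv, hvc⟩ := hR.cofinal hX hunb
  have hesc : ∀ w, ∃ n, v n ∉ seg y w := by
    intro w
    obtain ⟨x, hx, hxw⟩ := hunb w
    obtain ⟨n, hn⟩ := hvc x hx
    exact ⟨n, fun h => hxw (seg_trans hX hn h)⟩
  have hney : ∀ w n, v n ∉ seg y w → v n ≠ y := by
    intro w n h h1
    rw [h1] at h
    exact h (left_mem_seg hX y w)
  obtain ⟨k, hk⟩ := hesc y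
  classical
  refine ⟨fun n => if v n = y then v k else v n, ?_, ?_⟩
  · intro n
    by_cases h : v n = y
    · simp only [h, if_true]
      exact ⟨hv k, hney y k hk, hP _ (hv k) (hney y k hk)⟩
    · simp only [h, if_false]
      exact ⟨hv n, h, hP _ (hv n) h⟩
  · intro w
    obtain ⟨n, hn⟩ := hesc w
    refine ⟨n, ?_⟩
    have h := hney w n hn
    simp only [h, if_false]
    exact hn

end

/-- hereditary properties of sets which are invariant under homeomorphisms -/
structure Small (P : Set X → Prop) : Prop where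
  mono : ∀ S T : Set X, S ⊆ T → P T → P S
  inv : ∀ (h : X ≃ₜ X) (S : Set X), P S → P (h '' S)

/-- the points `x` for which the branch at `x` containing `y` is small -/
def Nset (P : Set X → Prop) (y : X) : Set X := {x | x ≠ y ∧ P (comp x y)}

section

variable (hX : UniquelyArcwiseConnected X) (hH : ∀ x y : X, ∃ h : X ≃ₜ X, h x = y)
  {P : Set X → Prop} (hP : Small P) (hex : ∃ x z : X, z ≠ x ∧ P (comp x z))

include hX hH hP hex

/-- at most one branch is not small -/
theorem at_most_one {y z z' : X} (hz : z ≠ y) (hz' : z' ≠ y) (h : ¬ P (comp y z))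
    (h' : ¬ P (comp y z')) : z' ∈ comp y z := by
  obtain ⟨x₀, z₀, hne, h₀⟩ := hex
  obtain ⟨f, hf⟩ := hH z₀ y
  have key : ∀ v, v ≠ y → ¬ P (comp y v) → f x₀ ∈ comp y v := by
    intro v hv hPv
    by_contra hcon
    have h1 := comp_nest hX (x := f x₀) (x' := y) (w := v)
      (by rw [← hf]; exact fun h2 => hne (f.injective h2).symm) hcon
    rw [← hf, ← image_comp hX, hf] at h1
    exact hPv (hP.mono _ _ h1 (hP.inv f _ h₀))
  have h1 := key z hz h
  have h2 := key z' hz' h'
  rw [← comp_eq hX h1]
  exact comp_symm hX h2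

theorem nset_nonempty (y : X) : (Nset P y).Nonempty := by
  obtain ⟨x₀, z₀, hne, h₀⟩ := hex
  obtain ⟨f, hf⟩ := hH z₀ y
  refine ⟨f x₀, ?_, ?_⟩
  · rw [← hf]; exact fun h => hne (f.injective h).symm
  · rw [← hf, ← image_comp hX]
    exact hP.inv f _ h₀

variable (hno : ∃ x z : X, z ≠ x ∧ ¬ P (comp x z))

include hno

theorem exists_big (y : X) : ∃ z, z ≠ y ∧ ¬ P (comp y z) := by
  obtain ⟨x₀, z₀, hne, h₀⟩ := hno
  obtain ⟨f, hf⟩ := hH x₀ y
  refine ⟨f z₀, ?_, ?_⟩
  · rw [← hf]; exact fun h => hne (f.injective h)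
  · intro h1
    apply h₀
    rw [← hf, ← image_comp hX] at h1
    have h2 := hP.inv f.symm _ h1
    have h3 : f.symm '' (f '' comp x₀ z₀) = comp x₀ z₀ := by
      rw [image_image]; simp
    rwa [h3] at h2

theorem nset_total {y x x' : X} (hx : x ∈ Nset P y) (hx' : x' ∈ Nset P y) :
    x ∈ seg y x' ∨ x' ∈ seg y x := by
  by_contra hcon
  push Not at hcon
  obtain ⟨h1, h2⟩ := hcon
  obtain ⟨z, hz, hzP⟩ := exists_big hX hH hP hex hno x
  have hne : x ≠ x' := fun h => h1 (h ▸ right_mem_seg hX y x)
  -- `x' ∈ comp x y`, `x ∈ comp x' y`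
  have h3 : x' ∈ comp x y := h1
  have h4 : x ∈ comp x' y := h2
  have h5 : x' ∉ comp x z := by
    intro h6
    apply hzP
    rw [← comp_eq hX h6, comp_eq hX h3]
    exact hx.2
  have h6 := comp_nest hX hne.symm h5
  rw [comp_eq hX h4] at h6
  exact hzP (hP.mono _ _ h6 hx'.2)

theorem nset_down {y x t : X} (hx : x ∈ Nset P y) (ht : t ∈ seg y x) (hty : t ≠ y) :
    t ∈ Nset P y :=
  ⟨hty, hP.mono _ _ (comp_mono hX ht) hx.2⟩

theorem nset_chain (y : X) : PChain y (insert y (Nset P y)) where
  mem := mem_insert _ _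
  total := by
    rintro x (rfl | hx) x' (rfl | hx')
    · exact Or.inl (left_mem_seg hX _ _)
    · exact Or.inl (left_mem_seg hX _ _)
    · exact Or.inr (left_mem_seg hX _ _)
    · exact nset_total hX hH hP hex hno hx hx'
  down := by
    rintro x (rfl | hx) t ht
    · rw [seg_self, mem_singleton_iff] at ht
      rw [ht]; exact mem_insert _ _
    · by_cases hty : t = y
      · rw [hty]; exact mem_insert _ _
      · exact Or.inr (nset_down hX hH hP hex hno hx ht hty)

/-- the chain is unbounded -/
theorem nset_unbounded (y q : X) : ∃ x ∈ Nset P y, x ∉ seg y q := by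
  by_contra hcon
  push Not at hcon
  -- the upper bounds
  obtain ⟨x₀, hx₀⟩ := nset_nonempty hX hH hP hex y
  set UB : Set X := ⋂ x ∈ Nset P y, seg x q with hUB
  have hUBc : IsClosed UB := isClosed_biInter fun x _ => isClosed_seg hX x q
  have hUBiff : ∀ t ∈ seg y q, t ∈ UB ↔ ∀ x ∈ Nset P y, x ∈ seg y t := by
    intro t ht
    rw [hUB, mem_iInter₂]
    refine forall₂_congr fun x hx => ?_
    have hxq := hcon x hx
    constructor
    · intro h
      rcases seg_total hX hxq ht with ⟨h1, -⟩ | ⟨h1, -⟩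
      · exact h1
      · have : t = x := (seg_inter hX hxq).subset ⟨h1, h⟩
        rw [this]; exact right_mem_seg hX y x
    · intro h
      rcases seg_total hX hxq ht with ⟨-, h2⟩ | ⟨h1, h2⟩
      · exact h2
      · have : t = x := seg_antisymm hX h1 h
        rw [this]; exact left_mem_seg hX x q
  obtain ⟨s, ⟨hsq, hsU⟩, hs⟩ := exists_first hX (a := y) (b := q) hUBc
    ⟨q, right_mem_seg hX y q, by
      rw [hUBiff q (right_mem_seg hX y q)]; exact hcon⟩
  rw [hUBiff s hsq] at hsU
  -- `Nset P s` is empty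
  obtain ⟨x, hxs, hxP⟩ := nset_nonempty hX hH hP hex s
  by_cases hx : x ∈ seg y s
  · -- there is `x'` in the chain beyond `x`
    have hxq : x ∈ seg y q := seg_trans hX hx hsq
    have : ∃ x' ∈ Nset P y, x' ∉ seg y x := by
      by_contra hc
      push Not at hc
      exact hxs (hs ⟨hx, (hUBiff x hxq).2 hc⟩)
    obtain ⟨x', hx', hx'x⟩ := this
    have hx's : x' ∈ seg y s := hsU x' hx'
    have hxx' : x ∈ seg y x' := by
      rcases seg_total hX hx hx's with ⟨h1, -⟩ | ⟨h1, -⟩
      · exact h1
      · exact absurd h1 hx'x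
    have hne : x ≠ x' := fun h => hx'x (h ▸ right_mem_seg hX y x)
    obtain ⟨z, hz, hzP⟩ := exists_big hX hH hP hex hno x'
    have h1 : x ∈ comp x' y := hx'x
    have h2 : x ∉ comp x' z := by
      intro h3
      apply hzP
      rw [← comp_eq hX h3, comp_eq hX h1]
      exact hx'.2
    have h3 := comp_nest hX hne h2
    have h4 : s ∈ comp x x' := by
      intro h5
      exact hne ((seg_inter hX hx's).subset ⟨hxx', h5⟩)
    rw [← comp_eq hX h4] at h3
    exact hzP (hP.mono _ _ h3 hxP)
  · have h1 : s ∈ comp x y := hx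
    have hxy : x ≠ y := fun h => hx (h ▸ left_mem_seg hX _ _)
    apply hx
    apply hsU x
    refine ⟨hxy, ?_⟩
    rw [← comp_eq hX h1]
    exact hxP

end

section

variable (hX : UniquelyArcwiseConnected X) (hH : ∀ x y : X, ∃ h : X ≃ₜ X, h x = y)
  {P : Set X → Prop} (hP : Small P) (hex : ∃ x z : X, z ≠ x ∧ P (comp x z))

include hX hH hP hex

/-- THE PRINCIPLE: if one branch is small then `X` is a countable union of small branches -/
theorem exists_small_seq [CompactSpace X] [Nontrivial X] (y : X) :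
    ∃ u : ℕ → X, (∀ n, u n ≠ y ∧ P (comp (u n) y)) ∧ (∀ w, ∃ n, w ∈ comp (u n) y) := by
  by_cases hno : ∃ x z : X, z ≠ x ∧ ¬ P (comp x z)
  · obtain ⟨u, h1, h2⟩ := exists_seq_of_chain hX (P := P) (nset_chain hX hH hP hex hno y)
      (fun q => by
        obtain ⟨x, hx, hxq⟩ := nset_unbounded hX hH hP hex hno y q
        exact ⟨x, Or.inr hx, hxq⟩)
      (fun x hx hxy => by
        rcases hx with hx | hx
        · exact absurd hx hxy
        · exact hx.2)
    exact ⟨u, fun n => ⟨(h1 n).2.1, (h1 n).2.2⟩, h2⟩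
  · push Not at hno
    obtain ⟨R, hR, hunb⟩ := exists_unbounded_chain hX (no_end hX hH) y
    obtain ⟨u, h1, h2⟩ := exists_seq_of_chain hX (P := P) hR hunb
      (fun x _ hxy => hno x y hxy.symm)
    exact ⟨u, fun n => ⟨(h1 n).2.1, (h1 n).2.2⟩, h2⟩

omit hP hex in
/-- every branch is nonmeager -/
theorem not_isMeagre_comp [CompactSpace X] [Nontrivial X] {x z : X} (hz : z ≠ x) :
    ¬ IsMeagre (comp x z) := by
  intro hm
  have hS : Small (X := X) IsMeagre :=
    ⟨fun S T h hT => hT.mono h, fun h S hS => h.isInducing.isMeagre_image hS⟩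
  obtain ⟨u, h1, h2⟩ := exists_small_seq hX hH hS ⟨x, z, hz, hm⟩ z
  have h3 : IsMeagre (univ : Set X) := by
    refine (isMeagre_iUnion fun n => (h1 n).2).mono ?_
    intro w _
    exact mem_iUnion.2 (h2 w)
  exact not_isMeagre_of_isOpen isOpen_univ ⟨x, trivial⟩ h3

end

end Pool.Agent.Work.UAC
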