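import Mathlib
import Pool.Agent.Work.MP_d430fe_gt.Branch

/-!
The zero-one law for the branches of a homogeneous uniquely arcwise connected Hausdorff
continuum: a monotone invariant operator with closed values is empty on all branches, or contains
every branch in its own value, unless all homeomorphisms fix an end.
-/

set_option autoImplicit false

namespace Pool.Agent.Work.UAC

open Set Topology Filter

variable {X : Type*} [TopologicalSpace X] [T2Space X]

/-- monotone invariant operators on sets with closed values -/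
structure ClosedOp (Θ : Set X → Set X) : Prop where
  closed : ∀ S, IsClosed (Θ S)
  mono : ∀ S T : Set X, S ⊆ T → Θ S ⊆ Θ T
  inv : ∀ (h : X ≃ₜ X) (S : Set X), Θ (h '' S) = h '' Θ S

/-- an end which is fixed by all homeomorphisms; `N y` is the ray from `y` to the end -/
structure EndField (N : X → Set X) : Prop where
  ne : ∀ y, y ∉ N y
  total : ∀ y, ∀ x ∈ N y, ∀ x' ∈ N y, x ∈ seg y x' ∨ x' ∈ seg y x
  down : ∀ y x t, x ∈ N y → t ∈ seg y x → t ≠ y → t ∈ N y
  unb : ∀ y q, ∃ x ∈ N y, x ∉ seg y q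
  coh : ∀ y y' x, x ∈ N y → x ∉ seg y y' → x ∈ N y'
  inv : ∀ (h : X ≃ₜ X) (y x : X), x ∈ N y → h x ∈ N (h y)

/-- the points in the live branches at `x` -/
def Up (Θ : Set X → Set X) (x : X) : Set X := {w | w ≠ x ∧ x ∈ Θ (comp x w)}

section

variable (hX : UniquelyArcwiseConnected X)

include hX

theorem EndField.coherent {N : X → Set X} (hN : EndField N) (y : X) {y' x : X}
    (hx : x ∈ N y') : ∃ x'' ∈ N y, comp x y' ⊆ comp x'' y := by
  obtain ⟨x₁, h₁, h₁'⟩ := hN.unb y x
  obtain ⟨x₂, h₂, h₂'⟩ := hN.unb y y'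
  have : ∃ x'' ∈ N y, x'' ∉ seg y x ∧ x'' ∉ seg y y' := by
    rcases hN.total y x₁ h₁ x₂ h₂ with h | h
    · exact ⟨x₂, h₂, fun h3 => h₁' (seg_trans hX h h3), h₂'⟩
    · exact ⟨x₁, h₁, h₁', fun h3 => h₂' (seg_trans hX h h3)⟩
  obtain ⟨x'', h3, h4, h5⟩ := this
  refine ⟨x'', h3, ?_⟩
  intro w hw h6
  have h7 := hN.coh y y' x'' h3 h5
  have h8 : x'' ∉ seg y' x := by
    intro h
    rcases seg_sub_union hX y' x y h with h | h
    · rw [seg_comm hX] at h; exact h5 h
    · exact h4 h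
  rcases hN.total y' x hx x'' h7 with h9 | h9
  · rcases seg_sub_union hX y w y' h6 with h | h
    · exact h5 h
    · exact hw (seg_trans hX h9 h)
  · exact h8 h9

/-- with a fixed end the operators are empty or everything on the sets beyond a point -/
theorem EndField.eq_univ [CompactSpace X] (hH : ∀ x y : X, ∃ h : X ≃ₜ X, h x = y)
    {N : X → Set X} (hN : EndField N) {Θ : Set X → Set X} (hΘ : ClosedOp Θ)
    (hne : ∀ y, ∀ x ∈ N y, (Θ (comp x y)ᶜ).Nonempty) {y x : X} (hx : x ∈ N y) :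
    Θ (comp x y)ᶜ = univ := by
  have hQ : ∀ y, (⋂ x : N y, Θ (comp (x : X) y)ᶜ).Nonempty := by
    intro y
    have : Nonempty (N y) := by
      obtain ⟨x, hx, -⟩ := hN.unb y y
      exact ⟨⟨x, hx⟩⟩
    apply IsCompact.nonempty_iInter_of_directed_nonempty_isCompact_isClosed
    · rintro ⟨x, hx⟩ ⟨x', hx'⟩
      rcases hN.total y x hx x' hx' with h | h
      · exact ⟨⟨x', hx'⟩, hΘ.mono _ _ (compl_subset_compl.2 (comp_mono hX h)), Subset.rfl⟩
      · exact ⟨⟨x, hx⟩, Subset.rfl, hΘ.mono _ _ (compl_subset_compl.2 (comp_mono hX h))⟩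
    · exact fun x => hne y x x.2
    · exact fun x => (hΘ.closed _).isCompact
    · exact fun x => hΘ.closed _
  have hsub : ∀ y y', (⋂ x : N y, Θ (comp (x : X) y)ᶜ) ⊆ ⋂ x : N y', Θ (comp (x : X) y')ᶜ := by
    intro y y' w hw
    rw [mem_iInter]
    rintro ⟨x, hx⟩
    obtain ⟨x'', hx'', hs⟩ := hN.coherent hX y hx
    exact hΘ.mono _ _ (compl_subset_compl.2 hs) (mem_iInter.1 hw ⟨x'', hx''⟩)
  have hall : ∀ z y, z ∈ ⋂ x : N y, Θ (comp (x : X) y)ᶜ := by
    intro z y
    obtain ⟨w, hw⟩ := hQ y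
    obtain ⟨h, hh⟩ := hH w z
    apply hsub (h y) y
    rw [mem_iInter]
    rintro ⟨x, hx⟩
    have hx' : h.symm x ∈ N y := by
      have := hN.inv h.symm _ _ hx
      rwa [h.symm_apply_apply] at this
    have h1 := mem_iInter.1 hw ⟨h.symm x, hx'⟩
    have h2 : Θ (comp x (h y))ᶜ = h '' Θ (comp (h.symm x) y)ᶜ := by
      rw [← hΘ.inv, image_compl_eq h.bijective, image_comp hX, h.apply_symm_apply]
    show z ∈ Θ (comp x (h y))ᶜ
    rw [h2]
    exact ⟨w, h1, hh⟩
  exact eq_univ_of_forall fun z => mem_iInter.1 (hall z y) ⟨x, hx⟩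

/-- a mixed hereditary property gives a fixed end -/
theorem endField_nset (hH : ∀ x y : X, ∃ h : X ≃ₜ X, h x = y)
    {P : Set X → Prop} (hP : Small P) (hex : ∃ x z : X, z ≠ x ∧ P (comp x z))
    (hno : ∃ x z : X, z ≠ x ∧ ¬ P (comp x z)) : EndField (Nset P) where
  ne _ h := h.1 rfl
  total _ _ hx _ hx' := nset_total hX hH hP hex hno hx hx'
  down _ _ _ hx ht hty := nset_down hX hH hP hex hno hx ht hty
  unb y q := nset_unbounded hX hH hP hex hno y q
  coh y y' x hx h := ⟨fun h1 => h (h1 ▸ right_mem_seg hX y y'), by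
    have h1 : comp x y' = comp x y := comp_eq hX h
    rw [h1]; exact hx.2⟩
  inv h y x hx := ⟨fun h1 => hx.1 (h.injective h1), by
    rw [← image_comp hX]; exact hP.inv h _ hx.2⟩

theorem up_of_comp {Θ : Set X → Set X} {x w w' : X} (h : w ∈ Up Θ x) (h' : w' ∈ comp x w) :
    w' ∈ Up Θ x := by
  refine ⟨fun h1 => notMem_comp hX x w (h1 ▸ h'), ?_⟩
  rw [comp_eq hX h']
  exact h.2

theorem up_image {Θ : Set X → Set X} (hΘ : ClosedOp Θ) (h : X ≃ₜ X) {x w : X}
    (hw : w ∈ Up Θ x) : h w ∈ Up Θ (h x) := by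
  refine ⟨fun h1 => hw.1 (h.injective h1), ?_⟩
  rw [← image_comp hX, hΘ.inv]
  exact mem_image_of_mem _ hw.2

theorem mem_of_up {Θ : Set X → Set X} (hΘ : ClosedOp Θ) {x z y v : X} (hy : y ∈ comp x z)
    (hv : v ∈ Up Θ y) (hx : x ∉ comp y v) : y ∈ Θ (comp x z) := by
  have hne : x ≠ y := fun h => notMem_comp hX x z (by rw [← h] at hy; exact hy)
  have h1 := comp_nest hX hne hx
  rw [comp_eq hX hy] at h1
  exact hΘ.mono _ _ h1 hv.2

/-- there are live branches -/
theorem exists_up [CompactSpace X] [Nontrivial X] (hH : ∀ x y : X, ∃ h : X ≃ₜ X, h x = y)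
    {Θ : Set X → Set X} (hΘ : ClosedOp Θ)
    (hne : ∀ x z : X, z ≠ x → (Θ (comp x z)).Nonempty) (x : X) : (Up Θ x).Nonempty := by
  have key : ∃ w, (Up Θ w).Nonempty := by
    have hE := no_end hX hH
    obtain ⟨R, hR, hunb⟩ := exists_unbounded_chain hX hE x
    have hother : ∀ r, r ≠ x → (Θ (comp r x)ᶜ).Nonempty := by
      intro r hr
      obtain ⟨u, v, hu, hv, huv⟩ := hE r
      have : ∃ z, z ≠ r ∧ z ∉ comp r x := by
        by_contra hcon
        push Not at hcon
        have h1 := hcon u hu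
        have h2 := hcon v hv
        rw [← comp_eq hX h1] at h2
        exact h2 huv
      obtain ⟨z, hz, hzr⟩ := this
      refine (hne r z hz).mono (hΘ.mono _ _ ?_)
      exact (disjoint_comp hX hzr).subset_compl_right
    have hne' : Nonempty {r : X // r ∈ R ∧ r ≠ x} := by
      obtain ⟨r, hr, hrx⟩ := hunb x
      exact ⟨⟨r, hr, fun h => hrx (by rw [h]; exact left_mem_seg hX x x)⟩⟩
    obtain ⟨w, hw⟩ := IsCompact.nonempty_iInter_of_directed_nonempty_isCompact_isClosed
      (fun r : {r : X // r ∈ R ∧ r ≠ x} => Θ (comp (r : X) x)ᶜ)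
      (by
        rintro ⟨r, hr, hrx⟩ ⟨s, hs, hsx⟩
        rcases hR.total r hr s hs with h | h
        · exact ⟨⟨s, hs, hsx⟩, hΘ.mono _ _ (compl_subset_compl.2 (comp_mono hX h)),
            Subset.rfl⟩
        · exact ⟨⟨r, hr, hrx⟩, Subset.rfl,
            hΘ.mono _ _ (compl_subset_compl.2 (comp_mono hX h))⟩)
      (fun r => hother r r.2.2) (fun r => (hΘ.closed _).isCompact) (fun r => hΘ.closed _)
    rw [mem_iInter] at hw
    obtain ⟨r, hr, hrw⟩ := hunb w
    have hrx : r ≠ x := fun h => hrw (h ▸ left_mem_seg hX _ _)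
    have h1 := hw ⟨r, hr, hrx⟩
    refine ⟨w, r, ?_, ?_⟩
    · exact fun h => hrw (h ▸ right_mem_seg hX _ _)
    · refine hΘ.mono _ _ ?_ h1
      intro u hu h2
      -- `hu : u ∉ comp r x`, `h2 : w ∈ seg r u`
      have h3 : w ∈ comp r x := hrw
      have h4 : u ∉ comp r w := by
        intro h5
        apply hu
        rw [comp_eq hX h3] at h5
        exact h5
      have h5 : r ∈ seg w u := by
        by_contra h6
        exact h4 h6
      have h6 : r = w := by
        rw [seg_comm hX] at h5 h2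
        exact seg_antisymm hX h5 h2
      exact hrw (h6 ▸ right_mem_seg hX _ _)
  obtain ⟨w, v, hv⟩ := key
  obtain ⟨h, hh⟩ := hH w x
  exact ⟨h v, by rw [← hh]; exact up_image hX hΘ h hv⟩

/-- two live branches: all branches are live -/
theorem all_of_two (hH : ∀ x y : X, ∃ h : X ≃ₜ X, h x = y)
    {Θ : Set X → Set X} (hΘ : ClosedOp Θ)
    (h2 : ∃ x z z', z ∈ Up Θ x ∧ z' ∈ Up Θ x ∧ z' ∉ comp x z) (x z : X) :
    comp x z ⊆ Θ (comp x z) := by
  intro y hy
  obtain ⟨x₀, z₀, z₀', h₀, h₀', hne⟩ := h2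
  obtain ⟨h, hh⟩ := hH x₀ y
  have h3 : h z₀ ∈ Up Θ y := by rw [← hh]; exact up_image hX hΘ h h₀
  have h4 : h z₀' ∈ Up Θ y := by rw [← hh]; exact up_image hX hΘ h h₀'
  have h5 : h z₀' ∉ comp y (h z₀) := by
    rw [← hh, ← image_comp hX]
    rintro ⟨u, hu, huz⟩
    rw [h.injective huz] at hu
    exact hne hu
  by_cases hx : x ∈ comp y (h z₀)
  · refine mem_of_up hX hΘ hy h4 ?_
    intro h6
    apply h5
    rw [← comp_eq hX hx]
    exact comp_symm hX h6
  · exact mem_of_up hX hΘ hy h3 hx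

end

section

variable (hX : UniquelyArcwiseConnected X) {Θ : Set X → Set X} (hΘ : ClosedOp Θ)
  (hn : ∀ x, (Up Θ x).Nonempty) (hu : ∀ x z z', z ∈ Up Θ x → z' ∈ Up Θ x → z' ∈ comp x z)

include hX hΘ hn

omit hΘ in
theorem up_local (hΘ : ClosedOp Θ) {x z y : X} (hy : y ∈ comp x z) (hyΘ : y ∉ Θ (comp x z)) :
    x ∈ Up Θ y := by
  obtain ⟨v, hv⟩ := hn y
  by_contra hx
  apply hyΘ
  refine mem_of_up hX hΘ hy hv ?_
  intro h
  exact hx (up_of_comp hX hv h)

omit hn in
/-- inner points of a segment near an end point -/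
theorem exists_near (x s : X) (hxs : x ≠ s) {O : Set X} (hO : IsOpen O) (hs : s ∈ O) :
    ∃ y ∈ seg x s, y ≠ s ∧ y ≠ x ∧ y ∈ O := by
  by_contra hcon
  push Not at hcon
  have h1 := isPreconnected_seg hX x s
  have h2 := h1 (O ∩ {x}ᶜ) ({s}ᶜ) (hO.inter isOpen_compl_singleton) isOpen_compl_singleton
    (by
      intro y hy
      by_cases h : y = s
      · left; rw [h]; exact ⟨hs, fun h3 => hxs h3.symm⟩
      · exact Or.inr h)
    ⟨s, right_mem_seg hX x s, hs, fun h3 => hxs h3.symm⟩ ⟨x, left_mem_seg hX x s, hxs⟩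
  obtain ⟨y, hy, ⟨hyO, hyx⟩, hys⟩ := h2
  exact hcon y hy hys hyx hyO

include hu

/-- two different points never point away from each other -/
theorem not_back {x z : X} (hzx : z ≠ x) (hz : z ∉ Up Θ x) : x ∈ Up Θ z := by
  by_contra hcon
  set S : Set X := {y | y ∈ seg x z ∧ y ≠ x ∧ x ∉ Up Θ y} with hS
  have hzS : z ∈ S := ⟨right_mem_seg hX x z, hzx, hcon⟩
  obtain ⟨s, ⟨hsz, hscl⟩, hs⟩ := exists_first hX (a := x) (b := z) (C := closure S)
    isClosed_closure ⟨z, right_mem_seg hX x z, subset_closure hzS⟩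
  have hcomp : ∀ y ∈ S, y ∈ comp x z := by
    intro y hy h1
    rw [seg_comm hX] at h1
    have h2 := hy.1
    rw [seg_comm hX] at h2
    exact hy.2.1 (by
      have := seg_antisymm hX (a := z) (x := x) (y := y) (by rw [seg_comm hX]; exact h1) h2
      exact this.symm)
  have hsx : s ≠ x := by
    intro h
    have hx1 : x ∉ Θ (comp x z) := fun h1 => hz ⟨hzx, h1⟩
    rw [h] at hscl
    obtain ⟨y, hy1, hy2⟩ := mem_closure_iff.1 hscl _ (hΘ.closed (comp x z)).isOpen_compl hx1
    exact hy2.2.2 (up_local hX hn hΘ (hcomp y hy2) hy1)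
  by_cases hxs : x ∈ Up Θ s
  · -- `s` points to `x`
    have hsS : s ∉ S := fun h => h.2.2 hxs
    have hsz' : s ≠ z := fun h => hsS (h ▸ hzS)
    have hzs : z ∉ Up Θ s := by
      intro h
      exact (hu s x z hxs h) hsz
    have h1 : s ∉ Θ (comp s z) := fun h => hzs ⟨hsz'.symm, h⟩
    obtain ⟨y, hy1, hy2⟩ := mem_closure_iff.1 hscl _ (hΘ.closed (comp s z)).isOpen_compl h1
    have hys : y ≠ s := fun h => hsS (h ▸ hy2)
    have hyxs : y ∉ seg x s := fun h => hys (hs ⟨h, subset_closure hy2⟩)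
    have hysz : y ∈ seg s z := by
      rcases seg_total hX hsz hy2.1 with ⟨-, h⟩ | ⟨h, -⟩
      · exact h
      · exact absurd h hyxs
    have hyc : y ∈ comp s z := by
      intro h
      rw [seg_comm hX] at hysz
      exact hys (seg_antisymm hX hysz h)
    have h2 := up_local hX hn hΘ hyc hy1
    apply hy2.2.2
    refine up_of_comp hX h2 ?_
    intro h
    rw [seg_comm hX] at h
    exact hyxs h
  · -- `s` points away from `x`
    have h1 : s ∉ Θ (comp s x) := fun h => hxs ⟨hsx.symm, h⟩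
    obtain ⟨y, hy, hys, hyx, hyO⟩ := exists_near hX hΘ x s hsx.symm
      (hΘ.closed (comp s x)).isOpen_compl h1
    have hyc : y ∈ comp s x := fun h => hys (seg_antisymm hX hy h)
    have h2 := up_local hX hn hΘ hyc hyO
    have hyS : y ∉ S := fun h => hys (hs ⟨hy, subset_closure h⟩)
    have h3 : x ∈ Up Θ y := by
      by_contra h4
      exact hyS ⟨seg_left_sub hX hsz hy, hyx, h4⟩
    exact (hu y x s h3 h2) hy

end

section

variable (hX : UniquelyArcwiseConnected X) (hH : ∀ x y : X, ∃ h : X ≃ₜ X, h x = y)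
  {Θ : Set X → Set X} (hΘ : ClosedOp Θ)
  (hn : ∀ x, (Up Θ x).Nonempty) (hu : ∀ x z z', z ∈ Up Θ x → z' ∈ Up Θ x → z' ∈ comp x z)

include hX hΘ hn hu

/-- the points whose live branch does not contain `y` -/
theorem away_up {x y : X} (hne : x ≠ y) (h : y ∉ Up Θ x) : x ∈ Up Θ y :=
  not_back hX hΘ hn hu hne.symm h

theorem away_total {y x x' : X} (hx : x ≠ y) (hxy : y ∉ Up Θ x) (hx' : x' ≠ y)
    (hxy' : y ∉ Up Θ x') : x ∈ seg y x' ∨ x' ∈ seg y x := by
  by_contra hcon
  push Not at hcon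
  obtain ⟨h1, h2⟩ := hcon
  have h3 : x' ∈ comp x y := h1
  have h4 : x ∈ comp x' y := h2
  have hne : x ≠ x' := fun h => h1 (h ▸ right_mem_seg hX y x)
  have h5 : x' ∉ Up Θ x := fun h => hxy (up_of_comp hX h (comp_symm hX h3))
  have h6 : x ∈ Up Θ x' := not_back hX hΘ hn hu hne.symm h5
  exact hxy' (up_of_comp hX h6 (comp_symm hX h4))

theorem away_down {y x t : X} (hx : x ≠ y) (hxy : y ∉ Up Θ x) (ht : t ∈ seg y x) (hty : t ≠ y) :
    y ∉ Up Θ t := by
  intro h
  have htx : t ≠ x := fun h1 => hxy (h1 ▸ h)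
  have h1 : x ∉ Up Θ t := by
    intro h2
    exact (hu t y x h h2) ht
  have h2 : t ∈ Up Θ x := not_back hX hΘ hn hu htx.symm h1
  apply hxy
  refine up_of_comp hX h2 ?_
  intro h3
  rw [seg_comm hX] at h3
  exact htx (seg_antisymm hX ht h3)

include hH

theorem away_nonempty [CompactSpace X] [Nontrivial X] (y : X) :
    ∃ x, x ≠ y ∧ y ∉ Up Θ x := by
  have hE := no_end hX hH
  obtain ⟨x₀⟩ : Nonempty X := inferInstance
  obtain ⟨u, v, hu', hv', huv⟩ := hE x₀
  have : ∃ z, z ≠ x₀ ∧ z ∉ Up Θ x₀ := by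
    by_contra hcon
    push Not at hcon
    exact (hu x₀ u v (hcon u hu') (hcon v hv')) huv
  obtain ⟨z, hz, hzx⟩ := this
  obtain ⟨h, hh⟩ := hH z y
  refine ⟨h x₀, ?_, ?_⟩
  · rw [← hh]
    exact fun h1 => hz (h.injective h1).symm
  · intro h1
    apply hzx
    have h2 := up_image hX hΘ h.symm h1
    rw [h.symm_apply_apply, ← hh, h.symm_apply_apply] at h2
    exact h2

/-- the points pointing away from `y` are unbounded -/
theorem away_unbounded [CompactSpace X] [Nontrivial X] (y q : X) :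
    ∃ x, (x ≠ y ∧ y ∉ Up Θ x) ∧ x ∉ seg y q := by
  by_contra hcon
  push Not at hcon
  set N : Set X := {x | x ≠ y ∧ y ∉ Up Θ x} with hN
  replace hcon : ∀ x ∈ N, x ∈ seg y q := fun x hx => hcon x hx
  set UB : Set X := ⋂ x ∈ N, seg x q with hUB
  have hUBc : IsClosed UB := isClosed_biInter fun x _ => isClosed_seg hX x q
  have hUBiff : ∀ t ∈ seg y q, t ∈ UB ↔ ∀ x ∈ N, x ∈ seg y t := by
    intro t ht
    rw [hUB, mem_iInter₂]
    refine forall₂_congr fun x hx => ?_
    have hxq := hcon x hx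
    constructor
    · intro h
      rcases seg_total hX hxq ht with ⟨h1, -⟩ | ⟨h1, -⟩
      · exact h1
      · have : t = x := (seg_inter hX hxq).subset ⟨h1, h⟩
        rw [this]; exact right_mem_seg hX y x
    · intro h
      rcases seg_total hX hxq ht with ⟨-, h2⟩ | ⟨h1, h2⟩
      · exact h2
      · have : t = x := seg_antisymm hX h1 h
        rw [this]; exact left_mem_seg hX x q
  obtain ⟨s, ⟨hsq, hsU⟩, hs⟩ := exists_first hX (a := y) (b := q) hUBc
    ⟨q, right_mem_seg hX y q, by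
      rw [hUBiff q (right_mem_seg hX y q)]; exact hcon⟩
  rw [hUBiff s hsq] at hsU
  obtain ⟨x, hxs, hxU⟩ := away_nonempty hX hH hΘ hn hu s
  have hxs' : x ∈ Up Θ s := away_up hX hΘ hn hu hxs hxU
  by_cases hsN : s ∈ N
  · -- `s` points away from `y`
    have h1 : x ∉ comp s y := by
      intro h
      exact hsN.2 (up_of_comp hX hxs' (comp_symm hX h))
    have h2 : s ∈ seg y x := by
      by_contra h
      exact h1 h
    have h3 : x ∉ seg s y := by
      intro h
      rw [seg_comm hX] at h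
      exact hxs (seg_antisymm hX h h2)
    have h4 : y ∈ comp x s := h3
    have hxN : x ∈ N := by
      refine ⟨fun h => h3 (h ▸ right_mem_seg hX _ _), ?_⟩
      intro h
      exact hxU (up_of_comp hX h (comp_symm hX h4))
    have h5 := hsU x hxN
    rw [seg_comm hX] at h5
    exact h3 h5
  · obtain ⟨x₀, hx₀, hx₀U⟩ := away_nonempty hX hH hΘ hn hu y
    have hsy : s ≠ y := by
      intro h
      have h1 := hsU x₀ ⟨hx₀, hx₀U⟩
      rw [h, seg_self, mem_singleton_iff] at h1
      exact hx₀ h1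
    have hys : y ∈ Up Θ s := by
      by_contra h
      exact hsN ⟨hsy, h⟩
    have hc : x ∈ comp s y := hu s y x hys hxs'
    -- a common inner point of the segments from `s` to `x` and to `y`
    have h1 : ¬ seg x s ∩ seg s y ⊆ {s} := by
      intro h
      apply hc
      have := mem_seg_of_inter hX h
      rw [seg_comm hX] at this
      exact this
    obtain ⟨t, ⟨ht1, ht2⟩, hts⟩ := not_subset.1 h1
    rw [mem_singleton_iff] at hts
    rw [seg_comm hX] at ht1
    -- points strictly between `s` and `t` are in `N`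
    have hinN : ∀ t', t' ∈ seg y s → t' ≠ s → t' ≠ y → t' ∈ N := by
      intro t' h1 h2 h3
      have h4 : ∃ x' ∈ N, x' ∉ seg y t' := by
        by_contra hc'
        push Not at hc'
        exact h2 (hs ⟨h1, (hUBiff t' (seg_trans hX h1 hsq)).2 hc'⟩)
      obtain ⟨x', hx', hx't⟩ := h4
      have h5 := hsU x' hx'
      have h6 : t' ∈ seg y x' := by
        rcases seg_total hX h1 h5 with ⟨h, -⟩ | ⟨h, -⟩
        · exact h
        · exact absurd h hx't
      exact ⟨h3, away_down hX hΘ hn hu hx'.1 hx'.2 h6 h3⟩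
    obtain ⟨t', ht', ht'n⟩ := (seg_infinite hX (Ne.symm hts)).exists_notMem_finite
      (toFinite ({s, y} : Set X))
    simp only [mem_insert_iff, mem_singleton_iff, not_or] at ht'n
    have ht's : t' ∈ seg s y := seg_trans hX ht' ht2
    have ht'x : t' ∈ seg s x := seg_trans hX ht' ht1
    have ht'U : s ∉ Up Θ t' := away_down hX hΘ hn hu hxs hxU ht'x ht'n.1
    have ht'y : t' ∈ seg y s := by rw [seg_comm hX]; exact ht's
    obtain ⟨t'', ht'', ht''n⟩ := (seg_infinite hX ht'n.1).exists_notMem_finite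
      (toFinite ({s, t'} : Set X))
    simp only [mem_insert_iff, mem_singleton_iff, not_or] at ht''n
    have h2 : t'' ∈ seg y s := seg_right_sub hX ht'y ht''
    have h3 : t' ∈ seg y t'' := by
      rcases seg_total hX ht'y h2 with ⟨h, -⟩ | ⟨h, -⟩
      · exact h
      · exact absurd ((seg_inter hX ht'y).subset ⟨h, ht''⟩) ht''n.2
    have h4 : t'' ≠ y := by
      intro h
      rw [h, seg_self, mem_singleton_iff] at h3
      exact ht'n.2 h3
    have h5 : t'' ∉ Up Θ t' := by
      intro h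
      apply ht'U
      refine up_of_comp hX h ?_
      intro h6
      rw [seg_comm hX] at h6 ht''
      exact ht''n.2 (seg_antisymm hX (a := s) ht'' (by rw [seg_comm hX]; rw [seg_comm hX] at h6; exact h6)).symm.symm
    have h6 : t' ∈ Up Θ t'' := not_back hX hΘ hn hu ht''n.2 h5
    have h7 := hinN t'' h2 ht''n.1 h4
    apply h7.2
    refine up_of_comp hX h6 ?_
    intro h8
    rw [seg_comm hX] at h8
    exact ht''n.2 (seg_antisymm hX (a := y) h3 h8).symm

theorem endField_up [CompactSpace X] [Nontrivial X] :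
    EndField (fun y => {x | x ≠ y ∧ y ∉ Up Θ x}) where
  ne _ h := h.1 rfl
  total _ _ hx _ hx' := away_total hX hΘ hn hu hx.1 hx.2 hx'.1 hx'.2
  down _ _ _ hx ht hty := ⟨hty, away_down hX hΘ hn hu hx.1 hx.2 ht hty⟩
  unb y q := by
    obtain ⟨x, h1, h2⟩ := away_unbounded hX hH hΘ hn hu y q
    exact ⟨x, h1, h2⟩
  coh y y' x hx h := by
    refine ⟨fun h1 => h (h1 ▸ right_mem_seg hX y y'), ?_⟩
    intro h1
    have h2 : y' ∈ comp x y := h
    exact hx.2 (up_of_comp hX h1 (comp_symm hX h2))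
  inv h y x hx := by
    refine ⟨fun h1 => hx.1 (h.injective h1), ?_⟩
    intro h1
    apply hx.2
    have h2 := up_image hX hΘ h.symm h1
    rwa [h.symm_apply_apply, h.symm_apply_apply] at h2

end

/-- THE ZERO-ONE LAW -/
theorem law [CompactSpace X] [Nontrivial X] (hX : UniquelyArcwiseConnected X)
    (hH : ∀ x y : X, ∃ h : X ≃ₜ X, h x = y) {Θ : Set X → Set X} (hΘ : ClosedOp Θ) :
    (∀ x z : X, z ≠ x → Θ (comp x z) = ∅) ∨ (∀ x z : X, comp x z ⊆ Θ (comp x z)) ∨
      ∃ N : X → Set X, EndField N := by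
  by_cases h1 : ∃ x z : X, z ≠ x ∧ Θ (comp x z) = ∅
  · by_cases h2 : ∃ x z : X, z ≠ x ∧ ¬ Θ (comp x z) = ∅
    · right; right
      refine ⟨Nset fun S => Θ S = ∅, endField_nset hX hH ⟨?_, ?_⟩ h1 h2⟩
      · intro S T hST hT
        exact subset_empty_iff.1 (hT ▸ hΘ.mono S T hST)
      · intro h S hS
        rw [hΘ.inv, hS, image_empty]
    · push Not at h2
      exact Or.inl h2
  · push Not at h1
    right
    have hn := exists_up hX hH hΘ (fun x z hz => nonempty_iff_ne_empty.2 (h1 x z hz).ne_empty)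
    by_cases h2 : ∃ x z z', z ∈ Up Θ x ∧ z' ∈ Up Θ x ∧ z' ∉ comp x z
    · exact Or.inl (all_of_two hX hH hΘ h2)
    · push Not at h2
      exact Or.inr ⟨_, endField_up hX hH hΘ hn h2⟩

end Pool.Agent.Work.UAC
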