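import Mathlib
import Pool.Agent.Work.MP_d430fe_gt.Law
import Pool.Agent.Work.MP_d430fe_gt.BanachCat

/-!
The category dichotomy for the branches of a homogeneous uniquely arcwise connected Hausdorff
continuum, for all local ideals.
-/

set_option autoImplicit false

namespace Pool.Agent.Work.UAC

open Set Topology Filter

variable {X : Type*} [TopologicalSpace X]

theorem closedOp_resid {I : Set X → Prop} (hI : LocalIdeal I) :
    ClosedOp (fun S : Set X => closure (resid I S)) where
  closed _ := isClosed_closure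
  mono _ _ h := closure_mono (resid_mono hI h)
  inv h S := by
    show closure (resid I (h '' S)) = h '' closure (resid I S)
    rw [resid_image hI, h.image_closure]

variable [T2Space X]

section

variable (hX : UniquelyArcwiseConnected X)

include hX

theorem compl_comp_sub {x y : X} (hne : x ≠ y) : (comp y x)ᶜ ⊆ comp x y := by
  intro w hw h
  have h1 : y ∈ seg x w := by
    by_contra h2
    exact hw h2
  rw [seg_comm hX] at h h1
  exact hne (seg_antisymm hX h h1)

/-- there are no isolated points -/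
theorem not_isolated [Nontrivial X] {x : X} {O : Set X} (hO : IsOpen O) (hx : x ∈ O) :
    (O ∩ {x}ᶜ).Nonempty := by
  obtain ⟨z, hz⟩ := exists_ne x
  by_contra hcon
  rw [not_nonempty_iff_eq_empty] at hcon
  have h1 := isPreconnected_seg hX z x O {x}ᶜ hO isOpen_compl_singleton
    (fun y _ => by
      by_cases h : y = x
      · left; rw [h]; exact hx
      · exact Or.inr h)
    ⟨x, right_mem_seg hX z x, hx⟩ ⟨z, left_mem_seg hX z x, hz⟩
  obtain ⟨y, -, hy⟩ := h1
  rw [hcon] at hy
  exact hy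

/-- branches are not small -/
theorem not_small_comp [CompactSpace X] [Nontrivial X]
    (hH : ∀ x y : X, ∃ h : X ≃ₜ X, h x = y) {I : Set X → Prop} (hI : LocalIdeal I)
    (hI' : ¬ I univ) {x z : X} (hz : z ≠ x) : ¬ I (comp x z) := by
  intro hm
  obtain ⟨u, h1, h2⟩ := exists_small_seq hX hH ⟨hI.mono, hI.inv⟩ ⟨x, z, hz, hm⟩ z
  apply hI'
  refine hI.mono _ _ ?_ (hI.iUnion (fun n => comp (u n) z) fun n => (h1 n).2)
  intro w _
  exact mem_iUnion.2 (h2 w)

/-- THE DICHOTOMY -/
theorem dichotomy [CompactSpace X] [Nontrivial X] (hH : ∀ x y : X, ∃ h : X ≃ₜ X, h x = y)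
    {I : Set X → Prop} (hI : LocalIdeal I) (hI' : ¬ I univ) :
    (∀ x z : X, z ≠ x → ∀ U : Set X, IsOpen U → U.Nonempty → ¬ I (comp x z ∩ U)) ∨
      (∀ x z : X, comp x z ⊆ closure (interior (comp x z))) := by
  by_contra hcon
  push Not at hcon
  obtain ⟨⟨x₀, z₀, hne₀, U₀, hU₀, hU₀n, hm₀⟩, hY⟩ := hcon
  set P : Set X → Prop := fun S => ∃ U, IsOpen U ∧ U.Nonempty ∧ I (S ∩ U) with hPdef
  have hP : Small P := by
    refine ⟨?_, ?_⟩
    · rintro S T h ⟨U, h1, h2, h3⟩
      exact ⟨U, h1, h2, hI.mono _ _ (inter_subset_inter_left _ h) h3⟩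
    · rintro h S ⟨U, h1, h2, h3⟩
      refine ⟨h '' U, h.isOpenMap U h1, h2.image h, ?_⟩
      rw [← image_inter h.injective]
      exact hI.inv h _ h3
  have key1 : ∀ S : Set X, P S → (resid I Sᶜ).Nonempty := by
    rintro S ⟨U, h1, ⟨u, hu⟩, h3⟩
    refine ⟨u, U, ⟨h1, ?_⟩, hu⟩
    refine hI.mono _ _ ?_ h3
    rintro w ⟨hw1, hw2⟩
    exact ⟨by by_contra h4; exact hw2 h4, hw1⟩
  have key2 : ∀ N : X → Set X, EndField N → (∀ y, ∀ x ∈ N y, P (comp x y)) → False := by
    intro N hN hNP
    obtain ⟨x, hx, -⟩ := hN.unb x₀ x₀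
    have h1 := hN.eq_univ hX hH (closedOp_resid hI)
      (fun y x hx => (key1 _ (hNP y x hx)).closure) hx
    have h2 : Dense (resid I (comp x x₀)ᶜ) := by
      rw [dense_iff_closure_eq]; exact h1
    exact not_small_comp hX hH hI hI' (fun h => hN.ne x₀ (by rw [← h] at hx; exact hx))
      (small_of_dense_resid hI h2)
  by_cases hall : ∃ x z : X, z ≠ x ∧ ¬ P (comp x z)
  · refine key2 _ (endField_nset hX hH hP ⟨x₀, z₀, hne₀, U₀, hU₀, hU₀n, hm₀⟩ hall) ?_
    intro y x hx
    exact hx.2
  · push Not at hall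
    rcases law hX hH (closedOp_resid hI) with h | h | ⟨N, hN⟩
    · have h1 := key1 _ (hall z₀ x₀ hne₀.symm)
      have h2 := h1.mono (resid_mono hI (compl_comp_sub hX hne₀.symm))
      exact h2.closure.ne_empty (h x₀ z₀ hne₀)
    · obtain ⟨x, z, hxz⟩ := hY
      apply hxz
      -- the set `resid (comp x z)` lies in `comp x z ∪ {x}`
      have h1 : resid I (comp x z) ∩ {x}ᶜ ⊆ comp x z := by
        rintro w ⟨hw, hwx⟩
        by_contra hwz
        have h2 : w ∈ closure (resid I (comp x w)) := h x w (self_mem_comp hX hwx)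
        obtain ⟨v, hv1, hv2⟩ := mem_closure_iff.1 h2 _ (isOpen_resid _ _) hw
        exact Set.disjoint_left.1 (disjoint_resid hI (not_small_open hI hH hI')
          (disjoint_comp hX hwz)) hv2 hv1
      have h2 : resid I (comp x z) ∩ {x}ᶜ ⊆ interior (comp x z) :=
        interior_maximal h1 ((isOpen_resid _ _).inter isOpen_compl_singleton)
      intro w hw
      have h3 := h x z hw
      rw [mem_closure_iff] at h3 ⊢
      intro O hO hwO
      obtain ⟨v, hvO, hv⟩ := h3 O hO hwO
      by_cases hvx : v = x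
      · obtain ⟨u, ⟨hu1, hu2⟩, hu3⟩ := not_isolated hX (hO.inter (isOpen_resid I (comp x z)))
          ⟨hvO, hv⟩
        exact ⟨u, hu1, h2 ⟨hu2, by rw [← hvx]; exact hu3⟩⟩
      · exact ⟨v, hvO, h2 ⟨hv, hvx⟩⟩
    · refine key2 N hN ?_
      intro y x hx
      exact hall x y (fun h => hN.ne y (by rw [← h] at hx; exact hx))

end

end Pool.Agent.Work.UAC
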