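import Mathlib
import Pool.Agent.Work.MP_d430fe_gt.Branch

/-!
In a homogeneous uniquely arcwise connected Hausdorff continuum no proper nonempty closed set is
regular (all its points are interior to their branches at all points outside the set).
-/

set_option autoImplicit false

namespace Pool.Agent.Work.UAC

open Set Topology Filter

variable {X : Type*} [TopologicalSpace X] [T2Space X]

/-- closed sets whose points are interior to their branches at the outer points -/
structure Reg (M : Set X) : Prop where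
  closed : IsClosed M
  ne : M.Nonempty
  reg : ∀ v ∈ M, ∀ x, x ∉ M → v ∈ interior (comp x v)

/-- the points which can be joined to `y` off `P` -/
def off (P : Set X) (y : X) : Set X := {w | Disjoint (seg y w) P}

section

variable (hX : UniquelyArcwiseConnected X)

omit [T2Space X] in
theorem Reg.inter {M N : Set X} (hM : Reg M) (hN : Reg N) (h : (M ∩ N).Nonempty) :
    Reg (M ∩ N) where
  closed := hM.closed.inter hN.closed
  ne := h
  reg := by
    rintro v ⟨h1, h2⟩ x hx
    by_cases h3 : x ∈ M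
    · exact hN.reg v h2 x fun h4 => hx ⟨h3, h4⟩
    · exact hM.reg v h1 x h3

omit [T2Space X] in
theorem Minimal.eq_of_meet {M N : Set X} (hM : Minimal Reg M) (hN : Minimal Reg N) {v : X}
    (h1 : v ∈ M) (h2 : v ∈ N) : M = N := by
  have h := hM.prop.inter hN.prop ⟨v, h1, h2⟩
  exact Subset.antisymm ((hM.2 h inter_subset_left).trans inter_subset_right)
    ((hN.2 h inter_subset_right).trans inter_subset_left)

omit [T2Space X] in
theorem Minimal.disjoint_of {M N : Set X} (hM : Minimal Reg M) (hN : Minimal Reg N) {v : X}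
    (h1 : v ∈ M) (h2 : v ∉ N) : Disjoint M N := by
  rw [Set.disjoint_left]
  intro w hw hw'
  exact h2 (Minimal.eq_of_meet hM hN hw hw' ▸ h1)

omit [T2Space X] in
theorem exists_minimal_reg [CompactSpace X] {M : Set X} (hM : Reg M) :
    ∃ P ⊆ M, Minimal Reg P := by
  obtain ⟨P, hPM, hP⟩ := zorn_superset_nonempty {P : Set X | Reg P} (by
    intro c hc hch hne
    refine ⟨⋂₀ c, ⟨?_, ?_, ?_⟩, fun s hs => sInter_subset_of_mem hs⟩
    · exact isClosed_sInter fun s hs => (hc hs).closed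
    · have : Nonempty c := hne.to_subtype
      rw [sInter_eq_iInter]
      refine IsCompact.nonempty_iInter_of_directed_nonempty_isCompact_isClosed _ ?_
        (fun s => (hc s.2).ne) (fun s => (hc s.2).closed.isCompact) (fun s => (hc s.2).closed)
      rintro ⟨s, hs⟩ ⟨t, ht⟩
      rcases hch.total hs ht with h | h
      · exact ⟨⟨s, hs⟩, Subset.rfl, h⟩
      · exact ⟨⟨t, ht⟩, h, Subset.rfl⟩
    · intro v hv x hx
      rw [mem_sInter] at hx
      push Not at hx
      obtain ⟨s, hs, hxs⟩ := hx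
      exact (hc hs).reg v (hv s hs) x hxs) M hM
  exact ⟨P, hPM, hP⟩

include hX

theorem Reg.image {M : Set X} (hM : Reg M) (h : X ≃ₜ X) : Reg (h '' M) where
  closed := h.isClosedMap M hM.closed
  ne := hM.ne.image h
  reg := by
    rintro _ ⟨v, hv, rfl⟩ x hx
    have h1 : h.symm x ∉ M := fun h2 => hx ⟨h.symm x, h2, h.apply_symm_apply x⟩
    have h2 := hM.reg v hv _ h1
    have h3 : comp x (h v) = h '' comp (h.symm x) v := by
      rw [image_comp hX, h.apply_symm_apply]
    rw [h3, ← h.image_interior]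
    exact mem_image_of_mem h h2

theorem Minimal.image {M : Set X} (hM : Minimal Reg M) (h : X ≃ₜ X) : Minimal Reg (h '' M) := by
  refine ⟨hM.prop.image hX h, ?_⟩
  intro N hN hNM
  have h1 := hN.image hX h.symm
  have h2 : h.symm '' N ⊆ M := by
    rintro _ ⟨x, hx, rfl⟩
    obtain ⟨y, hy, rfl⟩ := hNM hx
    rw [h.symm_apply_apply]; exact hy
  have h3 := hM.2 h1 h2
  rintro _ ⟨x, hx, rfl⟩
  obtain ⟨y, hy, hyx⟩ := h3 hx
  rw [← hyx, h.apply_symm_apply]; exact hy

/-- minimal regular sets are convex -/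
theorem Minimal.convex {P : Set X} (hP : Minimal Reg P) {a b : X} (ha : a ∈ P) (hb : b ∈ P) :
    seg a b ⊆ P := by
  intro x hx
  by_contra hxP
  have hne : ∀ v ∈ P, v ≠ x := fun v hv h => hxP (h ▸ hv)
  have h1 : Reg (P ∩ comp x a) := by
    refine ⟨?_, ⟨a, ha, self_mem_comp hX (hne a ha)⟩, ?_⟩
    · have : P ∩ comp x a = P ∩ (⋃ v ∈ P \ comp x a, interior (comp x v))ᶜ := by
        apply Subset.antisymm
        · rintro w ⟨hw1, hw2⟩
          refine ⟨hw1, ?_⟩
          intro h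
          obtain ⟨v, ⟨hv1, hv2⟩, hw3⟩ := mem_iUnion₂.1 h
          exact Set.disjoint_left.1 (disjoint_comp hX hv2) (interior_subset hw3) hw2
        · rintro w ⟨hw1, hw2⟩
          refine ⟨hw1, ?_⟩
          by_contra h
          exact hw2 (mem_iUnion₂.2 ⟨w, ⟨hw1, h⟩, hP.prop.reg w hw1 x hxP⟩)
      rw [this]
      exact hP.prop.closed.inter (isOpen_biUnion fun v _ => isOpen_interior).isClosed_compl
    · rintro v ⟨hv1, hv2⟩ x' hx'
      by_cases h : x' ∈ P
      · have h2 : x' ∉ comp x a := fun h3 => hx' ⟨h, h3⟩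
        have h3 := hP.prop.reg v hv1 x hxP
        have h4 : x' ∉ comp x v := by rw [comp_eq hX hv2]; exact h2
        have h5 := comp_nest hX (hne x' h) h4
        have h6 : comp x' v = comp x' x := comp_eq hX (h5 (interior_subset h3))
        rw [h6]
        exact interior_mono h5 h3
      · exact hP.prop.reg v hv1 x' h
  have h2 := hP.2 h1 inter_subset_left hb
  exact h2.2 hx

theorem self_mem_off {P : Set X} {y : X} (hy : y ∉ P) : y ∈ off P y := by
  show Disjoint (seg y y) P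
  rw [seg_self, Set.disjoint_singleton_left]
  exact hy

theorem off_trans {P : Set X} {y w u : X} (h1 : w ∈ off P y) (h2 : Disjoint (seg w u) P) :
    u ∈ off P y := by
  show Disjoint (seg y u) P
  exact (h1.union_left h2).mono_left (seg_sub_union hX y u w)

/-- a set of classes is open -/
theorem isOpen_off {P : Set X} (hP : Minimal Reg P) (hall : ∀ v : X, ∃ Q, Minimal Reg Q ∧ v ∈ Q)
    (y : X) : IsOpen (off P y) := by
  rw [isOpen_iff_mem_nhds]
  intro w hw
  have hwP : w ∉ P := fun h => Set.disjoint_left.1 hw (right_mem_seg hX y w) h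
  obtain ⟨p₀, hp₀⟩ := hP.prop.ne
  obtain ⟨p, ⟨-, hp⟩, hpf⟩ := exists_first hX (a := w) (b := p₀) hP.prop.closed
    ⟨p₀, right_mem_seg hX w p₀, hp₀⟩
  obtain ⟨Q, hQ, hwQ⟩ := hall w
  have hpQ : p ∉ Q := fun h => Set.disjoint_left.1 (Minimal.disjoint_of hQ hP hwQ hwP) h hp
  refine Filter.mem_of_superset (mem_interior_iff_mem_nhds.1 (hQ.prop.reg w hwQ p hpQ)) ?_
  intro u hu
  refine off_trans hX hw ?_
  rw [Set.disjoint_left]
  intro p' hp' hp'P
  apply hu
  have h1 : p ∈ seg w p' :=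
    mem_seg_of_inter hX fun z hz => hpf ⟨hz.1, Minimal.convex hX hP hp hp'P hz.2⟩
  exact seg_trans hX h1 hp'

theorem off_saturated {P Q : Set X} (hQ : Minimal Reg Q) (hd : Disjoint Q P) {y w : X}
    (hw : w ∈ off P y) (hwQ : w ∈ Q) : Q ⊆ off P y := by
  intro u hu
  exact off_trans hX hw (hd.mono_left (Minimal.convex hX hQ hwQ hu))

/-- THE REGULARITY THEOREM -/
theorem no_regular [CompactSpace X] (hH : ∀ x y : X, ∃ h : X ≃ₜ X, h x = y) {M : Set X}
    (hM : Reg M) : M = univ := by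
  by_contra hMu
  -- the partition into minimal regular sets
  obtain ⟨P₀, hP₀M, hP₀⟩ := exists_minimal_reg hM
  have hP₀u : P₀ ≠ univ := fun h => hMu (univ_subset_iff.1 (h ▸ hP₀M))
  have hall : ∀ v : X, ∃ Q, Minimal Reg Q ∧ v ∈ Q := by
    intro v
    obtain ⟨w, hw⟩ := hP₀.prop.ne
    obtain ⟨h, hh⟩ := hH w v
    exact ⟨h '' P₀, Minimal.image hX hP₀ h, ⟨w, hw, hh⟩⟩
  -- every class separates
  have hsep : ∀ P : Set X, Minimal Reg P → ∃ a b, a ∉ P ∧ b ∉ P ∧ (seg a b ∩ P).Nonempty := by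
    obtain ⟨a, ha⟩ := hP₀.prop.ne
    obtain ⟨b, hb⟩ := (ne_univ_iff_exists_notMem P₀).1 hP₀u
    obtain ⟨P₁, hP₁, hbP₁⟩ := hall b
    have hd := Minimal.disjoint_of hP₁ hP₀ hbP₁ hb
    have h1 : ∃ x ∈ seg a b, x ∉ P₀ ∧ x ∉ P₁ := by
      by_contra hcon
      push Not at hcon
      have h2 := isPreconnected_closed_iff.1 (isPreconnected_seg hX a b) P₀ P₁
        hP₀.prop.closed hP₁.prop.closed
        (fun x hx => by
          by_cases h : x ∈ P₀
          · exact Or.inl h
          · exact Or.inr (hcon x hx h))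
        ⟨a, left_mem_seg hX a b, ha⟩ ⟨b, right_mem_seg hX a b, hbP₁⟩
      obtain ⟨y, -, hy1, hy2⟩ := h2
      exact Set.disjoint_left.1 hd hy2 hy1
    obtain ⟨x, hx, hx0, hx1⟩ := h1
    obtain ⟨P₂, hP₂, hxP₂⟩ := hall x
    have ha2 : a ∉ P₂ := fun h =>
      Set.disjoint_left.1 (Minimal.disjoint_of hP₂ hP₀ hxP₂ hx0) h ha
    have hb2 : b ∉ P₂ := fun h =>
      Set.disjoint_left.1 (Minimal.disjoint_of hP₂ hP₁ hxP₂ hx1) h hbP₁
    intro P hP
    obtain ⟨v, hv⟩ := hP.prop.ne
    obtain ⟨h, hh⟩ := hH x v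
    have h3 : h '' P₂ = P :=
      Minimal.eq_of_meet (Minimal.image hX hP₂ h) hP ⟨x, hxP₂, hh⟩ hv
    refine ⟨h a, h b, ?_, ?_, v, ?_, hv⟩
    · rw [← h3]
      rintro ⟨u, hu, hua⟩
      exact ha2 (h.injective hua ▸ hu)
    · rw [← h3]
      rintro ⟨u, hu, hub⟩
      exact hb2 (h.injective hub ▸ hu)
    · rw [← seg_image hX h.continuous h.injective, ← hh]
      exact mem_image_of_mem h hx
  -- the base class
  obtain ⟨q₀, hq₀⟩ := hP₀.prop.ne
  obtain ⟨b₀, hb₀⟩ := (ne_univ_iff_exists_notMem P₀).1 hP₀u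
  obtain ⟨P₁, hP₁, hbP₁⟩ := hall b₀
  have hq₀P₁ : q₀ ∉ P₁ := fun h =>
    Set.disjoint_left.1 (Minimal.disjoint_of hP₁ hP₀ hbP₁ hb₀) h hq₀
  -- classes in the complement of `off P q₀` do not contain `q₀`
  have hbase : ∀ P Q : Set X, Minimal Reg P → Minimal Reg Q → q₀ ∉ P → ∀ v, v ∈ Q → v ∉ off P q₀ →
      q₀ ∉ Q := by
    intro P Q hP hQ hqP v hv hvP hqQ
    apply hvP
    exact (Minimal.disjoint_of hQ hP hqQ hqP).mono_left (Minimal.convex hX hQ hqQ hv)
  have hmono : ∀ P Q : Set X, Minimal Reg P → Minimal Reg Q → q₀ ∉ P → ∀ v, v ∈ Q → v ∉ off P q₀ →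
      off P q₀ ⊆ off Q q₀ := by
    intro P Q hP hQ hqP v hv hvP w hw
    by_cases hvP' : v ∈ P
    · rw [← Minimal.eq_of_meet hP hQ hvP' hv]; exact hw
    · have hd := Minimal.disjoint_of hQ hP hv hvP'
      show Disjoint (seg q₀ w) Q
      rw [Set.disjoint_left]
      intro u hu huQ
      have h1 : u ∈ off P q₀ := Disjoint.mono_left (seg_left_sub hX hu) hw
      exact hvP (off_saturated hX hQ hd h1 huQ hv)
  have hstrict : ∀ P Q : Set X, Minimal Reg P → Minimal Reg Q → q₀ ∉ P → ∀ v, v ∈ Q → v ∉ off P q₀ →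
      v ∉ P → P ⊆ off Q q₀ := by
    intro P Q hP hQ hqP v hv hvP hvP' w hw
    have hd := Minimal.disjoint_of hQ hP hv hvP'
    show Disjoint (seg q₀ w) Q
    rw [Set.disjoint_left]
    intro u hu huQ
    have h1 : u ∉ off P q₀ := fun h => hvP (off_saturated hX hQ hd h huQ hv)
    obtain ⟨u', hu', hu'P⟩ := Set.not_disjoint_iff.1 h1
    have h2 : u ∈ P := by
      rcases seg_total hX (seg_trans hX hu' hu) hu with ⟨-, h3⟩ | ⟨h3, -⟩
      · exact Minimal.convex hX hP hu'P hw h3
      · rw [seg_antisymm hX h3 hu']; exact hu'P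
    exact Set.disjoint_left.1 hd huQ h2
  -- Zorn
  obtain ⟨F, -, hF⟩ := zorn_superset_nonempty
    {F : Set X | ∃ P, Minimal Reg P ∧ q₀ ∉ P ∧ F = (off P q₀)ᶜ} (by
      intro c hc hch hne
      have hcl : ∀ s ∈ c, IsClosed s := by
        intro s hs
        obtain ⟨P, hP, -, rfl⟩ := hc hs
        exact (isOpen_off hX hP hall q₀).isClosed_compl
      have hnes : ∀ s ∈ c, s.Nonempty := by
        intro s hs
        obtain ⟨P, hP, -, rfl⟩ := hc hs
        obtain ⟨p, hp⟩ := hP.prop.ne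
        exact ⟨p, fun h => Set.disjoint_left.1 h (right_mem_seg hX q₀ p) hp⟩
      have : Nonempty c := hne.to_subtype
      obtain ⟨v, hv⟩ : (⋂₀ c).Nonempty := by
        rw [sInter_eq_iInter]
        refine IsCompact.nonempty_iInter_of_directed_nonempty_isCompact_isClosed _ ?_
          (fun s => hnes s s.2) (fun s => (hcl s s.2).isCompact) (fun s => hcl s s.2)
        rintro ⟨s, hs⟩ ⟨t, ht⟩
        rcases hch.total hs ht with h | h
        · exact ⟨⟨s, hs⟩, Subset.rfl, h⟩
        · exact ⟨⟨t, ht⟩, h, Subset.rfl⟩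
      obtain ⟨Q, hQ, hvQ⟩ := hall v
      refine ⟨(off Q q₀)ᶜ, ⟨Q, hQ, ?_, rfl⟩, ?_⟩
      · obtain ⟨s, hs⟩ := hne
        obtain ⟨P, hP, hqP, rfl⟩ := hc hs
        exact hbase P Q hP hQ hqP v hvQ (hv _ hs)
      · intro s hs
        obtain ⟨P, hP, hqP, rfl⟩ := hc hs
        exact compl_subset_compl.2 (hmono P Q hP hQ hqP v hvQ (hv _ hs)))
    ((off P₁ q₀)ᶜ) ⟨P₁, hP₁, hq₀P₁, rfl⟩
  obtain ⟨P, hP, hqP, rfl⟩ := hF.prop
  obtain ⟨a, b, ha, hb, hab⟩ := hsep P hP
  have hz : ∃ z, z ∉ P ∧ z ∉ off P q₀ := by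
    by_contra hcon
    push Not at hcon
    have h1 := hcon a ha
    have h2 := hcon b hb
    obtain ⟨u, hu, huP⟩ := hab
    rcases seg_sub_union hX a b q₀ hu with h | h
    · rw [seg_comm hX] at h
      exact Set.disjoint_left.1 h1 h huP
    · exact Set.disjoint_left.1 h2 h huP
  obtain ⟨z, hzP, hzo⟩ := hz
  obtain ⟨Q, hQ, hzQ⟩ := hall z
  have h1 := hF.2 (y := (off Q q₀)ᶜ) ⟨Q, hQ, hbase P Q hP hQ hqP z hzQ hzo, rfl⟩
    (compl_subset_compl.2 (hmono P Q hP hQ hqP z hzQ hzo))
  obtain ⟨p, hp⟩ := hP.prop.ne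
  have h2 : p ∈ (off P q₀)ᶜ := fun h => Set.disjoint_left.1 h (right_mem_seg hX q₀ p) hp
  exact h1 h2 (hstrict P Q hP hQ hqP z hzQ hzo hzP hp)

/-- every point has a neighbourhood all of whose arc components have empty interior -/
theorem exists_nhd_empty_interior [CompactSpace X] [Nontrivial X]
    (hH : ∀ x y : X, ∃ h : X ≃ₜ X, h x = y) (x : X) :
    ∃ W, IsOpen W ∧ x ∈ W ∧ ∀ z ∈ W, interior {w | seg z w ⊆ W} = ∅ := by
  by_contra hcon
  push Not at hcon
  have hstep : ∀ V : Set X, IsOpen V → V.Nonempty → ∃ V', IsOpen V' ∧ V'.Nonempty ∧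
      closure V' ⊆ V ∧ ∀ a ∈ V', ∀ b ∈ V', seg a b ⊆ V := by
    rintro V hV ⟨y, hy⟩
    obtain ⟨W, hW, hyW, hWV⟩ : ∃ W, IsOpen W ∧ y ∈ W ∧ closure W ⊆ V := by
      obtain ⟨C, ⟨hC1, hC2⟩, hC3⟩ := (closed_nhds_basis y).mem_iff.1 (hV.mem_nhds hy)
      refine ⟨interior C, isOpen_interior, mem_interior_iff_mem_nhds.2 hC1, ?_⟩
      exact (closure_minimal interior_subset hC2).trans hC3
    obtain ⟨h, hh⟩ := hH x y
    obtain ⟨z, hz, hne⟩ := hcon (h ⁻¹' W) (hW.preimage h.continuous) (by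
      show h x ∈ W
      rw [hh]; exact hyW)
    have h1 : h '' {w | seg z w ⊆ h ⁻¹' W} = {w | seg (h z) w ⊆ W} := by
      ext w
      constructor
      · rintro ⟨u, hu, rfl⟩
        show seg (h z) (h u) ⊆ W
        rw [← seg_image hX h.continuous h.injective]
        exact image_subset_iff.2 hu
      · intro hw
        refine ⟨h.symm w, ?_, h.apply_symm_apply w⟩
        show seg z (h.symm w) ⊆ h ⁻¹' W
        rw [← image_subset_iff, seg_image hX h.continuous h.injective, h.apply_symm_apply]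
        exact hw
    have h2 : (interior {w | seg (h z) w ⊆ W}).Nonempty := by
      rw [← h1, ← h.image_interior]
      exact hne.image h
    have h3 : {w | seg (h z) w ⊆ W} ⊆ W := fun w hw => hw (right_mem_seg hX _ _)
    refine ⟨_, isOpen_interior, h2, ?_, ?_⟩
    · exact (closure_mono (interior_subset.trans h3)).trans hWV
    · intro a ha b hb
      have ha' : seg (h z) a ⊆ W := interior_subset ha
      have hb' : seg (h z) b ⊆ W := interior_subset hb
      intro u hu
      apply hWV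
      apply subset_closure
      rcases seg_sub_union hX a b (h z) hu with h4 | h4
      · rw [seg_comm hX] at h4; exact ha' h4
      · exact hb' h4
  choose! f hf1 hf2 hf3 hf4 using hstep
  obtain ⟨q, hq⟩ := exists_ne x
  let V : ℕ → Set X := fun n => Nat.rec {q}ᶜ (fun _ S => f S) n
  have hVs : ∀ n, V (n + 1) = f (V n) := fun n => rfl
  have hV : ∀ n, IsOpen (V n) ∧ (V n).Nonempty := by
    intro n
    induction n with
    | zero => exact ⟨isOpen_compl_singleton, ⟨x, hq.symm⟩⟩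
    | succ n ih =>
      rw [hVs]
      exact ⟨hf1 _ ih.1 ih.2, hf2 _ ih.1 ih.2⟩
  have hcl : ∀ n, closure (V (n + 1)) ⊆ V n := fun n => by
    rw [hVs]; exact hf3 _ (hV n).1 (hV n).2
  have hseg : ∀ n, ∀ a ∈ V (n + 1), ∀ b ∈ V (n + 1), seg a b ⊆ V n := fun n => by
    rw [hVs]; exact hf4 _ (hV n).1 (hV n).2
  have hanti : Antitone V := antitone_nat_of_succ_le fun n => subset_closure.trans (hcl n)
  have hreg : Reg (⋂ n, closure (V n)) := by
    refine ⟨isClosed_iInter fun n => isClosed_closure, ?_, ?_⟩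
    · refine IsCompact.nonempty_iInter_of_directed_nonempty_isCompact_isClosed _ ?_
        (fun n => (hV n).2.closure) (fun n => isClosed_closure.isCompact)
        (fun n => isClosed_closure)
      exact directed_of_isDirected_le fun n m h => closure_mono (hanti h)
    · intro v hv y hy
      rw [mem_iInter] at hy
      push Not at hy
      obtain ⟨n, hn⟩ := hy
      have h1 : v ∈ V (n + 1) := hcl (n + 1) (mem_iInter.1 hv (n + 2))
      refine mem_interior.2 ⟨V (n + 1), ?_, (hV (n + 1)).1, h1⟩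
      intro w hw h2
      exact hn (subset_closure (hseg n v h1 w hw h2))
  have h1 := no_regular hX hH hreg
  have h2 : q ∈ ⋂ n, closure (V n) := by rw [h1]; trivial
  exact hcl 0 (mem_iInter.1 h2 1) rfl

end

end Pool.Agent.Work.UAC
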