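import Mathlib
import Pool.Agent.Work.MP_d430fe_gt.Category
import Pool.Agent.Work.MP_d430fe_gt.Regular

/-!
All branches of a homogeneous uniquely arcwise connected Hausdorff continuum are nonmeagre in all
nonempty open sets.
-/

set_option autoImplicit false

namespace Pool.Agent.Work.UAC

open Set Topology Filter

variable {X : Type*} [TopologicalSpace X] [T2Space X]

section

variable (hX : UniquelyArcwiseConnected X)

include hX

theorem comp_sub_tail {y f w : X} (hw : w ∈ tail y f) : comp f w ⊆ tail y f := by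
  intro u hu
  have h1 : y ∉ comp f w := by
    intro h
    apply h
    rw [seg_comm hX]
    exact hw
  by_contra h2
  apply h1
  have h3 : y ∈ comp f u := by
    intro h
    apply h2
    show f ∈ seg y u
    rw [seg_comm hX]
    exact h
  rw [comp_eq hX hu] at h3
  exact h3

theorem mem_closure_comp {f w : X} (hw : w ≠ f) : f ∈ closure (comp f w) := by
  rw [mem_closure_iff]
  intro O hO hf
  by_contra hcon
  rw [not_nonempty_iff_eq_empty] at hcon
  have h1 := isPreconnected_seg hX f w O {f}ᶜ hO isOpen_compl_singleton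
    (fun y _ => by
      by_cases h : y = f
      · left; rw [h]; exact hf
      · exact Or.inr h)
    ⟨f, left_mem_seg hX f w, hf⟩ ⟨w, right_mem_seg hX f w, hw⟩
  obtain ⟨y, hy, hyO, hyf⟩ := h1
  have : y ∈ O ∩ comp f w := by
    refine ⟨hyO, ?_⟩
    intro h
    rw [seg_comm hX] at hy
    exact hyf (seg_antisymm hX hy h)
  rw [hcon] at this
  exact this

theorem tail_sub_closure [CompactSpace X] [Nontrivial X]
    (hH : ∀ x y : X, ∃ h : X ≃ₜ X, h x = y)
    (hY : ∀ x z : X, comp x z ⊆ closure (interior (comp x z))) (y f : X) :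
    tail y f ⊆ closure (interior (tail y f)) := by
  have key : ∀ w ∈ tail y f, w ≠ f → comp f w ⊆ closure (interior (tail y f)) := fun w hw _ =>
    (hY f w).trans (closure_mono (interior_mono (comp_sub_tail hX hw)))
  intro w hw
  by_cases hwf : w = f
  · obtain ⟨z, hz, hzf⟩ := exists_beyond hX (no_end hX hH) y f
    have h1 := closure_mono (key z hz hzf)
    rw [closure_closure] at h1
    rw [hwf]
    exact h1 (mem_closure_comp hX hzf)
  · exact key w hw hwf (self_mem_comp hX hwf)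

/-- the second alternative of the dichotomy is impossible -/
theorem not_open_type [CompactSpace X] [Nontrivial X]
    (hH : ∀ x y : X, ∃ h : X ≃ₜ X, h x = y)
    (hY : ∀ x z : X, comp x z ⊆ closure (interior (comp x z))) : False := by
  obtain ⟨x₀⟩ : Nonempty X := inferInstance
  obtain ⟨V, hV, hxV, hVi⟩ := exists_nhd_empty_interior hX hH x₀
  have hshrink : ∀ (y f u : X) (U : Set X), IsOpen U → u ∈ U → u ∈ tail y f →
      ∃ U', IsOpen U' ∧ U'.Nonempty ∧ closure U' ⊆ U ∧ ∀ v ∈ U', f ∈ seg y v := by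
    intro y f u U hU hu huf
    obtain ⟨v, hvU, hv⟩ := mem_closure_iff.1 (tail_sub_closure hX hH hY y f huf) U hU hu
    obtain ⟨C, ⟨hC1, hC2⟩, hC3⟩ := (closed_nhds_basis v).mem_iff.1
      ((hU.inter isOpen_interior).mem_nhds ⟨hvU, hv⟩)
    refine ⟨interior C, isOpen_interior, ⟨v, mem_interior_iff_mem_nhds.2 hC1⟩, ?_, ?_⟩
    · exact (closure_minimal interior_subset hC2).trans (hC3.trans inter_subset_left)
    · intro w hw
      have h1 : w ∈ tail y f := interior_subset (hC3 (interior_subset hw)).2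
      exact h1
  have hstep : ∀ (y : X) (U : Set X), IsOpen U → U.Nonempty → U ⊆ V → ∃ (y' y'' : X) (U' : Set X),
      y' ∈ U ∧ y'' ∉ V ∧ IsOpen U' ∧ U'.Nonempty ∧ closure U' ⊆ U ∧
      ∀ v ∈ U', y' ∈ seg y v ∧ y'' ∈ seg y' v := by
    rintro y U hU ⟨y', hy'⟩ hUV
    obtain ⟨U₁, h1, ⟨u₁, hu₁⟩, h3, h4⟩ := hshrink y y' y' U hU hy' (self_mem_tail hX y y')
    have h5 : ∃ u ∈ U₁, ¬ seg y' u ⊆ V := by
      by_contra hcon
      push Not at hcon
      have h6 : u₁ ∈ interior {w | seg y' w ⊆ V} :=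
        mem_interior.2 ⟨U₁, hcon, h1, hu₁⟩
      rw [hVi y' (hUV hy')] at h6
      exact h6
    obtain ⟨u, hu, huV⟩ := h5
    obtain ⟨y'', hy'', hy''V⟩ := not_subset.1 huV
    obtain ⟨U₂, g1, g2, g3, g4⟩ := hshrink y' y'' u U₁ h1 hu hy''
    refine ⟨y', y'', U₂, hy', hy''V, g1, g2, (g3.trans subset_closure).trans h3, ?_⟩
    intro v hv
    exact ⟨h4 v (g3 (subset_closure hv)), g4 v hv⟩
  choose! a b c ha hb hc1 hc2 hc3 hc4 using hstep
  let st : ℕ → X × Set X := fun n => Nat.rec (x₀, V) (fun _ p => (b p.1 p.2, c p.1 p.2)) n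
  have hst : ∀ n, st (n + 1) = (b (st n).1 (st n).2, c (st n).1 (st n).2) := fun n => rfl
  have hU : ∀ n, IsOpen (st n).2 ∧ (st n).2.Nonempty ∧ (st n).2 ⊆ V := by
    intro n
    induction n with
    | zero => exact ⟨hV, ⟨x₀, hxV⟩, Subset.rfl⟩
    | succ n ih =>
      rw [hst]
      exact ⟨hc1 _ _ ih.1 ih.2.1 ih.2.2, hc2 _ _ ih.1 ih.2.1 ih.2.2,
        (subset_closure.trans (hc3 _ _ ih.1 ih.2.1 ih.2.2)).trans ih.2.2⟩
  set y : ℕ → X := fun n => (st n).1 with hy
  set y' : ℕ → X := fun n => a (st n).1 (st n).2 with hy'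
  have hcl : ∀ n, closure (st (n + 1)).2 ⊆ (st n).2 := fun n => by
    rw [hst]; exact hc3 _ _ (hU n).1 (hU n).2.1 (hU n).2.2
  have hanti : Antitone fun n => (st n).2 :=
    antitone_nat_of_succ_le fun n => subset_closure.trans (hcl n)
  have hyU : ∀ n, y' n ∈ (st n).2 := fun n => ha _ _ (hU n).1 (hU n).2.1 (hU n).2.2
  have hyV : ∀ n, y (n + 1) ∉ V := fun n => by
    have := hb (st n).1 (st n).2 (hU n).1 (hU n).2.1 (hU n).2.2
    show (st (n + 1)).1 ∉ V
    rw [hst]; exact this
  obtain ⟨v, hv⟩ : (⋂ n, closure (st n).2).Nonempty := by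
    refine IsCompact.nonempty_iInter_of_directed_nonempty_isCompact_isClosed _ ?_
      (fun n => (hU n).2.1.closure) (fun n => isClosed_closure.isCompact)
      (fun n => isClosed_closure)
    exact directed_of_isDirected_le fun n m h => closure_mono (hanti h)
  have hvU : ∀ n, v ∈ (st n).2 := fun n => hcl n (mem_iInter.1 hv (n + 1))
  have h1 : ∀ n, y' n ∈ seg (y n) v := fun n => by
    have h2 := hvU (n + 1)
    rw [hst] at h2
    exact (hc4 _ _ (hU n).1 (hU n).2.1 (hU n).2.2 v h2).1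
  have h2 : ∀ n, y (n + 1) ∈ seg (y' n) v := fun n => by
    have h2 := hvU (n + 1)
    rw [hst] at h2
    show (st (n + 1)).1 ∈ _
    rw [hst]
    exact (hc4 _ _ (hU n).1 (hU n).2.1 (hU n).2.2 v h2).2
  -- monotonicity along the segment from `x₀` to `v`
  have hyv : ∀ n, y n ∈ seg x₀ v := by
    intro n
    induction n with
    | zero => exact left_mem_seg hX _ _
    | succ n ih => exact seg_right_sub hX ih (seg_right_sub hX (h1 n) (h2 n))
  have hy'v : ∀ n, y' n ∈ seg x₀ v := fun n => seg_right_sub hX (hyv n) (h1 n)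
  have ord : ∀ {p q : X}, p ∈ seg x₀ v → q ∈ seg p v → p ∈ seg x₀ q := by
    intro p q hp hq
    rcases seg_total hX hp (seg_right_sub hX hp hq) with ⟨h, -⟩ | ⟨h, -⟩
    · exact h
    · have : q = p := (seg_inter hX hp).subset ⟨h, hq⟩
      rw [this]; exact right_mem_seg hX _ _
  have h3 : ∀ n, y n ∈ seg x₀ (y' n) := fun n => ord (hyv n) (h1 n)
  have h4 : ∀ n, y' n ∈ seg x₀ (y (n + 1)) := fun n => ord (hy'v n) (h2 n)
  have hmono : ∀ n m, n ≤ m → y n ∈ seg x₀ (y m) := by
    intro n m hnm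
    induction hnm with
    | refl => exact right_mem_seg hX _ _
    | step _ ih => exact seg_trans hX ih (seg_trans hX (h3 _) (h4 _))
  have hmono' : ∀ n m, n < m → y' n ∈ seg x₀ (y m) := fun n m h =>
    seg_trans hX (h4 n) (hmono (n + 1) m h)
  -- cluster points
  have hcluster : ∀ u : ℕ → X, (∀ n, u n ∈ seg x₀ v) → (∀ n, y n ∈ seg x₀ (u n)) →
      (∀ n, u n ∈ seg x₀ (y (n + 1))) →
      ∃ z, MapClusterPt z atTop u ∧ z ∈ seg x₀ v ∧ (∀ n, y n ∈ seg x₀ z) ∧
        ∀ t, t ∈ seg x₀ v → (∀ n, y n ∈ seg x₀ t) → z ∈ seg x₀ t := by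
    intro u hu1 hu2 hu3
    obtain ⟨z, hz, hzc⟩ := (isCompact_seg hX x₀ v).exists_mapClusterPt (f := atTop) (u := u)
      (by
        rw [le_principal_iff, mem_map]
        exact Filter.univ_mem' hu1)
    refine ⟨z, hzc, hz, ?_, ?_⟩
    · intro n
      have h5 := (isClosed_tail_inter hX (hyv n)).mem_of_mapClusterPt hzc (by
        filter_upwards [eventually_ge_atTop n] with m hm
        exact ⟨hu1 m, seg_trans hX (hmono n m hm) (hu2 m)⟩)
      exact h5.2
    · intro t ht htn
      exact (isClosed_seg hX x₀ t).mem_of_mapClusterPt hzc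
        (Filter.Eventually.of_forall fun n => seg_trans hX (hu3 n) (htn (n + 1)))
  obtain ⟨z, hz1, hz2, hz3, hz4⟩ := hcluster (fun n => y (n + 1)) (fun n => hyv (n + 1))
    (fun n => hmono n (n + 1) (Nat.le_succ n))
    (fun n => right_mem_seg hX _ _)
  obtain ⟨z', hz'1, hz'2, hz'3, hz'4⟩ := hcluster y' hy'v h3 h4
  have heq : z = z' := seg_antisymm hX (hz4 z' hz'2 hz'3) (hz'4 z hz2 hz3)
  have hzV : z ∈ Vᶜ := hV.isClosed_compl.mem_of_mapClusterPt hz1
    (Filter.Eventually.of_forall hyV)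
  have hz'U : z' ∈ closure (st 1).2 := isClosed_closure.mem_of_mapClusterPt hz'1 (by
    filter_upwards [eventually_ge_atTop 1] with n hn
    exact subset_closure (hanti hn (hyU n)))
  apply hzV
  rw [heq]
  exact hcl 0 hz'U

/-- THE MAIN THEOREM: all branches are large in all nonempty open sets -/
theorem not_small_inter [CompactSpace X] [Nontrivial X]
    (hH : ∀ x y : X, ∃ h : X ≃ₜ X, h x = y) {I : Set X → Prop} (hI : LocalIdeal I)
    (hI' : ¬ I univ) {x z : X} (hz : z ≠ x) {U : Set X} (hU : IsOpen U) (hne : U.Nonempty) :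
    ¬ I (comp x z ∩ U) := by
  rcases dichotomy hX hH hI hI' with h | h
  · exact h x z hz U hU hne
  · exact absurd (not_open_type hX hH h) id

theorem cov_univ_of_cov_inter [CompactSpace X] [Nontrivial X]
    (hH : ∀ x y : X, ∃ h : X ≃ₜ X, h x = y) (ι : Type*) [Infinite ι] {x z : X} (hz : z ≠ x)
    {U : Set X} (hU : IsOpen U) (hne : U.Nonempty) (h : Cov ι (comp x z ∩ U)) :
    Cov ι (univ : Set X) := by
  by_contra hcon
  exact not_small_inter hX hH (localIdeal_cov ι) hcon hz hU hne h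

theorem nonmeagre_everywhere [CompactSpace X] [Nontrivial X]
    (hH : ∀ x y : X, ∃ h : X ≃ₜ X, h x = y) {x z : X} (hz : z ≠ x) {U : Set X} (hU : IsOpen U)
    (hne : U.Nonempty) : ¬ IsMeagre (comp x z ∩ U) := by
  intro h
  have h1 := cov_univ_of_cov_inter hX hH ℕ hz hU hne (cov_nat_iff.2 h)
  exact not_isMeagre_of_isOpen isOpen_univ ⟨x, trivial⟩ (cov_nat_iff.1 h1)

/-- proper convex sets with the property of Baire are meagre -/
theorem isMeagre_of_convex [CompactSpace X] [Nontrivial X]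
    (hH : ∀ x y : X, ∃ h : X ≃ₜ X, h x = y) {S : Set X} (hS : BaireMeasurableSet S)
    (hc : ∀ a ∈ S, ∀ b ∈ S, seg a b ⊆ S) (hne : S ≠ univ) : IsMeagre S := by
  obtain ⟨x, hx⟩ := (ne_univ_iff_exists_notMem S).1 hne
  obtain ⟨u, hu, hSu⟩ := hS.residualEq_isOpen
  have h1 : IsMeagre (S \ u) := by
    refine Filter.mem_of_superset hSu.mem_iff ?_
    rintro w hw ⟨hwS, hwu⟩
    exact hwu (hw.1 hwS)
  have h2 : IsMeagre (u \ S) := by
    refine Filter.mem_of_superset hSu.mem_iff ?_
    rintro w hw ⟨hwu, hwS⟩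
    exact hwS (hw.2 hwu)
  by_cases hune : u.Nonempty
  · exfalso
    -- a branch at `x` disjoint from `S`
    have h3 : ∃ z, z ≠ x ∧ Disjoint (comp x z) S := by
      obtain ⟨a, b, ha, hb, hab⟩ := no_end hX hH x
      by_contra hcon
      push Not at hcon
      obtain ⟨s, hs1, hs2⟩ := Set.not_disjoint_iff.1 (hcon a ha)
      obtain ⟨t, ht1, ht2⟩ := Set.not_disjoint_iff.1 (hcon b hb)
      have h4 : x ∉ seg s t := fun h => hx (hc s hs2 t ht2 h)
      have h5 : b ∉ comp x a := fun h => h hab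
      apply h5
      rw [← comp_eq hX hs1, ← comp_eq hX (show t ∈ comp x s from h4), comp_eq hX ht1]
      exact self_mem_comp hX hb
    obtain ⟨z, hz, hd⟩ := h3
    refine nonmeagre_everywhere hX hH hz hu hune (h2.mono ?_)
    rintro w ⟨hw1, hw2⟩
    exact ⟨hw2, fun h => Set.disjoint_left.1 hd hw1 h⟩
  · rw [not_nonempty_iff_eq_empty] at hune
    rw [hune, sdiff_empty] at h1
    exact h1

/-- branches are convex -/
theorem comp_convex {x z a b : X} (ha : a ∈ comp x z) (hb : b ∈ comp x z) :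
    seg a b ⊆ comp x z := by
  intro u hu h
  rcases seg_sub_union hX z u a h with h1 | h1
  · exact ha h1
  · have h2 : x ∈ seg a b := seg_trans hX h1 hu
    rcases seg_sub_union hX a b z h2 with h3 | h3
    · rw [seg_comm hX] at h3
      exact ha h3
    · exact hb h3

theorem not_baireMeasurable_comp [CompactSpace X] [Nontrivial X]
    (hH : ∀ x y : X, ∃ h : X ≃ₜ X, h x = y) {x z : X} (hz : z ≠ x) :
    ¬ BaireMeasurableSet (comp x z) := by
  intro h
  have h1 := isMeagre_of_convex hX hH h (fun a ha b hb => comp_convex hX ha hb)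
    (fun h2 => notMem_comp hX x z (by rw [h2]; trivial))
  refine nonmeagre_everywhere hX hH hz isOpen_univ ⟨x, trivial⟩ ?_
  rw [inter_univ]
  exact h1

end

end Pool.Agent.Work.UAC
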