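import Mathlib
import Pool.Agent.Work.MP_d430fe_gt.Branch
import Pool.Agent.Work.MP_d430fe_gt.Triod

/-!
Second countable segments are paths, and the branches of a metrizable convex set are analytic.
-/

set_option autoImplicit false

namespace Pool.Agent.Work.UAC

open Set Topology Filter

section

variable {X : Type*} [TopologicalSpace X]

/-- the initial part of a segment -/
def ini (a b : X) (u : seg a b) : Set (seg a b) := {v | (v : X) ∈ seg a (u : X)}

/-- the maximum of a function over the initial parts -/
noncomputable def mx (a b : X) (f : C(seg a b, ℝ)) (u : seg a b) : ℝ := sSup (f '' ini a b u)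

variable [T2Space X] (hX : UniquelyArcwiseConnected X) (a b : X)

include hX

theorem compactSpace_seg : CompactSpace (seg a b) :=
  isCompact_iff_compactSpace.1 (isCompact_seg hX a b)

theorem isCompact_ini (u : seg a b) : IsCompact (ini a b u) := by
  have := compactSpace_seg hX a b
  exact ((isClosed_seg hX a (u : X)).preimage continuous_subtype_val).isCompact

theorem self_mem_ini (u : seg a b) : u ∈ ini a b u := right_mem_seg hX a _

theorem le_mx (f : C(seg a b, ℝ)) {u v : seg a b} (hv : v ∈ ini a b u) : f v ≤ mx a b f u :=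
  le_csSup ((isCompact_ini hX a b u).image f.continuous).bddAbove (mem_image_of_mem f hv)

theorem mx_le_iff (f : C(seg a b, ℝ)) {u : seg a b} {c : ℝ} :
    mx a b f u ≤ c ↔ ∀ v ∈ ini a b u, f v ≤ c := by
  constructor
  · intro h v hv
    exact (le_mx hX a b f hv).trans h
  · intro h
    refine csSup_le ⟨f u, mem_image_of_mem f (self_mem_ini hX a b u)⟩ ?_
    rintro _ ⟨v, hv, rfl⟩
    exact h v hv

theorem le_mx_iff (f : C(seg a b, ℝ)) {u : seg a b} {c : ℝ} :
    c ≤ mx a b f u ↔ ∃ v ∈ ini a b u, c ≤ f v := by
  constructor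
  · intro h
    obtain ⟨v, hv, hm⟩ := (isCompact_ini hX a b u).exists_isMaxOn ⟨u, self_mem_ini hX a b u⟩
      f.continuous.continuousOn
    exact ⟨v, hv, h.trans ((mx_le_iff hX a b f).2 fun w hw => hm hw)⟩
  · rintro ⟨v, hv, h⟩
    exact h.trans (le_mx hX a b f hv)

theorem continuous_mx (f : C(seg a b, ℝ)) : Continuous (mx a b f) := by
  have := compactSpace_seg hX a b
  rw [continuous_iff_lower_upperSemicontinuous]
  constructor
  · rw [lowerSemicontinuous_iff_isClosed_preimage]
    intro c
    rw [← closure_subset_iff_isClosed]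
    intro u hu
    show mx a b f u ≤ c
    rw [mx_le_iff hX]
    intro v hv
    by_cases hvu : v = u
    · have h1 : IsClosed {w : seg a b | f w ≤ c} := isClosed_le f.continuous continuous_const
      have h2 : (mx a b f ⁻¹' Iic c) ⊆ {w | f w ≤ c} := fun w hw =>
        (le_mx hX a b f (self_mem_ini hX a b w)).trans hw
      rw [hvu]
      exact closure_minimal h2 h1 hu
    · have h1 : (u : X) ∉ seg a (v : X) := by
        intro h
        exact hvu (Subtype.ext (seg_antisymm hX hv h))
      obtain ⟨w, hw1, hw2⟩ := mem_closure_iff.1 hu {w : seg a b | (w : X) ∉ seg a (v : X)}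
        (((isClosed_seg hX a (v : X)).preimage continuous_subtype_val).isOpen_compl) h1
      have h3 : (v : X) ∈ seg a (w : X) := by
        rcases seg_total hX v.2 w.2 with ⟨h, -⟩ | ⟨h, -⟩
        · exact h
        · exact absurd h hw1
      exact (mx_le_iff hX a b f).1 hw2 v h3
  · rw [upperSemicontinuous_iff_isClosed_preimage]
    intro c
    by_cases hne : ∃ v, c ≤ f v
    · have hC : IsClosed ((↑) '' {v : seg a b | c ≤ f v} : Set X) :=
        ((isClosed_le continuous_const f.continuous).isCompact.image
          continuous_subtype_val).isClosed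
      obtain ⟨v₀, hv₀⟩ := hne
      obtain ⟨m, ⟨hm1, m', hm', rfl⟩, hm3⟩ := exists_first hX hC
        ⟨(v₀ : X), v₀.2, mem_image_of_mem _ hv₀⟩
      have h1 : mx a b f ⁻¹' Ici c = ((↑) ⁻¹' (seg a b ∩ tail a (m' : X)) : Set (seg a b)) := by
        ext u
        constructor
        · intro hu
          obtain ⟨v, hv1, hv2⟩ := (le_mx_iff hX a b f).1 hu
          refine ⟨u.2, ?_⟩
          show (m' : X) ∈ seg a (u : X)
          rcases seg_total hX m'.2 v.2 with ⟨h, -⟩ | ⟨h, -⟩
          · exact seg_trans hX h hv1
          · have h4 : (v : X) = m' := hm3 ⟨h, mem_image_of_mem _ hv2⟩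
            rw [← h4]; exact hv1
        · rintro ⟨-, hu⟩
          exact (le_mx_iff hX a b f).2 ⟨m', hu, hm'⟩
      rw [h1]
      exact (isClosed_tail_inter hX m'.2).preimage continuous_subtype_val
    · have h1 : mx a b f ⁻¹' Ici c = ∅ := by
        rw [eq_empty_iff_forall_notMem]
        intro u hu
        obtain ⟨v, -, hv⟩ := (le_mx_iff hX a b f).1 hu
        exact hne ⟨v, hv⟩
      rw [h1]
      exact isClosed_empty

/-- a strictly monotone continuous function on a second countable segment -/
theorem exists_strict [SecondCountableTopology (seg a b)] :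
    ∃ g : seg a b → ℝ, Continuous g ∧ ∀ u v : seg a b, (u : X) ∈ seg a (v : X) → u ≠ v →
      g u < g v := by
  have := compactSpace_seg hX a b
  set F : ℕ → C(seg a b, ℝ) := TopologicalSpace.denseSeq C(seg a b, ℝ) with hF
  set G : ℕ → seg a b → ℝ := fun n u => (1 / 2 : ℝ) ^ n * Real.arctan (mx a b (F n) u) with hG
  have hbd : ∀ n u, ‖G n u‖ ≤ (1 / 2 : ℝ) ^ n * (Real.pi / 2) := by
    intro n u
    rw [norm_mul, norm_pow]
    have h1 : ‖(1 / 2 : ℝ)‖ = 1 / 2 := by rw [Real.norm_eq_abs, abs_of_nonneg (by norm_num)]
    rw [h1]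
    refine mul_le_mul_of_nonneg_left ?_ (by positivity)
    rw [Real.norm_eq_abs, abs_le]
    exact ⟨(Real.neg_pi_div_two_lt_arctan _).le, (Real.arctan_lt_pi_div_two _).le⟩
  have hsum : Summable fun n : ℕ => (1 / 2 : ℝ) ^ n * (Real.pi / 2) :=
    (summable_geometric_of_lt_one (by norm_num) (by norm_num)).mul_right _
  have hsum' : ∀ u, Summable fun n => G n u := fun u =>
    Summable.of_norm_bounded hsum fun n => hbd n u
  refine ⟨fun u => ∑' n, G n u, ?_, ?_⟩
  · refine continuous_tsum (fun n => ?_) hsum hbd
    exact continuous_const.mul (Real.continuous_arctan.comp (continuous_mx hX a b _))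
  · intro u v huv hne
    have hsub : ini a b u ⊆ ini a b v := fun w hw => seg_trans hX hw huv
    have hle : ∀ n, G n u ≤ G n v := by
      intro n
      refine mul_le_mul_of_nonneg_left (Real.arctan_mono ?_) (by positivity)
      exact (mx_le_iff hX a b _).2 fun w hw => le_mx hX a b _ (hsub hw)
    -- a function which is larger at `v`
    have hv : v ∉ ini a b u := fun h => hne (Subtype.ext (seg_antisymm hX huv h))
    obtain ⟨f, hf1, hf2, -⟩ := exists_continuous_zero_one_of_isClosed
      (isCompact_ini hX a b u).isClosed (isClosed_singleton (x := v))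
      (Set.disjoint_singleton_right.2 hv)
    obtain ⟨n, hn⟩ : ∃ n, dist (F n) f < 1 / 3 := by
      have h1 := TopologicalSpace.denseRange_denseSeq C(seg a b, ℝ)
      obtain ⟨n, hn⟩ := h1.exists_dist_lt f (ε := 1 / 3) (by norm_num)
      rw [dist_comm] at hn
      exact ⟨n, hn⟩
    have hlt : G n u < G n v := by
      refine mul_lt_mul_of_pos_left (Real.arctan_strictMono ?_) (by positivity)
      have h1 : mx a b (F n) u ≤ 1 / 3 := by
        rw [mx_le_iff hX]
        intro w hw
        have h2 := (ContinuousMap.dist_apply_le_dist (f := F n) (g := f) w).trans_lt hn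
        rw [hf1 hw, Real.dist_eq, abs_lt] at h2
        simp only [Pi.zero_apply] at h2
        linarith [h2.2]
      have h3 : 2 / 3 ≤ mx a b (F n) v := by
        refine le_trans ?_ (le_mx hX a b _ (self_mem_ini hX a b v))
        have h2 := (ContinuousMap.dist_apply_le_dist (f := F n) (g := f) v).trans_lt hn
        rw [hf2 rfl, Real.dist_eq, abs_lt] at h2
        simp only [Pi.one_apply] at h2
        linarith [h2.1]
      linarith
    exact Summable.tsum_lt_tsum hle hlt (hsum' u) (hsum' v)

/-- second countable segments are paths -/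
theorem exists_path_seg [SecondCountableTopology (seg a b)] :
    ∃ γ : unitInterval → seg a b, Continuous γ ∧ (γ 0 : X) = a ∧ (γ 1 : X) = b := by
  have := compactSpace_seg hX a b
  have : PreconnectedSpace (seg a b) :=
    isPreconnected_iff_preconnectedSpace.1 (isPreconnected_seg hX a b)
  obtain ⟨g, hg, hlt⟩ := exists_strict hX a b
  have hinj : Function.Injective g := by
    intro u v huv
    by_contra hne
    rcases seg_total hX u.2 v.2 with ⟨h, -⟩ | ⟨h, -⟩
    · exact (hlt u v h hne).ne huv
    · exact (hlt v u h (Ne.symm hne)).ne huv.symm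
  have hemb := hg.isClosedEmbedding hinj
  let a' : seg a b := ⟨a, left_mem_seg hX a b⟩
  let b' : seg a b := ⟨b, right_mem_seg hX a b⟩
  have hsub : Icc (g a') (g b') ⊆ range g :=
    (isPreconnected_range hg).Icc_subset (mem_range_self _) (mem_range_self _)
  have hab : g a' ≤ g b' := by
    by_cases h : a' = b'
    · rw [h]
    · exact (hlt a' b' (left_mem_seg hX a b) h).le
  have hmem : ∀ t : unitInterval, (1 - (t : ℝ)) * g a' + t * g b' ∈ range g := by
    intro t
    apply hsub
    have h0 := t.2.1
    have h1 := t.2.2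
    constructor
    · nlinarith
    · nlinarith
  choose γ hγ using hmem
  refine ⟨γ, ?_, ?_, ?_⟩
  · rw [hemb.isEmbedding.continuous_iff]
    have : g ∘ γ = fun t : unitInterval => (1 - (t : ℝ)) * g a' + t * g b' := funext hγ
    rw [this]
    fun_prop
  · have h1 : g (γ 0) = g a' := by rw [hγ]; simp
    rw [hinj h1]
  · have h1 : g (γ 1) = g b' := by rw [hγ]; simp
    rw [hinj h1]

/-- the trace of a branch on a second countable closed convex set is analytic -/
theorem analytic_comp [CompactSpace X] {R : Set X} (hR : IsClosed R)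
    [SecondCountableTopology R] (hc : ∀ p ∈ R, ∀ q ∈ R, seg p q ⊆ R) {x z : X} (hx : x ∈ R)
    (hz : z ∈ R) : MeasureTheory.AnalyticSet ((↑) ⁻¹' comp x z : Set R) := by
  have : CompactSpace R := isCompact_iff_compactSpace.1 hR.isCompact
  letI := TopologicalSpace.metrizableSpaceMetric R
  let x' : R := ⟨x, hx⟩
  let z' : R := ⟨z, hz⟩
  let P : Set C(unitInterval, R) := {γ | γ 0 = z'}
  have hP : IsClosed P := isClosed_eq (continuous_eval_const 0) continuous_const
  have : PolishSpace P := hP.polishSpace
  have hO : IsOpen {γ : P | MapsTo (γ : C(unitInterval, R)) univ {x'}ᶜ} :=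
    (ContinuousMap.isOpen_setOfPred_mapsTo isCompact_univ isOpen_compl_singleton).preimage
      continuous_subtype_val
  have hf : Continuous fun γ : P => (γ : C(unitInterval, R)) 1 :=
    (continuous_eval_const 1).comp continuous_subtype_val
  have h1 := hO.analyticSet_image hf
  convert h1 using 1
  ext w
  constructor
  · intro hw
    have hw' : x ∉ seg z (w : X) := hw
    have hsub : seg z (w : X) ⊆ R := hc z hz w w.2
    have : SecondCountableTopology (seg z (w : X)) :=
      (IsEmbedding.inclusion hsub).secondCountableTopology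
    obtain ⟨γ, hγ, h0, h1⟩ := exists_path_seg hX z (w : X)
    let δ : C(unitInterval, R) := ⟨fun t => ⟨γ t, hsub (γ t).2⟩,
      (continuous_subtype_val.comp hγ).subtype_mk _⟩
    refine ⟨⟨δ, Subtype.ext h0⟩, ?_, Subtype.ext h1⟩
    intro t _ ht
    apply hw'
    have h2 : (γ t : X) = x := congrArg Subtype.val (show δ t = x' from ht)
    rw [← h2]
    exact (γ t).2
  · rintro ⟨⟨δ, hδ⟩, hδx, rfl⟩
    show x ∉ seg z ((δ 1 : R) : X)
    intro h
    have h2 : z = ((δ 0 : R) : X) := congrArg Subtype.val (show z' = δ 0 from hδ.symm)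
    rw [h2] at h
    obtain ⟨t, ht⟩ := seg_sub_range hX (w := fun t => ((δ t : R) : X))
      (continuous_subtype_val.comp δ.continuous) h
    exact hδx (mem_univ t) (Subtype.ext ht)

end

end Pool.Agent.Work.UAC
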