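import Mathlib
import Pool.Agent.Work.MP_d430fe_gt.Club

/-!
A compact Hausdorff space in which the closures of all countable sets are second countable has a
point with a countable local pi-base.
-/

set_option autoImplicit false

namespace Pool.Agent.Work.UAC

open Set Topology Filter

theorem Club.diagFinset {X : Type*} {C : Finset X → Set (Set X)} (h : ∀ s, Club (C s)) :
    Club {D | ∀ s : Finset X, (s : Set X) ⊆ D → D ∈ C s} := by
  classical
  choose F h1 h2 using h
  refine ⟨fun u => ⋃ s ∈ u.powerset, ⋃ t ∈ u.powerset, F s t, ?_, ?_⟩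
  · intro u
    exact u.powerset.countable_toSet.biUnion fun s _ =>
      u.powerset.countable_toSet.biUnion fun t _ => h1 s t
  · intro D hD hc s hs
    refine h2 s D hD fun t ht => ?_
    have h3 := hc (s ∪ t) (by
      rw [Finset.coe_union]
      exact union_subset hs ht)
    refine Subset.trans ?_ h3
    intro y hy
    exact mem_iUnion₂.2 ⟨s, Finset.mem_powerset.2 Finset.subset_union_left,
      mem_iUnion₂.2 ⟨t, Finset.mem_powerset.2 Finset.subset_union_right, hy⟩⟩

theorem Stat.pressFinset {X : Type*} {S : Set (Set X)} (hS : Stat S)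
    {T : Finset X → Set (Set X)}
    (h : ∀ D ∈ S, D.Countable → ∃ s : Finset X, (s : Set X) ⊆ D ∧ D ∈ T s) :
    ∃ s, Stat (S ∩ T s) := by
  by_contra hcon
  push Not at hcon
  have h1 : ∀ s, ∃ C, Club C ∧ ∀ D ∈ S ∩ T s, D.Countable → D ∉ C := by
    intro s
    have := hcon s
    rw [Stat] at this
    push Not at this
    exact this
  choose C hC1 hC2 using h1
  obtain ⟨D, hD1, hD2, hD3⟩ := hS _ (Club.diagFinset hC1)
  obtain ⟨s, hs, hsT⟩ := h D hD1 hD2
  exact hC2 s D ⟨hD1, hsT⟩ hD2 (hD3 s hs)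

section

variable {X : Type*} [TopologicalSpace X]

/-- pairs of open sets with disjoint closures -/
def Good (p : Set X × Set X) : Prop :=
  IsOpen p.1 ∧ IsOpen p.2 ∧ Disjoint (closure p.1) (closure p.2)

/-- the intersection of the first members -/
def cap (s : Finset (Set X × Set X)) : Set X := ⋂ p ∈ s, p.1

/-- choice of a member of a pair, as a pair -/
def sg (b : Bool) (p : Set X × Set X) : Set X × Set X := if b then p else p.swap

omit [TopologicalSpace X] in
theorem cap_anti {s t : Finset (Set X × Set X)} (h : s ⊆ t) : cap t ⊆ cap s :=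
  biInter_subset_biInter_left h

theorem Good.swap {p : Set X × Set X} (h : Good p) : Good p.swap := ⟨h.2.1, h.1, h.2.2.symm⟩

theorem Good.sg {p : Set X × Set X} (h : Good p) (b : Bool) : Good (sg b p) := by
  cases b
  · exact h.swap
  · exact h

variable [CompactSpace X] [T2Space X]

theorem exists_split
    (hN : ∀ (x : X) (V : Set (Set X)), V.Countable → (∀ v ∈ V, IsOpen v ∧ v.Nonempty) →
      ∃ O, IsOpen O ∧ x ∈ O ∧ ∀ v ∈ V, ¬ v ⊆ O)
    [Nonempty X] {M : Set (Set X × Set X)} (hM : M.Countable) (hg : ∀ p ∈ M, Good p) :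
    ∃ t : Finset (Set X × Set X), (t : Set _) ⊆ M ∧ (cap t).Nonempty ∧ ∃ q, Good q ∧
      ∀ u : Finset (Set X × Set X), (u : Set _) ⊆ M → t ⊆ u → (cap u).Nonempty →
        (cap u ∩ q.1).Nonempty ∧ (cap u ∩ q.2).Nonempty := by
  classical
  set V : Set (Set X) := cap '' {u : Finset (Set X × Set X) | (u : Set _) ⊆ M ∧
    (cap u).Nonempty} with hV
  have hVc : V.Countable := by
    refine Set.Countable.image ?_ _
    have h1 : ({t : Set (Set X × Set X) | t.Finite ∧ t ⊆ M}).Countable :=
      Set.countable_ofPred_finite_subset hM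
    refine Set.MapsTo.countable_of_injOn (f := fun s : Finset (Set X × Set X) => (s : Set _))
      (t := {t : Set (Set X × Set X) | t.Finite ∧ t ⊆ M}) ?_ Finset.coe_injective.injOn h1
    rintro s ⟨hs, -⟩
    exact ⟨s.finite_toSet, hs⟩
  have hVo : ∀ v ∈ V, IsOpen v ∧ v.Nonempty := by
    rintro _ ⟨u, ⟨hu1, hu2⟩, rfl⟩
    refine ⟨?_, hu2⟩
    exact isOpen_biInter_finset fun p hp => (hg p (hu1 hp)).1
  have h1 : ∀ x, ∃ O O'' O' : Set X, (∀ v ∈ V, ¬ v ⊆ O) ∧ IsOpen O'' ∧ IsOpen O' ∧ x ∈ O' ∧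
      closure O' ⊆ O'' ∧ closure O'' ⊆ O := by
    intro x
    obtain ⟨O, hO, hx, hOV⟩ := hN x V hVc hVo
    obtain ⟨C, ⟨hC1, hC2⟩, hC3⟩ := (closed_nhds_basis x).mem_iff.1 (hO.mem_nhds hx)
    obtain ⟨C', ⟨hC1', hC2'⟩, hC3'⟩ := (closed_nhds_basis x).mem_iff.1
      (interior_mem_nhds.2 hC1)
    exact ⟨O, interior C, interior C', hOV, isOpen_interior, isOpen_interior,
      mem_interior_iff_mem_nhds.2 hC1', (closure_minimal interior_subset hC2').trans hC3',
      (closure_minimal interior_subset hC2).trans hC3⟩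
  choose O O'' O' hO hO1 hO2 hO3 hO4 hO5 using h1
  obtain ⟨T, hT⟩ := isCompact_univ.elim_finite_subcover O' hO2
    (fun x _ => mem_iUnion.2 ⟨x, hO3 x⟩)
  have key : ∃ t : Finset (Set X × Set X), (t : Set _) ⊆ M ∧ (cap t).Nonempty ∧ ∃ x ∈ T,
      ∀ u : Finset (Set X × Set X), (u : Set _) ⊆ M → t ⊆ u → (cap u).Nonempty →
        (cap u ∩ O' x).Nonempty := by
    by_contra hcon
    push Not at hcon
    have h2 : ∀ T' : Finset X, T' ⊆ T → ∃ u : Finset (Set X × Set X), (u : Set _) ⊆ M ∧
        (cap u).Nonempty ∧ ∀ x ∈ T', cap u ∩ O' x = ∅ := by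
      intro T'
      induction T' using Finset.induction_on with
      | empty =>
        intro _
        refine ⟨∅, by simp, ?_, by simp⟩
        simpa [cap] using (univ_nonempty : (univ : Set X).Nonempty)
      | insert a T' ha ih =>
        intro hT'
        obtain ⟨u, hu1, hu2, hu3⟩ := ih ((Finset.subset_insert _ _).trans hT')
        obtain ⟨w, hw1, hw2, hw3, hw4⟩ := hcon u hu1 hu2 a (hT' (Finset.mem_insert_self _ _))
        refine ⟨w, hw1, hw3, ?_⟩
        intro x hx
        rcases Finset.mem_insert.1 hx with rfl | hx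
        · exact hw4
        · have h3 := hu3 x hx
          rw [eq_empty_iff_forall_notMem] at h3 ⊢
          exact fun y hy => h3 y ⟨cap_anti hw2 hy.1, hy.2⟩
    obtain ⟨u, -, ⟨y, hy⟩, hu3⟩ := h2 T Finset.Subset.rfl
    obtain ⟨x, hx, hyx⟩ := mem_iUnion₂.1 (hT (mem_univ y))
    have h3 := hu3 x hx
    rw [eq_empty_iff_forall_notMem] at h3
    exact h3 y ⟨hy, hyx⟩
  obtain ⟨t, ht1, ht2, x, -, hx⟩ := key
  refine ⟨t, ht1, ht2, (O' x, (closure (O'' x))ᶜ), ⟨hO2 x, isClosed_closure.isOpen_compl, ?_⟩, ?_⟩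
  · have h2 : closure ((closure (O'' x))ᶜ) ⊆ (O'' x)ᶜ :=
      closure_minimal (compl_subset_compl.2 subset_closure) (hO1 x).isClosed_compl
    exact (disjoint_compl_right (a := O'' x)).mono (hO4 x) h2
  · intro u hu1 hu2 hu3
    refine ⟨hx u hu1 hu2 hu3, ?_⟩
    obtain ⟨y, hy1, hy2⟩ := not_subset.1 (hO x (cap u) ⟨u, ⟨hu1, hu3⟩, rfl⟩)
    exact ⟨y, hy1, fun h => hy2 (hO5 x h)⟩

/-- independence below an open set -/
def Ind (W : Set X) (Q : Set (Set X × Set X)) : Prop :=
  ∀ s : Finset (Set X × Set X), (s : Set _) ⊆ Q → ∀ f : Set X × Set X → Bool,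
    (W ∩ ⋂ p ∈ s, (sg (f p) p).1).Nonempty

theorem exists_independent
    (hN : ∀ (x : X) (V : Set (Set X)), V.Countable → (∀ v ∈ V, IsOpen v ∧ v.Nonempty) →
      ∃ O, IsOpen O ∧ x ∈ O ∧ ∀ v ∈ V, ¬ v ⊆ O) [Nonempty X] :
    ∃ (W : Set X) (Q : Set (Set X × Set X)), (∀ p ∈ Q, Good p) ∧ ¬ Q.Countable ∧ Ind W Q := by
  classical
  set T : Finset (Set X × Set X) → Set (Set (Set X × Set X)) := fun t =>
    {M | (∀ p ∈ t, Good p) ∧ (cap t).Nonempty ∧ ∃ q, Good q ∧
      ∀ u : Finset (Set X × Set X), (u : Set _) ⊆ M → (∀ p ∈ u, Good p) → t ⊆ u →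
        (cap u).Nonempty → (cap u ∩ q.1).Nonempty ∧ (cap u ∩ q.2).Nonempty} with hT
  obtain ⟨t, ht⟩ := (stat_univ (X := Set X × Set X)).pressFinset (T := T) (by
    intro M _ hM
    obtain ⟨t, ht1, ht2, q, hq1, hq2⟩ := exists_split hN (M := M ∩ {p | Good p})
      (hM.mono inter_subset_left) (fun p hp => hp.2)
    refine ⟨t, ht1.trans inter_subset_left, fun p hp => (ht1 hp).2, ht2, q, hq1, ?_⟩
    intro u hu1 hu2 hu3 hu4
    exact hq2 u (subset_inter hu1 hu2) hu3 hu4)
  have ht0 : (∀ p ∈ t, Good p) ∧ (cap t).Nonempty := by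
    obtain ⟨M, ⟨-, hM⟩, -, -⟩ := ht univ ⟨fun _ => ∅, fun _ => countable_empty, fun _ _ _ => trivial⟩
    exact ⟨hM.1, hM.2.1⟩
  obtain ⟨Q, hQ⟩ : ∃ Q, Maximal (fun Q : Set (Set X × Set X) => (∀ p ∈ Q, Good p) ∧
      Ind (cap t) Q) Q := by
    obtain ⟨Q, -, hQ⟩ := zorn_subset_nonempty
      {Q : Set (Set X × Set X) | (∀ p ∈ Q, Good p) ∧ Ind (cap t) Q}
      (by
        intro c hc hch hne
        refine ⟨⋃₀ c, ⟨?_, ?_⟩, fun s hs => subset_sUnion_of_mem hs⟩
        · rintro p ⟨Q, hQ, hp⟩
          exact (hc hQ).1 p hp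
        · intro s hs f
          rw [sUnion_eq_biUnion] at hs
          obtain ⟨Q, hQ, hsQ⟩ :=
            DirectedOn.exists_mem_subset_of_finset_subset_biUnion (f := fun Q => Q)
              hne (hch.directedOn) hs
          exact (hc hQ).2 s hsQ f)
      ∅ ⟨by simp, by
        intro s hs f
        have : s = ∅ := by
          rw [← Finset.coe_eq_empty]
          exact subset_empty_iff.1 hs
        rw [this]
        simpa using ht0.2⟩
    exact ⟨Q, hQ⟩
  refine ⟨cap t, Q, hQ.prop.1, ?_, hQ.prop.2⟩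
  intro hQc
  obtain ⟨M, ⟨-, hM⟩, hMc, hMQ, hMs⟩ := ht _ ((club_superset (hQc.union t.countable_toSet)).inter
    (club_unary (F := fun p : Set X × Set X => {p.swap}) fun _ => countable_singleton _))
  obtain ⟨-, -, q, hq1, hq2⟩ := hM
  have hQM : Q ⊆ M := subset_union_left.trans hMQ
  have htM : (t : Set _) ⊆ M := subset_union_right.trans hMQ
  have hsgM : ∀ p ∈ M, ∀ b, sg b p ∈ M := by
    intro p hp b
    cases b
    · exact hMs p hp rfl
    · exact hp
  have hcap : ∀ (s : Finset (Set X × Set X)) (f : Set X × Set X → Bool),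
      cap (t ∪ s.image fun p => sg (f p) p) = cap t ∩ ⋂ p ∈ s, (sg (f p) p).1 := by
    intro s f
    ext y
    simp only [cap, mem_iInter, Finset.mem_union, Finset.mem_image, mem_inter_iff]
    constructor
    · intro h
      exact ⟨fun p hp => h p (Or.inl hp), fun p hp => h _ (Or.inr ⟨p, hp, rfl⟩)⟩
    · rintro ⟨h1, h2⟩ p (hp | ⟨p', hp', rfl⟩)
      · exact h1 p hp
      · exact h2 p' hp'
  have hstep : ∀ (s : Finset (Set X × Set X)), (s : Set _) ⊆ Q → ∀ f : Set X × Set X → Bool,
      ((cap t ∩ ⋂ p ∈ s, (sg (f p) p).1) ∩ q.1).Nonempty ∧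
      ((cap t ∩ ⋂ p ∈ s, (sg (f p) p).1) ∩ q.2).Nonempty := by
    intro s hs f
    rw [← hcap]
    refine hq2 _ ?_ ?_ Finset.subset_union_left ?_
    · intro p hp
      rw [Finset.mem_coe, Finset.mem_union, Finset.mem_image] at hp
      rcases hp with hp | ⟨p', hp', rfl⟩
      · exact htM hp
      · exact hsgM _ (hQM (hs hp')) _
    · intro p hp
      rw [Finset.mem_union, Finset.mem_image] at hp
      rcases hp with hp | ⟨p', hp', rfl⟩
      · exact ht0.1 p hp
      · exact (hQ.prop.1 p' (hs hp')).sg _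
    · rw [hcap]
      exact hQ.prop.2 s hs f
  have hins : (∀ p ∈ insert q Q, Good p) ∧ Ind (cap t) (insert q Q) := by
    refine ⟨?_, ?_⟩
    · rintro p (rfl | hp)
      · exact hq1
      · exact hQ.prop.1 p hp
    · intro s hs f
      have hs' : ((s.erase q : Finset _) : Set (Set X × Set X)) ⊆ Q := by
        intro p hp
        rw [Finset.mem_coe, Finset.mem_erase] at hp
        rcases hs hp.2 with h | h
        · exact absurd h hp.1
        · exact h
      have h1 := hstep (s.erase q) hs' f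
      have h2 : ((cap t ∩ ⋂ p ∈ s.erase q, (sg (f p) p).1) ∩ (sg (f q) q).1).Nonempty := by
        cases f q
        · exact h1.2
        · exact h1.1
      refine h2.mono ?_
      rintro y ⟨⟨hy1, hy2⟩, hy3⟩
      refine ⟨hy1, mem_iInter₂.2 fun p hp => ?_⟩
      by_cases hpq : p = q
      · rw [hpq]; exact hy3
      · exact mem_iInter₂.1 hy2 p (Finset.mem_erase.2 ⟨hpq, hp⟩)
  have hqQ : q ∈ Q := hQ.2 hins (subset_insert _ _) (mem_insert _ _)
  obtain ⟨y, ⟨-, hy1⟩, hy2⟩ := (hstep {q} (by simpa using hqQ) fun _ => true).2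
  have hy3 : y ∈ (sg true q).1 := mem_iInter₂.1 hy1 q (Finset.mem_singleton_self q)
  exact Set.disjoint_left.1 hq1.2.2 (subset_closure hy3) (subset_closure hy2)

theorem countable_isClopen {Y : Type*} [TopologicalSpace Y] [CompactSpace Y]
    [SecondCountableTopology Y] : {S : Set Y | IsClopen S}.Countable := by
  classical
  set b := TopologicalSpace.countableBasis Y with hb
  have : Countable b := (TopologicalSpace.countable_countableBasis Y).to_subtype
  have h1 : {S : Set Y | IsClopen S} ⊆ range fun t : Finset b => ⋃ s ∈ t, (s : Set Y) := by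
    intro S hS
    have hcov : S ⊆ ⋃ s : b, if (s : Set Y) ⊆ S then (s : Set Y) else ∅ := by
      intro y hy
      obtain ⟨s, hs, hys, hsS⟩ :=
        (TopologicalSpace.isBasis_countableBasis Y).exists_subset_of_mem_open hy hS.2
      refine mem_iUnion.2 ⟨⟨s, hs⟩, ?_⟩
      rw [if_pos hsS]
      exact hys
    obtain ⟨t, ht⟩ := hS.1.isCompact.elim_finite_subcover _
      (fun s : b => by
        split_ifs
        · exact TopologicalSpace.isOpen_of_mem_countableBasis s.2
        · exact isOpen_empty) hcov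
    refine ⟨t.filter fun s => (s : Set Y) ⊆ S, ?_⟩
    apply Subset.antisymm
    · intro y hy
      obtain ⟨s, hs, hys⟩ := mem_iUnion₂.1 hy
      exact (Finset.mem_filter.1 hs).2 hys
    · intro y hy
      obtain ⟨s, hs, hys⟩ := mem_iUnion₂.1 (ht hy)
      by_cases h : (s : Set Y) ⊆ S
      · rw [if_pos h] at hys
        exact mem_iUnion₂.2 ⟨s, Finset.mem_filter.2 ⟨hs, h⟩, hys⟩
      · rw [if_neg h] at hys
        exact absurd hys (notMem_empty _)
  exact (countable_range _).mono h1

/-- THE THEOREM on local pi-bases -/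
theorem exists_countable_pi_base [Nonempty X]
    (hmono : ∀ D : Set X, D.Countable → SecondCountableTopology (closure D)) :
    ∃ (p : X) (B : ℕ → Set X), (∀ n, IsOpen (B n) ∧ (B n).Nonempty) ∧
      ∀ O : Set X, IsOpen O → p ∈ O → ∃ n, B n ⊆ O := by
  classical
  by_contra hcon
  push Not at hcon
  have hN : ∀ (x : X) (V : Set (Set X)), V.Countable → (∀ v ∈ V, IsOpen v ∧ v.Nonempty) →
      ∃ O, IsOpen O ∧ x ∈ O ∧ ∀ v ∈ V, ¬ v ⊆ O := by
    intro x V hV hVo
    rcases V.eq_empty_or_nonempty with rfl | hne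
    · exact ⟨univ, isOpen_univ, trivial, by simp⟩
    · obtain ⟨B, rfl⟩ := hV.exists_eq_range hne
      obtain ⟨O, hO, hx, hOB⟩ := hcon x B fun n => hVo _ (mem_range_self n)
      refine ⟨O, hO, hx, ?_⟩
      rintro _ ⟨n, rfl⟩
      exact hOB n
  obtain ⟨W, Q, hQ1, hQ2, hQ3⟩ := exists_independent hN
  -- an uncountable subfamily of size at most the continuum
  have h1 : Cardinal.aleph 1 ≤ Cardinal.mk Q := by
    rw [← Cardinal.succ_aleph0, Order.succ_le_iff, ← not_le, Cardinal.le_aleph0_iff_set_countable]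
    exact hQ2
  obtain ⟨Q', hQ', hQ'c⟩ := Cardinal.le_mk_iff_exists_subset.1 h1
  obtain ⟨ι⟩ : Nonempty (Q' ↪ (ℕ → Bool)) := by
    rw [← Cardinal.lift_mk_le']
    rw [hQ'c]
    simp only [Cardinal.lift_aleph, Cardinal.mk_pi, Cardinal.mk_bool, Cardinal.prod_const,
      Cardinal.lift_power, Cardinal.lift_two, Cardinal.mk_nat, Cardinal.lift_aleph0]
    simpa using Cardinal.aleph_one_le_continuum
  have hd : ∀ k : ℕ, ∃ x, ∀ β : Q', x ∈ closure (sg (ι β k) (β : Set X × Set X)).1 := by
    intro k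
    obtain ⟨x, -, hx⟩ := isCompact_univ.inter_iInter_nonempty
      (fun β : Q' => closure (sg (ι β k) (β : Set X × Set X)).1) (fun _ => isClosed_closure) (by
        intro s
        obtain ⟨y, -, hy⟩ := hQ3 (s.map (Function.Embedding.subtype _)) (by
          intro p hp
          rw [Finset.mem_coe, Finset.mem_map] at hp
          obtain ⟨p', -, rfl⟩ := hp
          exact hQ' p'.2) (fun p => if h : p ∈ Q' then ι ⟨p, h⟩ k else true)
        refine ⟨y, trivial, mem_iInter₂.2 fun β hβ => subset_closure ?_⟩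
        have h2 := mem_iInter₂.1 hy (β : Set X × Set X) (Finset.mem_map.2 ⟨β, hβ, rfl⟩)
        simpa [β.2] using h2)
    exact ⟨x, fun β => mem_iInter.1 hx β⟩
  choose d hd using hd
  have hY := hmono (range d) (countable_range d)
  have hYc : CompactSpace (closure (range d)) :=
    isCompact_iff_compactSpace.1 isClosed_closure.isCompact
  have hsub : ∀ β : Q', closure (range d) ⊆
      closure (β : Set X × Set X).1 ∪ closure (β : Set X × Set X).2 := by
    intro β
    refine closure_minimal ?_ (isClosed_closure.union isClosed_closure)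
    rintro _ ⟨k, rfl⟩
    have h2 := hd k β
    cases h3 : ι β k
    · rw [h3] at h2
      exact Or.inr h2
    · rw [h3] at h2
      exact Or.inl h2
  let G : Q' → Set (closure (range d)) := fun β => (↑) ⁻¹' closure (β : Set X × Set X).1
  have hG : ∀ β, IsClopen (G β) := by
    intro β
    refine ⟨isClosed_closure.preimage continuous_subtype_val, ?_⟩
    have h2 : G β = ((↑) ⁻¹' closure (β : Set X × Set X).2)ᶜ := by
      ext y
      constructor
      · intro hy hy'
        exact Set.disjoint_left.1 (hQ1 _ (hQ' β.2)).2.2 hy hy'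
      · intro hy
        rcases hsub β y.2 with h | h
        · exact h
        · exact absurd h hy
    rw [h2]
    exact (isClosed_closure.preimage continuous_subtype_val).isOpen_compl
  have hmem : ∀ β k, (⟨d k, subset_closure (mem_range_self k)⟩ : closure (range d)) ∈ G β ↔
      ι β k = true := by
    intro β k
    constructor
    · intro h
      by_contra hne
      rw [Bool.not_eq_true] at hne
      have h2 := hd k β
      rw [hne] at h2
      exact Set.disjoint_left.1 (hQ1 _ (hQ' β.2)).2.2 h h2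
    · intro h
      have h2 := hd k β
      rw [h] at h2
      exact h2
  have hGi : Function.Injective G := by
    intro β β' h
    apply ι.injective
    funext k
    have h2 := hmem β k
    have h3 := hmem β' k
    rw [h] at h2
    have h4 : ι β k = true ↔ ι β' k = true := h2.symm.trans h3
    exact Bool.eq_iff_iff.2 h4
  have hcount : Countable Q' := by
    have h2 : Countable {S : Set (closure (range d)) | IsClopen S} :=
      countable_isClopen.to_subtype
    exact Function.Injective.countable (f := fun β : Q' =>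
      (⟨G β, hG β⟩ : {S : Set (closure (range d)) | IsClopen S}))
      (fun β β' h => hGi (congrArg Subtype.val h))
  have h2 : Cardinal.mk Q' ≤ Cardinal.aleph0 := Cardinal.mk_le_aleph0_iff.2 hcount
  rw [hQ'c, ← Cardinal.succ_aleph0] at h2
  exact absurd h2 (not_le.2 (Order.lt_succ _))

end

end Pool.Agent.Work.UAC
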