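import Mathlib
import Pool.Agent.Work.MP_d430fe_gt.Main
import Pool.Agent.Work.MP_d430fe_gt.ClubK
import Pool.Agent.Work.MP_d430fe_gt.BaireAnalytic
import Pool.Agent.Work.MP_d430fe_gt.PathSeg
import Pool.Agent.Work.MP_d430fe_gt.PiChar

/-!
The branches do not have the property of Baire on the closures of almost all sets of a given size.
Hence some countable set is not contained in a metrizable closed convex set.
-/

set_option autoImplicit false

universe u

namespace Pool.Agent.Work.UAC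

open Set Topology Filter Cardinal

theorem AnalyticSet.baire {Y : Type*} [TopologicalSpace Y] [CompactSpace Y] [T2Space Y]
    [SecondCountableTopology Y] {A : Set Y} (hA : MeasureTheory.AnalyticSet A) :
    BaireMeasurableSet A := by
  have hP : PolishSpace Y := by
    letI := TopologicalSpace.metrizableSpaceMetric Y
    infer_instance
  set H : Set Y := ⋃₀ {U | IsOpen U ∧ IsMeagre (U \ A)} with hH
  set G : Set Y := ⋃₀ {U | IsOpen U ∧ IsMeagre (U ∩ A)} with hG
  have hHo : IsOpen H := isOpen_sUnion fun _ h => h.1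
  have hGo : IsOpen G := isOpen_sUnion fun _ h => h.1
  have key : ∀ T : Set Y, IsMeagre ((⋃₀ {U | IsOpen U ∧ IsMeagre (U ∩ T)}) ∩ T) := by
    intro T
    rw [← cov_nat_iff]
    apply (localIdeal_cov ℕ).loc
    set V : Set Y := ⋃₀ {U | IsOpen U ∧ IsMeagre (U ∩ T)} with hV
    have hsub : V ∪ (closure V)ᶜ ⊆ ⋃₀ {U | IsOpen U ∧ Cov ℕ (U ∩ (V ∩ T))} := by
      rintro x (⟨U, ⟨hU, hUT⟩, hxU⟩ | hx)
      · refine ⟨U, ⟨hU, ?_⟩, hxU⟩
        rw [cov_nat_iff]
        exact hUT.mono (inter_subset_inter_right _ inter_subset_right)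
      · refine ⟨(closure V)ᶜ, ⟨isClosed_closure.isOpen_compl, ?_⟩, hx⟩
        rw [cov_nat_iff]
        have : (closure V)ᶜ ∩ (V ∩ T) = ∅ := by
          rw [eq_empty_iff_forall_notMem]
          rintro y ⟨hy, hyV, -⟩
          exact hy (subset_closure hyV)
        rw [this]
        exact IsMeagre.empty
    refine Dense.mono hsub ?_
    intro x
    by_cases hx : x ∈ closure V
    · exact closure_mono subset_union_left hx
    · exact subset_closure (Or.inr hx)
  have hGm : IsMeagre (G ∩ A) := key A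
  have hHm : IsMeagre (H \ A) := key Aᶜ
  have hd : Dense (G ∪ H) := by
    rw [dense_iff_inter_open]
    intro W hW hWne
    have hWA : MeasureTheory.AnalyticSet (W ∩ A) := by
      borelize Y
      have h1 : MeasureTheory.AnalyticSet W := hW.measurableSet.analyticSet
      have h2 : W ∩ A = ⋂ b : Bool, if b then W else A := by
        ext y
        rw [mem_iInter]
        constructor
        · rintro ⟨hy1, hy2⟩ b
          cases b
          · simpa using hy2
          · simpa using hy1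
        · intro hy
          exact ⟨by simpa using hy true, by simpa using hy false⟩
      rw [h2]
      refine MeasureTheory.AnalyticSet.iInter fun b => ?_
      cases b
      · simpa using hA
      · simpa using h1
    rcases analytic_dichotomy hWA with h | ⟨U, hU, hUne, hm⟩
    · obtain ⟨w, hw⟩ := hWne
      exact ⟨w, hw, Or.inl ⟨W, ⟨hW, h⟩, hw⟩⟩
    · have h1 : (U ∩ W).Nonempty := by
        by_contra hcon
        have h2 : U \ (W ∩ A) = U := by
          rw [sdiff_eq_left]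
          rw [Set.disjoint_left]
          intro y hy hyW
          exact hcon ⟨y, hy, hyW.1⟩
        rw [h2] at hm
        exact not_isMeagre_of_isOpen hU hUne hm
      obtain ⟨w, hwU, hwW⟩ := h1
      refine ⟨w, hwW, Or.inr ⟨U ∩ W, ⟨hU.inter hW, ?_⟩, ⟨hwU, hwW⟩⟩⟩
      refine hm.mono ?_
      rintro y ⟨⟨hy1, hy2⟩, hy3⟩
      exact ⟨hy1, fun h => hy3 h.2⟩
  have hnd : IsMeagre (G ∪ H)ᶜ := by
    have h1 : IsNowhereDense (G ∪ H)ᶜ :=
      isNowhereDense_of_dense (hGo.union hHo) hd disjoint_compl_right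
    exact h1.isMeagre
  refine hHo.baireMeasurableSet.congr ?_
  have h1 : IsMeagre ((H \ A) ∪ ((G ∩ A) ∪ (G ∪ H)ᶜ)) := hHm.union (hGm.union hnd)
  have h2 : ((H \ A) ∪ ((G ∩ A) ∪ (G ∪ H)ᶜ))ᶜ ∈ residual Y := h1
  filter_upwards [h2] with y hy
  rw [mem_compl_iff, mem_union, mem_union, not_or, not_or] at hy
  obtain ⟨hy1, hy2, hy3⟩ := hy
  rw [notMem_compl_iff] at hy3
  apply propext
  constructor
  · intro hyH
    by_contra hyA
    exact hy1 ⟨hyH, hyA⟩
  · intro hyA
    rcases hy3 with h | h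
    · exact absurd ⟨h, hyA⟩ hy2
    · exact h

variable {X : Type u} [TopologicalSpace X] [T2Space X] {κ : Cardinal.{u}}

/-- the trace of a branch on a closed subset of a metrizable convex set -/
theorem baire_trace [CompactSpace X] (hX : UniquelyArcwiseConnected X) {R : Set X}
    (hR : IsClosed R) [SecondCountableTopology R] (hc : ∀ p ∈ R, ∀ q ∈ R, seg p q ⊆ R) {x z : X}
    (hx : x ∈ R) (hz : z ∈ R) {Y : Set X} (hY : IsClosed Y) (hYR : Y ⊆ R) :
    BaireMeasurableSet (Subtype.val ⁻¹' comp x z : Set Y) := by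
  have h1 := analytic_comp hX hR hc hx hz
  have : CompactSpace Y := isCompact_iff_compactSpace.1 hY.isCompact
  have : SecondCountableTopology Y := (IsEmbedding.inclusion hYR).secondCountableTopology
  have hP : PolishSpace Y := by
    letI := TopologicalSpace.metrizableSpaceMetric Y
    infer_instance
  exact AnalyticSet.baire (h1.preimage (continuous_inclusion hYR))

/-- a local pi-base at one point of a homogeneous space gives local pi-bases at all points -/
theorem exists_piBasesK (hH : ∀ x y : X, ∃ h : X ≃ₜ X, h x = y) {ι : Type u} {p : X}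
    {B : ι → Set X} (hB : ∀ n, IsOpen (B n) ∧ (B n).Nonempty)
    (hB' : ∀ O : Set X, IsOpen O → p ∈ O → ∃ n, B n ⊆ O) :
    ∃ B' : X → ι → Set X, PiBasesK ι B' := by
  choose h hh using hH p
  refine ⟨fun x n => h x '' B n, fun x => ⟨fun n => ⟨(h x).isOpenMap _ (hB n).1,
    (hB n).2.image _⟩, ?_⟩⟩
  intro O hO hx
  obtain ⟨n, hn⟩ := hB' (h x ⁻¹' O) (hO.preimage (h x).continuous) (by
    show h x p ∈ O
    rw [hh]; exact hx)
  exact ⟨n, image_subset_iff.2 hn⟩

/-- another branch -/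
theorem exists_other [Nontrivial X] (hX : UniquelyArcwiseConnected X)
    (hH : ∀ x y : X, ∃ h : X ≃ₜ X, h x = y) (x z : X) : ∃ v, v ≠ x ∧ v ∉ comp x z := by
  obtain ⟨u, v, hu, hv, huv⟩ := no_end hX hH x
  by_cases h1 : u ∈ comp x z
  · by_cases h2 : v ∈ comp x z
    · exact absurd (comp_convex hX h1 h2 huv) (notMem_comp hX x z)
    · exact ⟨v, hv, h2⟩
  · exact ⟨u, hu, h1⟩

/-- the traces of one branch -/
theorem clubK_trace [CompactSpace X] [Nontrivial X] (hκ : ℵ₀ ≤ κ) {ι : Type u} (hι : #ι ≤ κ)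
    {B : X → ι → Set X} (hB : PiBasesK ι B) (hX : UniquelyArcwiseConnected X)
    (hH : ∀ x y : X, ∃ h : X ≃ₜ X, h x = y) {x z : X} (hz : z ≠ x) :
    ClubK κ {D | ∀ d ∈ D, ∀ i,
      ¬ BaireMeasurableSet (Subtype.val ⁻¹' (comp x z ∩ B d i) : Set (closure D))} := by
  set T : X → ι → Set (Set X) := fun d i =>
    {D | BaireMeasurableSet (Subtype.val ⁻¹' (comp x z ∩ B d i) : Set (closure D))} with hT
  set S : Set (Set X) := {D | ∃ d ∈ D, ∃ i, D ∈ T d i} with hS
  by_cases hst : StatK κ S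
  · exfalso
    obtain ⟨d, i, hst1⟩ := hst.press hκ hι (T := T) (fun D hD => hD)
    set S1 : Set (Set X) := S ∩ T d i with hS1
    have hst2 : StatK κ {D | D ∈ S1 ∧ ¬ RM (closure D) (comp x z ∩ B d i)} := by
      by_contra hcon
      obtain ⟨C, hC1, hC2⟩ := exists_club_of_not_statK hcon
      refine not_small_inter hX hH (localIdeal_idK hκ hι hB S1) (not_idK_univ hκ hst1) hz
        ((hB d).1 i).1 ((hB d).1 i).2 ⟨C, hC1, ?_⟩
      intro D hD hDκ hDC
      by_contra hRM
      exact hC2 D ⟨hD, hRM⟩ hDκ hDC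
    obtain ⟨d', i', hst3⟩ := hst2.press hκ hι
      (T := fun d' i' => {D | RM (closure D) (B d' i' \ comp x z)}) (by
        rintro D ⟨⟨-, hD1⟩, hD2⟩
        rcases rm_or_of_baire hD1 with h | ⟨O, hO, ⟨y, hyO, hy⟩, hm⟩
        · exact absurd h hD2
        · obtain ⟨d', hdO, hd'⟩ := mem_closure_iff.1 hy O hO hyO
          obtain ⟨i', hi'⟩ := (hB d').2 O hO hdO
          refine ⟨d', hd', i', hm.mono (inter_subset_left.trans ?_)⟩
          rintro w ⟨hw1, hw2⟩
          exact ⟨hi' hw1, fun h => hw2 h.1⟩)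
    obtain ⟨v, hv, hvz⟩ := exists_other hX hH x z
    refine not_small_inter hX hH (localIdeal_idK hκ hι hB _) (not_idK_univ hκ hst3) hv
      ((hB d').1 i').1 ((hB d').1 i').2 ⟨univ, ⟨fun _ => ∅, fun _ => by simp, fun _ _ _ =>
        trivial⟩, ?_⟩
    rintro D ⟨-, hD⟩ - -
    refine RM.mono ?_ hD
    rintro w ⟨⟨hw1, hw2⟩, -⟩
    exact ⟨hw2, fun hw3 => Set.disjoint_left.1 (disjoint_comp hX hvz) hw1 hw3⟩
  · obtain ⟨C, ⟨F, hF1, hF2⟩, hC⟩ := exists_club_of_not_statK hst
    refine ⟨F, hF1, ?_⟩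
    intro D hDκ hD d hd i h
    exact hC D ⟨d, hd, i, h⟩ hDκ (hF2 D hDκ hD)

/-- THE REFLECTION THEOREM -/
theorem reflect [CompactSpace X] [Nontrivial X] (hκ : ℵ₀ ≤ κ) {ι : Type u} (hι : #ι ≤ κ)
    {p : X} {B : ι → Set X} (hB : ∀ n, IsOpen (B n) ∧ (B n).Nonempty)
    (hB' : ∀ O : Set X, IsOpen O → p ∈ O → ∃ n, B n ⊆ O) (hX : UniquelyArcwiseConnected X)
    (hH : ∀ x y : X, ∃ h : X ≃ₜ X, h x = y) {E : Set X} (hE : #E ≤ κ) :
    ∃ D : Set X, #D ≤ κ ∧ E ⊆ D ∧ ∀ x ∈ D, ∀ z ∈ D, z ≠ x → ∀ O : Set X, IsOpen O →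
      (O ∩ D).Nonempty →
      ¬ BaireMeasurableSet (Subtype.val ⁻¹' (comp x z ∩ O) : Set (closure D)) := by
  obtain ⟨B, hB⟩ := exists_piBasesK hH hB hB'
  have hclub : ClubK κ {D | ∀ x ∈ D, ∀ z ∈ D, z ≠ x → ∀ d ∈ D, ∀ i,
      ¬ BaireMeasurableSet (Subtype.val ⁻¹' (comp x z ∩ B d i) : Set (closure D))} := by
    refine ClubK.diag hκ fun x => ClubK.diag hκ fun z => ?_
    by_cases hz : z = x
    · exact ⟨fun _ => ∅, fun _ => by simp, fun D _ _ h => absurd hz h⟩
    · exact (clubK_trace hκ hι hB hX hH hz).mono fun D hD _ => hD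
  obtain ⟨D, hD1, hD2, hD3⟩ := hclub.exists_superset hκ hE
  refine ⟨D, hD1, hD2, ?_⟩
  rintro x hx z hz hzx O hO ⟨d, hdO, hd⟩ hBP
  obtain ⟨i, hi⟩ := (hB d).2 O hO hdO
  refine hD3 x hx z hz hzx d hd i ?_
  have h1 : (Subtype.val ⁻¹' (comp x z ∩ B d i) : Set (closure D)) =
      Subtype.val ⁻¹' (comp x z ∩ O) ∩ Subtype.val ⁻¹' (B d i) := by
    ext y
    constructor
    · rintro ⟨h1, h2⟩
      exact ⟨⟨h1, hi h2⟩, h2⟩
    · rintro ⟨⟨h1, -⟩, h2⟩
      exact ⟨h1, h2⟩
  rw [h1]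
  exact hBP.inter (((hB d).1 i).1.preimage continuous_subtype_val).baireMeasurableSet

/-- some countable set is not contained in a metrizable closed convex set -/
theorem no_hulls [CompactSpace X] [Nontrivial X] (hX : UniquelyArcwiseConnected X)
    (hH : ∀ x y : X, ∃ h : X ≃ₜ X, h x = y) :
    ∃ D : Set X, D.Countable ∧ ∀ R : Set X, IsClosed R → D ⊆ R →
      (∀ p ∈ R, ∀ q ∈ R, seg p q ⊆ R) → ¬ SecondCountableTopology R := by
  by_contra hcon
  push Not at hcon
  have hmono : ∀ D : Set X, D.Countable → SecondCountableTopology (closure D) := by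
    intro D hD
    obtain ⟨R, hR1, hR2, -, hR4⟩ := hcon D hD
    exact (IsEmbedding.inclusion (closure_minimal hR2 hR1)).secondCountableTopology
  obtain ⟨p, B, hB, hB'⟩ := exists_countable_pi_base hmono
  obtain ⟨x, z, hxz⟩ := exists_pair_ne X
  obtain ⟨D, hD1, hD2, hD3⟩ := reflect (κ := ℵ₀) le_rfl (ι := ULift.{u} ℕ) (by simp)
    (p := p) (B := fun n => B n.down) (fun n => hB n.down) (fun O hO hp => by
      obtain ⟨n, hn⟩ := hB' O hO hp
      exact ⟨⟨n⟩, hn⟩) hX hH (E := {x, z})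
    (Cardinal.le_aleph0_iff_set_countable.2 (toFinite _).countable)
  have hx : x ∈ D := hD2 (by simp)
  have hz : z ∈ D := hD2 (by simp)
  obtain ⟨R, hR1, hR2, hR3, hR4⟩ := hcon D (Cardinal.le_aleph0_iff_set_countable.1 hD1)
  refine hD3 x hx z hz (Ne.symm hxz) univ isOpen_univ ⟨x, trivial, hx⟩ ?_
  rw [inter_univ]
  exact baire_trace hX hR1 hR3 (hR2 hx) (hR2 hz) isClosed_closure (closure_minimal hR2 hR1)

end Pool.Agent.Work.UAC
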