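import Mathlib
import Pool.Agent.Work.MP_d430fe_gt.Reflect
import Pool.Agent.Work.MP_d430fe_gt.Corson

/-!
Every nonempty open set contains a countable set which is not contained in a metrizable closed
convex set; the same for Corson compact convex sets.
-/

set_option autoImplicit false

universe u v

namespace Pool.Agent.Work.UAC

open Set Topology Filter Cardinal

section

variable {X : Type*} [TopologicalSpace X]

/-- relative meagreness is local -/
theorem RM.of_open {Y Y' U T : Set X} (hU : IsOpen U) (h1 : U ∩ Y ⊆ Y') (h2 : Y' ⊆ Y)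
    (h : RM Y' T) : RM Y (U ∩ T) := by
  obtain ⟨N, hN1, hN2, hN3⟩ := h
  refine ⟨fun n => N n ∩ closure (U ∩ Y), fun n => (hN1 n).inter isClosed_closure, ?_, ?_⟩
  · intro n O hO hne
    by_cases h : (O ∩ (U ∩ Y)).Nonempty
    · obtain ⟨y, hyO, hyU, hyY⟩ := h
      obtain ⟨w, ⟨⟨hw1, hw2⟩, hw3⟩, hw4⟩ := hN2 n (O ∩ U) (hO.inter hU)
        ⟨y, ⟨hyO, hyU⟩, h1 ⟨hyU, hyY⟩⟩
      exact ⟨w, ⟨hw1, h2 hw3⟩, fun hw => hw4 hw.1⟩
    · obtain ⟨y, hyO, hyY⟩ := hne
      refine ⟨y, ⟨hyO, hyY⟩, fun hy => ?_⟩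
      exact h (mem_closure_iff.1 hy.2 O hO hyO)
  · rintro y ⟨⟨hyU, hyT⟩, hyY⟩
    obtain ⟨n, hn⟩ := mem_iUnion.1 (hN3 ⟨hyT, h1 ⟨hyU, hyY⟩⟩)
    exact mem_iUnion.2 ⟨n, hn, subset_closure ⟨hyU, hyY⟩⟩

theorem baire_iff_rm {Y S : Set X} : BaireMeasurableSet (Subtype.val ⁻¹' S : Set Y) ↔
    ∃ V : Set X, IsOpen V ∧ RM Y (S \ V) ∧ RM Y (V \ S) := by
  constructor
  · intro h
    obtain ⟨V, hV, hVS⟩ := h.residualEq_isOpen
    obtain ⟨O, hO, rfl⟩ := isOpen_induced_iff.1 hV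
    refine ⟨O, hO, ?_, ?_⟩
    · rw [rm_iff]
      show (_ : Set Y)ᶜ ∈ residual Y
      filter_upwards [hVS] with x hx
      rintro ⟨hx1, hx2⟩
      exact hx2 (hx.mp hx1)
    · rw [rm_iff]
      show (_ : Set Y)ᶜ ∈ residual Y
      filter_upwards [hVS] with x hx
      rintro ⟨hx1, hx2⟩
      exact hx2 (hx.mpr hx1)
  · rintro ⟨V, hV, h1, h2⟩
    rw [rm_iff] at h1 h2
    refine (hV.preimage continuous_subtype_val).baireMeasurableSet.congr ?_
    have h3 : (_ : Set Y)ᶜ ∈ residual Y := h1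
    have h4 : (_ : Set Y)ᶜ ∈ residual Y := h2
    filter_upwards [h3, h4] with x hx1 hx2
    apply propext
    constructor
    · intro hx
      by_contra hxS
      exact hx2 ⟨hx, hxS⟩
    · intro hx
      by_contra hxV
      exact hx1 ⟨hx, hxV⟩

/-- transfer of the property of Baire to an open subset -/
theorem baire_of_open {Y Y' U S : Set X} (hU : IsOpen U) (h1 : U ∩ Y ⊆ Y') (h2 : Y' ⊆ Y)
    (h : BaireMeasurableSet (Subtype.val ⁻¹' S : Set Y')) :
    BaireMeasurableSet (Subtype.val ⁻¹' (S ∩ U) : Set Y) := by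
  rw [baire_iff_rm] at h ⊢
  obtain ⟨V, hV, h3, h4⟩ := h
  refine ⟨V ∩ U, hV.inter hU, ?_, ?_⟩
  · refine (h3.of_open hU h1 h2).mono ?_
    rintro y ⟨⟨⟨hy1, hy2⟩, hy3⟩, -⟩
    exact ⟨hy2, hy1, fun h => hy3 ⟨h, hy2⟩⟩
  · refine (h4.of_open hU h1 h2).mono ?_
    rintro y ⟨⟨⟨hy1, hy2⟩, hy3⟩, -⟩
    exact ⟨hy2, hy1, fun h => hy3 ⟨h, hy2⟩⟩

end

variable {X : Type u} [TopologicalSpace X] [T2Space X]

/-- THE THEOREM on metrizable convex hulls, local form -/
theorem no_hulls_local [CompactSpace X] [Nontrivial X] (hX : UniquelyArcwiseConnected X)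
    (hH : ∀ x y : X, ∃ h : X ≃ₜ X, h x = y) {U : Set X} (hU : IsOpen U) (hne : U.Nonempty) :
    ∃ D : Set X, D ⊆ U ∧ D.Countable ∧ ∀ R : Set X, IsClosed R → D ⊆ R →
      (∀ p ∈ R, ∀ q ∈ R, seg p q ⊆ R) → ¬ SecondCountableTopology R := by
  by_contra hcon
  push Not at hcon
  obtain ⟨x, hx⟩ := hne
  obtain ⟨z, hz, hzx⟩ := not_isolated hX hU hx
  obtain ⟨C, ⟨hC1, hC2⟩, hC3⟩ := (closed_nhds_basis x).mem_iff.1 (hU.mem_nhds hx)
  set O' : Set X := interior C with hO'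
  have hxO' : x ∈ O' := mem_interior_iff_mem_nhds.2 hC1
  have hclU : closure O' ⊆ U := (closure_minimal interior_subset hC2).trans hC3
  have hsc : ∀ D : Set X, D ⊆ U → D.Countable → SecondCountableTopology (closure D) := by
    intro D hDU hD
    obtain ⟨R, hR1, hR2, -, hR4⟩ := hcon D hDU hD
    exact (IsEmbedding.inclusion (closure_minimal hR2 hR1)).secondCountableTopology
  have hYc : CompactSpace (closure O') :=
    isCompact_iff_compactSpace.1 isClosed_closure.isCompact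
  have hYn : Nonempty (closure O') := ⟨⟨x, subset_closure hxO'⟩⟩
  have hmono : ∀ D : Set (closure O'), D.Countable → SecondCountableTopology (closure D) := by
    intro D hD
    have h1 := hsc (Subtype.val '' D) (by
      rintro _ ⟨y, -, rfl⟩
      exact hclU y.2) (hD.image _)
    have h2 : ∀ y ∈ closure D, (y : X) ∈ closure (Subtype.val '' D) := fun y hy =>
      image_closure_subset_closure_image continuous_subtype_val (mem_image_of_mem _ hy)
    let f : closure D → closure (Subtype.val '' D) := fun y => ⟨((y : closure O') : X), h2 y y.2⟩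
    have hf : IsEmbedding f := by
      have h3 : IsEmbedding (Subtype.val ∘ f) := by
        have : (Subtype.val ∘ f) = (Subtype.val : closure O' → X) ∘ (Subtype.val : closure D → _) :=
          rfl
        rw [this]
        exact IsEmbedding.subtypeVal.comp IsEmbedding.subtypeVal
      exact IsEmbedding.of_comp (Continuous.subtype_mk
        (continuous_subtype_val.comp continuous_subtype_val) _) continuous_subtype_val h3
    exact hf.secondCountableTopology
  obtain ⟨p, B, hB, hB'⟩ := exists_countable_pi_base hmono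
  have hW : ∀ n, ∃ W : Set X, IsOpen W ∧ Subtype.val ⁻¹' W = B n := fun n =>
    isOpen_induced_iff.1 (hB n).1
  choose W hW1 hW2 using hW
  have hWn : ∀ n, IsOpen (W n ∩ O') ∧ (W n ∩ O').Nonempty := by
    intro n
    refine ⟨(hW1 n).inter isOpen_interior, ?_⟩
    obtain ⟨y, hy⟩ := (hB n).2
    rw [← hW2] at hy
    exact mem_closure_iff.1 y.2 (W n) (hW1 n) hy
  have hWb : ∀ O : Set X, IsOpen O → (p : X) ∈ O → ∃ n, W n ∩ O' ⊆ O := by
    intro O hO hp
    obtain ⟨n, hn⟩ := hB' (Subtype.val ⁻¹' O) (hO.preimage continuous_subtype_val) hp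
    refine ⟨n, ?_⟩
    rintro y ⟨hy1, hy2⟩
    have h3 : (⟨y, subset_closure hy2⟩ : closure O') ∈ B n := by
      rw [← hW2]
      exact hy1
    exact hn h3
  obtain ⟨D, hD1, hD2, hD3⟩ := reflect (κ := ℵ₀) le_rfl (ι := ULift.{u} ℕ) (by simp)
    (p := (p : X)) (B := fun n => W n.down ∩ O') (fun n => hWn n.down) (fun O hO hp => by
      obtain ⟨n, hn⟩ := hWb O hO hp
      exact ⟨⟨n⟩, hn⟩) hX hH (E := {x, z})
    (Cardinal.le_aleph0_iff_set_countable.2 (toFinite _).countable)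
  have hxD : x ∈ D := hD2 (by simp)
  have hzD : z ∈ D := hD2 (by simp)
  obtain ⟨R, hR1, hR2, hR3, hR4⟩ := hcon (D ∩ U) inter_subset_right
    ((Cardinal.le_aleph0_iff_set_countable.1 hD1).mono inter_subset_left)
  refine hD3 x hxD z hzD hzx U hU ⟨x, hx, hxD⟩ ?_
  refine baire_of_open (Y' := closure (D ∩ U)) hU ?_ (closure_mono inter_subset_left)
    (baire_trace hX hR1 hR3 (hR2 ⟨hxD, hx⟩) (hR2 ⟨hzD, hz⟩) isClosed_closure
      (closure_minimal hR2 hR1))
  rintro y ⟨hyU, hy⟩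
  rw [mem_closure_iff] at hy ⊢
  intro O hO hyO
  obtain ⟨w, ⟨hw1, hw2⟩, hw3⟩ := hy (O ∩ U) (hO.inter hU) ⟨hyO, hyU⟩
  exact ⟨w, hw1, hw3, hw2⟩

/-- retracts of convex sets are convex -/
theorem convex_of_retract' (hX : UniquelyArcwiseConnected X) {R : Set X}
    (hR : ∀ p ∈ R, ∀ q ∈ R, seg p q ⊆ R) {Q : Set R} {r : R → R} (hr : Continuous r)
    (hrQ : ∀ x, r x ∈ Q) (hrx : ∀ x ∈ Q, r x = x) :
    ∀ p ∈ Subtype.val '' Q, ∀ q ∈ Subtype.val '' Q, seg p q ⊆ (Subtype.val '' Q : Set X) := by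
  rintro _ ⟨p, hp, rfl⟩ _ ⟨q, hq, rfl⟩
  obtain ⟨s, hs⟩ := exists_ord hX (p : X) (q : X)
  letI := hs.linearOrder
  letI := hs.boundedOrder
  have := hs.denselyOrdered
  have := hs.orderTopology
  have := hs.compactSpace
  have hsub := hR p p.2 q q.2
  have h1 := seg_sub_range hX (L := seg (p : X) (q : X))
    (w := fun u : seg (p : X) (q : X) => ((r ⟨(u : X), hsub u.2⟩ : R) : X))
    (continuous_subtype_val.comp (hr.comp (continuous_subtype_val.subtype_mk _)))
  have h2 : r ⟨((⊥ : seg (p : X) (q : X)) : X), hsub (⊥ : seg (p : X) (q : X)).2⟩ = p :=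
    hrx p hp
  have h3 : r ⟨((⊤ : seg (p : X) (q : X)) : X), hsub (⊤ : seg (p : X) (q : X)).2⟩ = q :=
    hrx q hq
  simp only [h2, h3] at h1
  intro u hu
  obtain ⟨v, hv⟩ := h1 hu
  rw [← hv]
  exact mem_image_of_mem _ (hrQ _)

/-- THE THEOREM on Corson compact convex hulls -/
theorem no_corson_hulls [CompactSpace X] [Nontrivial X] (hX : UniquelyArcwiseConnected X)
    (hH : ∀ x y : X, ∃ h : X ≃ₜ X, h x = y) {U : Set X} (hU : IsOpen U) (hne : U.Nonempty) :
    ∃ D : Set X, D ⊆ U ∧ D.Countable ∧ ∀ R : Set X, IsClosed R → D ⊆ R →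
      (∀ p ∈ R, ∀ q ∈ R, seg p q ⊆ R) → ∀ (Γ : Type v) (e : R → Γ → ℝ), ¬ CorsonEmb e := by
  obtain ⟨D, hDU, hD, hDR⟩ := no_hulls_local hX hH hU hne
  -- add a point so that the set is not empty
  obtain ⟨a, ha⟩ := hne
  refine ⟨insert a D, insert_subset ha hDU, hD.insert a, ?_⟩
  intro R hR hsub hc Γ e he
  have : CompactSpace R := isCompact_iff_compactSpace.1 hR.isCompact
  have : Nonempty R := ⟨⟨a, hsub (mem_insert _ _)⟩⟩
  have hDR' : D ⊆ R := (subset_insert a D).trans hsub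
  obtain ⟨Q, hQ1, hQ2, hQ3, r, hr1, hr2, hr3⟩ := he.exists_retract
    (D := (Subtype.val ⁻¹' D : Set R)) (hD.preimage Subtype.val_injective)
  refine hDR (Subtype.val '' Q) (hR.isClosedMap_subtype_val Q hQ1) ?_
    (convex_of_retract' hX hc hr1 hr2 hr3) ?_
  · intro d hd
    exact ⟨⟨d, hDR' hd⟩, hQ3 hd, rfl⟩
  · have h1 : (Subtype.val '' Q : Set X) ≃ₜ Q :=
      (IsEmbedding.subtypeVal.homeomorphImage Q).symm
    exact h1.isEmbedding.secondCountableTopology

end Pool.Agent.Work.UAC
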