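import Mathlib
import Pool.Agent.Work.MP_d430fe_gt.GLaw

/-!
No branch belongs, locally at any point, to a proper countably complete ideal which is invariant
under a transitive set of homeomorphisms.
-/

set_option autoImplicit false

namespace Pool.Agent.Work.UAC.GV

open Set Topology Filter

variable {X : Type*} [TopologicalSpace X] {G : Set (X ≃ₜ X)}

/-- countably complete ideals of sets which are invariant under `G` -/
structure GIdeal (G : Set (X ≃ₜ X)) (J : Set X → Prop) : Prop where
  mono : ∀ S T : Set X, S ⊆ T → J T → J S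
  iUnion : ∀ f : ℕ → Set X, (∀ n, J (f n)) → J (⋃ n, f n)
  inv : ∀ h ∈ G, ∀ S : Set X, J S → J (h '' S)

theorem GIdeal.small {J : Set X → Prop} (hJ : GIdeal G J) : GSmall G J := ⟨hJ.mono, hJ.inv⟩

theorem GIdeal.union {J : Set X → Prop} (hJ : GIdeal G J) {S T : Set X} (hS : J S) (hT : J T) :
    J (S ∪ T) := by
  have h := hJ.iUnion (fun n => if n = 0 then S else T) (fun n => by
    by_cases h : n = 0
    · simp only [h, if_true]; exact hS
    · simp only [h, if_false]; exact hT)
  refine hJ.mono _ _ ?_ h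
  rintro x (hx | hx)
  · exact mem_iUnion.2 ⟨0, by simpa using hx⟩
  · exact mem_iUnion.2 ⟨1, by simpa using hx⟩

theorem GIdeal.empty {J : Set X → Prop} (hJ : GIdeal G J) {S : Set X} (hS : J S) : J ∅ :=
  hJ.mono _ _ (empty_subset _) hS

/-- the points at which the set `S` is not small -/
def supp (J : Set X → Prop) (S : Set X) : Set X := {w | ∀ U, IsOpen U → w ∈ U → ¬ J (U ∩ S)}

theorem isClosed_supp (J : Set X → Prop) (S : Set X) : IsClosed (supp J S) := by
  rw [← isOpen_compl_iff, isOpen_iff_forall_mem_open]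
  intro w hw
  rw [mem_compl_iff, supp, mem_ofPred_eq] at hw
  push Not at hw
  obtain ⟨U, hU, hwU, hJ⟩ := hw
  exact ⟨U, fun v hv h => h U hU hv hJ, hU, hwU⟩

theorem closedOp_supp (hG : Trans G) {J : Set X → Prop} (hJ : GIdeal G J) :
    GClosedOp G (supp J) where
  closed S := isClosed_supp J S
  mono S T h w hw U hU hwU hJU := hw U hU hwU (hJ.mono _ _ (inter_subset_inter_right _ h) hJU)
  inv := by
    have key : ∀ h ∈ G, ∀ S : Set X, h '' supp J S ⊆ supp J (h '' S) := by
      rintro h hh S _ ⟨w, hw, rfl⟩ U hU hwU hJU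
      refine hw (h ⁻¹' U) (hU.preimage h.continuous) hwU ?_
      have h1 := hJ.inv h.symm (hG.symm h hh) _ hJU
      refine hJ.mono _ _ ?_ h1
      rintro v ⟨hv1, hv2⟩
      exact ⟨h v, ⟨hv1, mem_image_of_mem _ hv2⟩, h.symm_apply_apply v⟩
    intro h hh S
    apply Subset.antisymm _ (key h hh S)
    intro w hw
    have h1 := key h.symm (hG.symm h hh) (h '' S) (mem_image_of_mem _ hw)
    have h2 : h.symm '' (h '' S) = S := by rw [image_image]; simp
    rw [h2] at h1
    exact ⟨h.symm w, h1, h.apply_symm_apply w⟩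

theorem small_of_supp [CompactSpace X] {J : Set X → Prop} (hJ : GIdeal G J)
    {S : Set X} (h0 : J ∅) (h : supp J S = ∅) : J S := by
  have h1 : ∀ w : X, ∃ U, IsOpen U ∧ w ∈ U ∧ J (U ∩ S) := by
    intro w
    by_contra hcon
    push Not at hcon
    have : w ∈ supp J S := hcon
    rw [h] at this
    exact this
  choose U hU1 hU2 hU3 using h1
  obtain ⟨t, ht⟩ := isCompact_univ.elim_finite_subcover U hU1
    (fun w _ => mem_iUnion.2 ⟨w, hU2 w⟩)
  have h2 : ∀ t : Finset X, J (⋃ w ∈ t, U w ∩ S) := by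
    classical
    intro t
    induction t using Finset.induction_on with
    | empty => simpa using h0
    | insert a t ha ih =>
      rw [Finset.set_biUnion_insert]
      exact hJ.union (hU3 a) ih
  refine hJ.mono _ _ ?_ (h2 t)
  intro w hw
  obtain ⟨v, hv, hwv⟩ := mem_iUnion₂.1 (ht (mem_univ w))
  exact mem_iUnion₂.2 ⟨v, hv, hwv, hw⟩

variable [T2Space X]

/-- all branches are dense -/
theorem dense_comp [CompactSpace X] [Nontrivial X] (hX : UniquelyArcwiseConnected X)
    (hG : Trans G) {x z : X} (hz : z ≠ x) : Dense (comp x z) := by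
  rw [dense_iff_inter_open]
  intro U hU hne
  by_contra hcon
  rw [not_nonempty_iff_eq_empty] at hcon
  refine nonmeagre_everywhere hX hG.hom hz hU hne ?_
  rw [inter_comm, hcon]
  exact IsMeagre.empty

/-- NO BRANCH IS LOCALLY SMALL -/
theorem not_mem_inter [CompactSpace X] [Nontrivial X] (hX : UniquelyArcwiseConnected X)
    (hG : Trans G) {J : Set X → Prop} (hJ : GIdeal G J) (hJ' : ¬ J univ) {x z : X} (hz : z ≠ x)
    {U : Set X} (hU : IsOpen U) (hne : U.Nonempty) : ¬ J (comp x z ∩ U) := by
  intro hJU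
  have h0 : J ∅ := hJ.mono _ _ (empty_subset _) hJU
  have hno : ∀ x z : X, z ≠ x → ¬ J (comp x z) := by
    intro x z hz hm
    obtain ⟨u, h1, h2⟩ := exists_small_seq hX hG hJ.small ⟨x, z, hz, hm⟩ z
    apply hJ'
    refine hJ.mono _ _ ?_ (hJ.iUnion (fun n => comp (u n) z) fun n => (h1 n).2)
    intro w _
    exact mem_iUnion.2 (h2 w)
  set P : Set X → Prop := fun S => ∃ U, IsOpen U ∧ U.Nonempty ∧ J (S ∩ U) with hPdef
  have hP : GSmall G P := by
    refine ⟨?_, ?_⟩
    · rintro S T h ⟨U, h1, h2, h3⟩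
      exact ⟨U, h1, h2, hJ.mono _ _ (inter_subset_inter_left _ h) h3⟩
    · rintro h hh S ⟨U, h1, h2, h3⟩
      refine ⟨h '' U, h.isOpenMap U h1, h2.image h, ?_⟩
      rw [← image_inter h.injective]
      exact hJ.inv h hh _ h3
  have key : ∀ N : X → Set X, GEndField G N → (∀ y, ∀ x ∈ N y, P (comp x y)) → False := by
    intro N hN hNP
    -- the open sets in which the complement is small
    set Θ : Set X → Set X := fun S => closure (supp J Sᶜ)ᶜ with hΘ
    have hΘc : GClosedOp G Θ := by
      refine ⟨fun _ => isClosed_closure, ?_, ?_⟩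
      · intro S T h
        exact closure_mono (compl_subset_compl.2
          ((closedOp_supp hG hJ).mono _ _ (compl_subset_compl.2 h)))
      · intro h hh S
        show closure (supp J (h '' S)ᶜ)ᶜ = h '' closure (supp J Sᶜ)ᶜ
        rw [h.image_closure, image_compl_eq h.bijective, ← image_compl_eq h.bijective,
          (closedOp_supp hG hJ).inv h hh]
    have h1 : ∀ y, ∀ x ∈ N y, Dense (supp J (comp x y))ᶜ := by
      intro y x hx
      have h2 := hN.eq_univ hX hG hΘc (fun y x hx => by
        obtain ⟨U, hU, ⟨w, hw⟩, hJU⟩ := hNP y x hx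
        refine ⟨w, subset_closure ?_⟩
        rw [compl_compl]
        intro h
        exact h U hU hw (by rw [inter_comm]; exact hJU)) hx
      rw [hΘ] at h2
      simp only [compl_compl] at h2
      rw [dense_iff_closure_eq]
      exact h2
    obtain ⟨u, hu1, hu2⟩ := exists_seq_of_chain hX (P := fun _ => True) (y := x) (R := insert x (N x))
      ⟨mem_insert _ _, by
        rintro a (rfl | ha) b (rfl | hb)
        · exact Or.inl (left_mem_seg hX _ _)
        · exact Or.inl (left_mem_seg hX _ _)
        · exact Or.inr (left_mem_seg hX _ _)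
        · exact hN.total _ a ha b hb, by
        rintro a (rfl | ha) t ht
        · rw [seg_self, mem_singleton_iff] at ht
          rw [ht]; exact mem_insert _ _
        · by_cases htx : t = x
          · rw [htx]; exact mem_insert _ _
          · exact Or.inr (hN.down _ _ _ ha ht htx)⟩
      (fun q => by
        obtain ⟨a, ha, haq⟩ := hN.unb x q
        exact ⟨a, Or.inr ha, haq⟩) (fun _ _ _ => trivial)
    have huN : ∀ n, u n ∈ N x := fun n => (hu1 n).1.resolve_left (hu1 n).2.1
    have hd : Dense (⋂ n, (supp J (comp (u n) x))ᶜ) :=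
      dense_iInter_of_isOpen (fun n => (isClosed_supp J _).isOpen_compl)
        (fun n => h1 x (u n) (huN n))
    obtain ⟨w, hw⟩ := hd.nonempty
    rw [mem_iInter] at hw
    have hw' : ∀ y, ∀ a ∈ N y, w ∉ supp J (comp a y) := by
      intro y a ha h
      obtain ⟨a', ha', hsub⟩ := hN.coherent hX x ha
      obtain ⟨n, hn⟩ := hu2 a'
      have h2 : a' ∈ seg x (u n) := by
        rcases hN.total x a' ha' (u n) (huN n) with h3 | h3
        · exact h3
        · rw [seg_comm hX] at h3
          exact absurd (by rw [seg_comm hX] at h3; exact h3) hn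
      have h3 : comp a y ⊆ comp (u n) x := hsub.trans (comp_mono hX h2)
      exact hw n ((closedOp_supp hG hJ).mono _ _ h3 h)
    have hall : ∀ y, ∀ a ∈ N y, supp J (comp a y) = ∅ := by
      intro y a ha
      rw [eq_empty_iff_forall_notMem]
      intro v hv
      obtain ⟨h, hh, hhv⟩ := hG.trans v w
      have h2 : h v ∈ supp J (comp (h a) (h y)) := by
        rw [← image_comp hX, (closedOp_supp hG hJ).inv h hh]
        exact mem_image_of_mem _ hv
      rw [hhv] at h2
      exact hw' (h y) (h a) (hN.inv h hh _ _ ha) h2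
    refine hno (u 0) x (fun h => (hu1 0).2.1 h.symm) ?_
    exact small_of_supp hJ h0 (hall x (u 0) (huN 0))
  by_cases hall : ∃ x z : X, z ≠ x ∧ ¬ P (comp x z)
  · refine key _ (endField_nset hX hG hP ⟨x, z, hz, U, hU, hne, hJU⟩ hall) ?_
    intro y x hx
    exact hx.2
  · push Not at hall
    rcases law hX hG (closedOp_supp hG hJ) with h | h | ⟨N, hN⟩
    · exact hno x z hz (small_of_supp hJ h0 (h x z hz))
    · have h1 : supp J (comp x z) = univ := by
        have h2 := (dense_comp hX hG hz).closure_eq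
        exact univ_subset_iff.1 (h2 ▸ closure_minimal (h x z) (isClosed_supp J _))
      obtain ⟨w, hw⟩ := hne
      have h2 : w ∈ supp J (comp x z) := by rw [h1]; trivial
      exact h2 U hU hw (by rw [inter_comm]; exact hJU)
    · refine key N hN ?_
      intro y x hx
      exact hall x y (fun h => hN.ne y (by rw [← h] at hx; exact hx))

/-- the covering theorem for invariant families -/
theorem cover_of_cover [CompactSpace X] [Nontrivial X] (hX : UniquelyArcwiseConnected X)
    (hG : Trans G) {F : Set (Set X)} (hF : ∀ h ∈ G, ∀ A ∈ F, h '' A ∈ F) (ι : Type*) [Infinite ι]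
    {x z : X} (hz : z ≠ x) {U : Set X} (hU : IsOpen U) (hne : U.Nonempty)
    (h : ∃ f : ι → Set X, (∀ i, f i ∈ F) ∧ comp x z ∩ U ⊆ ⋃ i, f i) :
    ∃ f : ι → Set X, (∀ i, f i ∈ F) ∧ ⋃ i, f i = univ := by
  obtain ⟨e⟩ : Nonempty (ι ≃ ℕ × ι) := by
    rw [← Cardinal.lift_mk_eq'.trans (Iff.rfl)]
    simp
  set J : Set X → Prop := fun S => ∃ f : ι → Set X, (∀ i, f i ∈ F) ∧ S ⊆ ⋃ i, f i with hJ
  have hJI : GIdeal G J := by
    refine ⟨?_, ?_, ?_⟩
    · rintro S T hST ⟨f, h1, h2⟩
      exact ⟨f, h1, hST.trans h2⟩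
    · intro g hg
      choose f h1 h2 using hg
      refine ⟨fun i => f (e i).1 (e i).2, fun i => h1 _ _, ?_⟩
      intro w hw
      obtain ⟨n, hn⟩ := mem_iUnion.1 hw
      obtain ⟨i, hi⟩ := mem_iUnion.1 (h2 n hn)
      exact mem_iUnion.2 ⟨e.symm (n, i), by simpa using hi⟩
    · rintro h hh S ⟨f, h1, h2⟩
      refine ⟨fun i => h '' f i, fun i => hF h hh _ (h1 i), ?_⟩
      rw [← image_iUnion]
      exact image_mono h2
  by_contra hcon
  refine not_mem_inter hX hG hJI ?_ hz hU hne h
  rintro ⟨f, h1, h2⟩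
  exact hcon ⟨f, h1, univ_subset_iff.1 h2⟩

end Pool.Agent.Work.UAC.GV
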